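import Mathlib
import Pool.Agent.Lib.Brouwer.Brouwer

set_option autoImplicit false

namespace P74ff84

/-- **Equilibrium.** A demand `m v` for every `v`, to be covered by the mass `b` of the
neighbours: `b v < 1` forces enough mass, `0 < b v` forces not too much mass. -/
theorem equilibrium {V : Type*} [Fintype V] (M : V → V → ℝ) (m : V → ℝ) :
    ∃ b : V → ℝ, (∀ v, 0 ≤ b v) ∧ (∀ v, b v ≤ 1) ∧
      (∀ v, b v < 1 → m v ≤ ∑ u, M v u * b u) ∧
      (∀ v, 0 < b v → ∑ u, M v u * b u ≤ m v) := by
  classical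
  set f : EuclideanSpace ℝ V → EuclideanSpace ℝ V := fun x =>
    WithLp.toLp 2 (fun v => max 0 (min 1 (x v - (∑ u, M v u * x u - m v)))) with hf
  have hcoord : ∀ x v, f x v = max 0 (min 1 (x v - (∑ u, M v u * x u - m v))) :=
    fun x v => rfl
  have hcont : Continuous f := by
    rw [hf]
    apply (PiLp.continuous_toLp 2 _).comp
    fun_prop
  have hf0 : ∀ x v, 0 ≤ f x v := fun x v => by
    rw [hcoord]
    exact le_max_left _ _
  have hf1 : ∀ x v, f x v ≤ 1 := fun x v => by
    rw [hcoord]
    exact max_le zero_le_one (min_le_left _ _)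
  have hnorm : ∀ x, ‖f x‖ ≤ Real.sqrt (Fintype.card V) := by
    intro x
    rw [EuclideanSpace.norm_eq]
    apply Real.sqrt_le_sqrt
    calc ∑ v, ‖f x v‖ ^ 2 ≤ ∑ _v : V, (1 : ℝ) := by
          refine Finset.sum_le_sum (fun v _ => ?_)
          rw [Real.norm_eq_abs, abs_of_nonneg (hf0 x v)]
          exact pow_le_one₀ (hf0 x v) (hf1 x v)
      _ = Fintype.card V := by simp
  obtain ⟨x, _, hx⟩ := Pool.Agent.Lib.Brouwer.brouwer_closedBall
    (Real.sqrt_nonneg (Fintype.card V)) f hcont.continuousOn
    (fun x _ => by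
      rw [mem_closedBall_zero_iff]
      exact hnorm x)
  have hxv : ∀ v, x v = max 0 (min 1 (x v - (∑ u, M v u * x u - m v))) := by
    intro v
    rw [← hcoord, hx]
  refine ⟨fun v => x v, ?_, ?_, ?_, ?_⟩
  · intro v
    rw [← hx]
    exact hf0 x v
  · intro v
    rw [← hx]
    exact hf1 x v
  · intro v hv
    by_contra hcon
    push Not at hcon
    have h1 := hxv v
    have hv' : x v < 1 := hv
    have h2 : min 1 (x v - (∑ u, M v u * x u - m v)) ≤ x v :=
      (le_max_right _ _).trans (le_of_eq h1.symm)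
    rcases min_le_iff.mp h2 with h3 | h3
    · linarith
    · linarith
  · intro v hv
    have h1 := hxv v
    have h2 : x v ≤ min 1 (x v - (∑ u, M v u * x u - m v)) := by
      by_contra hcon
      push Not at hcon
      have h3 : max 0 (min 1 (x v - (∑ u, M v u * x u - m v))) < x v :=
        max_lt hv hcon
      linarith
    have h3 := h2.trans (min_le_right _ _)
    linarith

end P74ff84
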