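import Mathlib

set_option autoImplicit false

namespace P74ff84

variable {V : Type*}

/-- The set `A` of vertices can be properly coloured with `s` colours. -/
def ColSet (G : SimpleGraph V) (A : Set V) (s : ℕ) : Prop :=
  ∃ f : V → ℕ, (∀ v ∈ A, f v < s) ∧ ∀ u ∈ A, ∀ v ∈ A, G.Adj u v → f u ≠ f v

theorem ColSet.subset {G : SimpleGraph V} {A B : Set V} {s : ℕ} (h : ColSet G B s)
    (hAB : A ⊆ B) : ColSet G A s := by
  obtain ⟨f, hf, hf'⟩ := h
  exact ⟨f, fun v hv => hf v (hAB hv), fun u hu v hv => hf' u (hAB hu) v (hAB hv)⟩

theorem ColSet.mono {G : SimpleGraph V} {A : Set V} {s t : ℕ} (h : ColSet G A s)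
    (hst : s ≤ t) : ColSet G A t := by
  obtain ⟨f, hf, hf'⟩ := h
  exact ⟨f, fun v hv => (hf v hv).trans_le hst, hf'⟩

theorem ColSet.empty (G : SimpleGraph V) : ColSet G ∅ 0 :=
  ⟨fun _ => 0, fun _ hv => hv.elim, fun _ hu => hu.elim⟩

theorem ColSet.union {G : SimpleGraph V} {A B : Set V} {s t : ℕ} (hA : ColSet G A s)
    (hB : ColSet G B t) : ColSet G (A ∪ B) (s + t) := by
  classical
  obtain ⟨f, hf, hf'⟩ := hA
  obtain ⟨g, hg, hg'⟩ := hB
  refine ⟨fun v => if v ∈ A then f v else s + g v, ?_, ?_⟩
  · intro v hv
    by_cases h : v ∈ A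
    · simp only [h, if_true]
      have := hf v h
      omega
    · have hvB : v ∈ B := hv.resolve_left h
      simp only [h, if_false]
      have := hg v hvB
      omega
  · intro u hu v hv huv
    by_cases h1 : u ∈ A <;> by_cases h2 : v ∈ A
    · simp only [h1, h2, if_true]
      exact hf' u h1 v h2 huv
    · simp only [h1, h2, if_true, if_false]
      have := hf u h1
      omega
    · simp only [h1, h2, if_true, if_false]
      have := hf v h2
      omega
    · simp only [h1, h2, if_false]
      have := hg' u (hu.resolve_left h1) v (hv.resolve_left h2) huv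
      omega

theorem ColSet.biUnion {G : SimpleGraph V} (I : Finset ℕ) (A : ℕ → Set V) (c : ℕ → ℕ)
    (h : ∀ i ∈ I, ColSet G (A i) (c i)) : ColSet G (⋃ i ∈ I, A i) (∑ i ∈ I, c i) := by
  classical
  induction I using Finset.induction_on with
  | empty => simpa using ColSet.empty G
  | insert a I ha ih =>
    rw [Finset.sum_insert ha]
    have h1 := h a (Finset.mem_insert_self a I)
    have h2 := ih (fun i hi => h i (Finset.mem_insert_of_mem hi))
    have h3 := h1.union h2
    refine h3.subset ?_
    intro v hv
    simp only [Set.mem_iUnion, Finset.mem_insert] at hv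
    obtain ⟨i, hi, hv⟩ := hv
    rcases hi with rfl | hi
    · exact Or.inl hv
    · exact Or.inr (Set.mem_biUnion hi hv)

theorem ColSet.colorable {G : SimpleGraph V} {s : ℕ} (h : ColSet G Set.univ s) :
    G.Colorable s := by
  obtain ⟨f, hf, hf'⟩ := h
  refine ⟨SimpleGraph.Coloring.mk (fun v => (⟨f v, hf v trivial⟩ : Fin s)) ?_⟩
  intro u v huv h
  exact hf' u trivial v trivial huv (by simpa using congrArg Fin.val h)

theorem colSet_univ {G : SimpleGraph V} {s : ℕ} (h : G.Colorable s) :
    ColSet G Set.univ s := by
  obtain ⟨c⟩ := h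
  exact ⟨fun v => (c v : ℕ), fun v _ => (c v).2, fun u _ v _ huv h =>
    c.valid huv (Fin.ext h)⟩

/-- Every vertex has a short list and every edge inside `A` lies on a list of one of its
two ends: `A` can be coloured with `2 c + 1` colours. -/
theorem colSet_of_lists [Finite V] (G : SimpleGraph V) (A : Set V) (c : ℕ) (L : V → Set V)
    (hL : ∀ v ∈ A, (L v).ncard ≤ c)
    (hown : ∀ u ∈ A, ∀ v ∈ A, G.Adj u v → v ∈ L u ∨ u ∈ L v) :
    ColSet G A (2 * c + 1) := by
  classical
  have := Fintype.ofFinite V
  -- strong form over finsets
  have key : ∀ n : ℕ, ∀ B : Finset V, B.card = n → (B : Set V) ⊆ A →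
      ColSet G (B : Set V) (2 * c + 1) := by
    intro n
    induction n with
    | zero =>
      intro B hB _
      have : B = ∅ := Finset.card_eq_zero.mp hB
      subst this
      simpa using (ColSet.empty G).mono (Nat.zero_le _)
    | succ n ih =>
      intro B hB hBA
      -- find a vertex of small degree
      set deg : V → ℕ := fun v => (B.filter (fun u => G.Adj v u)).card with hdeg
      have hsum : ∑ v ∈ B, deg v ≤ ∑ v ∈ B, (2 * c) := by
        have h1 : ∀ v ∈ B, deg v ≤ (B.filter (fun u => u ∈ L v)).card
            + (B.filter (fun u => v ∈ L u)).card := by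
          intro v hv
          refine (Finset.card_le_card ?_).trans (Finset.card_union_le _ _)
          intro u hu
          rw [Finset.mem_filter] at hu
          rw [Finset.mem_union, Finset.mem_filter, Finset.mem_filter]
          rcases hown v (hBA hv) u (hBA hu.1) hu.2 with h | h
          · exact Or.inl ⟨hu.1, h⟩
          · exact Or.inr ⟨hu.1, h⟩
        have h2 : ∀ v ∈ B, (B.filter (fun u => u ∈ L v)).card ≤ c := by
          intro v hv
          refine le_trans ?_ (hL v (hBA hv))
          rw [← Set.ncard_coe_finset]
          refine Set.ncard_le_ncard ?_ (Set.toFinite _)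
          intro u hu
          have := (Finset.mem_filter.mp (Finset.mem_coe.mp hu)).2
          exact this
        have h3 : ∑ v ∈ B, (B.filter (fun u => v ∈ L u)).card
            = ∑ u ∈ B, (B.filter (fun v => v ∈ L u)).card := by
          simp only [Finset.card_filter]
          exact Finset.sum_comm
        calc ∑ v ∈ B, deg v
            ≤ ∑ v ∈ B, ((B.filter (fun u => u ∈ L v)).card
              + (B.filter (fun u => v ∈ L u)).card) := Finset.sum_le_sum h1
          _ = ∑ v ∈ B, (B.filter (fun u => u ∈ L v)).card
              + ∑ u ∈ B, (B.filter (fun v => v ∈ L u)).card := by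
              rw [Finset.sum_add_distrib, h3]
          _ ≤ ∑ v ∈ B, c + ∑ v ∈ B, c :=
              add_le_add (Finset.sum_le_sum h2) (Finset.sum_le_sum h2)
          _ = ∑ v ∈ B, (2 * c) := by
              rw [← Finset.sum_add_distrib]
              exact Finset.sum_congr rfl (fun _ _ => by ring)
      have hne : B.Nonempty := by
        rw [← Finset.card_pos]
        omega
      obtain ⟨v, hv, hvd⟩ := Finset.exists_le_of_sum_le hne hsum
      have hB' : (B.erase v).card = n := by
        rw [Finset.card_erase_of_mem hv]
        omega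
      obtain ⟨f, hf, hf'⟩ := ih (B.erase v) hB'
        ((Finset.coe_subset.mpr (Finset.erase_subset v B)).trans hBA)
      -- colour `v` with a free colour
      obtain ⟨a, ha, ha'⟩ : ∃ a ∈ Finset.range (2 * c + 1),
          a ∉ (B.filter (fun u => G.Adj v u)).image f := by
        apply Finset.exists_mem_notMem_of_card_lt_card
        rw [Finset.card_range]
        have := Finset.card_image_le (s := B.filter (fun u => G.Adj v u)) (f := f)
        have hvd' : (B.filter (fun u => G.Adj v u)).card ≤ 2 * c := hvd
        omega
      have ha1 : a < 2 * c + 1 := Finset.mem_range.mp ha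
      have ha2 : ∀ u ∈ B, G.Adj v u → f u ≠ a := by
        intro u hu huv h
        exact ha' (Finset.mem_image.mpr ⟨u, Finset.mem_filter.mpr ⟨hu, huv⟩, h⟩)
      refine ⟨Function.update f v a, ?_, ?_⟩
      · intro u hu
        by_cases huv : u = v
        · subst huv
          rw [Function.update_self]
          exact ha1
        · rw [Function.update_of_ne huv]
          exact hf u (Finset.mem_coe.mpr (Finset.mem_erase.mpr ⟨huv, Finset.mem_coe.mp hu⟩))
      · intro u hu w hw huw
        by_cases h1 : u = v
        · subst h1
          have h2 : w ≠ u := huw.ne'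
          rw [Function.update_self, Function.update_of_ne h2]
          exact (ha2 w hw huw).symm
        · by_cases h2 : w = v
          · subst h2
            rw [Function.update_self, Function.update_of_ne h1]
            exact ha2 u hu huw.symm
          · rw [Function.update_of_ne h1, Function.update_of_ne h2]
            exact hf' u (Finset.mem_coe.mpr (Finset.mem_erase.mpr ⟨h1, Finset.mem_coe.mp hu⟩))
              w (Finset.mem_coe.mpr (Finset.mem_erase.mpr ⟨h2, Finset.mem_coe.mp hw⟩)) huw
  have e : ((A.toFinite.toFinset : Finset V) : Set V) = A := Set.Finite.coe_toFinset _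
  have h := key _ A.toFinite.toFinset rfl (by rw [e])
  rwa [e] at h

end P74ff84
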