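import Mathlib
import Pool.Agent.Lib.P74ff84.Col

set_option autoImplicit false

namespace P74ff84

variable {V : Type*}

/-- The out-neighbours of `v`, different from `v`, in `Y`. -/
def outN (D : Digraph V) (v : V) (Y : Set V) : Set V := {u | u ≠ v ∧ D.Adj v u ∧ u ∈ Y}

/-- The in-neighbours of `v`, different from `v`, in `Y`. -/
def inN (D : Digraph V) (v : V) (Y : Set V) : Set V := {u | u ≠ v ∧ D.Adj u v ∧ u ∈ Y}

/-- The pruning process on the host set `X`: the vertices that still have role `j` after `n`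
steps. Role `j` asks for `k` out-neighbours in role `j + 1` if `nO j`, role `j + 1` asks for
`k` in-neighbours in role `j` if `nI j`. -/
def Pr (D : Digraph V) (k : ℕ) (nO nI : ℕ → Prop) (X : Set V) : ℕ → ℕ → Set V
  | 0, _ => X
  | n + 1, j => {v | v ∈ Pr D k nO nI X n j ∧
      (nO j → k ≤ (outN D v (Pr D k nO nI X n (j + 1))).ncard) ∧
      ∀ i, j = i + 1 → nI i → k ≤ (inN D v (Pr D k nO nI X n i)).ncard}

/-- The vertices with role `j` that are never removed. -/
def Alive (D : Digraph V) (k : ℕ) (nO nI : ℕ → Prop) (X : Set V) (j : ℕ) : Set V :=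
  {v | ∀ n, v ∈ Pr D k nO nI X n j}

section

variable (D : Digraph V) (k : ℕ) (nO nI : ℕ → Prop) (X : Set V)

theorem Pr_succ_subset (n j : ℕ) : Pr D k nO nI X (n + 1) j ⊆ Pr D k nO nI X n j :=
  fun _ hv => hv.1

theorem Pr_anti {m n : ℕ} (h : m ≤ n) (j : ℕ) : Pr D k nO nI X n j ⊆ Pr D k nO nI X m j := by
  induction h with
  | refl => exact subset_rfl
  | step _ ih => exact (Pr_succ_subset D k nO nI X _ j).trans ih

theorem Pr_subset (n j : ℕ) : Pr D k nO nI X n j ⊆ X := Pr_anti D k nO nI X (Nat.zero_le n) j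

theorem Alive_subset (j : ℕ) : Alive D k nO nI X j ⊆ X := fun _ hv => hv 0

/-- The decreasing sequence reaches its limit. -/
theorem exists_Pr_subset_Alive [Finite V] (j : ℕ) :
    ∃ n, Pr D k nO nI X n j ⊆ Alive D k nO nI X j := by
  classical
  have := Fintype.ofFinite V
  have h : ∀ v : V, ∃ n, v ∉ Alive D k nO nI X j → v ∉ Pr D k nO nI X n j := by
    intro v
    by_cases hv : v ∈ Alive D k nO nI X j
    · exact ⟨0, fun h => (h hv).elim⟩
    · have : ∃ n, v ∉ Pr D k nO nI X n j := by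
        by_contra hcon
        push Not at hcon
        exact hv hcon
      obtain ⟨n, hn⟩ := this
      exact ⟨n, fun _ => hn⟩
  choose N hN using h
  refine ⟨Finset.univ.sup N, fun v hv => ?_⟩
  by_contra hcon
  exact hN v hcon (Pr_anti D k nO nI X (Finset.le_sup (Finset.mem_univ v)) j hv)

theorem outN_mono {v : V} {Y Z : Set V} (h : Y ⊆ Z) : outN D v Y ⊆ outN D v Z :=
  fun _ hu => ⟨hu.1, hu.2.1, h hu.2.2⟩

theorem inN_mono {v : V} {Y Z : Set V} (h : Y ⊆ Z) : inN D v Y ⊆ inN D v Z :=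
  fun _ hu => ⟨hu.1, hu.2.1, h hu.2.2⟩

theorem Alive_out [Finite V] {v : V} {j : ℕ} (hv : v ∈ Alive D k nO nI X j) (hj : nO j) :
    k ≤ (outN D v (Alive D k nO nI X (j + 1))).ncard := by
  obtain ⟨n, hn⟩ := exists_Pr_subset_Alive D k nO nI X (j + 1)
  have h1 := (hv (n + 1)).2.1 hj
  exact h1.trans (Set.ncard_le_ncard (outN_mono D hn) (Set.toFinite _))

theorem Alive_in [Finite V] {v : V} {j : ℕ} (hv : v ∈ Alive D k nO nI X (j + 1)) (hj : nI j) :
    k ≤ (inN D v (Alive D k nO nI X j)).ncard := by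
  obtain ⟨n, hn⟩ := exists_Pr_subset_Alive D k nO nI X j
  have h1 := (hv (n + 1)).2.2 j rfl hj
  exact h1.trans (Set.ncard_le_ncard (inN_mono D hn) (Set.toFinite _))

/-- `v` loses role `j` since it has few out-neighbours with role `j + 1`. -/
def RO (j : ℕ) (v : V) : Prop := ∃ n, v ∈ Pr D k nO nI X n j ∧ nO j ∧
  (outN D v (Pr D k nO nI X n (j + 1))).ncard < k

/-- `v` loses role `j + 1` since it has few in-neighbours with role `j`. -/
def RI (j : ℕ) (v : V) : Prop := ∃ n, v ∈ Pr D k nO nI X n (j + 1) ∧ nI j ∧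
  (inN D v (Pr D k nO nI X n j)).ncard < k

theorem dead_cases {j : ℕ} {v : V} (hv : v ∈ X) (h : v ∉ Alive D k nO nI X j) :
    RO D k nO nI X j v ∨ ∃ i, j = i + 1 ∧ RI D k nO nI X i v := by
  classical
  have h1 : ∃ n, v ∈ Pr D k nO nI X n j ∧ v ∉ Pr D k nO nI X (n + 1) j := by
    by_contra hcon
    push Not at hcon
    apply h
    intro n
    induction n with
    | zero => exact hv
    | succ n ih => exact hcon n ih
  obtain ⟨n, hn, hn'⟩ := h1
  by_cases hO : nO j → k ≤ (outN D v (Pr D k nO nI X n (j + 1))).ncard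
  · right
    have h2 : ¬ ∀ i, j = i + 1 → nI i → k ≤ (inN D v (Pr D k nO nI X n i)).ncard :=
      fun h3 => hn' ⟨hn, hO, h3⟩
    push Not at h2
    obtain ⟨i, hi, hi2, hi3⟩ := h2
    subst hi
    exact ⟨i, rfl, n, hn, hi2, hi3⟩
  · left
    push Not at hO
    exact ⟨n, hn, hO.1, hO.2⟩

open Classical in
/-- The list of out-neighbours of `v` when it loses role `j`. -/
noncomputable def LO (j : ℕ) (v : V) : Set V :=
  if h : RO D k nO nI X j v then outN D v (Pr D k nO nI X h.choose (j + 1)) else ∅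

open Classical in
/-- The list of in-neighbours of `v` when it loses role `j + 1`. -/
noncomputable def LI (j : ℕ) (v : V) : Set V :=
  if h : RI D k nO nI X j v then inN D v (Pr D k nO nI X h.choose j) else ∅

theorem LO_card (hk : 1 ≤ k) (j : ℕ) (v : V) : (LO D k nO nI X j v).ncard ≤ k - 1 := by
  unfold LO
  split_ifs with h
  · have := h.choose_spec.2.2
    omega
  · simp

theorem LI_card (hk : 1 ≤ k) (j : ℕ) (v : V) : (LI D k nO nI X j v).ncard ≤ k - 1 := by
  unfold LI
  split_ifs with h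
  · have := h.choose_spec.2.2
    omega
  · simp

theorem mem_LO_of_alive {j : ℕ} {u v : V} (hu : RO D k nO nI X j u) (huv : u ≠ v)
    (hD : D.Adj u v) (hv : v ∈ Alive D k nO nI X (j + 1)) : v ∈ LO D k nO nI X j u := by
  unfold LO
  rw [dif_pos hu]
  exact ⟨huv.symm, hD, hv _⟩

theorem mem_LI_of_alive {j : ℕ} {u v : V} (hv : RI D k nO nI X j v) (huv : u ≠ v)
    (hD : D.Adj u v) (hu : u ∈ Alive D k nO nI X j) : u ∈ LI D k nO nI X j v := by
  unfold LI
  rw [dif_pos hv]
  exact ⟨huv, hD, hu _⟩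

theorem mem_LO_or_LI {j : ℕ} {u v : V} (hu : RO D k nO nI X j u) (hv : RI D k nO nI X j v)
    (huv : u ≠ v) (hD : D.Adj u v) :
    v ∈ LO D k nO nI X j u ∨ u ∈ LI D k nO nI X j v := by
  by_contra hcon
  push Not at hcon
  obtain ⟨h1, h2⟩ := hcon
  unfold LO at h1
  unfold LI at h2
  rw [dif_pos hu] at h1
  rw [dif_pos hv] at h2
  have a1 := hu.choose_spec.1
  have b1 := hv.choose_spec.1
  have c1 : v ∉ Pr D k nO nI X hu.choose (j + 1) := fun h => h1 ⟨huv.symm, hD, h⟩
  have c2 : u ∉ Pr D k nO nI X hv.choose j := fun h => h2 ⟨huv, hD, h⟩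
  rcases le_total hu.choose hv.choose with h | h
  · exact c1 (Pr_anti D k nO nI X h (j + 1) b1)
  · exact c2 (Pr_anti D k nO nI X h j a1)

/-- The vertices that lose role `j` for lack of out-neighbours and either keep role `j + 1`
or lose it for lack of in-neighbours. -/
def CO (j : ℕ) : Set V := {v | RO D k nO nI X j v ∧
  (v ∈ Alive D k nO nI X (j + 1) ∨ RI D k nO nI X j v)}

/-- The vertices that lose role `j + 1` for lack of in-neighbours and either keep role `j`
or lose it for lack of out-neighbours. -/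
def CI (j : ℕ) : Set V := {v | RI D k nO nI X j v ∧
  (v ∈ Alive D k nO nI X j ∨ RO D k nO nI X j v)}

variable [Finite V]

omit [Finite V] in
theorem list_union_card (hk : 1 ≤ k) (j : ℕ) (v : V) :
    (LO D k nO nI X j v ∪ LI D k nO nI X j v).ncard ≤ 2 * (k - 1) := by
  refine (Set.ncard_union_le _ _).trans ?_
  have h1 := LO_card D k nO nI X hk j v
  have h2 := LI_card D k nO nI X hk j v
  omega

omit [Finite V] in
theorem adj_cases {u v : V} (h : (SimpleGraph.fromRel D.Adj).Adj u v) :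
    (u ≠ v ∧ D.Adj u v) ∨ (v ≠ u ∧ D.Adj v u) := by
  rw [SimpleGraph.fromRel_adj] at h
  rcases h.2 with h2 | h2
  · exact Or.inl ⟨h.1, h2⟩
  · exact Or.inr ⟨h.1.symm, h2⟩

/-- Lists for the arcs give a colouring. -/
theorem colSet_of_arc_lists (A : Set V) (c : ℕ) (L : V → Set V)
    (hL : ∀ v ∈ A, (L v).ncard ≤ c)
    (hown : ∀ u ∈ A, ∀ v ∈ A, u ≠ v → D.Adj u v → v ∈ L u ∨ u ∈ L v) :
    ColSet (SimpleGraph.fromRel D.Adj) A (2 * c + 1) := by
  refine colSet_of_lists _ A c L hL ?_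
  intro u hu v hv huv
  rcases adj_cases D huv with h | h
  · exact hown u hu v hv h.1 h.2
  · exact (hown v hv u hu h.1 h.2).symm

theorem colSet_CO (hk : 1 ≤ k) (j : ℕ) :
    ColSet (SimpleGraph.fromRel D.Adj) (CO D k nO nI X j) (4 * k - 3) := by
  have h := colSet_of_arc_lists D (CO D k nO nI X j) (2 * (k - 1))
    (fun v => LO D k nO nI X j v ∪ LI D k nO nI X j v)
    (fun v _ => list_union_card D k nO nI X hk j v) (by
      intro u hu v hv huv hD
      rcases hv.2 with h | h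
      · exact Or.inl (Or.inl (mem_LO_of_alive D k nO nI X hu.1 huv hD h))
      · rcases mem_LO_or_LI D k nO nI X hu.1 h huv hD with h | h
        · exact Or.inl (Or.inl h)
        · exact Or.inr (Or.inr h))
  have e : 2 * (2 * (k - 1)) + 1 = 4 * k - 3 := by omega
  rwa [e] at h

theorem colSet_CI (hk : 1 ≤ k) (j : ℕ) :
    ColSet (SimpleGraph.fromRel D.Adj) (CI D k nO nI X j) (4 * k - 3) := by
  have h := colSet_of_arc_lists D (CI D k nO nI X j) (2 * (k - 1))
    (fun v => LO D k nO nI X j v ∪ LI D k nO nI X j v)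
    (fun v _ => list_union_card D k nO nI X hk j v) (by
      intro u hu v hv huv hD
      rcases hu.2 with h | h
      · exact Or.inr (Or.inr (mem_LI_of_alive D k nO nI X hv.1 huv hD h))
      · rcases mem_LO_or_LI D k nO nI X h hv.1 huv hD with h | h
        · exact Or.inl (Or.inl h)
        · exact Or.inr (Or.inr h))
  have e : 2 * (2 * (k - 1)) + 1 = 4 * k - 3 := by omega
  rwa [e] at h

omit [Finite V] in
theorem RI_false {j : ℕ} (h : ¬ nI j) {v : V} : ¬ RI D k nO nI X j v :=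
  fun ⟨_, _, h2, _⟩ => h h2

omit [Finite V] in
theorem RO_false {j : ℕ} (h : ¬ nO j) {v : V} : ¬ RO D k nO nI X j v :=
  fun ⟨_, _, h2, _⟩ => h h2

/-- The part of `CO` whose vertices keep role `j + 1`. -/
theorem colSet_beta (hk : 1 ≤ k) (j : ℕ) :
    ColSet (SimpleGraph.fromRel D.Adj)
      {v | RO D k nO nI X j v ∧ v ∈ Alive D k nO nI X (j + 1)} (2 * k - 1) := by
  have h := colSet_of_arc_lists D {v | RO D k nO nI X j v ∧ v ∈ Alive D k nO nI X (j + 1)}
    (k - 1) (fun v => LO D k nO nI X j v) (fun v _ => LO_card D k nO nI X hk j v) (by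
      intro u hu v hv huv hD
      exact Or.inl (mem_LO_of_alive D k nO nI X hu.1 huv hD hv.2))
  have e : 2 * (k - 1) + 1 = 2 * k - 1 := by omega
  rwa [e] at h

theorem colSet_alpha (hk : 1 ≤ k) (j : ℕ) :
    ColSet (SimpleGraph.fromRel D.Adj)
      {v | RI D k nO nI X j v ∧ v ∈ Alive D k nO nI X j} (2 * k - 1) := by
  have h := colSet_of_arc_lists D {v | RI D k nO nI X j v ∧ v ∈ Alive D k nO nI X j}
    (k - 1) (fun v => LI D k nO nI X j v) (fun v _ => LI_card D k nO nI X hk j v) (by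
      intro u hu v hv huv hD
      exact Or.inr (mem_LI_of_alive D k nO nI X hv.1 huv hD hu.2))
  have e : 2 * (k - 1) + 1 = 2 * k - 1 := by omega
  rwa [e] at h

theorem colSet_CO_pure (hk : 1 ≤ k) (j : ℕ) (hj : ¬ nI j) :
    ColSet (SimpleGraph.fromRel D.Adj) (CO D k nO nI X j) (2 * k - 1) := by
  refine (colSet_beta D k nO nI X hk j).subset ?_
  rintro v ⟨h1, h2 | h2⟩
  · exact ⟨h1, h2⟩
  · exact (RI_false D k nO nI X hj h2).elim

theorem colSet_CI_pure (hk : 1 ≤ k) (j : ℕ) (hj : ¬ nO j) :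
    ColSet (SimpleGraph.fromRel D.Adj) (CI D k nO nI X j) (2 * k - 1) := by
  refine (colSet_alpha D k nO nI X hk j).subset ?_
  rintro v ⟨h1, h2 | h2⟩
  · exact ⟨h1, h2⟩
  · exact (RO_false D k nO nI X hj h2).elim

theorem colSet_both (hk : 1 ≤ k) (j : ℕ) :
    ColSet (SimpleGraph.fromRel D.Adj) (CO D k nO nI X j ∪ CI D k nO nI X j)
      (6 * k - 4) := by
  have h := (colSet_beta D k nO nI X hk j).union (colSet_CI D k nO nI X hk j)
  have e : (2 * k - 1) + (4 * k - 3) = 6 * k - 4 := by omega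
  rw [e] at h
  refine h.subset ?_
  rintro v (⟨h1, h2 | h2⟩ | h3)
  · exact Or.inl ⟨h1, h2⟩
  · exact Or.inr ⟨h2, Or.inr h1⟩
  · exact Or.inr h3

/-- Following the reasons upwards. -/
theorem chain_up {h : ℕ} (hh : ∀ j, h ≤ j → ¬ nO j) {v : V} (hv : v ∈ X) :
    ∀ m j : ℕ, h - j = m → RO D k nO nI X j v →
      ∃ i, j ≤ i ∧ nO i ∧ v ∈ CO D k nO nI X i := by
  intro m
  induction m with
  | zero =>
    intro j hj hR
    exact (RO_false D k nO nI X (hh j (by omega)) hR).elim
  | succ m ih =>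
    intro j hj hR
    have hj1 : nO j := by
      obtain ⟨_, _, h2, _⟩ := hR
      exact h2
    by_cases ha : v ∈ Alive D k nO nI X (j + 1)
    · exact ⟨j, le_rfl, hj1, hR, Or.inl ha⟩
    · rcases dead_cases D k nO nI X hv ha with h1 | ⟨i, hi, h1⟩
      · obtain ⟨i, hi, hi2⟩ := ih (j + 1) (by omega) h1
        exact ⟨i, by omega, hi2⟩
      · have : i = j := by omega
        subst this
        exact ⟨i, le_rfl, hj1, hR, Or.inr h1⟩

omit [Finite V] in
/-- Following the reasons downwards. -/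
theorem chain_down {v : V} (hv : v ∈ X) :
    ∀ j : ℕ, RI D k nO nI X j v → ∃ i, i ≤ j ∧ nI i ∧ v ∈ CI D k nO nI X i := by
  intro j
  induction j with
  | zero =>
    intro hR
    have hj1 : nI 0 := by
      obtain ⟨_, _, h2, _⟩ := hR
      exact h2
    by_cases ha : v ∈ Alive D k nO nI X 0
    · exact ⟨0, le_rfl, hj1, hR, Or.inl ha⟩
    · rcases dead_cases D k nO nI X hv ha with h1 | ⟨i, hi, h1⟩
      · exact ⟨0, le_rfl, hj1, hR, Or.inr h1⟩
      · omega
  | succ j ih =>
    intro hR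
    have hj1 : nI (j + 1) := by
      obtain ⟨_, _, h2, _⟩ := hR
      exact h2
    by_cases ha : v ∈ Alive D k nO nI X (j + 1)
    · exact ⟨j + 1, le_rfl, hj1, hR, Or.inl ha⟩
    · rcases dead_cases D k nO nI X hv ha with h1 | ⟨i, hi, h1⟩
      · exact ⟨j + 1, le_rfl, hj1, hR, Or.inr h1⟩
      · have : i = j := by omega
        subst this
        obtain ⟨i', hi', hi2⟩ := ih h1
        exact ⟨i', by omega, hi2⟩

/-- **One round.** `Att` is the set of roles that all vertices of the next host must have. The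
rest of the host can be coloured with few colours: `c j` has to be at least `2 k - 1`, at least
`4 k - 3` if the roles `j` and `j + 1` ask for each other, and at least `6 k - 4` if in addition
there are roles in `Att` on both sides. -/
theorem round (hk : 1 ≤ k) (h : ℕ) (hO : ∀ j, h ≤ j → ¬ nO j) (hI : ∀ j, h ≤ j → ¬ nI j)
    (Att : Set ℕ) (c : ℕ → ℕ)
    (c1 : ∀ j, nO j → 2 * k - 1 ≤ c j) (c2 : ∀ j, nI j → 2 * k - 1 ≤ c j)
    (c3 : ∀ j, nO j → nI j → 4 * k - 3 ≤ c j)
    (c4 : ∀ j, nO j → nI j → (∃ a ∈ Att, a ≤ j) → (∃ a ∈ Att, j < a) → 6 * k - 4 ≤ c j) :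
    ColSet (SimpleGraph.fromRel D.Adj)
      {v | v ∈ X ∧ ¬ ∀ a ∈ Att, v ∈ Alive D k nO nI X a} (∑ j ∈ Finset.range h, c j) := by
  classical
  set A : ℕ → Set V := fun j =>
    {v | (v ∈ CO D k nO nI X j ∧ nO j ∧ ∃ a ∈ Att, a ≤ j) ∨
      (v ∈ CI D k nO nI X j ∧ nI j ∧ ∃ a ∈ Att, j < a)} with hA
  have hcol : ∀ j ∈ Finset.range h, ColSet (SimpleGraph.fromRel D.Adj) (A j) (c j) := by
    intro j _
    by_cases h1 : nO j ∧ ∃ a ∈ Att, a ≤ j
    · by_cases h2 : nI j ∧ ∃ a ∈ Att, j < a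
      · refine ((colSet_both D k nO nI X hk j).mono
          (c4 j h1.1 h2.1 h1.2 h2.2)).subset ?_
        rintro v (⟨h3, _⟩ | ⟨h3, _⟩)
        · exact Or.inl h3
        · exact Or.inr h3
      · by_cases h4 : nI j
        · refine ((colSet_CO D k nO nI X hk j).mono (c3 j h1.1 h4)).subset ?_
          rintro v (⟨h3, _⟩ | ⟨_, h3⟩)
          · exact h3
          · exact (h2 h3).elim
        · refine ((colSet_CO_pure D k nO nI X hk j h4).mono (c1 j h1.1)).subset ?_
          rintro v (⟨h3, _⟩ | ⟨_, h3⟩)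
          · exact h3
          · exact (h2 h3).elim
    · by_cases h2 : nI j ∧ ∃ a ∈ Att, j < a
      · by_cases h4 : nO j
        · refine ((colSet_CI D k nO nI X hk j).mono (c3 j h4 h2.1)).subset ?_
          rintro v (⟨_, h3⟩ | ⟨h3, _⟩)
          · exact (h1 h3).elim
          · exact h3
        · refine ((colSet_CI_pure D k nO nI X hk j h4).mono (c2 j h2.1)).subset ?_
          rintro v (⟨_, h3⟩ | ⟨h3, _⟩)
          · exact (h1 h3).elim
          · exact h3
      · refine ((ColSet.empty _).mono (Nat.zero_le _)).subset ?_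
        rintro v (⟨_, h3⟩ | ⟨_, h3⟩)
        · exact (h1 h3).elim
        · exact (h2 h3).elim
  refine (ColSet.biUnion (Finset.range h) A c hcol).subset ?_
  rintro v ⟨hv, hv2⟩
  push Not at hv2
  obtain ⟨a, ha, hva⟩ := hv2
  rw [Set.mem_iUnion₂]
  rcases dead_cases D k nO nI X hv hva with h1 | ⟨i, hi, h1⟩
  · obtain ⟨i, hi, hi2, hi3⟩ := chain_up D k nO nI X hO hv _ a rfl h1
    refine ⟨i, ?_, Or.inl ⟨hi3, hi2, a, ha, hi⟩⟩
    rw [Finset.mem_range]
    by_contra hcon
    exact hO i (by omega) hi2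
  · obtain ⟨i', hi', hi2, hi3⟩ := chain_down D k nO nI X hv i h1
    refine ⟨i', ?_, Or.inr ⟨hi3, hi2, a, ha, by omega⟩⟩
    rw [Finset.mem_range]
    by_contra hcon
    exact hI i' (by omega) hi2

end

end P74ff84
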