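import Mathlib
import Pool.Agent.Lib.P74ff84.Prune

set_option autoImplicit false

namespace P74ff84

variable {V : Type*}

theorem absorb_aux (D : Digraph V) (μ : V → ℝ) (hμ : ∀ v, 0 ≤ μ v) [DecidableEq V] :
    ∀ n : ℕ, ∀ A : Finset V, A.card = n → ∃ S ⊆ A, (∀ u ∈ S, ∀ v ∈ S,
      ¬ (SimpleGraph.fromRel D.Adj).Adj u v) ∧
      ∃ B ⊆ A, (∀ v ∈ B, v ∈ S ∨ ∃ s ∈ S, s ≠ v ∧ D.Adj v s) ∧
        ∑ v ∈ A, μ v ≤ 2 * ∑ v ∈ B, μ v := by
  classical
  intro n
  induction n using Nat.strong_induction_on with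
  | _ n ih =>
    intro A hA
    by_cases hpos : ∀ v ∈ A, μ v = 0
    · refine ⟨∅, Finset.empty_subset _, by simp, ∅, Finset.empty_subset _, by simp, ?_⟩
      rw [Finset.sum_eq_zero hpos]
      simp
    push Not at hpos
    obtain ⟨v0, hv0, hv0'⟩ := hpos
    set P := A.filter (fun v => 0 < μ v) with hP
    have hPne : P.Nonempty :=
      ⟨v0, Finset.mem_filter.mpr ⟨hv0, lt_of_le_of_ne (hμ v0) (Ne.symm hv0')⟩⟩
    set No : V → Finset V := fun v => P.filter (fun u => u ≠ v ∧ D.Adj v u) with hNo
    set Ni : V → Finset V := fun v => P.filter (fun u => u ≠ v ∧ D.Adj u v) with hNi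
    have hsum : ∑ v ∈ P, μ v * ∑ u ∈ No v, μ u ≤ ∑ v ∈ P, μ v * ∑ u ∈ Ni v, μ u := by
      apply le_of_eq
      simp only [hNo, hNi, Finset.sum_filter, Finset.mul_sum]
      rw [Finset.sum_comm]
      refine Finset.sum_congr rfl (fun u _ => Finset.sum_congr rfl (fun v _ => ?_))
      by_cases h : u ≠ v ∧ D.Adj v u
      · have h' : v ≠ u ∧ D.Adj v u := ⟨h.1.symm, h.2⟩
        rw [if_pos h, if_pos h', mul_comm]
      · have h' : ¬ (v ≠ u ∧ D.Adj v u) := fun h'' => h ⟨h''.1.symm, h''.2⟩
        rw [if_neg h, if_neg h', mul_zero, mul_zero]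
    obtain ⟨v, hv, hvle⟩ := Finset.exists_le_of_sum_le hPne hsum
    have hvA : v ∈ A := (Finset.mem_filter.mp hv).1
    have hvpos : 0 < μ v := (Finset.mem_filter.mp hv).2
    have hle : ∑ u ∈ No v, μ u ≤ ∑ u ∈ Ni v, μ u := le_of_mul_le_mul_left hvle hvpos
    -- pass to the rest
    set A' := A.filter (fun u => u ≠ v ∧ ¬ D.Adj v u ∧ ¬ D.Adj u v) with hA'
    have hA'lt : A'.card < n := by
      rw [← hA]
      apply Finset.card_lt_card
      rw [Finset.ssubset_iff_subset_ne]
      refine ⟨Finset.filter_subset _ _, ?_⟩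
      intro h
      have : v ∈ A' := by rw [h]; exact hvA
      exact (Finset.mem_filter.mp this).2.1 rfl
    obtain ⟨S, hS, hSind, B, hB, hBS, hBsum⟩ := ih A'.card hA'lt A' rfl
    refine ⟨insert v S, ?_, ?_, insert v (Ni v ∪ B), ?_, ?_, ?_⟩
    · intro u hu
      rcases Finset.mem_insert.mp hu with rfl | hu
      · exact hvA
      · exact (Finset.mem_filter.mp (hS hu)).1
    · intro a ha b hb hab
      rw [SimpleGraph.fromRel_adj] at hab
      rcases Finset.mem_insert.mp ha with rfl | ha1
      · rcases Finset.mem_insert.mp hb with rfl | hb1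
        · exact hab.1 rfl
        · have h := (Finset.mem_filter.mp (hS hb1)).2
          exact hab.2.elim h.2.1 h.2.2
      · rcases Finset.mem_insert.mp hb with rfl | hb1
        · have h := (Finset.mem_filter.mp (hS ha1)).2
          exact hab.2.elim h.2.2 h.2.1
        · exact hSind a ha1 b hb1 (by rw [SimpleGraph.fromRel_adj]; exact hab)
    · intro u hu
      rcases Finset.mem_insert.mp hu with rfl | hu
      · exact hvA
      · rcases Finset.mem_union.mp hu with hu | hu
        · exact (Finset.mem_filter.mp (Finset.mem_filter.mp hu).1).1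
        · exact (Finset.mem_filter.mp (hB hu)).1
    · intro u hu
      rcases Finset.mem_insert.mp hu with rfl | hu
      · exact Or.inl (Finset.mem_insert_self _ _)
      · rcases Finset.mem_union.mp hu with hu | hu
        · have h := (Finset.mem_filter.mp hu).2
          exact Or.inr ⟨v, Finset.mem_insert_self _ _, h.1.symm, h.2⟩
        · rcases hBS u hu with h | ⟨s, hs, h⟩
          · exact Or.inl (Finset.mem_insert_of_mem h)
          · exact Or.inr ⟨s, Finset.mem_insert_of_mem hs, h⟩
    · -- the sums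
      have hd1 : v ∉ Ni v ∪ B := by
        intro h
        rcases Finset.mem_union.mp h with h | h
        · exact (Finset.mem_filter.mp h).2.1 rfl
        · exact (Finset.mem_filter.mp (hB h)).2.1 rfl
      have hd2 : Disjoint (Ni v) B := by
        rw [Finset.disjoint_left]
        intro u hu hu'
        exact (Finset.mem_filter.mp (hB hu')).2.2.2 (Finset.mem_filter.mp hu).2.2
      rw [Finset.sum_insert hd1, Finset.sum_union hd2]
      have hsplit : ∑ u ∈ A, μ u ≤ ∑ u ∈ A', μ u + (μ v + (∑ u ∈ No v, μ u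
          + ∑ u ∈ Ni v, μ u)) := by
        have h1 : ∑ u ∈ A, μ u = ∑ u ∈ A', μ u
            + ∑ u ∈ A.filter (fun u => ¬ (u ≠ v ∧ ¬ D.Adj v u ∧ ¬ D.Adj u v)), μ u := by
          rw [hA', Finset.sum_filter_add_sum_filter_not]
        rw [h1]
        refine add_le_add le_rfl ?_
        have h2 : ∑ u ∈ A.filter (fun u => ¬ (u ≠ v ∧ ¬ D.Adj v u ∧ ¬ D.Adj u v)), μ u
            = ∑ u ∈ P.filter (fun u => ¬ (u ≠ v ∧ ¬ D.Adj v u ∧ ¬ D.Adj u v)), μ u := by
          rw [hP, Finset.filter_comm, Finset.sum_filter (p := fun u => 0 < μ u)]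
          refine Finset.sum_congr rfl (fun u _ => ?_)
          split_ifs with h
          · rfl
          · exact le_antisymm (not_lt.mp h) (hμ u)
        rw [h2]
        have h3 : P.filter (fun u => ¬ (u ≠ v ∧ ¬ D.Adj v u ∧ ¬ D.Adj u v)) ⊆
            insert v (No v ∪ Ni v) := by
          intro u hu
          obtain ⟨hu1, hu2⟩ := Finset.mem_filter.mp hu
          rw [Finset.mem_insert, Finset.mem_union]
          by_cases huv : u = v
          · exact Or.inl huv
          · right
            by_cases hvu : D.Adj v u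
            · exact Or.inl (Finset.mem_filter.mpr ⟨hu1, huv, hvu⟩)
            · by_cases huv' : D.Adj u v
              · exact Or.inr (Finset.mem_filter.mpr ⟨hu1, huv, huv'⟩)
              · exact (hu2 ⟨huv, hvu, huv'⟩).elim
        have hvn : v ∉ No v ∪ Ni v := by
          intro h
          rcases Finset.mem_union.mp h with h | h
          · exact (Finset.mem_filter.mp h).2.1 rfl
          · exact (Finset.mem_filter.mp h).2.1 rfl
        calc ∑ u ∈ P.filter (fun u => ¬ (u ≠ v ∧ ¬ D.Adj v u ∧ ¬ D.Adj u v)), μ u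
            ≤ ∑ u ∈ insert v (No v ∪ Ni v), μ u :=
              Finset.sum_le_sum_of_subset_of_nonneg h3 (fun u _ _ => hμ u)
          _ = μ v + ∑ u ∈ No v ∪ Ni v, μ u := Finset.sum_insert hvn
          _ ≤ μ v + (∑ u ∈ No v, μ u + ∑ u ∈ Ni v, μ u) := by
              refine add_le_add le_rfl ?_
              have := Finset.sum_union_inter (s₁ := No v) (s₂ := Ni v) (f := μ)
              have h4 : 0 ≤ ∑ u ∈ No v ∩ Ni v, μ u := Finset.sum_nonneg (fun u _ => hμ u)
              linarith
      linarith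

/-- **Absorbing independent set**: some independent set `S` contains or absorbs at least half
of the measure of `A`. -/
theorem absorb [DecidableEq V] (D : Digraph V) (μ : V → ℝ) (hμ : ∀ v, 0 ≤ μ v)
    (A : Finset V) : ∃ S ⊆ A, (∀ u ∈ S, ∀ v ∈ S,
      ¬ (SimpleGraph.fromRel D.Adj).Adj u v) ∧
      ∃ B ⊆ A, (∀ v ∈ B, v ∈ S ∨ ∃ s ∈ S, s ≠ v ∧ D.Adj v s) ∧
        ∑ v ∈ A, μ v ≤ 2 * ∑ v ∈ B, μ v :=
  absorb_aux D μ hμ A.card A rfl

/-- **Batch lemma**: `r` independent sets such that the potential becomes small. -/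
theorem batch [Finite V] [DecidableEq V] (D : Digraph V) (w : V → ℝ) (hw : ∀ v, 0 ≤ w v)
    (x : ℝ) (hx0 : 0 ≤ x) (hx1 : x ≤ 1) (A : Finset V) (r : ℕ) :
    ∃ U ⊆ A, ColSet (SimpleGraph.fromRel D.Adj) (U : Set V) r ∧
      ∑ v ∈ A \ U, w v * x ^ (outN D v (U : Set V)).ncard
        ≤ ((1 + x) / 2) ^ r * ∑ v ∈ A, w v := by
  induction r with
  | zero =>
    refine ⟨∅, Finset.empty_subset _, by simpa using ColSet.empty _, ?_⟩
    rw [Finset.sdiff_empty, pow_zero, one_mul]
    refine Finset.sum_le_sum (fun v _ => ?_)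
    exact mul_le_of_le_one_right (hw v) (pow_le_one₀ hx0 hx1)
  | succ r ih =>
    obtain ⟨U, hUA, hUc, hU⟩ := ih
    set μ : V → ℝ := fun v => w v * x ^ (outN D v (U : Set V)).ncard with hμd
    have hμ : ∀ v, 0 ≤ μ v := fun v => mul_nonneg (hw v) (pow_nonneg hx0 _)
    obtain ⟨S, hSA, hSind, B, hBA, hBS, hBsum⟩ := absorb D μ hμ (A \ U)
    have hSc : ColSet (SimpleGraph.fromRel D.Adj) (S : Set V) 1 :=
      ⟨fun _ => 0, fun _ _ => Nat.zero_lt_one, fun u hu v hv huv =>
        (hSind u (Finset.mem_coe.mp hu) v (Finset.mem_coe.mp hv) huv).elim⟩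
    refine ⟨U ∪ S, ?_, ?_, ?_⟩
    · intro v hv
      rcases Finset.mem_union.mp hv with h | h
      · exact hUA h
      · exact (Finset.mem_sdiff.mp (hSA h)).1
    · have := hUc.union hSc
      rwa [← Finset.coe_union] at this
    · -- pointwise comparison
      have hmono : ∀ v, (outN D v (U : Set V)).ncard ≤ (outN D v ((U ∪ S : Finset V) : Set V)).ncard := by
        intro v
        refine Set.ncard_le_ncard (outN_mono D ?_) (Set.toFinite _)
        exact Finset.coe_subset.mpr Finset.subset_union_left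
      have habs : ∀ v ∈ B, v ∉ S → (outN D v (U : Set V)).ncard + 1
          ≤ (outN D v ((U ∪ S : Finset V) : Set V)).ncard := by
        intro v hv hvS
        rcases hBS v hv with h | ⟨s, hs, hsv, hD⟩
        · exact (hvS h).elim
        · have hsU : s ∉ U := (Finset.mem_sdiff.mp (hSA hs)).2
          have h1 : s ∉ outN D v (U : Set V) := fun h => hsU (Finset.mem_coe.mp h.2.2)
          rw [← Set.ncard_insert_of_notMem h1 (Set.toFinite _)]
          refine Set.ncard_le_ncard ?_ (Set.toFinite _)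
          intro u hu
          rcases hu with rfl | hu
          · exact ⟨hsv, hD, Finset.mem_coe.mpr (Finset.mem_union_right _ hs)⟩
          · exact outN_mono D (Finset.coe_subset.mpr Finset.subset_union_left) hu
      have hpt : ∀ v ∈ A \ (U ∪ S), w v * x ^ (outN D v ((U ∪ S : Finset V) : Set V)).ncard
          ≤ μ v - (1 - x) * (if v ∈ B then μ v else 0) := by
        intro v hv
        have hvS : v ∉ S := fun h => (Finset.mem_sdiff.mp hv).2 (Finset.mem_union_right _ h)
        by_cases hvB : v ∈ B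
        · rw [if_pos hvB]
          have h1 : x ^ (outN D v ((U ∪ S : Finset V) : Set V)).ncard
              ≤ x ^ ((outN D v (U : Set V)).ncard + 1) :=
            pow_le_pow_of_le_one hx0 hx1 (habs v hvB hvS)
          have h2 : w v * x ^ (outN D v ((U ∪ S : Finset V) : Set V)).ncard
              ≤ w v * x ^ ((outN D v (U : Set V)).ncard + 1) :=
            mul_le_mul_of_nonneg_left h1 (hw v)
          refine h2.trans (le_of_eq ?_)
          simp only [hμd]
          ring
        · rw [if_neg hvB, mul_zero, sub_zero]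
          exact mul_le_mul_of_nonneg_left (pow_le_pow_of_le_one hx0 hx1 (hmono v)) (hw v)
      have hsub : A \ (U ∪ S) ⊆ A \ U := by
        intro v hv
        rw [Finset.mem_sdiff] at hv ⊢
        exact ⟨hv.1, fun h => hv.2 (Finset.mem_union_left _ h)⟩
      have hnn : ∀ v ∈ A \ U, v ∉ A \ (U ∪ S) →
          0 ≤ μ v - (1 - x) * (if v ∈ B then μ v else 0) := by
        intro v _ _
        have h1 := hμ v
        split_ifs
        · nlinarith
        · linarith
      calc ∑ v ∈ A \ (U ∪ S), w v * x ^ (outN D v ((U ∪ S : Finset V) : Set V)).ncard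
          ≤ ∑ v ∈ A \ (U ∪ S), (μ v - (1 - x) * (if v ∈ B then μ v else 0)) :=
            Finset.sum_le_sum hpt
        _ ≤ ∑ v ∈ A \ U, (μ v - (1 - x) * (if v ∈ B then μ v else 0)) :=
            Finset.sum_le_sum_of_subset_of_nonneg hsub hnn
        _ = ∑ v ∈ A \ U, μ v - (1 - x) * ∑ v ∈ B, μ v := by
            rw [Finset.sum_sub_distrib, ← Finset.mul_sum, ← Finset.sum_filter]
            congr 3
            ext v
            rw [Finset.mem_filter]
            exact ⟨fun h => h.2, fun h => ⟨hBA h, h⟩⟩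
        _ ≤ ((1 + x) / 2) * ∑ v ∈ A \ U, μ v := by
            have h1 : (0 : ℝ) ≤ 1 - x := by linarith
            nlinarith [mul_le_mul_of_nonneg_left hBsum h1]
        _ ≤ ((1 + x) / 2) * (((1 + x) / 2) ^ r * ∑ v ∈ A, w v) :=
            mul_le_mul_of_nonneg_left hU (by linarith)
        _ = ((1 + x) / 2) ^ (r + 1) * ∑ v ∈ A, w v := by ring

/-- The weight of a set that is coloured with `r` colours. -/
theorem sum_le_of_colSet (G : SimpleGraph V) (w : V → ℝ)
    (hind : ∀ S : Finset V, G.IsIndepSet (S : Set V) → ∑ v ∈ S, w v ≤ 1)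
    (U : Finset V) (r : ℕ) (h : ColSet G (U : Set V) r) : ∑ v ∈ U, w v ≤ r := by
  classical
  obtain ⟨f, hf, hf'⟩ := h
  have h1 : ∑ v ∈ U, w v = ∑ i ∈ Finset.range r, ∑ v ∈ U.filter (fun v => f v = i), w v := by
    rw [Finset.sum_fiberwise_of_maps_to]
    intro v hv
    exact Finset.mem_range.mpr (hf v (Finset.mem_coe.mpr hv))
  rw [h1]
  calc ∑ i ∈ Finset.range r, ∑ v ∈ U.filter (fun v => f v = i), w v
      ≤ ∑ _i ∈ Finset.range r, (1 : ℝ) := by
        refine Finset.sum_le_sum (fun i _ => hind _ ?_)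
        intro u hu v hv _ huv
        have hu' := Finset.mem_filter.mp (Finset.mem_coe.mp hu)
        have hv' := Finset.mem_filter.mp (Finset.mem_coe.mp hv)
        exact hf' u (Finset.mem_coe.mpr hu'.1) v (Finset.mem_coe.mpr hv'.1) huv
          (hu'.2.trans hv'.2.symm)
    _ = r := by simp

end P74ff84
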