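import Mathlib
import Pool.Agent.Lib.P74ff84.Prune

set_option autoImplicit false

namespace P74ff84

section tree

variable {α : Type*} {T : SimpleGraph α}

theorem tree_dist_adj (hT : T.IsTree) (x0 : α) {a b : α} (h : T.Adj a b)
    (hab : T.dist x0 a < T.dist x0 b) : T.dist x0 b = T.dist x0 a + 1 := by
  rcases hT.dist_eq_dist_add_one_of_adj x0 h with h1 | h1 <;> omega

theorem tree_exists_parent (hT : T.IsTree) (x0 : α) {y : α} (hy : y ≠ x0) :
    ∃ b, T.Adj b y ∧ T.dist x0 b < T.dist x0 y := by
  obtain ⟨p, hp⟩ := hT.connected.exists_walk_length_eq_dist y x0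
  cases p with
  | nil => exact (hy rfl).elim
  | @cons _ b _ h q =>
    refine ⟨b, h.symm, ?_⟩
    have h1 : T.dist b x0 ≤ q.length := SimpleGraph.dist_le q
    rw [SimpleGraph.Walk.length_cons] at hp
    rw [SimpleGraph.dist_comm (u := x0) (v := b), SimpleGraph.dist_comm (u := x0) (v := y)]
    omega

theorem tree_parent_unique (hT : T.IsTree) (x0 : α) {y b c : α} (hb : T.Adj b y)
    (hc : T.Adj c y) (hb' : T.dist x0 b < T.dist x0 y) (hc' : T.dist x0 c < T.dist x0 y) :
    b = c := by
  obtain ⟨p, hp⟩ := hT.connected.exists_walk_length_eq_dist b x0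
  obtain ⟨q, hq⟩ := hT.connected.exists_walk_length_eq_dist c x0
  have e1 := tree_dist_adj hT x0 hb hb'
  have e2 := tree_dist_adj hT x0 hc hc'
  have h1 : (SimpleGraph.Walk.cons hb.symm p).IsPath := by
    apply SimpleGraph.Walk.isPath_of_length_eq_dist
    rw [SimpleGraph.Walk.length_cons, hp, SimpleGraph.dist_comm (u := y) (v := x0), e1,
      SimpleGraph.dist_comm (u := b) (v := x0)]
  have h2 : (SimpleGraph.Walk.cons hc.symm q).IsPath := by
    apply SimpleGraph.Walk.isPath_of_length_eq_dist
    rw [SimpleGraph.Walk.length_cons, hq, SimpleGraph.dist_comm (u := y) (v := x0), e2,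
      SimpleGraph.dist_comm (u := c) (v := x0)]
  have h3 := (hT.existsUnique_path y x0).unique h1 h2
  have h4 := congrArg (fun w => w.getVert 1) h3
  simpa using h4

end tree

variable {V : Type*} [Finite V]

/-- **Greedy embedding.** `G x` are the positions allowed for the tree vertex `x`. If every
allowed position of a vertex has `k` neighbours, in the right direction, that are allowed
for the child, then the tree with `k` arcs can be embedded. -/
theorem greedy {k : ℕ} (D : Digraph V) (T : SimpleGraph (Fin (k + 1))) (hT : T.IsTree)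
    (O : Digraph (Fin (k + 1))) (hO : ∀ u v, T.Adj u v ↔ (O.Adj u v ∨ O.Adj v u))
    (hO' : ∀ u v, O.Adj u v → ¬ O.Adj v u) (x0 : Fin (k + 1)) (G : Fin (k + 1) → Set V)
    (h0 : (G x0).Nonempty)
    (hout : ∀ a b, O.Adj a b → T.dist x0 a < T.dist x0 b → ∀ v ∈ G a,
      k ≤ (outN D v (G b)).ncard)
    (hin : ∀ a b, O.Adj a b → T.dist x0 b < T.dist x0 a → ∀ v ∈ G b,
      k ≤ (inN D v (G a)).ncard) :
    ∃ f : Fin (k + 1) → V, Function.Injective f ∧
      ∀ u v, O.Adj u v → D.Adj (f u) (f v) := by
  classical
  have key : ∀ n : ℕ, n ≤ k → ∃ S : Finset (Fin (k + 1)), S.card = n + 1 ∧ x0 ∈ S ∧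
      (∀ y ∈ S, ∀ b, T.Adj b y → T.dist x0 b < T.dist x0 y → b ∈ S) ∧
      ∃ f : Fin (k + 1) → V, Set.InjOn f (S : Set (Fin (k + 1))) ∧ (∀ x ∈ S, f x ∈ G x) ∧
        ∀ u ∈ S, ∀ v ∈ S, O.Adj u v → D.Adj (f u) (f v) := by
    intro n
    induction n with
    | zero =>
      intro _
      obtain ⟨v, hv⟩ := h0
      refine ⟨{x0}, by simp, by simp, ?_, fun _ => v, ?_, ?_, ?_⟩
      · intro y hy b _ hb'
        rw [Finset.mem_singleton] at hy
        subst hy
        rw [SimpleGraph.dist_self] at hb'
        omega
      · rw [Finset.coe_singleton]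
        exact Set.injOn_singleton _ _
      · intro x hx
        rw [Finset.mem_singleton] at hx
        subst hx
        exact hv
      · intro u hu v hv h
        rw [Finset.mem_singleton] at hu hv
        subst hu
        subst hv
        exact (hO' _ _ h h).elim
    | succ n ih =>
      intro hn
      obtain ⟨S, hS, hx0, hcl, f, hf1, hf2, hf3⟩ := ih (by omega)
      -- a vertex outside `S` at smallest distance
      have hne : (Finset.univ \ S).Nonempty := by
        rw [← Finset.card_pos, Finset.card_sdiff_of_subset (Finset.subset_univ S),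
          Finset.card_univ, Fintype.card_fin]
        omega
      obtain ⟨y, hy, hymin⟩ := Finset.exists_min_image (Finset.univ \ S)
        (fun x => T.dist x0 x) hne
      have hyS : y ∉ S := (Finset.mem_sdiff.mp hy).2
      have hmin : ∀ z, T.dist x0 z < T.dist x0 y → z ∈ S := by
        intro z hz
        by_contra hcon
        have := hymin z (Finset.mem_sdiff.mpr ⟨Finset.mem_univ _, hcon⟩)
        omega
      have hyx : y ≠ x0 := fun h => hyS (h ▸ hx0)
      obtain ⟨b, hb, hb'⟩ := tree_exists_parent hT x0 hyx
      have hbS : b ∈ S := hmin b hb'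
      -- `b` is the only neighbour of `y` in `S`
      have honly : ∀ z ∈ S, T.Adj z y → z = b := by
        intro z hz hzy
        rcases lt_or_ge (T.dist x0 z) (T.dist x0 y) with h | h
        · exact tree_parent_unique hT x0 hzy hb h hb'
        · have h2 := hT.dist_ne_of_adj x0 hzy
          exact (hyS (hcl z hz y hzy.symm (by omega))).elim
      -- the new position
      have hu : ∃ u, u ∈ G y ∧ u ≠ f b ∧ (O.Adj b y → D.Adj (f b) u) ∧
          (O.Adj y b → D.Adj u (f b)) ∧ ∀ x ∈ S, f x ≠ u := by
        have hcard : (f '' ((S.erase b : Finset (Fin (k + 1))) : Set (Fin (k + 1)))).ncard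
            < k := by
          refine lt_of_le_of_lt (Set.ncard_image_le (Set.toFinite _)) ?_
          rw [Set.ncard_coe_finset, Finset.card_erase_of_mem hbS]
          omega
        rcases (hO b y).mp hb with h | h
        · have h1 := hout b y h hb' (f b) (hf2 b hbS)
          have h2 : (f '' ((S.erase b : Finset (Fin (k + 1))) :
              Set (Fin (k + 1)))).ncard < (outN D (f b) (G y)).ncard := by omega
          obtain ⟨u, hu, hu'⟩ := Set.exists_mem_notMem_of_ncard_lt_ncard h2
          refine ⟨u, hu.2.2, hu.1, fun _ => hu.2.1, fun h' => (hO' _ _ h h').elim, ?_⟩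
          intro x hx hxu
          by_cases hxb : x = b
          · subst hxb
            exact hu.1 hxu.symm
          · exact hu' ⟨x, Finset.mem_coe.mpr (Finset.mem_erase.mpr ⟨hxb, hx⟩), hxu⟩
        · have h1 := hin y b h hb' (f b) (hf2 b hbS)
          have h2 : (f '' ((S.erase b : Finset (Fin (k + 1))) :
              Set (Fin (k + 1)))).ncard < (inN D (f b) (G y)).ncard := by omega
          obtain ⟨u, hu, hu'⟩ := Set.exists_mem_notMem_of_ncard_lt_ncard h2
          refine ⟨u, hu.2.2, hu.1, fun h' => (hO' _ _ h h').elim, fun _ => hu.2.1, ?_⟩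
          intro x hx hxu
          by_cases hxb : x = b
          · subst hxb
            exact hu.1 hxu.symm
          · exact hu' ⟨x, Finset.mem_coe.mpr (Finset.mem_erase.mpr ⟨hxb, hx⟩), hxu⟩
      obtain ⟨u, huG, _, huO, huI, hunew⟩ := hu
      refine ⟨insert y S, by rw [Finset.card_insert_of_notMem hyS, hS],
        Finset.mem_insert_of_mem hx0, ?_, Function.update f y u, ?_, ?_, ?_⟩
      · intro z hz c hc hc'
        rcases Finset.mem_insert.mp hz with rfl | hz
        · exact Finset.mem_insert_of_mem (hmin c hc')
        · exact Finset.mem_insert_of_mem (hcl z hz c hc hc')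
      · intro x hx z hz hxz
        rcases Finset.mem_insert.mp (Finset.mem_coe.mp hx) with rfl | hx1
        · rcases Finset.mem_insert.mp (Finset.mem_coe.mp hz) with rfl | hz
          · rfl
          · have hne : z ≠ x := fun h => hyS (h ▸ hz)
            rw [Function.update_self, Function.update_of_ne hne] at hxz
            exact (hunew z hz hxz.symm).elim
        · have hne : x ≠ y := fun h => hyS (h ▸ hx1)
          rcases Finset.mem_insert.mp (Finset.mem_coe.mp hz) with rfl | hz1
          · rw [Function.update_self, Function.update_of_ne hne] at hxz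
            exact (hunew x hx1 hxz).elim
          · have hne' : z ≠ y := fun h => hyS (h ▸ hz1)
            rw [Function.update_of_ne hne, Function.update_of_ne hne'] at hxz
            exact hf1 (Finset.mem_coe.mpr hx1) (Finset.mem_coe.mpr hz1) hxz
      · intro x hx
        rcases Finset.mem_insert.mp hx with rfl | hx
        · rw [Function.update_self]
          exact huG
        · have hne : x ≠ y := fun h => hyS (h ▸ hx)
          rw [Function.update_of_ne hne]
          exact hf2 x hx
      · intro x hx z hz hxz
        rcases Finset.mem_insert.mp hx with rfl | hx1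
        · rcases Finset.mem_insert.mp hz with rfl | hz1
          · exact (hO' _ _ hxz hxz).elim
          · have hne : z ≠ x := fun h => hyS (h ▸ hz1)
            have hzb : z = b := honly z hz1 ((hO z x).mpr (Or.inr hxz))
            subst hzb
            rw [Function.update_self, Function.update_of_ne hne]
            exact huI hxz
        · have hne : x ≠ y := fun h => hyS (h ▸ hx1)
          rcases Finset.mem_insert.mp hz with rfl | hz1
          · have hxb : x = b := honly x hx1 ((hO x z).mpr (Or.inl hxz))
            subst hxb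
            rw [Function.update_self, Function.update_of_ne hne]
            exact huO hxz
          · have hne' : z ≠ y := fun h => hyS (h ▸ hz1)
            rw [Function.update_of_ne hne, Function.update_of_ne hne']
            exact hf3 x hx1 z hz1 hxz
  obtain ⟨S, hS, _, _, f, hf1, _, hf3⟩ := key k le_rfl
  have hSu : S = Finset.univ := by
    apply Finset.eq_univ_of_card
    rw [hS, Fintype.card_fin]
  subst hSu
  refine ⟨f, ?_, fun u v h => hf3 u (Finset.mem_univ _) v (Finset.mem_univ _) h⟩
  intro x z hxz
  exact hf1 (Finset.mem_coe.mpr (Finset.mem_univ _)) (Finset.mem_coe.mpr (Finset.mem_univ _)) hxz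

end P74ff84
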