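import Mathlib
import Pool.Agent.Lib.P74ff84.Greedy

set_option autoImplicit false

namespace P74ff84

variable {V : Type*}

/-- The part `S` of the oriented tree can be found inside the vertex set `A` of `D`. -/
def HoldsIn {k : ℕ} (D : Digraph V) (O : Digraph (Fin (k + 1))) (S : Set (Fin (k + 1)))
    (A : Set V) : Prop :=
  ∃ f : Fin (k + 1) → V, Set.InjOn f S ∧ (∀ x ∈ S, f x ∈ A) ∧
    ∀ u ∈ S, ∀ v ∈ S, O.Adj u v → D.Adj (f u) (f v)

/-- **Greedy extension.** An embedding of a part `S0` of the tree, closed under parents, is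
extended to the whole tree. -/
theorem greedy3 {k : ℕ} (D : Digraph V) (T : SimpleGraph (Fin (k + 1))) (hT : T.IsTree)
    (O : Digraph (Fin (k + 1))) (hO : ∀ u v, T.Adj u v ↔ (O.Adj u v ∨ O.Adj v u))
    (hO' : ∀ u v, O.Adj u v → ¬ O.Adj v u) (x0 : Fin (k + 1)) (G : Fin (k + 1) → Set V)
    (S0 : Set (Fin (k + 1))) (hx0 : x0 ∈ S0)
    (hcl0 : ∀ y ∈ S0, ∀ b, T.Adj b y → T.dist x0 b < T.dist x0 y → b ∈ S0)
    (f0 : Fin (k + 1) → V) (hf01 : Set.InjOn f0 S0) (hf02 : ∀ x ∈ S0, f0 x ∈ G x)
    (hf03 : ∀ u ∈ S0, ∀ v ∈ S0, O.Adj u v → D.Adj (f0 u) (f0 v))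
    (hout : ∀ a b, b ∉ S0 → O.Adj a b → T.dist x0 a < T.dist x0 b → ∀ v ∈ G a,
      {z | z ≠ a ∧ z ≠ b ∧ (G z ∩ G b).Nonempty}.ncard < (outN D v (G b)).ncard)
    (hin : ∀ a b, a ∉ S0 → O.Adj a b → T.dist x0 b < T.dist x0 a → ∀ v ∈ G b,
      {z | z ≠ b ∧ z ≠ a ∧ (G z ∩ G a).Nonempty}.ncard < (inN D v (G a)).ncard) :
    ∃ f : Fin (k + 1) → V, Function.Injective f ∧
      ∀ u v, O.Adj u v → D.Adj (f u) (f v) := by
  classical
  have key : ∀ n : ℕ, S0.ncard + n ≤ k + 1 → ∃ S : Finset (Fin (k + 1)),
      S.card = S0.ncard + n ∧ S0 ⊆ (S : Set (Fin (k + 1))) ∧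
      (∀ y ∈ S, ∀ b, T.Adj b y → T.dist x0 b < T.dist x0 y → b ∈ S) ∧
      ∃ f : Fin (k + 1) → V, Set.InjOn f (S : Set (Fin (k + 1))) ∧ (∀ x ∈ S, f x ∈ G x) ∧
        ∀ u ∈ S, ∀ v ∈ S, O.Adj u v → D.Adj (f u) (f v) := by
    intro n
    induction n with
    | zero =>
      intro _
      have e : ∀ x, x ∈ S0.toFinite.toFinset ↔ x ∈ S0 := fun x => S0.toFinite.mem_toFinset
      refine ⟨S0.toFinite.toFinset, ?_, ?_, ?_, f0, ?_, ?_, ?_⟩
      · rw [add_zero, Set.ncard_eq_toFinset_card S0]
      · intro x hx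
        exact Finset.mem_coe.mpr ((e x).mpr hx)
      · intro y hy b hb hb'
        exact (e b).mpr (hcl0 y ((e y).mp hy) b hb hb')
      · intro x hx y hy hxy
        exact hf01 ((e x).mp (Finset.mem_coe.mp hx)) ((e y).mp (Finset.mem_coe.mp hy)) hxy
      · intro x hx
        exact hf02 x ((e x).mp hx)
      · intro u hu v hv h
        exact hf03 u ((e u).mp hu) v ((e v).mp hv) h
    | succ n ih =>
      intro hn
      obtain ⟨S, hS, hS0, hcl, f, hf1, hf2, hf3⟩ := ih (by omega)
      have hx0S : x0 ∈ S := Finset.mem_coe.mp (hS0 hx0)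
      have hne : (Finset.univ \ S).Nonempty := by
        rw [← Finset.card_pos, Finset.card_sdiff_of_subset (Finset.subset_univ S),
          Finset.card_univ, Fintype.card_fin]
        omega
      obtain ⟨y, hy, hymin⟩ := Finset.exists_min_image (Finset.univ \ S)
        (fun x => T.dist x0 x) hne
      have hyS : y ∉ S := (Finset.mem_sdiff.mp hy).2
      have hyS0 : y ∉ S0 := fun h => hyS (Finset.mem_coe.mp (hS0 h))
      have hmin : ∀ z, T.dist x0 z < T.dist x0 y → z ∈ S := by
        intro z hz
        by_contra hcon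
        have := hymin z (Finset.mem_sdiff.mpr ⟨Finset.mem_univ _, hcon⟩)
        omega
      have hyx : y ≠ x0 := fun h => hyS (h ▸ hx0S)
      obtain ⟨b, hb, hb'⟩ := tree_exists_parent hT x0 hyx
      have hbS : b ∈ S := hmin b hb'
      have honly : ∀ z ∈ S, T.Adj z y → z = b := by
        intro z hz hzy
        rcases lt_or_ge (T.dist x0 z) (T.dist x0 y) with h | h
        · exact tree_parent_unique hT x0 hzy hb h hb'
        · have h2 := hT.dist_ne_of_adj x0 hzy
          exact (hyS (hcl z hz y hzy.symm (by omega))).elim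
      -- the blocked positions
      set Z : Set (Fin (k + 1)) := {z | z ≠ b ∧ z ≠ y ∧ (G z ∩ G y).Nonempty} with hZ
      have hblock : ∀ W : Set V, Z.ncard < W.ncard → W ⊆ G y → f b ∉ W →
          ∃ u ∈ W, ∀ x ∈ S, f x ≠ u := by
        intro W hW hWG hbW
        have h1 : (f '' Z).ncard < W.ncard :=
          lt_of_le_of_lt (Set.ncard_image_le (Set.toFinite _)) hW
        obtain ⟨u, hu, hu'⟩ := Set.exists_mem_notMem_of_ncard_lt_ncard h1
        refine ⟨u, hu, ?_⟩
        intro x hx hxu
        by_cases hxb : x = b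
        · subst hxb
          exact hbW (hxu ▸ hu)
        · refine hu' ⟨x, ⟨hxb, fun h => hyS (h ▸ hx), ⟨f x, hf2 x hx, ?_⟩⟩, hxu⟩
          rw [hxu]
          exact hWG hu
      have hu : ∃ u, u ∈ G y ∧ (O.Adj b y → D.Adj (f b) u) ∧
          (O.Adj y b → D.Adj u (f b)) ∧ ∀ x ∈ S, f x ≠ u := by
        rcases (hO b y).mp hb with h | h
        · obtain ⟨u, hu, hu'⟩ := hblock (outN D (f b) (G y))
            (hout b y hyS0 h hb' (f b) (hf2 b hbS)) (fun v hv => hv.2.2) (fun hv => hv.1 rfl)
          exact ⟨u, hu.2.2, fun _ => hu.2.1, fun h' => (hO' _ _ h h').elim, hu'⟩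
        · obtain ⟨u, hu, hu'⟩ := hblock (inN D (f b) (G y))
            (hin y b hyS0 h hb' (f b) (hf2 b hbS)) (fun v hv => hv.2.2) (fun hv => hv.1 rfl)
          exact ⟨u, hu.2.2, fun h' => (hO' _ _ h h').elim, fun _ => hu.2.1, hu'⟩
      obtain ⟨u, huG, huO, huI, hunew⟩ := hu
      refine ⟨insert y S, by rw [Finset.card_insert_of_notMem hyS, hS]; rfl, ?_, ?_,
        Function.update f y u, ?_, ?_, ?_⟩
      · intro x hx
        exact Finset.mem_coe.mpr (Finset.mem_insert_of_mem (Finset.mem_coe.mp (hS0 hx)))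
      · intro z hz c hc hc'
        rcases Finset.mem_insert.mp hz with rfl | hz
        · exact Finset.mem_insert_of_mem (hmin c hc')
        · exact Finset.mem_insert_of_mem (hcl z hz c hc hc')
      · intro x hx z hz hxz
        rcases Finset.mem_insert.mp (Finset.mem_coe.mp hx) with rfl | hx1
        · rcases Finset.mem_insert.mp (Finset.mem_coe.mp hz) with rfl | hz1
          · rfl
          · have hne : z ≠ x := fun h => hyS (h ▸ hz1)
            rw [Function.update_self, Function.update_of_ne hne] at hxz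
            exact (hunew z hz1 hxz.symm).elim
        · have hne : x ≠ y := fun h => hyS (h ▸ hx1)
          rcases Finset.mem_insert.mp (Finset.mem_coe.mp hz) with rfl | hz1
          · rw [Function.update_self, Function.update_of_ne hne] at hxz
            exact (hunew x hx1 hxz).elim
          · have hne' : z ≠ y := fun h => hyS (h ▸ hz1)
            rw [Function.update_of_ne hne, Function.update_of_ne hne'] at hxz
            exact hf1 (Finset.mem_coe.mpr hx1) (Finset.mem_coe.mpr hz1) hxz
      · intro x hx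
        rcases Finset.mem_insert.mp hx with rfl | hx1
        · rw [Function.update_self]
          exact huG
        · have hne : x ≠ y := fun h => hyS (h ▸ hx1)
          rw [Function.update_of_ne hne]
          exact hf2 x hx1
      · intro x hx z hz hxz
        rcases Finset.mem_insert.mp hx with rfl | hx1
        · rcases Finset.mem_insert.mp hz with rfl | hz1
          · exact (hO' _ _ hxz hxz).elim
          · have hne : z ≠ x := fun h => hyS (h ▸ hz1)
            have hzb : z = b := honly z hz1 ((hO z x).mpr (Or.inr hxz))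
            subst hzb
            rw [Function.update_self, Function.update_of_ne hne]
            exact huI hxz
        · have hne : x ≠ y := fun h => hyS (h ▸ hx1)
          rcases Finset.mem_insert.mp hz with rfl | hz1
          · have hxb : x = b := honly x hx1 ((hO x z).mpr (Or.inl hxz))
            subst hxb
            rw [Function.update_self, Function.update_of_ne hne]
            exact huO hxz
          · have hne' : z ≠ y := fun h => hyS (h ▸ hz1)
            rw [Function.update_of_ne hne, Function.update_of_ne hne']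
            exact hf3 x hx1 z hz1 hxz
  have hle : S0.ncard ≤ k + 1 := by
    have h1 := Set.ncard_le_card (α := Fin (k + 1)) S0
    rwa [Nat.card_fin] at h1
  obtain ⟨S, hS, _, _, f, hf1, _, hf3⟩ := key (k + 1 - S0.ncard) (by omega)
  have hSu : S = Finset.univ := by
    apply Finset.eq_univ_of_card
    rw [hS, Fintype.card_fin]
    omega
  subst hSu
  refine ⟨f, ?_, fun u v h => hf3 u (Finset.mem_univ _) v (Finset.mem_univ _) h⟩
  intro x z hxz
  exact hf1 (Finset.mem_coe.mpr (Finset.mem_univ _)) (Finset.mem_coe.mpr (Finset.mem_univ _)) hxz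

end P74ff84
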