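import Mathlib
import Pool.Agent.Lib.P74ff84.Greedy3

set_option autoImplicit false

namespace P74ff84

variable {V : Type*}

/-- A fresh vertex in a large set. -/
theorem fresh_large [Finite V] {k : ℕ} (N : Set V) (X : Finset (Fin (k + 1))) (hX : X.card ≤ k)
    (f : Fin (k + 1) → V) (b : Fin (k + 1)) (hb : b ∈ X) (hbN : f b ∉ N) (hN : k ≤ N.ncard) :
    ∃ u ∈ N, ∀ x ∈ X, f x ≠ u := by
  classical
  have h1 : (f '' ((X.erase b : Finset (Fin (k + 1))) : Set (Fin (k + 1)))).ncard < N.ncard := by
    have h2 := Set.ncard_image_le (f := f)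
      (s := ((X.erase b : Finset (Fin (k + 1))) : Set (Fin (k + 1)))) (Set.toFinite _)
    rw [Set.ncard_coe_finset, Finset.card_erase_of_mem hb] at h2
    have h3 := Finset.card_pos.mpr ⟨b, hb⟩
    omega
  obtain ⟨u, huN, hu⟩ := Set.exists_mem_notMem_of_ncard_lt_ncard h1 (Set.toFinite _)
  refine ⟨u, huN, fun x hx hxu => ?_⟩
  by_cases hxb : x = b
  · subst hxb
    rw [hxu] at hbN
    exact hbN huN
  · exact hu ⟨x, Finset.mem_coe.mpr (Finset.mem_erase.mpr ⟨hxb, hx⟩), hxu⟩

/-- A fresh vertex in a reserved set. -/
theorem fresh_small [Finite V] {k : ℕ} (N R0 : Set V) (X Y : Finset (Fin (k + 1)))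
    (f : Fin (k + 1) → V) (hR0 : ∀ x ∈ X, x ∉ Y → f x ∈ R0) (hNR : ∀ u ∈ N, u ∉ R0)
    (hN : Y.card < N.ncard) :
    ∃ u ∈ N, ∀ x ∈ X, f x ≠ u := by
  classical
  have h1 : (f '' ((Y : Finset (Fin (k + 1))) : Set (Fin (k + 1)))).ncard < N.ncard := by
    have h2 := Set.ncard_image_le (f := f) (s := (Y : Set (Fin (k + 1)))) (Set.toFinite _)
    rw [Set.ncard_coe_finset] at h2
    omega
  obtain ⟨u, huN, hu⟩ := Set.exists_mem_notMem_of_ncard_lt_ncard h1 (Set.toFinite _)
  refine ⟨u, huN, fun x hx hxu => ?_⟩
  by_cases hxY : x ∈ Y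
  · exact hu ⟨x, Finset.mem_coe.mpr hxY, hxu⟩
  · have := hR0 x hx hxY
    rw [hxu] at this
    exact hNR u huN this

/-- **Chains.** The batches are placed one after the other, in larger and larger hosts. A vertex
of the host has many neighbours, or enough neighbours in the new part of the host. -/
theorem chain_main [Finite V] {k : ℕ} (D : Digraph V) (T : SimpleGraph (Fin (k + 1)))
    (hT : T.IsTree) (O : Digraph (Fin (k + 1)))
    (hO : ∀ u v, T.Adj u v ↔ (O.Adj u v ∨ O.Adj v u))
    (hO' : ∀ u v, O.Adj u v → ¬ O.Adj v u)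
    (S : Set (Fin (k + 1))) (x0 : Fin (k + 1)) (hx0 : x0 ∈ S)
    (hcl : ∀ y ∈ S, ∀ b, T.Adj b y → T.dist x0 b < T.dist x0 y → b ∈ S)
    (β : Fin (k + 1) → ℕ) (dir : ℕ → Prop) (L : ℕ)
    (hβ0 : ∀ x, β x = 0 ↔ x ∈ S)
    (hβ : ∀ x y, (O.Adj x y ∨ O.Adj y x) → T.dist x0 x < T.dist x0 y → 1 ≤ β y → β x < β y)
    (hd1 : ∀ a b, O.Adj a b → T.dist x0 a < T.dist x0 b → 1 ≤ β b → dir (β b))
    (hd2 : ∀ a b, O.Adj a b → T.dist x0 b < T.dist x0 a → 1 ≤ β a → ¬ dir (β a))
    (hL : ∀ x, β x ≤ L)
    (R : ℕ → Set V) (hR : ∀ i, R i ⊆ R (i + 1))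
    (hs1 : ∀ i < L, dir (i + 1) → ∀ v ∈ R i, k ≤ (outN D v (R (i + 1))).ncard ∨
      {x | β x = i + 1}.ncard ≤ (outN D v (R (i + 1) \ R i)).ncard)
    (hs2 : ∀ i < L, ¬ dir (i + 1) → ∀ v ∈ R i, k ≤ (inN D v (R (i + 1))).ncard ∨
      {x | β x = i + 1}.ncard ≤ (inN D v (R (i + 1) \ R i)).ncard)
    (h0 : HoldsIn D O S (R 0)) :
    ∃ f : Fin (k + 1) → V, Function.Injective f ∧
      ∀ u v, O.Adj u v → D.Adj (f u) (f v) := by
  classical
  have key : ∀ i ≤ L, ∃ f : Fin (k + 1) → V,
      (∀ x y, β x ≤ i → β y ≤ i → f x = f y → x = y) ∧ (∀ x, β x ≤ i → f x ∈ R i) ∧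
      ∀ u v, β u ≤ i → β v ≤ i → O.Adj u v → D.Adj (f u) (f v) := by
    intro i
    induction i with
    | zero =>
      intro _
      obtain ⟨f, hf1, hf2, hf3⟩ := h0
      have hS : ∀ x, β x ≤ 0 → x ∈ S := fun x hx => (hβ0 x).mp (by omega)
      exact ⟨f, fun x y hx hy h => hf1 (hS x hx) (hS y hy) h, fun x hx => hf2 x (hS x hx),
        fun u v hu hv h => hf3 u (hS u hu) v (hS v hv) h⟩
    | succ i ih =>
      intro hi
      obtain ⟨f, hf1, hf2, hf3⟩ := ih (by omega)
      -- place the vertices of the batch one after the other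
      have inner : ∀ Y : Finset (Fin (k + 1)), (∀ y ∈ Y, β y = i + 1) →
          ∃ f' : Fin (k + 1) → V, (∀ x, β x ≤ i → f' x = f x) ∧
          (∀ x y, (β x ≤ i ∨ x ∈ Y) → (β y ≤ i ∨ y ∈ Y) → f' x = f' y → x = y) ∧
          (∀ x ∈ Y, f' x ∈ R (i + 1)) ∧
          ∀ u v, (β u ≤ i ∨ u ∈ Y) → (β v ≤ i ∨ v ∈ Y) → O.Adj u v → D.Adj (f' u) (f' v) := by
        intro Y
        induction Y using Finset.induction_on with
        | empty =>
          intro _
          refine ⟨f, fun _ _ => rfl, ?_, by simp, ?_⟩
          · intro x y hx hy h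
            exact hf1 x y (hx.resolve_right (by simp)) (hy.resolve_right (by simp)) h
          · intro u v hu hv h
            exact hf3 u v (hu.resolve_right (by simp)) (hv.resolve_right (by simp)) h
        | insert y Y hyY ihY =>
          intro hY
          obtain ⟨f', hf'0, hf'1, hf'2, hf'3⟩ := ihY (fun z hz => hY z (Finset.mem_insert_of_mem hz))
          have hy : β y = i + 1 := hY y (Finset.mem_insert_self y Y)
          have hYβ : ∀ z ∈ Y, β z = i + 1 := fun z hz => hY z (Finset.mem_insert_of_mem hz)
          have hyS : y ∉ S := by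
            intro h
            have := (hβ0 y).mpr h
            omega
          have hyx : y ≠ x0 := fun h => hyS (h ▸ hx0)
          obtain ⟨b, hb, hb'⟩ := tree_exists_parent hT x0 hyx
          have hbO : O.Adj b y ∨ O.Adj y b := (hO b y).mp hb
          have hbβ : β b ≤ i := by
            have := hβ b y hbO hb' (by omega)
            omega
          -- the parent is the only neighbour already placed
          have honly : ∀ z, (β z ≤ i ∨ z ∈ Y) → T.Adj z y → z = b := by
            intro z hz hzy
            rcases lt_or_ge (T.dist x0 z) (T.dist x0 y) with h | h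
            · exact tree_parent_unique hT x0 hzy hb h hb'
            · exfalso
              have h2 := hT.dist_ne_of_adj x0 hzy
              have h3 : T.dist x0 y < T.dist x0 z := by omega
              have hzS : z ∉ S := fun hzS => hyS (hcl z hzS y hzy.symm h3)
              have hz1 : 1 ≤ β z := by
                by_contra hcon
                exact hzS ((hβ0 z).mp (by omega))
              have h4 := hβ y z ((hO y z).mp hzy.symm) h3 hz1
              rcases hz with hz | hz
              · omega
              · have := hYβ z hz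
                omega
          set X : Finset (Fin (k + 1)) := Finset.univ.filter (fun x => β x ≤ i ∨ x ∈ Y) with hX
          have hXmem : ∀ x, x ∈ X ↔ (β x ≤ i ∨ x ∈ Y) := fun x => by simp [hX]
          have hXcard : X.card ≤ k := by
            have h1 : X ⊆ Finset.univ.erase y := by
              intro x hx
              refine Finset.mem_erase.mpr ⟨?_, Finset.mem_univ x⟩
              rintro rfl
              rcases (hXmem x).mp hx with h | h
              · omega
              · exact hyY h
            have h2 := Finset.card_le_card h1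
            rw [Finset.card_erase_of_mem (Finset.mem_univ y), Finset.card_univ,
              Fintype.card_fin] at h2
            omega
          have hYcard : Y.card < {x | β x = i + 1}.ncard := by
            have h1 : ((insert y Y : Finset (Fin (k + 1))) : Set (Fin (k + 1)))
                ⊆ {x | β x = i + 1} := fun z hz => hY z (Finset.mem_coe.mp hz)
            have h2 := Set.ncard_le_ncard h1 (Set.toFinite _)
            rw [Set.ncard_coe_finset, Finset.card_insert_of_notMem hyY] at h2
            omega
          have hfb : f' b ∈ R i := by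
            rw [hf'0 b hbβ]
            exact hf2 b hbβ
          have hfresh : ∀ N N' : Set V, f' b ∉ N → (∀ u ∈ N', u ∉ R i) →
              (k ≤ N.ncard ∨ {x | β x = i + 1}.ncard ≤ N'.ncard) →
              ∃ u, (u ∈ N ∨ u ∈ N') ∧ ∀ x ∈ X, f' x ≠ u := by
            intro N N' hbN hN' h
            rcases h with h | h
            · obtain ⟨u, hu1, hu2⟩ := fresh_large N X hXcard f' b
                ((hXmem b).mpr (Or.inl hbβ)) hbN h
              exact ⟨u, Or.inl hu1, hu2⟩
            · obtain ⟨u, hu1, hu2⟩ := fresh_small N' (R i) X Y f' (by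
                intro x hx hxY
                have hx' := ((hXmem x).mp hx).resolve_right hxY
                rw [hf'0 x hx']
                exact hf2 x hx') hN' (by omega)
              exact ⟨u, Or.inr hu1, hu2⟩
          have hu : ∃ u ∈ R (i + 1), (O.Adj b y → D.Adj (f' b) u) ∧
              (O.Adj y b → D.Adj u (f' b)) ∧ ∀ x ∈ X, f' x ≠ u := by
            rcases hbO with h1 | h1
            · have hdir : dir (i + 1) := hy ▸ hd1 b y h1 hb' (by omega)
              obtain ⟨u, hu1, hu2⟩ := hfresh (outN D (f' b) (R (i + 1)))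
                (outN D (f' b) (R (i + 1) \ R i)) (fun h => h.1 rfl) (fun u hu => hu.2.2.2)
                (hs1 i (by omega) hdir (f' b) hfb)
              rcases hu1 with hu1 | hu1
              · exact ⟨u, hu1.2.2, fun _ => hu1.2.1, fun h' => (hO' _ _ h1 h').elim, hu2⟩
              · exact ⟨u, hu1.2.2.1, fun _ => hu1.2.1, fun h' => (hO' _ _ h1 h').elim, hu2⟩
            · have hdir : ¬ dir (i + 1) := hy ▸ hd2 y b h1 hb' (by omega)
              obtain ⟨u, hu1, hu2⟩ := hfresh (inN D (f' b) (R (i + 1)))
                (inN D (f' b) (R (i + 1) \ R i)) (fun h => h.1 rfl) (fun u hu => hu.2.2.2)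
                (hs2 i (by omega) hdir (f' b) hfb)
              rcases hu1 with hu1 | hu1
              · exact ⟨u, hu1.2.2, fun h' => (hO' _ _ h1 h').elim, fun _ => hu1.2.1, hu2⟩
              · exact ⟨u, hu1.2.2.1, fun h' => (hO' _ _ h1 h').elim, fun _ => hu1.2.1, hu2⟩
          obtain ⟨u, huR, huO, huI, huX⟩ := hu
          have hupd : ∀ x, x ≠ y → Function.update f' y u x = f' x := fun x hx =>
            Function.update_of_ne hx _ _
          have hnew : ∀ x, (β x ≤ i ∨ x ∈ insert y Y) → x = y ∨ (x ≠ y ∧ (β x ≤ i ∨ x ∈ Y)) := by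
            intro x hx
            by_cases hxy : x = y
            · exact Or.inl hxy
            · right
              refine ⟨hxy, ?_⟩
              rcases hx with h | h
              · exact Or.inl h
              · exact Or.inr ((Finset.mem_insert.mp h).resolve_left hxy)
          refine ⟨Function.update f' y u, ?_, ?_, ?_, ?_⟩
          · intro x hx
            have hxy : x ≠ y := by
              rintro rfl
              omega
            rw [hupd x hxy]
            exact hf'0 x hx
          · intro x z hx hz hxz
            rcases hnew x hx with rfl | ⟨hx1, hx2⟩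
            · rcases hnew z hz with rfl | ⟨hz1, hz2⟩
              · rfl
              · rw [Function.update_self, hupd z hz1] at hxz
                exact (huX z ((hXmem z).mpr hz2) hxz.symm).elim
            · rcases hnew z hz with rfl | ⟨hz1, hz2⟩
              · rw [Function.update_self, hupd x hx1] at hxz
                exact (huX x ((hXmem x).mpr hx2) hxz).elim
              · rw [hupd x hx1, hupd z hz1] at hxz
                exact hf'1 x z hx2 hz2 hxz
          · intro x hx
            rcases Finset.mem_insert.mp hx with rfl | hx1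
            · rw [Function.update_self]
              exact huR
            · have hxy : x ≠ y := fun h => hyY (h ▸ hx1)
              rw [hupd x hxy]
              exact hf'2 x hx1
          · intro x z hx hz hxz
            rcases hnew x hx with rfl | ⟨hx1, hx2⟩
            · rcases hnew z hz with rfl | ⟨hz1, hz2⟩
              · exact (hO' _ _ hxz hxz).elim
              · have hzb : z = b := honly z hz2 ((hO z x).mpr (Or.inr hxz))
                subst hzb
                rw [Function.update_self, hupd z hz1]
                exact huI hxz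
            · rcases hnew z hz with rfl | ⟨hz1, hz2⟩
              · have hxb : x = b := honly x hx2 ((hO x z).mpr (Or.inl hxz))
                subst hxb
                rw [Function.update_self, hupd x hx1]
                exact huO hxz
              · rw [hupd x hx1, hupd z hz1]
                exact hf'3 x z hx2 hz2 hxz
      obtain ⟨f', hf'0, hf'1, hf'2, hf'3⟩ := inner (Finset.univ.filter (fun x => β x = i + 1))
        (fun y hy => (Finset.mem_filter.mp hy).2)
      have hmem : ∀ x, β x ≤ i + 1 → (β x ≤ i ∨
          x ∈ Finset.univ.filter (fun x => β x = i + 1)) := by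
        intro x hx
        rcases Nat.lt_or_ge i (β x) with h | h
        · exact Or.inr (Finset.mem_filter.mpr ⟨Finset.mem_univ x, by omega⟩)
        · exact Or.inl h
      refine ⟨f', fun x y hx hy h => hf'1 x y (hmem x hx) (hmem y hy) h, ?_,
        fun u v hu hv h => hf'3 u v (hmem u hu) (hmem v hv) h⟩
      intro x hx
      rcases hmem x hx with h | h
      · rw [hf'0 x h]
        exact hR i (hf2 x h)
      · exact hf'2 x h
  obtain ⟨f, hf1, _, hf3⟩ := key L le_rfl
  exact ⟨f, fun x y h => hf1 x y (hL x) (hL y) h, fun u v h => hf3 u v (hL u) (hL v) h⟩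

end P74ff84
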