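import Mathlib

set_option autoImplicit false

namespace P74ff84

open Finset

section

variable {V : Type*} [Fintype V]

open Classical in
/-- The iterated weights. -/
noncomputable def Wi (A : V → V → Prop) (K : ℝ) : ℕ → V → ℝ
  | 0, _ => 1
  | i + 1, x => 1 + 1 / K * ∑ u ∈ univ.filter (fun u => A u x), Wi A K i u

open Classical in
theorem band_weight (A : V → V → Prop) (k : ℕ) (hk : 1 ≤ k)
    (hout : ∀ v, (univ.filter (fun u => A v u)).card ≤ k) :
    ∃ p : V → ℝ, (∀ x, 1 ≤ p x) ∧
      ∀ x, ∑ u ∈ univ.filter (fun u => A u x), p u ≤ 2 * k * p x := by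
  set K : ℝ := 2 * k with hK
  have hk' : (1 : ℝ) ≤ k := by exact_mod_cast hk
  have hK0 : 0 < K := by rw [hK]; linarith
  set W := Wi A K with hW
  have hW0 : ∀ x, W 0 x = 1 := fun x => rfl
  have hWs : ∀ i x, W (i + 1) x = 1 + 1 / K * ∑ u ∈ univ.filter (fun u => A u x), W i u :=
    fun i x => rfl
  have hWpos : ∀ i x, 1 ≤ W i x := by
    intro i
    induction i with
    | zero => intro x; rw [hW0]
    | succ i ih =>
      intro x
      rw [hWs]
      have : 0 ≤ 1 / K * ∑ u ∈ univ.filter (fun u => A u x), W i u := by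
        apply mul_nonneg (by positivity)
        exact Finset.sum_nonneg (fun u _ => by linarith [ih u])
      linarith
  set δ : ℕ → V → ℝ := fun i x => W (i + 1) x - W i x with hδ
  have hδs : ∀ i x, δ (i + 1) x = 1 / K * ∑ u ∈ univ.filter (fun u => A u x), δ i u := by
    intro i x
    simp only [hδ]
    rw [hWs (i + 1), hWs i, Finset.sum_sub_distrib]
    ring
  have hδ0 : ∀ i x, 0 ≤ δ i x := by
    intro i
    induction i with
    | zero =>
      intro x
      simp only [hδ]
      rw [hW0]
      linarith [hWpos 1 x]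
    | succ i ih =>
      intro x
      rw [hδs]
      apply mul_nonneg (by positivity)
      exact Finset.sum_nonneg (fun u _ => ih u)
  have hsum : ∀ i, ∑ x, δ (i + 1) x ≤ 1 / 2 * ∑ x, δ i x := by
    intro i
    calc ∑ x, δ (i + 1) x = 1 / K * ∑ x, ∑ u, (if A u x then δ i u else 0) := by
          rw [Finset.mul_sum]
          refine Finset.sum_congr rfl (fun x _ => ?_)
          rw [hδs, Finset.sum_filter]
      _ = 1 / K * ∑ u, ((univ.filter (fun x => A u x)).card : ℝ) * δ i u := by
          rw [Finset.sum_comm]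
          congr 1
          refine Finset.sum_congr rfl (fun u _ => ?_)
          rw [← Finset.sum_filter, Finset.sum_const, nsmul_eq_mul]
      _ ≤ 1 / K * ∑ u, (k : ℝ) * δ i u := by
          apply mul_le_mul_of_nonneg_left _ (by positivity)
          refine Finset.sum_le_sum (fun u _ => ?_)
          apply mul_le_mul_of_nonneg_right _ (hδ0 i u)
          exact_mod_cast hout u
      _ = 1 / 2 * ∑ x, δ i x := by
          rw [← Finset.mul_sum, hK]
          field_simp
  have hsum' : ∀ i, ∑ x, δ i x ≤ (1 / 2) ^ i * ∑ x, δ 0 x := by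
    intro i
    induction i with
    | zero => simp
    | succ i ih =>
      calc ∑ x, δ (i + 1) x ≤ 1 / 2 * ∑ x, δ i x := hsum i
        _ ≤ 1 / 2 * ((1 / 2) ^ i * ∑ x, δ 0 x) := by linarith
        _ = _ := by ring
  obtain ⟨i, hi⟩ : ∃ i : ℕ, ∑ x, δ i x ≤ 1 := by
    have hD : 0 ≤ ∑ x, δ 0 x := Finset.sum_nonneg (fun x _ => hδ0 0 x)
    obtain ⟨i, hi⟩ := exists_pow_lt_of_lt_one (show (0 : ℝ) < 1 / (∑ x, δ 0 x + 1) by positivity)
      (show (1 / 2 : ℝ) < 1 by norm_num)
    refine ⟨i, (hsum' i).trans ?_⟩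
    rw [lt_div_iff₀ (by positivity)] at hi
    have : (0 : ℝ) ≤ (1 / 2) ^ i := by positivity
    nlinarith
  refine ⟨W i, hWpos i, fun x => ?_⟩
  have h1 : δ i x ≤ 1 := (Finset.single_le_sum (fun y _ => hδ0 i y) (Finset.mem_univ x)).trans hi
  have h2 : W (i + 1) x ≤ W i x + 1 := by
    simp only [hδ] at h1
    linarith
  rw [hWs] at h2
  have h3 : 1 / K * ∑ u ∈ univ.filter (fun u => A u x), W i u ≤ W i x := by linarith
  rw [one_div, inv_mul_le_iff₀ hK0] at h3
  exact h3

open Classical in
/-- **Bands.** Arcs go at most one band up; few in-neighbours at bounded distance. -/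
theorem exists_bands (A : V → V → Prop) (k : ℕ) (hk : 1 ≤ k)
    (hout : ∀ v, (univ.filter (fun u => A v u)).card ≤ k) :
    ∃ t : V → ℕ, (∀ u x, A u x → t x ≤ t u + 1) ∧
      ∀ (J : ℕ) (x : V), (univ.filter (fun u => A u x ∧ t u ≤ t x + J)).card
        ≤ (2 * k) ^ (J + 2) := by
  obtain ⟨p, hp1, hp⟩ := band_weight A k hk hout
  set K : ℝ := 2 * k with hK
  have hk' : (1 : ℝ) ≤ k := by exact_mod_cast hk
  have hK1 : 1 < K := by rw [hK]; linarith
  have hK0 : 0 < K := by linarith
  have hn : ∀ x, ∃ n : ℕ, K ^ n ≤ p x ∧ p x < K ^ (n + 1) := fun x =>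
    exists_nat_pow_near (hp1 x) hK1
  choose n hn1 hn2 using hn
  set B : ℕ := Finset.univ.sup n with hB
  have hnB : ∀ x, n x ≤ B := fun x => Finset.le_sup (Finset.mem_univ x)
  have hpow : ∀ a b : ℕ, K ^ a < K ^ b → a < b := fun a b h =>
    (pow_lt_pow_iff_right₀ hK1).mp h
  refine ⟨fun x => B - n x, ?_, ?_⟩
  · intro u x hux
    have h1 : p u ≤ K * p x := by
      refine le_trans ?_ (hp x)
      exact Finset.single_le_sum (f := p) (fun y _ => by linarith [hp1 y])
        (Finset.mem_filter.mpr ⟨Finset.mem_univ u, hux⟩)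
    have h2 : K ^ (n u) < K ^ (n x + 1 + 1) := by
      calc K ^ (n u) ≤ p u := hn1 u
        _ ≤ K * p x := h1
        _ < K * K ^ (n x + 1) := mul_lt_mul_of_pos_left (hn2 x) hK0
        _ = _ := by ring
    have h3 := hpow _ _ h2
    have h4 := hnB x
    have h5 := hnB u
    simp only
    omega
  · intro J x
    set S := univ.filter (fun u => A u x ∧ B - n u ≤ B - n x + J) with hS
    have h1 : ∀ u ∈ S, K ^ (n x) ≤ K ^ J * p u := by
      intro u hu
      have h2 := (Finset.mem_filter.mp hu).2.2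
      have h4 := hnB x
      have h5 := hnB u
      have h3 : n x ≤ J + n u := by omega
      calc K ^ (n x) ≤ K ^ (J + n u) := pow_le_pow_right₀ hK1.le h3
        _ = K ^ J * K ^ (n u) := pow_add _ _ _
        _ ≤ K ^ J * p u := mul_le_mul_of_nonneg_left (hn1 u) (by positivity)
    have h2 : (S.card : ℝ) * K ^ (n x) < K ^ (J + 2) * K ^ (n x) := by
      calc (S.card : ℝ) * K ^ (n x) = ∑ _u ∈ S, K ^ (n x) := by
            rw [Finset.sum_const, nsmul_eq_mul]
        _ ≤ ∑ u ∈ S, K ^ J * p u := Finset.sum_le_sum h1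
        _ = K ^ J * ∑ u ∈ S, p u := by rw [Finset.mul_sum]
        _ ≤ K ^ J * (K * p x) := by
            apply mul_le_mul_of_nonneg_left _ (by positivity)
            refine le_trans ?_ (hp x)
            refine Finset.sum_le_sum_of_subset_of_nonneg ?_ (fun y _ _ => by linarith [hp1 y])
            intro u hu
            exact Finset.mem_filter.mpr ⟨Finset.mem_univ u, (Finset.mem_filter.mp hu).2.1⟩
        _ < K ^ J * (K * K ^ (n x + 1)) := by
            apply mul_lt_mul_of_pos_left _ (by positivity)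
            exact mul_lt_mul_of_pos_left (hn2 x) hK0
        _ = _ := by ring
    have h3 : (S.card : ℝ) < K ^ (J + 2) := lt_of_mul_lt_mul_right h2 (by positivity)
    have h4 : (S.card : ℝ) < (((2 * k) ^ (J + 2) : ℕ) : ℝ) := by
      push_cast
      rw [← hK]
      exact h3
    have h5 : S.card < (2 * k) ^ (J + 2) := by exact_mod_cast h4
    exact h5.le

end

end P74ff84
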