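import Mathlib

set_option autoImplicit false
set_option linter.unusedSectionVars false
set_option linter.unusedDecidableInType false

namespace P74ff84

/-! ### Product weights and the symmetric local lemma -/

section

variable {V C : Type*} [Fintype V] [DecidableEq V] [Fintype C]

/-- The weight of a choice. -/
noncomputable def wt (w : V → C → ℝ) (g : V → C) : ℝ := ∏ x, w x (g x)

open Classical in
/-- The probability of an event. -/
noncomputable def Pb (w : V → C → ℝ) (E : Set (V → C)) : ℝ :=
  ∑ g, if g ∈ E then wt w g else 0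

/-- The event depends only on the coins in `S`. -/
def Dep (E : Set (V → C)) (S : Set V) : Prop :=
  ∀ g h : V → C, (∀ x ∈ S, g x = h x) → (g ∈ E ↔ h ∈ E)

theorem Dep.mono {E : Set (V → C)} {S T : Set V} (h : Dep E S) (hST : S ⊆ T) : Dep E T :=
  fun g g' hg => h g g' (fun x hx => hg x (hST hx))

theorem Dep.compl {E : Set (V → C)} {S : Set V} (h : Dep E S) : Dep Eᶜ S :=
  fun g g' hg => not_congr (h g g' hg)

theorem wt_nonneg {w : V → C → ℝ} (hw : ∀ x c, 0 ≤ w x c) (g : V → C) : 0 ≤ wt w g :=
  Finset.prod_nonneg (fun x _ => hw x (g x))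

theorem Pb_mono {w : V → C → ℝ} (hw : ∀ x c, 0 ≤ w x c) {E F : Set (V → C)} (h : E ⊆ F) :
    Pb w E ≤ Pb w F := by
  classical
  unfold Pb
  refine Finset.sum_le_sum (fun g _ => ?_)
  by_cases h1 : g ∈ E
  · simp only [h1, if_true, h h1]
    exact le_rfl
  · simp only [h1, if_false]
    split_ifs
    · exact wt_nonneg hw g
    · exact le_rfl

theorem Pb_nonneg {w : V → C → ℝ} (hw : ∀ x c, 0 ≤ w x c) (E : Set (V → C)) : 0 ≤ Pb w E := by
  classical
  unfold Pb
  refine Finset.sum_nonneg (fun g _ => ?_)
  split_ifs
  · exact wt_nonneg hw g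
  · exact le_rfl

theorem Pb_union_le {w : V → C → ℝ} (hw : ∀ x c, 0 ≤ w x c) (E F : Set (V → C)) :
    Pb w (E ∪ F) ≤ Pb w E + Pb w F := by
  classical
  unfold Pb
  rw [← Finset.sum_add_distrib]
  refine Finset.sum_le_sum (fun g _ => ?_)
  have h0 := wt_nonneg hw g
  by_cases h1 : g ∈ E <;> by_cases h2 : g ∈ F <;> simp [h1, h2, h0]

theorem Pb_inter_compl (w : V → C → ℝ) (E F : Set (V → C)) :
    Pb w (Eᶜ ∩ F) = Pb w F - Pb w (E ∩ F) := by
  classical
  unfold Pb
  rw [← Finset.sum_sub_distrib]
  refine Finset.sum_congr rfl (fun g _ => ?_)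
  by_cases h1 : g ∈ E <;> by_cases h2 : g ∈ F <;> simp [h1, h2]

theorem Pb_univ (w : V → C → ℝ) (h1 : ∀ x, ∑ c, w x c = 1) :
    Pb w Set.univ = 1 := by
  classical
  unfold Pb
  simp only [Set.mem_univ, if_true]
  have h := Finset.prod_univ_sum (fun _ : V => (Finset.univ : Finset C)) (fun x c => w x c)
  rw [Fintype.piFinset_univ] at h
  unfold wt
  rw [← h]
  simp [h1]

/-- The swap of the coins outside `S`. -/
theorem swap_involutive (S : Set V) [DecidablePred (· ∈ S)] :
    Function.Involutive (fun p : (V → C) × (V → C) =>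
      ((fun x => if x ∈ S then p.1 x else p.2 x), (fun x => if x ∈ S then p.2 x else p.1 x))) := by
  rintro ⟨g, h⟩
  ext x
  · simp only
    split_ifs <;> rfl
  · simp only
    split_ifs <;> rfl

/-- Events that depend on disjoint sets of coins are independent. -/
theorem Pb_indep (w : V → C → ℝ) (h1 : ∀ x, ∑ c, w x c = 1)
    {E F : Set (V → C)} {S T : Set V} (hE : Dep E S) (hF : Dep F T) (hST : Disjoint S T) :
    Pb w (E ∩ F) = Pb w E * Pb w F := by
  classical
  have hleft : Pb w (E ∩ F) = ∑ p : (V → C) × (V → C),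
      (if p.1 ∈ E ∩ F then wt w p.1 else 0) * wt w p.2 := by
    rw [Fintype.sum_prod_type]
    have h2 := Pb_univ w h1
    unfold Pb at h2 ⊢
    simp only [Set.mem_univ, if_true] at h2
    have e : ∀ c : ℝ, ∑ h : V → C, c * wt w h = c := fun c => by
      rw [← Finset.mul_sum, h2, mul_one]
    simp only [e]
    refine Finset.sum_congr rfl (fun g _ => ?_)
    by_cases h : g ∈ E ∩ F <;> simp only [h, if_true, if_false]
  have hright : Pb w E * Pb w F = ∑ p : (V → C) × (V → C),
      (if p.1 ∈ E then wt w p.1 else 0) * (if p.2 ∈ F then wt w p.2 else 0) := by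
    rw [Fintype.sum_prod_type]
    unfold Pb
    rw [Finset.sum_mul_sum]
    try rfl
  rw [hleft, hright]
  refine Fintype.sum_equiv (swap_involutive (C := C) S).toPerm _ _ ?_
  rintro ⟨g, h⟩
  simp only [Function.Involutive.coe_toPerm]
  have hw : wt w g * wt w h = wt w (fun x => if x ∈ S then g x else h x) *
      wt w (fun x => if x ∈ S then h x else g x) := by
    unfold wt
    rw [← Finset.prod_mul_distrib, ← Finset.prod_mul_distrib]
    refine Finset.prod_congr rfl (fun x _ => ?_)
    by_cases hx : x ∈ S
    · simp [hx]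
    · simp [hx, mul_comm]
  have hE' : (fun x => if x ∈ S then g x else h x) ∈ E ↔ g ∈ E :=
    hE _ _ (fun x hx => by simp [hx])
  have hF' : (fun x => if x ∈ S then h x else g x) ∈ F ↔ g ∈ F := by
    refine hF _ _ (fun x hx => ?_)
    have : x ∉ S := fun hS => Set.disjoint_left.mp hST hS hx
    simp [this]
  by_cases c1 : g ∈ E <;> by_cases c2 : g ∈ F <;> simp [c1, c2, hE', hF', hw]

end

section

variable {V C ι : Type*} [Fintype V] [DecidableEq V] [Fintype C]

/-- No bad event of the set `T`. -/
def Good (E : ι → Set (V → C)) (T : Finset ι) : Set (V → C) := {g | ∀ i ∈ T, g ∉ E i}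

theorem Good_dep (E : ι → Set (V → C)) (S : ι → Set V) (hE : ∀ i, Dep (E i) (S i))
    (T : Finset ι) : Dep (Good E T) (⋃ i ∈ T, S i) := by
  intro g h hgh
  constructor
  · intro hg i hi hcon
    exact hg i hi (((hE i) g h (fun x hx => hgh x (Set.mem_biUnion hi hx))).mpr hcon)
  · intro hg i hi hcon
    exact hg i hi (((hE i) g h (fun x hx => hgh x (Set.mem_biUnion hi hx))).mp hcon)

theorem Good_insert [DecidableEq ι] (E : ι → Set (V → C)) (i : ι) (T : Finset ι) :
    Good E (insert i T) = (E i)ᶜ ∩ Good E T := by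
  ext g
  simp only [Good, Set.mem_ofPred_eq, Finset.mem_insert, forall_eq_or_imp, Set.mem_inter_iff,
    Set.mem_compl_iff]

/-- Removing the events of `T1` costs at most the sum. -/
theorem Good_union [DecidableEq ι] (w : V → C → ℝ) (hw : ∀ x c, 0 ≤ w x c)
    (E : ι → Set (V → C)) (T1 T2 : Finset ι) :
    Pb w (Good E T2) - ∑ j ∈ T1, Pb w (E j ∩ Good E T2) ≤ Pb w (Good E (T1 ∪ T2)) := by
  induction T1 using Finset.induction_on with
  | empty => simp
  | insert a T1 ha ih =>
    rw [Finset.sum_insert ha, Finset.insert_union, Good_insert, Pb_inter_compl]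
    have h1 : Pb w (E a ∩ Good E (T1 ∪ T2)) ≤ Pb w (E a ∩ Good E T2) := by
      refine Pb_mono hw ?_
      rintro g ⟨hg1, hg2⟩
      exact ⟨hg1, fun i hi => hg2 i (Finset.mem_union_right _ hi)⟩
    linarith

open Classical in
/-- **The symmetric local lemma** for a product of finite weights. -/
theorem local_lemma [Fintype ι] (w : V → C → ℝ) (hw : ∀ x c, 0 ≤ w x c)
    (h1 : ∀ x, ∑ c, w x c = 1) (E : ι → Set (V → C)) (S : ι → Set V)
    (hE : ∀ i, Dep (E i) (S i)) (q : ℝ) (hq0 : 0 ≤ q) (hq : ∀ i, Pb w (E i) ≤ q) (d : ℕ)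
    (hd : ∀ i, (Finset.univ.filter (fun j => ¬ Disjoint (S i) (S j))).card ≤ d)
    (h4 : 4 * q ≤ 1) (h4d : 4 * q * d ≤ 1) :
    ∃ g : V → C, 0 < wt w g ∧ ∀ i, g ∉ E i := by
  have key : ∀ n : ℕ, ∀ T : Finset ι, T.card ≤ n →
      0 < Pb w (Good E T) ∧ ∀ i ∉ T, Pb w (E i ∩ Good E T) ≤ 2 * q * Pb w (Good E T) := by
    intro n
    induction n with
    | zero =>
      intro T hT
      have hT0 : T = ∅ := Finset.card_eq_zero.mp (by omega)
      subst hT0
      have hG : Good E ∅ = Set.univ := by
        ext g
        simp [Good]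
      rw [hG]
      have h2 := Pb_univ w h1
      refine ⟨by rw [h2]; norm_num, fun i _ => ?_⟩
      rw [h2, Set.inter_univ]
      have := hq i
      linarith
    | succ n ih =>
      intro T hT
      -- positivity
      have hpos : 0 < Pb w (Good E T) := by
        rcases T.eq_empty_or_nonempty with rfl | ⟨i, hi⟩
        · exact (ih ∅ (by simp)).1
        · have hTi : T = insert i (T.erase i) := (Finset.insert_erase hi).symm
          have hc : (T.erase i).card ≤ n := by
            rw [Finset.card_erase_of_mem hi]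
            omega
          obtain ⟨h2, h3⟩ := ih (T.erase i) hc
          have h4' := h3 i (Finset.notMem_erase i T)
          rw [hTi, Good_insert, Pb_inter_compl]
          nlinarith
      refine ⟨hpos, fun i hi => ?_⟩
      set T1 := T.filter (fun j => ¬ Disjoint (S i) (S j)) with hT1
      set T2 := T.filter (fun j => Disjoint (S i) (S j)) with hT2
      have hT12 : T1 ∪ T2 = T := by
        ext j
        simp only [hT1, hT2, Finset.mem_union, Finset.mem_filter]
        tauto
      -- independence
      have hind : Pb w (E i ∩ Good E T2) = Pb w (E i) * Pb w (Good E T2) := by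
        refine Pb_indep w h1 (hE i) (Good_dep E S hE T2) ?_
        rw [Set.disjoint_iUnion₂_right]
        intro j hj
        exact (Finset.mem_filter.mp hj).2
      have hle : Pb w (E i ∩ Good E T) ≤ q * Pb w (Good E T2) := by
        calc Pb w (E i ∩ Good E T) ≤ Pb w (E i ∩ Good E T2) := by
              refine Pb_mono hw ?_
              rintro g ⟨hg1, hg2⟩
              exact ⟨hg1, fun j hj => hg2 j (Finset.mem_filter.mp hj).1⟩
          _ = Pb w (E i) * Pb w (Good E T2) := hind
          _ ≤ q * Pb w (Good E T2) := mul_le_mul_of_nonneg_right (hq i) (Pb_nonneg hw _)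
      rcases T1.eq_empty_or_nonempty with hem | hne
      · have hT2T : T2 = T := by
          rw [← hT12, hem, Finset.empty_union]
        rw [hT2T] at hle
        nlinarith
      · have hT2c : T2.card ≤ n := by
          have hdisj : Disjoint T1 T2 := by
            rw [Finset.disjoint_left]
            intro j hj1 hj2
            exact (Finset.mem_filter.mp hj1).2 (Finset.mem_filter.mp hj2).2
          have h5 := Finset.card_union_of_disjoint hdisj
          rw [hT12] at h5
          have h6 := Finset.card_pos.mpr hne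
          omega
        obtain ⟨hp2, h7⟩ := ih T2 hT2c
        have h8 := Good_union w hw E T1 T2
        rw [hT12] at h8
        have h9 : ∑ j ∈ T1, Pb w (E j ∩ Good E T2) ≤ (d : ℝ) * (2 * q * Pb w (Good E T2)) := by
          calc ∑ j ∈ T1, Pb w (E j ∩ Good E T2)
              ≤ ∑ _j ∈ T1, 2 * q * Pb w (Good E T2) := by
                refine Finset.sum_le_sum (fun j hj => h7 j ?_)
                intro hj2
                exact (Finset.mem_filter.mp hj).2 (Finset.mem_filter.mp hj2).2
            _ = (T1.card : ℝ) * (2 * q * Pb w (Good E T2)) := by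
                rw [Finset.sum_const, nsmul_eq_mul]
            _ ≤ _ := by
                apply mul_le_mul_of_nonneg_right _ (by positivity)
                have h10 : T1.card ≤ d := by
                  refine le_trans (Finset.card_le_card ?_) (hd i)
                  intro j hj
                  exact Finset.mem_filter.mpr ⟨Finset.mem_univ j, (Finset.mem_filter.mp hj).2⟩
                exact_mod_cast h10
        have h11 : Pb w (Good E T2) ≤ 2 * Pb w (Good E T) := by nlinarith
        nlinarith
  obtain ⟨hpos, _⟩ := key _ Finset.univ le_rfl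
  by_contra hcon
  push Not at hcon
  have h0 : Pb w (Good E Finset.univ) ≤ 0 := by
    unfold Pb
    refine Finset.sum_nonpos (fun g _ => ?_)
    split_ifs with hg
    · by_contra hlt
      push Not at hlt
      obtain ⟨i, hi⟩ := hcon g hlt
      exact hg i (Finset.mem_univ i) hi
    · exact le_rfl
  linarith

end

end P74ff84
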