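import Mathlib
import Pool.Agent.Lib.P74ff84.LLL

set_option autoImplicit false
set_option linter.unusedSectionVars false

namespace P74ff84

variable {V : Type*} [Fintype V] [DecidableEq V]

/-- Independent coins, `x` shows `true` with probability `b x`. -/
noncomputable def bw (b : V → ℝ) : V → Bool → ℝ := fun x c => if c then b x else 1 - b x

theorem bw_nonneg {b : V → ℝ} (h0 : ∀ x, 0 ≤ b x) (h1 : ∀ x, b x ≤ 1) (x : V) (c : Bool) :
    0 ≤ bw b x c := by
  unfold bw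
  split_ifs
  · exact h0 x
  · linarith [h1 x]

theorem bw_sum (b : V → ℝ) (x : V) : ∑ c, bw b x c = 1 := by
  simp [bw]

/-- Exponential moments. -/
theorem mgf (b : V → ℝ) (h0 : ∀ x, 0 ≤ b x) (h1 : ∀ x, b x ≤ 1) (N : Finset V) (θ : ℝ) :
    ∑ g : V → Bool, wt (bw b) g * Real.exp (θ * ((N.filter (fun x => g x = true)).card : ℝ))
      ≤ Real.exp ((Real.exp θ - 1) * ∑ x ∈ N, b x) := by
  classical
  have e1 : ∀ g : V → Bool,
      wt (bw b) g * Real.exp (θ * ((N.filter (fun x => g x = true)).card : ℝ))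
      = ∏ x, (bw b x (g x) * if x ∈ N ∧ g x = true then Real.exp θ else 1) := by
    intro g
    unfold wt
    rw [Finset.prod_mul_distrib]
    congr 1
    rw [Finset.prod_ite, Finset.prod_const_one, mul_one, Finset.prod_const, ← Real.exp_nat_mul,
      mul_comm θ]
    congr 3
    congr 1
    ext x
    simp
  simp only [e1]
  have h := Finset.prod_univ_sum (fun _ : V => (Finset.univ : Finset Bool))
    (fun x c => bw b x c * if x ∈ N ∧ c = true then Real.exp θ else 1)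
  rw [Fintype.piFinset_univ] at h
  rw [← h]
  have e2 : ∀ x, ∑ c, (bw b x c * if x ∈ N ∧ c = true then Real.exp θ else 1)
      = if x ∈ N then 1 + (Real.exp θ - 1) * b x else 1 := by
    intro x
    rw [Fintype.sum_bool]
    by_cases hx : x ∈ N
    · simp [hx, bw]
      ring
    · simp [hx, bw]
  simp only [e2]
  rw [Finset.prod_ite, Finset.prod_const_one, mul_one, Finset.mul_sum, Real.exp_sum]
  have e3 : Finset.univ.filter (fun x => x ∈ N) = N := by
    ext x
    simp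
  rw [e3]
  refine Finset.prod_le_prod (fun x _ => ?_) (fun x _ => ?_)
  · have h2 := Real.exp_pos θ
    have h3 := h0 x
    have h4 := h1 x
    nlinarith
  · have := Real.add_one_le_exp ((Real.exp θ - 1) * b x)
    linarith

/-- Upper tail. -/
theorem tail_up (b : V → ℝ) (h0 : ∀ x, 0 ≤ b x) (h1 : ∀ x, b x ≤ 1) (N : Finset V)
    (M μ η : ℝ) (hM : 0 ≤ M) (hη0 : 0 ≤ η) (hη1 : η ≤ 1) (hμ : ∑ x ∈ N, b x ≤ μ)
    (hμM : μ ≤ M) (hμ0 : 0 ≤ μ) :
    Pb (bw b) {g | μ + η * M ≤ ((N.filter (fun x => g x = true)).card : ℝ)}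
      ≤ Real.exp (-(η ^ 2 * M / 4)) := by
  classical
  set θ : ℝ := η / 2 with hθ
  have hθ0 : 0 ≤ θ := by positivity
  have hexp : Real.exp θ - 1 ≤ θ + θ ^ 2 := by
    have h := Real.abs_exp_sub_one_sub_id_le (x := θ) (by rw [abs_of_nonneg hθ0]; linarith)
    have := (abs_le.mp h).2
    linarith
  have hm := mgf b h0 h1 N θ
  have hb0 : 0 ≤ ∑ x ∈ N, b x := Finset.sum_nonneg (fun x _ => h0 x)
  have hm2 : Real.exp ((Real.exp θ - 1) * ∑ x ∈ N, b x) ≤ Real.exp ((θ + θ ^ 2) * μ) := by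
    apply Real.exp_le_exp.mpr
    have h2 : 0 ≤ θ + θ ^ 2 := by positivity
    calc (Real.exp θ - 1) * ∑ x ∈ N, b x ≤ (θ + θ ^ 2) * ∑ x ∈ N, b x :=
          mul_le_mul_of_nonneg_right hexp hb0
      _ ≤ _ := mul_le_mul_of_nonneg_left hμ h2
  have hmark : Pb (bw b) {g | μ + η * M ≤ ((N.filter (fun x => g x = true)).card : ℝ)}
      * Real.exp (θ * (μ + η * M)) ≤
      ∑ g : V → Bool, wt (bw b) g *
        Real.exp (θ * ((N.filter (fun x => g x = true)).card : ℝ)) := by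
    unfold Pb
    rw [Finset.sum_mul]
    refine Finset.sum_le_sum (fun g _ => ?_)
    have hw := wt_nonneg (bw_nonneg h0 h1) g
    split_ifs with hg
    · apply mul_le_mul_of_nonneg_left _ hw
      apply Real.exp_le_exp.mpr
      exact mul_le_mul_of_nonneg_left hg hθ0
    · rw [zero_mul]
      exact mul_nonneg hw (Real.exp_pos _).le
  have h3 := hmark.trans (hm.trans hm2)
  rw [← le_div_iff₀ (Real.exp_pos _), ← Real.exp_sub] at h3
  refine h3.trans (Real.exp_le_exp.mpr ?_)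
  rw [hθ]
  nlinarith [sq_nonneg η]

/-- Lower tail. -/
theorem tail_low (b : V → ℝ) (h0 : ∀ x, 0 ≤ b x) (h1 : ∀ x, b x ≤ 1) (N : Finset V)
    (M μ η : ℝ) (hM : 0 ≤ M) (hη0 : 0 ≤ η) (hη1 : η ≤ 1) (hμ : μ ≤ ∑ x ∈ N, b x)
    (hμM : μ ≤ M) (hμ0 : 0 ≤ μ) :
    Pb (bw b) {g | ((N.filter (fun x => g x = true)).card : ℝ) ≤ μ - η * M}
      ≤ Real.exp (-(η ^ 2 * M / 4)) := by
  classical
  set θ : ℝ := η / 2 with hθ
  have hθ0 : 0 ≤ θ := by positivity
  have hθ1 : θ ≤ 1 / 2 := by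
    rw [hθ]
    linarith
  have hexp : Real.exp (-θ) - 1 ≤ -θ + θ ^ 2 := by
    have h := Real.abs_exp_sub_one_sub_id_le (x := -θ) (by
      rw [abs_neg, abs_of_nonneg hθ0]; linarith)
    have := (abs_le.mp h).2
    nlinarith
  have hm := mgf b h0 h1 N (-θ)
  have hm2 : Real.exp ((Real.exp (-θ) - 1) * ∑ x ∈ N, b x) ≤ Real.exp ((-θ + θ ^ 2) * μ) := by
    apply Real.exp_le_exp.mpr
    have h2 : -θ + θ ^ 2 ≤ 0 := by nlinarith
    have hb0 : 0 ≤ ∑ x ∈ N, b x := Finset.sum_nonneg (fun x _ => h0 x)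
    calc (Real.exp (-θ) - 1) * ∑ x ∈ N, b x ≤ (-θ + θ ^ 2) * ∑ x ∈ N, b x :=
          mul_le_mul_of_nonneg_right hexp hb0
      _ ≤ _ := mul_le_mul_of_nonpos_left hμ h2
  have hmark : Pb (bw b) {g | ((N.filter (fun x => g x = true)).card : ℝ) ≤ μ - η * M}
      * Real.exp (-θ * (μ - η * M)) ≤
      ∑ g : V → Bool, wt (bw b) g *
        Real.exp (-θ * ((N.filter (fun x => g x = true)).card : ℝ)) := by
    unfold Pb
    rw [Finset.sum_mul]
    refine Finset.sum_le_sum (fun g _ => ?_)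
    have hw := wt_nonneg (bw_nonneg h0 h1) g
    split_ifs with hg
    · apply mul_le_mul_of_nonneg_left _ hw
      apply Real.exp_le_exp.mpr
      exact mul_le_mul_of_nonpos_left hg (by linarith)
    · rw [zero_mul]
      exact mul_nonneg hw (Real.exp_pos _).le
  have h3 := hmark.trans (hm.trans hm2)
  rw [← le_div_iff₀ (Real.exp_pos _), ← Real.exp_sub] at h3
  refine h3.trans (Real.exp_le_exp.mpr ?_)
  rw [hθ]
  nlinarith [sq_nonneg η]

end P74ff84
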