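import Mathlib
import Pool.Agent.Lib.P74ff84.Tails
import Pool.Agent.Lib.P74ff84.Equil

set_option autoImplicit false

namespace P74ff84

open Finset

variable {V : Type*} [Fintype V]

theorem Pb_empty {C : Type*} [DecidableEq V] [Fintype C] (w : V → C → ℝ) :
    Pb w (∅ : Set (V → C)) = 0 := by
  unfold Pb
  simp

open Classical in
/-- **Selection.** A set `Z` that serves every vertex of `W` outside `Z` and does not serve any
vertex of `Z` too much. -/
theorem select (A : V → V → Prop) (W : Finset V) (k Δ : ℕ) (hkΔ : 1 ≤ k * Δ)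
    (hout : ∀ v ∈ W, (W.filter (fun u => A v u)).card ≤ k)
    (hin : ∀ x ∈ W, (W.filter (fun u => A u x)).card ≤ Δ)
    (M η : ℝ) (hM : 0 ≤ M) (hη0 : 0 ≤ η) (hη1 : η ≤ 1)
    (hME : 8 * ((k * Δ : ℕ) : ℝ) * Real.exp (-(η ^ 2 * M / 4)) ≤ 1)
    (m : V → ℝ) (hm0 : ∀ v ∈ W, 0 ≤ m v) (hmM : ∀ v ∈ W, m v ≤ M) :
    ∃ Z ⊆ W, (∀ v ∈ W, v ∉ Z → m v - η * M < ((Z.filter (fun u => A v u)).card : ℝ)) ∧
      ∀ v ∈ Z, ((Z.filter (fun u => A v u)).card : ℝ) < m v + η * M := by
  obtain ⟨b, hb0, hb1, hlow, hup⟩ := equilibrium (fun v u => if A v u ∧ u ∈ W then (1 : ℝ) else 0)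
    (fun v => if v ∈ W then m v else -1)
  have hsum : ∀ v, ∑ u, (if A v u ∧ u ∈ W then (1 : ℝ) else 0) * b u
      = ∑ u ∈ W.filter (fun u => A v u), b u := by
    intro v
    rw [Finset.sum_filter, ← Finset.sum_subset (Finset.subset_univ W)]
    · refine Finset.sum_congr rfl (fun u hu => ?_)
      by_cases h : A v u <;> simp [h, hu]
    · intro u _ hu
      simp [hu]
  simp only [hsum] at hlow hup
  have hbW : ∀ v, v ∉ W → b v = 0 := by
    intro v hv
    by_contra hcon
    have hpos : 0 < b v := lt_of_le_of_ne (hb0 v) (Ne.symm hcon)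
    have h1 := hup v hpos
    simp only [hv, if_false] at h1
    have h2 : 0 ≤ ∑ u ∈ W.filter (fun u => A v u), b u := Finset.sum_nonneg (fun u _ => hb0 u)
    linarith
  -- the bad events
  set E1 : V → Set (V → Bool) := fun v => {g | b v < 1 ∧
    (((W.filter (fun u => A v u)).filter (fun x => g x = true)).card : ℝ) ≤ m v - η * M} with hE1
  set E2 : V → Set (V → Bool) := fun v => {g | 0 < b v ∧
    m v + η * M ≤ (((W.filter (fun u => A v u)).filter (fun x => g x = true)).card : ℝ)} with hE2
  set E : V → Set (V → Bool) := fun v => if v ∈ W then E1 v ∪ E2 v else ∅ with hE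
  set S : V → Set V := fun v => if v ∈ W then ((W.filter (fun u => A v u) : Finset V) : Set V)
    else ∅ with hS
  have hdep : ∀ v, Dep (E v) (S v) := by
    intro v g h hgh
    by_cases hv : v ∈ W
    · simp only [hS, hv, if_true] at hgh
      simp only [hE, hv, if_true]
      have e : (W.filter (fun u => A v u)).filter (fun x => g x = true)
          = (W.filter (fun u => A v u)).filter (fun x => h x = true) := by
        refine Finset.filter_congr (fun x hx => ?_)
        rw [hgh x (Finset.mem_coe.mpr hx)]
      simp only [hE1, hE2, Set.mem_union, Set.mem_ofPred_eq, e]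
    · simp only [hE, hv, if_false]
      exact Iff.rfl
  have hP : ∀ v, Pb (bw b) (E v) ≤ 2 * Real.exp (-(η ^ 2 * M / 4)) := by
    intro v
    have hexp := Real.exp_pos (-(η ^ 2 * M / 4))
    by_cases hv : v ∈ W
    · simp only [hE, hv, if_true]
      refine (Pb_union_le (bw_nonneg hb0 hb1) _ _).trans ?_
      have h1 : Pb (bw b) (E1 v) ≤ Real.exp (-(η ^ 2 * M / 4)) := by
        by_cases hb : b v < 1
        · have h2 := hlow v hb
          simp only [hv, if_true] at h2
          refine le_trans (Pb_mono (bw_nonneg hb0 hb1) ?_)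
            (tail_low b hb0 hb1 (W.filter (fun u => A v u)) M (m v) η hM hη0 hη1 h2
              (hmM v hv) (hm0 v hv))
          intro g hg
          exact hg.2
        · have he : E1 v = ∅ := by
            ext g
            simp [hE1, hb]
          rw [he, Pb_empty]
          exact hexp.le
      have h1' : Pb (bw b) (E2 v) ≤ Real.exp (-(η ^ 2 * M / 4)) := by
        by_cases hb : 0 < b v
        · have h2 := hup v hb
          simp only [hv, if_true] at h2
          refine le_trans (Pb_mono (bw_nonneg hb0 hb1) ?_)
            (tail_up b hb0 hb1 (W.filter (fun u => A v u)) M (m v) η hM hη0 hη1 h2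
              (hmM v hv) (hm0 v hv))
          intro g hg
          exact hg.2
        · have he : E2 v = ∅ := by
            ext g
            simp [hE2, hb]
          rw [he, Pb_empty]
          exact hexp.le
      linarith
    · simp only [hE, hv, if_false]
      rw [Pb_empty]
      positivity
  have hcount : ∀ i, (Finset.univ.filter (fun j => ¬ Disjoint (S i) (S j))).card ≤ k * Δ := by
    intro i
    by_cases hi : i ∈ W
    · refine le_trans (Finset.card_le_card (t := (W.filter (fun u => A i u)).biUnion
        (fun x => W.filter (fun u => A u x))) ?_) ?_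
      · intro j hj
        have h1 := (Finset.mem_filter.mp hj).2
        rw [Set.not_disjoint_iff] at h1
        obtain ⟨x, hx1, hx2⟩ := h1
        simp only [hS, hi, if_true] at hx1
        by_cases hjW : j ∈ W
        · simp only [hS, hjW, if_true] at hx2
          rw [Finset.mem_biUnion]
          exact ⟨x, Finset.mem_coe.mp hx1, Finset.mem_filter.mpr ⟨hjW,
            (Finset.mem_filter.mp (Finset.mem_coe.mp hx2)).2⟩⟩
        · simp only [hS, hjW, if_false] at hx2
          exact hx2.elim
      · calc ((W.filter (fun u => A i u)).biUnion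
              (fun x => W.filter (fun u => A u x))).card
            ≤ (W.filter (fun u => A i u)).card * Δ := by
              refine Finset.card_biUnion_le_card_mul _ _ _ (fun x hx => ?_)
              exact hin x (Finset.mem_filter.mp hx).1
          _ ≤ k * Δ := Nat.mul_le_mul_right _ (hout i hi)
    · have : (Finset.univ.filter (fun j => ¬ Disjoint (S i) (S j))) = ∅ := by
        ext j
        simp [hS, hi]
      rw [this]
      simp
  have hkΔ' : (1 : ℝ) ≤ ((k * Δ : ℕ) : ℝ) := by exact_mod_cast hkΔ
  have hexp := Real.exp_pos (-(η ^ 2 * M / 4))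
  obtain ⟨g, hg, hgE⟩ := local_lemma (bw b) (bw_nonneg hb0 hb1) (bw_sum b) E S hdep
    (2 * Real.exp (-(η ^ 2 * M / 4))) (by positivity) hP (k * Δ) hcount
    (by nlinarith) (by nlinarith)
  have hpos : ∀ x, 0 < bw b x (g x) := by
    intro x
    refine lt_of_le_of_ne (bw_nonneg hb0 hb1 x (g x)) ?_
    intro hcon
    have : wt (bw b) g = 0 := by
      unfold wt
      exact Finset.prod_eq_zero (Finset.mem_univ x) hcon.symm
    linarith
  have hcard : ∀ v, (W.filter (fun u => A v u)).filter (fun x => g x = true)
      = (W.filter (fun x => g x = true)).filter (fun u => A v u) := by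
    intro v
    ext x
    simp only [Finset.mem_filter]
    tauto
  refine ⟨W.filter (fun x => g x = true), Finset.filter_subset _ _, ?_, ?_⟩
  · intro v hv hvZ
    have hgv : g v = false := by
      by_contra hcon
      apply hvZ
      rw [Finset.mem_filter]
      exact ⟨hv, by simpa using hcon⟩
    have hbv : b v < 1 := by
      have := hpos v
      rw [hgv] at this
      simp [bw] at this
      exact this
    have h1 := hgE v
    simp only [hE, hv, if_true, Set.mem_union, not_or] at h1
    have h2 := h1.1
    simp only [hE1, Set.mem_ofPred_eq, not_and, not_le] at h2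
    have h3 := h2 hbv
    rw [hcard] at h3
    exact h3
  · intro v hv
    obtain ⟨hvW, hgv⟩ := Finset.mem_filter.mp hv
    have hbv : 0 < b v := by
      have := hpos v
      rw [hgv] at this
      simpa [bw] using this
    have h1 := hgE v
    simp only [hE, hvW, if_true, Set.mem_union, not_or] at h1
    have h2 := h1.2
    simp only [hE2, Set.mem_ofPred_eq, not_and, not_le] at h2
    have h3 := h2 hbv
    rw [hcard] at h3
    exact h3

open Classical in
/-- **Blocks.** The blocks are treated one after the other. -/
theorem block_lemma (A : V → V → Prop) (X : Finset V) (q : V → ℕ) (k Δ : ℕ) (hkΔ : 1 ≤ k * Δ)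
    (hout : ∀ v ∈ X, (X.filter (fun u => A v u)).card ≤ k)
    (hq : ∀ u ∈ X, ∀ x ∈ X, A u x → q x ≤ q u)
    (hin : ∀ x ∈ X, (X.filter (fun u => A u x ∧ q u = q x)).card ≤ Δ)
    (M η : ℝ) (hM : 0 ≤ M) (hη0 : 0 ≤ η) (hη1 : η ≤ 1)
    (hME : 8 * ((k * Δ : ℕ) : ℝ) * Real.exp (-(η ^ 2 * M / 4)) ≤ 1) :
    ∃ U ⊆ X, (∀ v ∈ X, v ∉ U → (1 - η) * M ≤ ((U.filter (fun u => A v u)).card : ℝ)) ∧
      ∀ v ∈ U, ((U.filter (fun u => A v u)).card : ℝ) ≤ (1 + η) * M := by
  have key : ∀ s : ℕ, ∃ U ⊆ X, (∀ x ∈ U, q x < s) ∧
      (∀ v ∈ X, q v < s → v ∉ U → (1 - η) * M ≤ ((U.filter (fun u => A v u)).card : ℝ)) ∧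
      ∀ v ∈ U, ((U.filter (fun u => A v u)).card : ℝ) ≤ (1 + η) * M := by
    intro s
    induction s with
    | zero =>
      exact ⟨∅, Finset.empty_subset _, by simp, fun v _ h => by omega, by simp⟩
    | succ s ih =>
      obtain ⟨U, hUX, hUs, hU1, hU2⟩ := ih
      set W := X.filter (fun v => q v = s ∧ ((U.filter (fun u => A v u)).card : ℝ) < M) with hW
      have hWX : W ⊆ X := Finset.filter_subset _ _
      have hWq : ∀ v ∈ W, q v = s := fun v hv => (Finset.mem_filter.mp hv).2.1
      obtain ⟨Z, hZW, hZ1, hZ2⟩ := select A W k Δ hkΔ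
        (fun v hv => (Finset.card_le_card (Finset.filter_subset_filter _ hWX)).trans
          (hout v (hWX hv)))
        (fun x hx => by
          refine le_trans (Finset.card_le_card ?_) (hin x (hWX hx))
          intro u hu
          obtain ⟨hu1, hu2⟩ := Finset.mem_filter.mp hu
          exact Finset.mem_filter.mpr ⟨hWX hu1, hu2, by rw [hWq u hu1, hWq x hx]⟩)
        M η hM hη0 hη1 hME (fun v => M - ((U.filter (fun u => A v u)).card : ℝ))
        (fun v hv => by
          have := (Finset.mem_filter.mp hv).2.2
          linarith)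
        (fun v _ => by
          have : (0 : ℝ) ≤ ((U.filter (fun u => A v u)).card : ℝ) := Nat.cast_nonneg _
          linarith)
      have hZX : Z ⊆ X := hZW.trans hWX
      have hZq : ∀ v ∈ Z, q v = s := fun v hv => hWq v (hZW hv)
      have hdisj : ∀ v, Disjoint (U.filter (fun u => A v u)) (Z.filter (fun u => A v u)) := by
        intro v
        rw [Finset.disjoint_left]
        intro x hx1 hx2
        have h1 := hUs x (Finset.mem_filter.mp hx1).1
        have h2 := hZq x (Finset.mem_filter.mp hx2).1
        omega
      have hcard : ∀ v, (((U ∪ Z).filter (fun u => A v u)).card : ℝ)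
          = ((U.filter (fun u => A v u)).card : ℝ) + ((Z.filter (fun u => A v u)).card : ℝ) := by
        intro v
        rw [Finset.filter_union, Finset.card_union_of_disjoint (hdisj v)]
        push_cast
        rfl
      have hold : ∀ v ∈ X, q v < s → Z.filter (fun u => A v u) = ∅ := by
        intro v hv hvs
        rw [Finset.filter_eq_empty_iff]
        intro x hx hAx
        have h1 := hq v hv x (hZX hx) hAx
        have h2 := hZq x hx
        omega
      refine ⟨U ∪ Z, Finset.union_subset hUX hZX, ?_, ?_, ?_⟩
      · intro x hx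
        rcases Finset.mem_union.mp hx with h | h
        · have := hUs x h
          omega
        · have := hZq x h
          omega
      · intro v hv hvs hvU
        rw [Finset.mem_union, not_or] at hvU
        rw [hcard]
        rcases Nat.lt_succ_iff_lt_or_eq.mp hvs with h | h
        · rw [hold v hv h]
          have := hU1 v hv h hvU.1
          simpa using this
        · by_cases hvW : v ∈ W
          · have := hZ1 v hvW hvU.2
            linarith
          · have h1 : ¬ (((U.filter (fun u => A v u)).card : ℝ) < M) := by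
              intro hcon
              exact hvW (Finset.mem_filter.mpr ⟨hv, h, hcon⟩)
            push Not at h1
            have h2 : (0 : ℝ) ≤ ((Z.filter (fun u => A v u)).card : ℝ) := Nat.cast_nonneg _
            nlinarith
      · intro v hv
        rw [hcard]
        rcases Finset.mem_union.mp hv with h | h
        · rw [hold v (hUX h) (hUs v h)]
          simpa using hU2 v h
        · have := hZ2 v h
          linarith
  obtain ⟨U, hUX, _, h1, h2⟩ := key (Finset.univ.sup q + 1)
  exact ⟨U, hUX, fun v hv hvU => h1 v hv (Nat.lt_succ_of_le (Finset.le_sup (Finset.mem_univ v)))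
    hvU, h2⟩

end P74ff84
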