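import Mathlib
import Pool.Agent.Lib.P74ff84.Select
import Pool.Agent.Lib.P74ff84.Bands

set_option autoImplicit false

namespace P74ff84

open Finset

variable {V : Type*} [Fintype V]

open Classical in
/-- **Many disjoint selections.** Each vertex outside all of them is served in all but one. -/
theorem fold_lemma (A : V → V → Prop) (X : Finset V) (k J : ℕ) (hk : 1 ≤ k) (hJ : 2 ≤ J)
    (hout : ∀ v ∈ X, (X.filter (fun u => A v u)).card ≤ k)
    (M η : ℝ) (hM : 0 ≤ M) (hη0 : 0 ≤ η) (hη1 : η ≤ 1)
    (hME : 8 * ((k * (2 * k) ^ (J + 2) : ℕ) : ℝ) * Real.exp (-(η ^ 2 * M / 4)) ≤ 1) :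
    ∃ U : ℕ → Finset V, (∀ j < J, U j ⊆ X) ∧
      (∀ j < J, ∀ v ∈ U j, (((U j).filter (fun u => A v u)).card : ℝ) ≤ (1 + η) * M) ∧
      ∀ v ∈ X, (∀ j < J, v ∉ U j) → ((J : ℝ) - 1) * ((1 - η) * M)
        ≤ ((((range J).biUnion U).filter (fun u => A v u)).card : ℝ) := by
  -- the bands
  obtain ⟨B, hB⟩ : ∃ B : V → V → Prop, ∀ u v, B u v ↔ (A u v ∧ u ∈ X ∧ v ∈ X) :=
    ⟨fun u v => A u v ∧ u ∈ X ∧ v ∈ X, fun _ _ => Iff.rfl⟩
  obtain ⟨t, ht1, ht2⟩ := exists_bands B k hk (by
    intro v
    by_cases hv : v ∈ X
    · refine le_trans (Finset.card_le_card ?_) (hout v hv)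
      intro u hu
      obtain ⟨h1, _, h2⟩ := (hB v u).mp (Finset.mem_filter.mp hu).2
      exact Finset.mem_filter.mpr ⟨h2, h1⟩
    · have : (univ.filter (fun u => B v u)) = ∅ := by
        rw [Finset.filter_eq_empty_iff]
        intro u _ hu
        exact hv ((hB v u).mp hu).2.1
      rw [this]
      simp)
  have hkΔ : 1 ≤ k * (2 * k) ^ (J + 2) := Nat.one_le_iff_ne_zero.mpr (by positivity)
  have key : ∀ n : ℕ, n ≤ J → ∃ U : ℕ → Finset V, (∀ j < n, U j ⊆ X) ∧
      (∀ i < n, ∀ j < n, i ≠ j → Disjoint (U i) (U j)) ∧
      (∀ j < n, ∀ v ∈ U j, (((U j).filter (fun u => A v u)).card : ℝ) ≤ (1 + η) * M) ∧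
      ∀ j < n, ∀ v ∈ X, (∀ i < n, v ∉ U i) → t v % J ≠ j →
        (1 - η) * M ≤ (((U j).filter (fun u => A v u)).card : ℝ) := by
    intro n
    induction n with
    | zero =>
      intro _
      exact ⟨fun _ => ∅, by simp, by simp, by simp, by simp⟩
    | succ n ih =>
      intro hn
      obtain ⟨U, hUX, hUd, hU1, hU2⟩ := ih (by omega)
      set Y := X.filter (fun v => (∀ i < n, v ∉ U i) ∧ t v % J ≠ n) with hY
      have hYX : Y ⊆ X := Finset.filter_subset _ _
      have hJ0 : 0 < J := by omega
      have hup : ∀ u ∈ Y, ∀ x ∈ Y, A u x →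
          (t x + (J - 1 - n)) / J ≤ (t u + (J - 1 - n)) / J := by
        intro u hu x hx hux
        have hu' := Finset.mem_filter.mp hu
        have hx' := Finset.mem_filter.mp hx
        have h1 : t x ≤ t u + 1 := ht1 u x ((hB u x).mpr ⟨hux, hu'.1, hx'.1⟩)
        rcases Nat.lt_or_ge (t u) (t x) with h2 | h2
        · have h3 : t x = t u + 1 := by omega
          rw [h3, show t u + 1 + (J - 1 - n) = t u + (J - 1 - n) + 1 by ring, Nat.succ_div]
          have h4 : ¬ J ∣ t u + (J - 1 - n) + 1 := by
            rintro ⟨c, hc⟩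
            have h5 : t u + J = J * c + n := by omega
            have h6 : 1 ≤ c := by
              rcases Nat.eq_zero_or_pos c with rfl | h
              · rw [Nat.mul_zero] at hc
                omega
              · exact h
            obtain ⟨c', rfl⟩ : ∃ c', c = c' + 1 := ⟨c - 1, by omega⟩
            have h7 : t u = J * c' + n := by
              have : J * (c' + 1) = J * c' + J := by ring
              omega
            apply hu'.2.2
            rw [h7, Nat.mul_add_mod, Nat.mod_eq_of_lt (by omega)]
          rw [if_neg h4, Nat.add_zero]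
        · exact Nat.div_le_div_right (by omega)
      have hblock : ∀ x ∈ Y, (Y.filter (fun u => A u x ∧
          (t u + (J - 1 - n)) / J = (t x + (J - 1 - n)) / J)).card ≤ (2 * k) ^ (J + 2) := by
        intro x hx
        have hx' := Finset.mem_filter.mp hx
        refine le_trans (Finset.card_le_card ?_) (ht2 J x)
        intro u hu
        obtain ⟨hu1, hu2, hu3⟩ := Finset.mem_filter.mp hu
        have hu' := Finset.mem_filter.mp hu1
        refine Finset.mem_filter.mpr ⟨Finset.mem_univ u, (hB u x).mpr ⟨hu2, hu'.1, hx'.1⟩, ?_⟩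
        have h1 := Nat.div_add_mod (t u + (J - 1 - n)) J
        have h2 := Nat.mod_lt (t u + (J - 1 - n)) hJ0
        have h3 := Nat.div_mul_le_self (t x + (J - 1 - n)) J
        rw [hu3] at h1
        have h4 : J * ((t x + (J - 1 - n)) / J) = (t x + (J - 1 - n)) / J * J := mul_comm _ _
        omega
      obtain ⟨Z, hZY, hZ1, hZ2⟩ := block_lemma A Y (fun v => (t v + (J - 1 - n)) / J) k
        ((2 * k) ^ (J + 2)) hkΔ
        (fun v hv => (Finset.card_le_card (Finset.filter_subset_filter _ hYX)).trans
          (hout v (hYX hv))) hup hblock M η hM hη0 hη1 hME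
      have hZX : Z ⊆ X := hZY.trans hYX
      refine ⟨fun j => if j = n then Z else U j, ?_, ?_, ?_, ?_⟩
      · intro j hj
        by_cases h : j = n
        · simp only [h, if_true]
          exact hZX
        · simp only [h, if_false]
          exact hUX j (by omega)
      · have hdZ : ∀ i < n, Disjoint (U i) Z := by
          intro i hi
          rw [Finset.disjoint_left]
          intro v hv1 hv2
          exact (Finset.mem_filter.mp (hZY hv2)).2.1 i hi hv1
        intro i hi j hj hij
        by_cases h1 : i = n <;> by_cases h2 : j = n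
        · omega
        · simp only [h1, if_true, h2, if_false]
          exact (hdZ j (by omega)).symm
        · simp only [h1, if_false, h2, if_true]
          exact hdZ i (by omega)
        · simp only [h1, h2, if_false]
          exact hUd i (by omega) j (by omega) hij
      · intro j hj v hv
        by_cases h : j = n
        · simp only [h, if_true] at hv ⊢
          exact hZ2 v hv
        · simp only [h, if_false] at hv ⊢
          exact hU1 j (by omega) v hv
      · intro j hj v hv hvU hvt
        have hvU' : ∀ i < n, v ∉ U i := by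
          intro i hi
          have h1 := hvU i (by omega)
          have h2 : i ≠ n := by omega
          simpa only [h2, if_false] using h1
        have hvZ : v ∉ Z := by
          have h1 := hvU n (by omega)
          simpa only [if_true] using h1
        by_cases h : j = n
        · simp only [h, if_true]
          refine hZ1 v (Finset.mem_filter.mpr ⟨hv, hvU', ?_⟩) hvZ
          rw [← h]
          exact hvt
        · simp only [h, if_false]
          exact hU2 j (by omega) v hv hvU' hvt
  obtain ⟨U, hUX, hUd, hU1, hU2⟩ := key J le_rfl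
  refine ⟨U, hUX, hU1, ?_⟩
  intro v hv hvU
  rw [Finset.filter_biUnion, Finset.card_biUnion]
  · push_cast
    have hmod : t v % J ∈ range J := Finset.mem_range.mpr (Nat.mod_lt _ (by omega))
    calc ((J : ℝ) - 1) * ((1 - η) * M)
        = ∑ _j ∈ (range J).erase (t v % J), (1 - η) * M := by
          rw [Finset.sum_const, Finset.card_erase_of_mem hmod, Finset.card_range, nsmul_eq_mul,
            Nat.cast_sub (by omega)]
          push_cast
          rfl
      _ ≤ ∑ j ∈ (range J).erase (t v % J), (((U j).filter (fun u => A v u)).card : ℝ) := by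
          refine Finset.sum_le_sum (fun j hj => ?_)
          obtain ⟨h1, h2⟩ := Finset.mem_erase.mp hj
          exact hU2 j (Finset.mem_range.mp h2) v hv hvU (Ne.symm h1)
      _ ≤ ∑ j ∈ range J, (((U j).filter (fun u => A v u)).card : ℝ) :=
          Finset.sum_le_sum_of_subset_of_nonneg (Finset.erase_subset _ _)
            (fun j _ _ => Nat.cast_nonneg _)
  · intro i hi j hj hij
    exact Finset.disjoint_filter_filter (hUd i (Finset.mem_range.mp hi) j
      (Finset.mem_range.mp hj) hij)

end P74ff84
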