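import Mathlib
import Pool.Agent.Lib.P74ff84.Greedy3

set_option autoImplicit false

namespace P74ff84

variable {V : Type*}

/-- **Leaf batches.** `β` orders the vertices outside `S = {β = 0}` in batches; the vertices of
one batch are all attached by arcs of the same direction. `Big i A`: the host `A` is big enough
for `S` and the batches up to `i`. -/
theorem levels_aux {k : ℕ} (D : Digraph V) (T : SimpleGraph (Fin (k + 1)))
    (O : Digraph (Fin (k + 1)))
    (x0 : Fin (k + 1)) (β : Fin (k + 1) → ℕ) (dir : ℕ → Prop) (m : ℕ → ℕ)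
    (hβ : ∀ x y, (O.Adj x y ∨ O.Adj y x) → T.dist x0 x < T.dist x0 y → 1 ≤ β y → β x < β y)
    (hd1 : ∀ a b, O.Adj a b → T.dist x0 a < T.dist x0 b → 1 ≤ β b → dir (β b))
    (hd2 : ∀ a b, O.Adj a b → T.dist x0 b < T.dist x0 a → 1 ≤ β a → ¬ dir (β a))
    (Big : ℕ → Finset V → Prop)
    (hBs : ∀ i A, Big (i + 1) A → ∃ U ⊆ A, ∃ A' ⊆ A, Disjoint U A' ∧ Big i A' ∧
      (dir (i + 1) → ∀ v ∈ A', m (i + 1) ≤ (outN D v (U : Set V)).ncard) ∧
      (¬ dir (i + 1) → ∀ v ∈ A', m (i + 1) ≤ (inN D v (U : Set V)).ncard)) (i : ℕ) :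
    ∀ A, Big i A → ∃ A0, Big 0 A0 ∧ ∃ G : Fin (k + 1) → Set V,
      (∀ x, β x = 0 → G x = (A0 : Set V)) ∧
      (∀ x, β x ≤ i → G x ⊆ (A : Set V)) ∧
      (∀ x y, β x ≤ i → β y ≤ i → β x ≠ β y → Disjoint (G x) (G y)) ∧
      (∀ a b, O.Adj a b → T.dist x0 a < T.dist x0 b → 1 ≤ β b → β b ≤ i → ∀ v ∈ G a,
        m (β b) ≤ (outN D v (G b)).ncard) ∧
      (∀ a b, O.Adj a b → T.dist x0 b < T.dist x0 a → 1 ≤ β a → β a ≤ i → ∀ v ∈ G b,
        m (β a) ≤ (inN D v (G a)).ncard) := by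
  classical
  induction i with
  | zero =>
    intro A hA
    exact ⟨A, hA, fun _ => (A : Set V), fun _ _ => rfl, fun _ _ => subset_rfl,
      fun x y hx hy hxy => by omega, fun a b _ _ h1 h2 => by omega,
      fun a b _ _ h1 h2 => by omega⟩
  | succ i ih =>
    intro A hA
    obtain ⟨U, hUA, A', hA'A, hUA', hBig, hO1, hI1⟩ := hBs i A hA
    obtain ⟨A0, hA0, G, hG0, hG1, hG3, hG4, hG5⟩ := ih A' hBig
    have hGU : ∀ x, β x ≤ i → Disjoint (G x) (U : Set V) := by
      intro x hx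
      refine Set.disjoint_left.mpr (fun v hv hvU => ?_)
      exact Finset.disjoint_left.mp hUA' (Finset.mem_coe.mp hvU)
        (Finset.mem_coe.mp (hG1 x hx hv))
    refine ⟨A0, hA0, fun x => if β x ≤ i then G x else (U : Set V), ?_, ?_, ?_, ?_, ?_⟩
    · intro x hx
      have hx' : β x ≤ i := by omega
      simp only [hx', if_true]
      exact hG0 x hx
    · intro x _
      by_cases h1 : β x ≤ i
      · simp only [h1, if_true]
        exact (hG1 x h1).trans (Finset.coe_subset.mpr hA'A)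
      · simp only [h1, if_false]
        exact Finset.coe_subset.mpr hUA
    · intro x y hx hy hxy
      by_cases h1 : β x ≤ i <;> by_cases h2 : β y ≤ i
      · simp only [h1, h2, if_true]
        exact hG3 x y h1 h2 hxy
      · simp only [h1, h2, if_true, if_false]
        exact hGU x h1
      · simp only [h1, h2, if_true, if_false]
        exact (hGU y h2).symm
      · omega
    · intro a b hab hd hb1 hb v hv
      have h0 := hβ a b (Or.inl hab) hd hb1
      have hai : β a ≤ i := by omega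
      simp only [hai, if_true] at hv
      by_cases hbi : β b ≤ i
      · simp only [hbi, if_true]
        exact hG4 a b hab hd hb1 hbi v hv
      · simp only [hbi, if_false]
        have hbe : β b = i + 1 := by omega
        rw [hbe]
        refine hO1 ?_ v (Finset.mem_coe.mp (hG1 a hai hv))
        rw [← hbe]
        exact hd1 a b hab hd hb1
    · intro a b hab hd ha1 ha v hv
      have h0 := hβ b a (Or.inr hab) hd ha1
      have hbi : β b ≤ i := by omega
      simp only [hbi, if_true] at hv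
      by_cases hai : β a ≤ i
      · simp only [hai, if_true]
        exact hG5 a b hab hd ha1 hai v hv
      · simp only [hai, if_false]
        have hae : β a = i + 1 := by omega
        rw [hae]
        refine hI1 ?_ v (Finset.mem_coe.mp (hG1 b hbi hv))
        rw [← hae]
        exact hd2 a b hab hd ha1

/-- The embedding from the batches. -/
theorem levels_main [Finite V] {k : ℕ} (D : Digraph V) (T : SimpleGraph (Fin (k + 1)))
    (hT : T.IsTree) (O : Digraph (Fin (k + 1)))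
    (hO : ∀ u v, T.Adj u v ↔ (O.Adj u v ∨ O.Adj v u))
    (hO' : ∀ u v, O.Adj u v → ¬ O.Adj v u)
    (S : Set (Fin (k + 1))) (x0 : Fin (k + 1)) (hx0 : x0 ∈ S)
    (hcl : ∀ y ∈ S, ∀ b, T.Adj b y → T.dist x0 b < T.dist x0 y → b ∈ S)
    (β : Fin (k + 1) → ℕ) (dir : ℕ → Prop) (L : ℕ)
    (hβ0 : ∀ x, β x = 0 ↔ x ∈ S)
    (hβ : ∀ x y, (O.Adj x y ∨ O.Adj y x) → T.dist x0 x < T.dist x0 y → 1 ≤ β y → β x < β y)
    (hd1 : ∀ a b, O.Adj a b → T.dist x0 a < T.dist x0 b → 1 ≤ β b → dir (β b))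
    (hd2 : ∀ a b, O.Adj a b → T.dist x0 b < T.dist x0 a → 1 ≤ β a → ¬ dir (β a))
    (hL : ∀ x, β x ≤ L)
    (Big : ℕ → Finset V → Prop) (hB0 : ∀ A : Finset V, Big 0 A → HoldsIn D O S (A : Set V))
    (hBs : ∀ i A, Big (i + 1) A → ∃ U ⊆ A, ∃ A' ⊆ A, Disjoint U A' ∧ Big i A' ∧
      (dir (i + 1) → ∀ v ∈ A', {x | β x = i + 1}.ncard ≤ (outN D v (U : Set V)).ncard) ∧
      (¬ dir (i + 1) → ∀ v ∈ A', {x | β x = i + 1}.ncard ≤ (inN D v (U : Set V)).ncard))
    (A : Finset V) (hA : Big L A) :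
    ∃ f : Fin (k + 1) → V, Function.Injective f ∧
      ∀ u v, O.Adj u v → D.Adj (f u) (f v) := by
  obtain ⟨A0, hA0, G, hG0, _, hG3, hG4, hG5⟩ := levels_aux D T O x0 β dir
    (fun i => {x | β x = i}.ncard) hβ hd1 hd2 Big hBs L A hA
  obtain ⟨f0, hf1, hf2, hf3⟩ := hB0 A0 hA0
  have hcard : ∀ a b : Fin (k + 1), {z | z ≠ a ∧ z ≠ b ∧ (G z ∩ G b).Nonempty}.ncard
      < {x | β x = β b}.ncard := by
    intro a b
    refine Set.ncard_lt_ncard ?_ (Set.toFinite _)
    refine ⟨?_, ?_⟩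
    · rintro z ⟨_, _, v, hv1, hv2⟩
      by_contra hcon
      exact Set.disjoint_left.mp (hG3 z b (hL z) (hL b) hcon) hv1 hv2
    · intro hsub
      exact (hsub (show b ∈ {x | β x = β b} from rfl)).2.1 rfl
  have hpos : ∀ x, x ∉ S → 1 ≤ β x := by
    intro x hx
    by_contra hcon
    exact hx ((hβ0 x).mp (by omega))
  refine greedy3 D T hT O hO hO' x0 G S hx0 hcl f0 hf1 ?_ hf3
    (fun a b hb hab hd v hv => (hcard a b).trans_le
      (hG4 a b hab hd (hpos b hb) (hL b) v hv))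
    (fun a b ha hab hd v hv => (hcard b a).trans_le
      (hG5 a b hab hd (hpos a ha) (hL a) v hv))
  intro x hx
  rw [hG0 x ((hβ0 x).mpr hx)]
  exact hf2 x hx

end P74ff84
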