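import Mathlib
import Pool.Agent.Lib.P74ff84.Absorb
import Pool.Agent.Lib.P74ff84.Levels

set_option autoImplicit false

namespace P74ff84

variable {V : Type*}

/-- The reversed digraph. -/
def rev (D : Digraph V) : Digraph V := ⟨fun a b => D.Adj b a⟩

theorem fromRel_rev (D : Digraph V) :
    SimpleGraph.fromRel (rev D).Adj = SimpleGraph.fromRel D.Adj := by
  ext a b
  rw [SimpleGraph.fromRel_adj, SimpleGraph.fromRel_adj]
  show (a ≠ b ∧ (D.Adj b a ∨ D.Adj a b)) ↔ _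
  rw [or_comm]

theorem outN_rev (D : Digraph V) (v : V) (U : Set V) : outN (rev D) v U = inN D v U := rfl

/-- One batch, weighted version, out-neighbours. -/
theorem step_out [Finite V] [DecidableEq V] (D : Digraph V) (w : V → ℝ) (hw : ∀ v, 0 ≤ w v)
    (hind : ∀ S : Finset V, (SimpleGraph.fromRel D.Adj).IsIndepSet (S : Set V) →
      ∑ v ∈ S, w v ≤ 1)
    (x δ : ℝ) (hx0 : 0 ≤ x) (hx1 : x ≤ 1) (m r : ℕ) (hxm : 0 < x ^ (m - 1))
    (hr : ((1 + x) / 2) ^ r ≤ δ * x ^ (m - 1)) (A : Finset V) :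
    ∃ U ⊆ A, ∃ A' ⊆ A, Disjoint U A' ∧ (∀ v ∈ A', m ≤ (outN D v (U : Set V)).ncard) ∧
      (1 - δ) * ∑ v ∈ A, w v - r ≤ ∑ v ∈ A', w v := by
  classical
  obtain ⟨U, hUA, hUc, hU⟩ := batch D w hw x hx0 hx1 A r
  set A' := (A \ U).filter (fun v => m ≤ (outN D v (U : Set V)).ncard) with hA'
  set B := (A \ U).filter (fun v => ¬ m ≤ (outN D v (U : Set V)).ncard) with hB
  refine ⟨U, hUA, A', (Finset.filter_subset _ _).trans Finset.sdiff_subset, ?_, ?_, ?_⟩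
  · rw [Finset.disjoint_left]
    intro v hv hv'
    exact (Finset.mem_sdiff.mp (Finset.mem_filter.mp hv').1).2 hv
  · intro v hv
    exact (Finset.mem_filter.mp hv).2
  · have hUw := sum_le_of_colSet _ w hind U r hUc
    have hBw : ∑ v ∈ B, w v ≤ δ * ∑ v ∈ A, w v := by
      have h1 : (∑ v ∈ B, w v) * x ^ (m - 1)
          ≤ ∑ v ∈ A \ U, w v * x ^ (outN D v (U : Set V)).ncard := by
        rw [Finset.sum_mul]
        calc ∑ v ∈ B, w v * x ^ (m - 1)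
            ≤ ∑ v ∈ B, w v * x ^ (outN D v (U : Set V)).ncard := by
              refine Finset.sum_le_sum (fun v hv => ?_)
              have := (Finset.mem_filter.mp hv).2
              exact mul_le_mul_of_nonneg_left
                (pow_le_pow_of_le_one hx0 hx1 (by omega)) (hw v)
          _ ≤ _ := Finset.sum_le_sum_of_subset_of_nonneg (Finset.filter_subset _ _)
              (fun v _ _ => mul_nonneg (hw v) (pow_nonneg hx0 _))
      have hA0 : 0 ≤ ∑ v ∈ A, w v := Finset.sum_nonneg (fun v _ => hw v)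
      have h2 : (∑ v ∈ B, w v) * x ^ (m - 1) ≤ (δ * ∑ v ∈ A, w v) * x ^ (m - 1) := by
        calc (∑ v ∈ B, w v) * x ^ (m - 1) ≤ ((1 + x) / 2) ^ r * ∑ v ∈ A, w v := h1.trans hU
          _ ≤ (δ * x ^ (m - 1)) * ∑ v ∈ A, w v := mul_le_mul_of_nonneg_right hr hA0
          _ = (δ * ∑ v ∈ A, w v) * x ^ (m - 1) := by ring
      exact le_of_mul_le_mul_right h2 hxm
    have hsplit : ∑ v ∈ A, w v = ∑ v ∈ U, w v + (∑ v ∈ A', w v + ∑ v ∈ B, w v) := by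
      rw [hA', hB, Finset.sum_filter_add_sum_filter_not, add_comm,
        Finset.sum_sdiff hUA]
    linarith

theorem step_in [Finite V] [DecidableEq V] (D : Digraph V) (w : V → ℝ) (hw : ∀ v, 0 ≤ w v)
    (hind : ∀ S : Finset V, (SimpleGraph.fromRel D.Adj).IsIndepSet (S : Set V) →
      ∑ v ∈ S, w v ≤ 1)
    (x δ : ℝ) (hx0 : 0 ≤ x) (hx1 : x ≤ 1) (m r : ℕ) (hxm : 0 < x ^ (m - 1))
    (hr : ((1 + x) / 2) ^ r ≤ δ * x ^ (m - 1)) (A : Finset V) :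
    ∃ U ⊆ A, ∃ A' ⊆ A, Disjoint U A' ∧ (∀ v ∈ A', m ≤ (inN D v (U : Set V)).ncard) ∧
      (1 - δ) * ∑ v ∈ A, w v - r ≤ ∑ v ∈ A', w v := by
  have h := step_out (rev D) w hw (by rw [fromRel_rev]; exact hind) x δ hx0 hx1 m r hxm hr A
  simpa only [outN_rev] using h

/-- **Batches, weighted version.** -/
theorem weighted_main [Fintype V] {k : ℕ} (D : Digraph V) (T : SimpleGraph (Fin (k + 1)))
    (hT : T.IsTree) (O : Digraph (Fin (k + 1)))
    (hO : ∀ u v, T.Adj u v ↔ (O.Adj u v ∨ O.Adj v u))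
    (hO' : ∀ u v, O.Adj u v → ¬ O.Adj v u)
    (S : Set (Fin (k + 1))) (x0 : Fin (k + 1)) (hx0 : x0 ∈ S)
    (hcl : ∀ y ∈ S, ∀ b, T.Adj b y → T.dist x0 b < T.dist x0 y → b ∈ S)
    (β : Fin (k + 1) → ℕ) (dir : ℕ → Prop) (L : ℕ)
    (hβ0 : ∀ x, β x = 0 ↔ x ∈ S)
    (hβ : ∀ x y, (O.Adj x y ∨ O.Adj y x) → T.dist x0 x < T.dist x0 y → 1 ≤ β y → β x < β y)
    (hd1 : ∀ a b, O.Adj a b → T.dist x0 a < T.dist x0 b → 1 ≤ β b → dir (β b))
    (hd2 : ∀ a b, O.Adj a b → T.dist x0 b < T.dist x0 a → 1 ≤ β a → ¬ dir (β a))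
    (hL : ∀ x, β x ≤ L)
    (w : V → ℝ) (hw : ∀ v, 0 ≤ w v)
    (hind : ∀ S : Finset V, (SimpleGraph.fromRel D.Adj).IsIndepSet (S : Set V) →
      ∑ v ∈ S, w v ≤ 1)
    (p : ℝ) (hp : ∀ A : Finset V, p < ∑ v ∈ A, w v → HoldsIn D O S (A : Set V))
    (x δ : ℝ) (hx0' : 0 ≤ x) (hx1 : x ≤ 1) (hδ : δ ≤ 1) (r : ℕ → ℕ)
    (hxm : ∀ i, 0 < x ^ ({y | β y = i + 1}.ncard - 1))
    (hr : ∀ i, ((1 + x) / 2) ^ (r (i + 1)) ≤ δ * x ^ ({y | β y = i + 1}.ncard - 1))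
    (hW : p + ((∑ j ∈ Finset.range L, r (j + 1) : ℕ) : ℝ) < (∑ v, w v) * (1 - δ) ^ L) :
    ∃ f : Fin (k + 1) → V, Function.Injective f ∧
      ∀ u v, O.Adj u v → D.Adj (f u) (f v) := by
  classical
  refine levels_main D T hT O hO hO' S x0 hx0 hcl β dir L hβ0 hβ hd1 hd2 hL
    (fun i A => p + ((∑ j ∈ Finset.range i, r (j + 1) : ℕ) : ℝ)
      < (∑ v ∈ A, w v) * (1 - δ) ^ i)
    ?_ ?_ Finset.univ hW
  · intro A hA
    apply hp A
    simpa using hA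
  · intro i A hA
    have hA' : p + ((∑ j ∈ Finset.range (i + 1), r (j + 1) : ℕ) : ℝ)
      < (∑ v ∈ A, w v) * (1 - δ) ^ (i + 1) := hA
    rw [Finset.sum_range_succ, Nat.cast_add] at hA'
    have hpow0 : 0 ≤ (1 - δ) ^ i := pow_nonneg (by linarith) i
    have hd0 : 0 ≤ δ := by
      by_contra hcon
      have h1 := hr 0
      have h2 := hxm 0
      have h3 : (0 : ℝ) ≤ ((1 + x) / 2) ^ (r (0 + 1)) := pow_nonneg (by linarith) _
      nlinarith
    have hpow1 : (1 - δ) ^ i ≤ 1 := pow_le_one₀ (by linarith) (by linarith)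
    have key : ∀ A' : Finset V, (1 - δ) * ∑ v ∈ A, w v - (r (i + 1) : ℝ) ≤ ∑ v ∈ A', w v →
        p + ((∑ j ∈ Finset.range i, r (j + 1) : ℕ) : ℝ)
          < (∑ v ∈ A', w v) * (1 - δ) ^ i := by
      intro A' h
      have h1 := mul_le_mul_of_nonneg_right h hpow0
      have h2 : (r (i + 1) : ℝ) * (1 - δ) ^ i ≤ r (i + 1) :=
        mul_le_of_le_one_right (Nat.cast_nonneg _) hpow1
      have h3 : ((1 - δ) * ∑ v ∈ A, w v - (r (i + 1) : ℝ)) * (1 - δ) ^ i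
          = (∑ v ∈ A, w v) * (1 - δ) ^ (i + 1) - (r (i + 1) : ℝ) * (1 - δ) ^ i := by ring
      linarith
    by_cases hdir : dir (i + 1)
    · obtain ⟨U, hUA, A', hA'A, hd, h1, h2⟩ := step_out D w hw hind x δ hx0' hx1 _ (r (i + 1))
        (hxm i) (hr i) A
      exact ⟨U, hUA, A', hA'A, hd, key A' h2, fun _ => h1, fun h => (h hdir).elim⟩
    · obtain ⟨U, hUA, A', hA'A, hd, h1, h2⟩ := step_in D w hw hind x δ hx0' hx1 _ (r (i + 1))
        (hxm i) (hr i) A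
      exact ⟨U, hUA, A', hA'A, hd, key A' h2, fun h => (hdir h).elim, fun _ => h1⟩

/-- One batch, chromatic version, out-neighbours. -/
theorem cstep_out [Fintype V] [DecidableEq V] (D : Digraph V)
    (x : ℝ) (hx0 : 0 < x) (hx1 : x ≤ 1) (m r : ℕ)
    (hr : ((1 + x) / 2) ^ r * (Fintype.card V : ℝ) < x ^ (m - 1)) (A : Finset V) (s : ℕ)
    (hA : ¬ ColSet (SimpleGraph.fromRel D.Adj) (A : Set V) (s + r)) :
    ∃ U ⊆ A, ∃ A' ⊆ A, Disjoint U A' ∧ (∀ v ∈ A', m ≤ (outN D v (U : Set V)).ncard) ∧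
      ¬ ColSet (SimpleGraph.fromRel D.Adj) (A' : Set V) s := by
  classical
  obtain ⟨U, hUA, hUc, hU⟩ := batch D (fun _ => 1) (fun _ => zero_le_one) x hx0.le hx1 A r
  refine ⟨U, hUA, A \ U, Finset.sdiff_subset, Finset.disjoint_sdiff, ?_, ?_⟩
  · intro v hv
    by_contra hcon
    push Not at hcon
    have h1 : x ^ (m - 1) ≤ x ^ (outN D v (U : Set V)).ncard :=
      pow_le_pow_of_le_one hx0.le hx1 (by omega)
    have h2 : (1 : ℝ) * x ^ (outN D v (U : Set V)).ncard ≤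
        ∑ v ∈ A \ U, 1 * x ^ (outN D v (U : Set V)).ncard :=
      Finset.single_le_sum (f := fun v => (1 : ℝ) * x ^ (outN D v (U : Set V)).ncard)
        (fun u _ => mul_nonneg zero_le_one (pow_nonneg hx0.le _)) hv
    have h3 : ∑ v ∈ A, (1 : ℝ) ≤ Fintype.card V := by
      rw [Finset.sum_const, nsmul_eq_mul, mul_one]
      exact_mod_cast Finset.card_le_univ A
    have h4 : ((1 + x) / 2) ^ r * ∑ v ∈ A, (1 : ℝ) ≤ ((1 + x) / 2) ^ r * Fintype.card V :=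
      mul_le_mul_of_nonneg_left h3 (pow_nonneg (by linarith) _)
    linarith
  · intro hcon
    apply hA
    refine (hcon.union hUc).subset ?_
    intro v hv
    by_cases hvU : v ∈ U
    · exact Or.inr (Finset.mem_coe.mpr hvU)
    · exact Or.inl (Finset.mem_coe.mpr (Finset.mem_sdiff.mpr ⟨Finset.mem_coe.mp hv, hvU⟩))

theorem cstep_in [Fintype V] [DecidableEq V] (D : Digraph V)
    (x : ℝ) (hx0 : 0 < x) (hx1 : x ≤ 1) (m r : ℕ)
    (hr : ((1 + x) / 2) ^ r * (Fintype.card V : ℝ) < x ^ (m - 1)) (A : Finset V) (s : ℕ)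
    (hA : ¬ ColSet (SimpleGraph.fromRel D.Adj) (A : Set V) (s + r)) :
    ∃ U ⊆ A, ∃ A' ⊆ A, Disjoint U A' ∧ (∀ v ∈ A', m ≤ (inN D v (U : Set V)).ncard) ∧
      ¬ ColSet (SimpleGraph.fromRel D.Adj) (A' : Set V) s := by
  have h := cstep_out (rev D) x hx0 hx1 m r hr A s (by rw [fromRel_rev]; exact hA)
  rw [fromRel_rev] at h
  simpa only [outN_rev] using h

/-- **Batches, chromatic version.** -/
theorem chromatic_main [Fintype V] {k : ℕ} (D : Digraph V) (T : SimpleGraph (Fin (k + 1)))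
    (hT : T.IsTree) (O : Digraph (Fin (k + 1)))
    (hO : ∀ u v, T.Adj u v ↔ (O.Adj u v ∨ O.Adj v u))
    (hO' : ∀ u v, O.Adj u v → ¬ O.Adj v u)
    (S : Set (Fin (k + 1))) (x0 : Fin (k + 1)) (hx0 : x0 ∈ S)
    (hcl : ∀ y ∈ S, ∀ b, T.Adj b y → T.dist x0 b < T.dist x0 y → b ∈ S)
    (β : Fin (k + 1) → ℕ) (dir : ℕ → Prop) (L : ℕ)
    (hβ0 : ∀ x, β x = 0 ↔ x ∈ S)
    (hβ : ∀ x y, (O.Adj x y ∨ O.Adj y x) → T.dist x0 x < T.dist x0 y → 1 ≤ β y → β x < β y)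
    (hd1 : ∀ a b, O.Adj a b → T.dist x0 a < T.dist x0 b → 1 ≤ β b → dir (β b))
    (hd2 : ∀ a b, O.Adj a b → T.dist x0 b < T.dist x0 a → 1 ≤ β a → ¬ dir (β a))
    (hL : ∀ x, β x ≤ L)
    (p : ℕ) (hp : ∀ A : Finset V, ¬ ColSet (SimpleGraph.fromRel D.Adj) (A : Set V) p →
      HoldsIn D O S (A : Set V))
    (x : ℝ) (hx0' : 0 < x) (hx1 : x ≤ 1) (r : ℕ → ℕ)
    (hr : ∀ i, ((1 + x) / 2) ^ (r (i + 1)) * (Fintype.card V : ℝ)
      < x ^ ({y | β y = i + 1}.ncard - 1))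
    (hW : ¬ (SimpleGraph.fromRel D.Adj).Colorable (p + ∑ j ∈ Finset.range L, r (j + 1))) :
    ∃ f : Fin (k + 1) → V, Function.Injective f ∧
      ∀ u v, O.Adj u v → D.Adj (f u) (f v) := by
  classical
  refine levels_main D T hT O hO hO' S x0 hx0 hcl β dir L hβ0 hβ hd1 hd2 hL
    (fun i A => ¬ ColSet (SimpleGraph.fromRel D.Adj) (A : Set V)
      (p + ∑ j ∈ Finset.range i, r (j + 1))) ?_ ?_ Finset.univ ?_
  · intro A hA
    apply hp A
    simpa using hA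
  · intro i A hA
    have hA' : ¬ ColSet (SimpleGraph.fromRel D.Adj) (A : Set V)
      (p + ∑ j ∈ Finset.range i, r (j + 1) + r (i + 1)) := by
      rw [add_assoc, ← Finset.sum_range_succ]
      exact hA
    by_cases hdir : dir (i + 1)
    · obtain ⟨U, hUA, A', hA'A, hd, h1, h2⟩ := cstep_out D x hx0' hx1 _ (r (i + 1))
        (hr i) A _ hA'
      exact ⟨U, hUA, A', hA'A, hd, h2, fun _ => h1, fun h => (h hdir).elim⟩
    · obtain ⟨U, hUA, A', hA'A, hd, h1, h2⟩ := cstep_in D x hx0' hx1 _ (r (i + 1))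
        (hr i) A _ hA'
      exact ⟨U, hUA, A', hA'A, hd, h2, fun h => (hdir h).elim, fun _ => h1⟩
  · intro hcon
    apply hW
    rw [Finset.coe_univ] at hcon
    exact hcon.colorable

end P74ff84
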