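import Mathlib
import Pool.Agent.Lib.P74ff84.Fold
import Pool.Agent.Lib.P74ff84.Chain
import Pool.Agent.Lib.P74ff84.Steps

set_option autoImplicit false

namespace P74ff84

variable {V : Type*}

/-- Absorbing sets: every vertex outside has `k` out-neighbours in `A`, or `m` out-neighbours
in the absorbing set `U`. -/
theorem absorb_out [Fintype V] (D : Digraph V) (k J : ℕ) (hk : 1 ≤ k) (hJ : 2 ≤ J)
    (M η : ℝ) (hM : 0 ≤ M) (hη0 : 0 ≤ η) (hη1 : η ≤ 1)
    (hME : 8 * ((k * (2 * k) ^ (J + 2) : ℕ) : ℝ) * Real.exp (-(η ^ 2 * M / 4)) ≤ 1)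
    (m : ℕ) (hm : (m : ℝ) ≤ ((J : ℝ) - 1) * ((1 - η) * M)) (A : Set V) :
    ∃ U ⊆ A, ColSet (SimpleGraph.fromRel D.Adj) U (J * (2 * ⌊(1 + η) * M⌋₊ + 1)) ∧
      ∀ v ∈ A, v ∉ U → k ≤ (outN D v A).ncard ∨ m ≤ (outN D v U).ncard := by
  classical
  set X : Finset V := Finset.univ.filter (fun v => v ∈ A ∧ (outN D v A).ncard < k) with hX
  have hXA : ∀ v ∈ X, v ∈ A := fun v hv => (Finset.mem_filter.mp hv).2.1
  obtain ⟨B, hB⟩ : ∃ B : V → V → Prop, ∀ v u, B v u ↔ (u ≠ v ∧ D.Adj v u) :=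
    ⟨fun v u => u ≠ v ∧ D.Adj v u, fun _ _ => Iff.rfl⟩
  have hcoe : ∀ (Y : Finset V) (v : V),
      ((Y.filter (fun u => B v u) : Finset V) : Set V) = outN D v (Y : Set V) := by
    intro Y v
    ext u
    simp only [Finset.coe_filter, Set.mem_ofPred_eq, outN, hB, Finset.mem_coe]
    tauto
  have hcard : ∀ (Y : Finset V) (v : V),
      (Y.filter (fun u => B v u)).card = (outN D v (Y : Set V)).ncard := by
    intro Y v
    rw [← hcoe, Set.ncard_coe_finset]
  have hmono : ∀ (v : V) (P Q : Set V), P ⊆ Q → (outN D v P).ncard ≤ (outN D v Q).ncard := by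
    intro v P Q hPQ
    exact Set.ncard_le_ncard (fun u hu => ⟨hu.1, hu.2.1, hPQ hu.2.2⟩) (Set.toFinite _)
  obtain ⟨U, hUX, hU1, hU2⟩ := fold_lemma B X k J hk hJ (by
    intro v hv
    rw [hcard]
    exact (hmono v _ _ (fun u hu => hXA u (Finset.mem_coe.mp hu))).trans
      (Finset.mem_filter.mp hv).2.2.le) M η hM hη0 hη1 hME
  refine ⟨⋃ j ∈ Finset.range J, (U j : Set V), ?_, ?_, ?_⟩
  · intro v hv
    simp only [Set.mem_iUnion] at hv
    obtain ⟨j, hj, hv⟩ := hv
    exact hXA v (hUX j (Finset.mem_range.mp hj) (Finset.mem_coe.mp hv))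
  · have h1 : ∀ j ∈ Finset.range J, ColSet (SimpleGraph.fromRel D.Adj) (U j : Set V)
        (2 * ⌊(1 + η) * M⌋₊ + 1) := by
      intro j hj
      refine colSet_of_lists _ _ _ (fun v => outN D v (U j : Set V)) ?_ ?_
      · intro v hv
        rw [← hcard]
        apply Nat.le_floor
        exact hU1 j (Finset.mem_range.mp hj) v (Finset.mem_coe.mp hv)
      · intro u hu v hv huv
        rw [SimpleGraph.fromRel_adj] at huv
        obtain ⟨hne, h | h⟩ := huv
        · exact Or.inl ⟨hne.symm, h, hv⟩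
        · exact Or.inr ⟨hne, h, hu⟩
    have h2 := ColSet.biUnion (Finset.range J) (fun j => (U j : Set V))
      (fun _ => 2 * ⌊(1 + η) * M⌋₊ + 1) h1
    rw [Finset.sum_const, Finset.card_range, smul_eq_mul] at h2
    exact h2
  · intro v hvA hvU
    by_cases hv : k ≤ (outN D v A).ncard
    · exact Or.inl hv
    · right
      have hvX : v ∈ X := Finset.mem_filter.mpr ⟨Finset.mem_univ v, hvA, by omega⟩
      have hvU' : ∀ j < J, v ∉ U j := by
        intro j hj hcon
        exact hvU (Set.mem_biUnion (Finset.mem_coe.mpr (Finset.mem_range.mpr hj))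
          (Finset.mem_coe.mpr hcon))
      have h1 := hm.trans (hU2 v hvX hvU')
      rw [hcard] at h1
      have h2 : m ≤ (outN D v (((Finset.range J).biUnion U : Finset V) : Set V)).ncard := by
        exact_mod_cast h1
      refine h2.trans (hmono v _ _ ?_)
      intro u hu
      rw [Finset.mem_coe, Finset.mem_biUnion] at hu
      obtain ⟨j, hj, hu⟩ := hu
      exact Set.mem_biUnion (Finset.mem_coe.mpr hj) (Finset.mem_coe.mpr hu)

theorem absorb_in [Fintype V] (D : Digraph V) (k J : ℕ) (hk : 1 ≤ k) (hJ : 2 ≤ J)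
    (M η : ℝ) (hM : 0 ≤ M) (hη0 : 0 ≤ η) (hη1 : η ≤ 1)
    (hME : 8 * ((k * (2 * k) ^ (J + 2) : ℕ) : ℝ) * Real.exp (-(η ^ 2 * M / 4)) ≤ 1)
    (m : ℕ) (hm : (m : ℝ) ≤ ((J : ℝ) - 1) * ((1 - η) * M)) (A : Set V) :
    ∃ U ⊆ A, ColSet (SimpleGraph.fromRel D.Adj) U (J * (2 * ⌊(1 + η) * M⌋₊ + 1)) ∧
      ∀ v ∈ A, v ∉ U → k ≤ (inN D v A).ncard ∨ m ≤ (inN D v U).ncard := by
  have h := absorb_out (rev D) k J hk hJ M η hM hη0 hη1 hME m hm A
  rw [fromRel_rev] at h
  simpa only [outN_rev] using h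

/-- The chain of hosts. `F m` is the price of an absorbing set of order `m`. -/
theorem hosts [Fintype V] (D : Digraph V) (k : ℕ) (dir : ℕ → Prop) (m : ℕ → ℕ) (F : ℕ → ℕ)
    (hF1 : ∀ (i : ℕ) (A : Set V), ∃ U ⊆ A, ColSet (SimpleGraph.fromRel D.Adj) U (F i) ∧
      ∀ v ∈ A, v ∉ U → k ≤ (outN D v A).ncard ∨ m i ≤ (outN D v U).ncard)
    (hF2 : ∀ (i : ℕ) (A : Set V), ∃ U ⊆ A, ColSet (SimpleGraph.fromRel D.Adj) U (F i) ∧
      ∀ v ∈ A, v ∉ U → k ≤ (inN D v A).ncard ∨ m i ≤ (inN D v U).ncard)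
    (p : ℕ) (L : ℕ) : ∀ A : Set V, ¬ ColSet (SimpleGraph.fromRel D.Adj) A
      (p + ∑ j ∈ Finset.range L, F (j + 1)) →
    ∃ R : ℕ → Set V, R L = A ∧ (∀ i, R i ⊆ R (i + 1)) ∧
      ¬ ColSet (SimpleGraph.fromRel D.Adj) (R 0) p ∧
      (∀ i < L, dir (i + 1) → ∀ v ∈ R i, k ≤ (outN D v (R (i + 1))).ncard ∨
        m (i + 1) ≤ (outN D v (R (i + 1) \ R i)).ncard) ∧
      (∀ i < L, ¬ dir (i + 1) → ∀ v ∈ R i, k ≤ (inN D v (R (i + 1))).ncard ∨
        m (i + 1) ≤ (inN D v (R (i + 1) \ R i)).ncard) := by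
  classical
  induction L with
  | zero =>
    intro A hA
    exact ⟨fun _ => A, rfl, fun _ => subset_rfl, by simpa using hA, fun i hi => by omega,
      fun i hi => by omega⟩
  | succ L ih =>
    intro A hA
    rw [Finset.sum_range_succ, ← add_assoc] at hA
    obtain ⟨U, hUA, hUc, hU⟩ : ∃ U ⊆ A, ColSet (SimpleGraph.fromRel D.Adj) U (F (L + 1)) ∧
        (dir (L + 1) → ∀ v ∈ A, v ∉ U → k ≤ (outN D v A).ncard ∨
          m (L + 1) ≤ (outN D v U).ncard) ∧
        (¬ dir (L + 1) → ∀ v ∈ A, v ∉ U → k ≤ (inN D v A).ncard ∨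
          m (L + 1) ≤ (inN D v U).ncard) := by
      by_cases hd : dir (L + 1)
      · obtain ⟨U, h1, h2, h3⟩ := hF1 (L + 1) A
        exact ⟨U, h1, h2, fun _ => h3, fun h => (h hd).elim⟩
      · obtain ⟨U, h1, h2, h3⟩ := hF2 (L + 1) A
        exact ⟨U, h1, h2, fun h => (hd h).elim, fun _ => h3⟩
    have hA' : ¬ ColSet (SimpleGraph.fromRel D.Adj) (A \ U)
        (p + ∑ j ∈ Finset.range L, F (j + 1)) := by
      intro hcon
      apply hA
      refine (hcon.union hUc).subset ?_
      intro v hv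
      by_cases h : v ∈ U
      · exact Or.inr h
      · exact Or.inl ⟨hv, h⟩
    obtain ⟨R, hRL, hRm, hR0, hR1, hR2⟩ := ih (A \ U) hA'
    have hRsub : ∀ j ≤ L, R j ⊆ A \ U := by
      intro j hj
      rw [← hRL]
      have : ∀ d, R j ⊆ R (j + d) := by
        intro d
        induction d with
        | zero => exact subset_rfl
        | succ d ihd => exact ihd.trans (hRm (j + d))
      have h := this (L - j)
      rwa [Nat.add_sub_cancel' hj] at h
    have hsd : A \ (A \ U) = U := by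
      ext v
      simp only [Set.mem_sdiff, not_and, not_not]
      constructor
      · rintro ⟨h1, h2⟩
        exact h2 h1
      · intro h
        exact ⟨hUA h, fun _ => h⟩
    refine ⟨fun j => if j ≤ L then R j else A, ?_, ?_, ?_, ?_, ?_⟩
    · have h : ¬ L + 1 ≤ L := by omega
      simp only [h, if_false]
    · intro i
      by_cases h1 : i + 1 ≤ L
      · have h2 : i ≤ L := by omega
        simp only [h1, h2, if_true]
        exact hRm i
      · simp only [h1, if_false]
        by_cases h2 : i ≤ L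
        · simp only [h2, if_true]
          exact (hRsub i h2).trans Set.sdiff_subset
        · simp only [h2, if_false]
          exact subset_rfl
    · simp only [Nat.zero_le, if_true]
      exact hR0
    · intro i hi hd v hv
      have h2 : i ≤ L := by omega
      simp only [h2, if_true] at hv ⊢
      by_cases h1 : i + 1 ≤ L
      · simp only [h1, if_true]
        exact hR1 i (by omega) hd v hv
      · have hiL : i = L := by omega
        simp only [h1, if_false]
        rw [hiL] at hd hv ⊢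
        rw [hRL] at hv ⊢
        rw [hsd]
        exact hU.1 hd v hv.1 hv.2
    · intro i hi hd v hv
      have h2 : i ≤ L := by omega
      simp only [h2, if_true] at hv ⊢
      by_cases h1 : i + 1 ≤ L
      · simp only [h1, if_true]
        exact hR2 i (by omega) hd v hv
      · have hiL : i = L := by omega
        simp only [h1, if_false]
        rw [hiL] at hd hv ⊢
        rw [hRL] at hv ⊢
        rw [hsd]
        exact hU.2 hd v hv.1 hv.2

end P74ff84
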