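import Mathlib
import Pool.Agent.Lib.P74ff84.Greedy3

set_option autoImplicit false

namespace P74ff84

/-- There is an arc of round `i` whose tail has level `j` and which points away from the
root `x0`. The round of an arc is `ρ` of the end which is farther from the root. -/
def OutArc {k : ℕ} (T : SimpleGraph (Fin (k + 1))) (O : Digraph (Fin (k + 1)))
    (x0 : Fin (k + 1)) (ρ : Fin (k + 1) → ℕ) (ℓ : ℕ → Fin (k + 1) → ℕ) (i j : ℕ) : Prop :=
  ∃ a b, O.Adj a b ∧ T.dist x0 a < T.dist x0 b ∧ ρ b = i ∧ ℓ i a = j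

/-- There is an arc of round `i` whose tail has level `j` and which points towards the
root `x0`. -/
def InArc {k : ℕ} (T : SimpleGraph (Fin (k + 1))) (O : Digraph (Fin (k + 1)))
    (x0 : Fin (k + 1)) (ρ : Fin (k + 1) → ℕ) (ℓ : ℕ → Fin (k + 1) → ℕ) (i j : ℕ) : Prop :=
  ∃ a b, O.Adj a b ∧ T.dist x0 b < T.dist x0 a ∧ ρ a = i ∧ ℓ i a = j

/-- The levels (in round `i`) of the vertices of earlier rounds that have a neighbour of
round `i`. -/
def AttLevel {k : ℕ} (T : SimpleGraph (Fin (k + 1))) (x0 : Fin (k + 1))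
    (ρ : Fin (k + 1) → ℕ) (ℓ : ℕ → Fin (k + 1) → ℕ) (i : ℕ) : Set ℕ :=
  {s | ∃ x y, T.Adj x y ∧ T.dist x0 x < T.dist x0 y ∧ ρ x < i ∧ ρ y = i ∧ ℓ i x = s}

open Classical in
/-- The price of the class of all arcs of round `i` between the levels `j` and `j + 1`. -/
noncomputable def price {k : ℕ} (T : SimpleGraph (Fin (k + 1))) (O : Digraph (Fin (k + 1)))
    (x0 : Fin (k + 1)) (ρ : Fin (k + 1) → ℕ) (ℓ : ℕ → Fin (k + 1) → ℕ) (i j : ℕ) : ℕ :=
  if OutArc T O x0 ρ ℓ i j ∧ InArc T O x0 ρ ℓ i j then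
    (if (∃ s ∈ AttLevel T x0 ρ ℓ i, s ≤ j) ∧ (∃ s ∈ AttLevel T x0 ρ ℓ i, j < s)
      then 6 * k - 4 else 4 * k - 3)
  else if OutArc T O x0 ρ ℓ i j ∨ InArc T O x0 ρ ℓ i j then 2 * k - 1 else 0

section

variable {k : ℕ} (T : SimpleGraph (Fin (k + 1))) (O : Digraph (Fin (k + 1)))
  (x0 : Fin (k + 1)) (ρ : Fin (k + 1) → ℕ) (ℓ : ℕ → Fin (k + 1) → ℕ)

theorem price_le_six (hk : 1 ≤ k) (i j : ℕ) : price T O x0 ρ ℓ i j ≤ 6 * k - 4 := by
  unfold price
  split_ifs <;> omega

theorem price_le_four (hk : 1 ≤ k) (i j : ℕ)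
    (h : ¬ ((∃ s ∈ AttLevel T x0 ρ ℓ i, s ≤ j) ∧ (∃ s ∈ AttLevel T x0 ρ ℓ i, j < s))) :
    price T O x0 ρ ℓ i j ≤ 4 * k - 3 := by
  unfold price
  rw [if_neg h]
  split_ifs <;> omega

theorem price_le_two (i j : ℕ)
    (h : ¬ (OutArc T O x0 ρ ℓ i j ∧ InArc T O x0 ρ ℓ i j)) :
    price T O x0 ρ ℓ i j ≤ 2 * k - 1 := by
  unfold price
  rw [if_neg h]
  split_ifs <;> omega

theorem price_eq_zero (i j : ℕ) (h1 : ¬ OutArc T O x0 ρ ℓ i j)
    (h2 : ¬ InArc T O x0 ρ ℓ i j) : price T O x0 ρ ℓ i j = 0 := by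
  unfold price
  rw [if_neg (fun h => h1 h.1), if_neg (fun h => h.elim h1 h2)]

variable {V : Type*} [Finite V] (D : Digraph V)

theorem rounds_aux (hk : 1 ≤ k)
    (hO : ∀ u v, T.Adj u v ↔ (O.Adj u v ∨ O.Adj v u))
    (hρ : ∀ x y, T.Adj x y → T.dist x0 x < T.dist x0 y → ρ x ≤ ρ y)
    (h : ℕ)
    (hl : ∀ a b, O.Adj a b → 1 ≤ max (ρ a) (ρ b) →
      ℓ (max (ρ a) (ρ b)) b = ℓ (max (ρ a) (ρ b)) a + 1 ∧ ℓ (max (ρ a) (ρ b)) b ≤ h)
    (p i : ℕ) :
    ∀ X : Set V, ¬ ColSet (SimpleGraph.fromRel D.Adj) X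
        (p + ∑ i' ∈ Finset.range i, ∑ j ∈ Finset.range h, price T O x0 ρ ℓ (i' + 1) j) →
      ∃ X0 ⊆ X, ¬ ColSet (SimpleGraph.fromRel D.Adj) X0 p ∧
      ∃ G : Fin (k + 1) → Set V, (∀ x, ρ x = 0 → G x = X0) ∧ (∀ x, ρ x ≤ i → G x ⊆ X) ∧
        (∀ a b, O.Adj a b → T.dist x0 a < T.dist x0 b → 1 ≤ ρ b → ρ b ≤ i → ∀ v ∈ G a,
          k ≤ (outN D v (G b)).ncard) ∧
        (∀ a b, O.Adj a b → T.dist x0 b < T.dist x0 a → 1 ≤ ρ a → ρ a ≤ i → ∀ v ∈ G b,
          k ≤ (inN D v (G a)).ncard) := by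
  induction i with
  | zero =>
    intro X hX
    rw [Finset.sum_range_zero, add_zero] at hX
    exact ⟨X, subset_rfl, hX, fun _ => X, fun _ _ => rfl, fun _ _ => subset_rfl,
      fun a b _ _ h1 h2 => by omega, fun a b _ _ h1 h2 => by omega⟩
  | succ i ih =>
    intro X hX
    classical
    set nO : ℕ → Prop := fun j => OutArc T O x0 ρ ℓ (i + 1) j with hnO
    set nI : ℕ → Prop := fun j => InArc T O x0 ρ ℓ (i + 1) j with hnI
    have hround := round D k nO nI X hk h
      (by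
        rintro j hj ⟨a, b, hab, hd, hb, ha⟩
        have h1 := hρ a b ((hO a b).mpr (Or.inl hab)) hd
        have h2 := hl a b hab (by rw [max_eq_right h1]; omega)
        rw [max_eq_right h1, hb] at h2
        omega)
      (by
        rintro j hj ⟨a, b, hab, hd, hb, ha⟩
        have h1 := hρ b a ((hO b a).mpr (Or.inr hab)) hd
        have h2 := hl a b hab (by rw [max_eq_left h1]; omega)
        rw [max_eq_left h1, hb] at h2
        omega)
      (AttLevel T x0 ρ ℓ (i + 1)) (fun j => price T O x0 ρ ℓ (i + 1) j)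
      (by
        intro j hj
        have hj' : OutArc T O x0 ρ ℓ (i + 1) j := hj
        show 2 * k - 1 ≤ price T O x0 ρ ℓ (i + 1) j
        unfold price
        split_ifs with h1 h2 h3
        · omega
        · omega
        · omega
        · exact (h3 (Or.inl hj')).elim)
      (by
        intro j hj
        have hj' : InArc T O x0 ρ ℓ (i + 1) j := hj
        show 2 * k - 1 ≤ price T O x0 ρ ℓ (i + 1) j
        unfold price
        split_ifs with h1 h2 h3
        · omega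
        · omega
        · omega
        · exact (h3 (Or.inr hj')).elim)
      (by
        intro j hj hj2
        have hj' : OutArc T O x0 ρ ℓ (i + 1) j ∧ InArc T O x0 ρ ℓ (i + 1) j := ⟨hj, hj2⟩
        show 4 * k - 3 ≤ price T O x0 ρ ℓ (i + 1) j
        unfold price
        rw [if_pos hj']
        split_ifs <;> omega)
      (by
        intro j hj hj2 ha ha2
        have hj' : OutArc T O x0 ρ ℓ (i + 1) j ∧ InArc T O x0 ρ ℓ (i + 1) j := ⟨hj, hj2⟩
        show 6 * k - 4 ≤ price T O x0 ρ ℓ (i + 1) j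
        unfold price
        rw [if_pos hj', if_pos ⟨ha, ha2⟩])
    set X' : Set V := {v | v ∈ X ∧ ∀ a ∈ AttLevel T x0 ρ ℓ (i + 1),
      v ∈ Alive D k nO nI X a} with hX'
    have hX'' : ¬ ColSet (SimpleGraph.fromRel D.Adj) X'
        (p + ∑ i' ∈ Finset.range i, ∑ j ∈ Finset.range h, price T O x0 ρ ℓ (i' + 1) j) := by
      intro hcon
      apply hX
      rw [Finset.sum_range_succ, ← add_assoc]
      refine (hcon.union hround).subset ?_
      intro v hv
      by_cases hv2 : ∀ a ∈ AttLevel T x0 ρ ℓ (i + 1), v ∈ Alive D k nO nI X a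
      · exact Or.inl ⟨hv, hv2⟩
      · exact Or.inr ⟨hv, hv2⟩
    obtain ⟨X0, hX0, hX0c, G, hG0, hG1, hG3, hG4⟩ := ih X' hX''
    refine ⟨X0, hX0.trans (fun v hv => hv.1), hX0c,
      fun x => if ρ x ≤ i then G x else Alive D k nO nI X (ℓ (i + 1) x), ?_, ?_, ?_, ?_⟩
    · intro x hx
      have hx' : ρ x ≤ i := by omega
      simp only [hx', if_true]
      exact hG0 x hx
    · intro x _
      by_cases hx : ρ x ≤ i
      · simp only [hx, if_true]
        exact (hG1 x hx).trans (fun v hv => hv.1)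
      · simp only [hx, if_false]
        exact Alive_subset D k nO nI X _
    · intro a b hab hd hb1 hb v hv
      have h1 := hρ a b ((hO a b).mpr (Or.inl hab)) hd
      by_cases hbi : ρ b ≤ i
      · have hai : ρ a ≤ i := h1.trans hbi
        simp only [hai, if_true] at hv
        simp only [hbi, if_true]
        exact hG3 a b hab hd hb1 hbi v hv
      · have hbe : ρ b = i + 1 := by omega
        have h2 := hl a b hab (by rw [max_eq_right h1]; omega)
        rw [max_eq_right h1, hbe] at h2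
        have hva : v ∈ Alive D k nO nI X (ℓ (i + 1) a) := by
          by_cases hai : ρ a ≤ i
          · simp only [hai, if_true] at hv
            exact (hG1 a hai hv).2 _ ⟨a, b, (hO a b).mpr (Or.inl hab), hd, by omega, hbe, rfl⟩
          · simpa only [hai, if_false] using hv
        have h3 := Alive_out D k nO nI X hva ⟨a, b, hab, hd, hbe, rfl⟩
        simp only [hbi, if_false]
        rw [h2.1]
        exact h3
    · intro a b hab hd ha1 ha v hv
      have h1 := hρ b a ((hO b a).mpr (Or.inr hab)) hd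
      by_cases hai : ρ a ≤ i
      · have hbi : ρ b ≤ i := h1.trans hai
        simp only [hbi, if_true] at hv
        simp only [hai, if_true]
        exact hG4 a b hab hd ha1 hai v hv
      · have hae : ρ a = i + 1 := by omega
        have h2 := hl a b hab (by rw [max_eq_left h1]; omega)
        rw [max_eq_left h1, hae] at h2
        have hvb : v ∈ Alive D k nO nI X (ℓ (i + 1) b) := by
          by_cases hbi : ρ b ≤ i
          · simp only [hbi, if_true] at hv
            exact (hG1 b hbi hv).2 _ ⟨b, a, (hO b a).mpr (Or.inr hab), hd, by omega, hae, rfl⟩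
          · simpa only [hbi, if_false] using hv
        rw [h2.1] at hvb
        have h3 := Alive_in D k nO nI X hvb ⟨a, b, hab, hd, hae, rfl⟩
        simp only [hai, if_false]
        exact h3

theorem colSet_of_induce {G : SimpleGraph V} {A : Set V} {p : ℕ}
    (h : (G.induce A).Colorable p) : ColSet G A p := by
  classical
  obtain ⟨c⟩ := h
  refine ⟨fun v => if hv : v ∈ A then (c ⟨v, hv⟩ : ℕ) else 0, ?_, ?_⟩
  · intro v hv
    simp only [hv, dif_pos]
    exact (c ⟨v, hv⟩).2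
  · intro u hu v hv huv h
    simp only [hu, hv, dif_pos] at h
    have hadj : (G.induce A).Adj ⟨u, hu⟩ ⟨v, hv⟩ := huv
    exact c.valid hadj (Fin.ext h)

theorem ncard_others {k : ℕ} (a b : Fin (k + 1)) (hab : a ≠ b) (P : Fin (k + 1) → Prop)
    (hk : 1 ≤ k) : {z | z ≠ a ∧ z ≠ b ∧ P z}.ncard < k := by
  classical
  have h1 : {z | z ≠ a ∧ z ≠ b ∧ P z}.ncard ≤
      ((Finset.univ.erase a).erase b : Finset (Fin (k + 1))).card := by
    rw [← Set.ncard_coe_finset]
    refine Set.ncard_le_ncard ?_ (Set.toFinite _)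
    intro z hz
    rw [Finset.mem_coe, Finset.mem_erase, Finset.mem_erase]
    exact ⟨hz.2.1, hz.1, Finset.mem_univ _⟩
  have h2 : ((Finset.univ.erase a).erase b : Finset (Fin (k + 1))).card = k - 1 := by
    rw [Finset.card_erase_of_mem (Finset.mem_erase.mpr ⟨hab.symm, Finset.mem_univ _⟩),
      Finset.card_erase_of_mem (Finset.mem_univ _), Finset.card_univ, Fintype.card_fin]
    omega
  omega

/-- **Nested roles.** -/
theorem rounds_main (hk : 1 ≤ k) (hT : T.IsTree)
    (hO : ∀ u v, T.Adj u v ↔ (O.Adj u v ∨ O.Adj v u))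
    (hO' : ∀ u v, O.Adj u v → ¬ O.Adj v u)
    (S : Set (Fin (k + 1))) (hx0 : x0 ∈ S)
    (hρ0 : ∀ x, ρ x = 0 ↔ x ∈ S)
    (hρ : ∀ x y, T.Adj x y → T.dist x0 x < T.dist x0 y → ρ x ≤ ρ y)
    (r : ℕ) (hr : ∀ x, ρ x ≤ r) (h : ℕ)
    (hl : ∀ a b, O.Adj a b → 1 ≤ max (ρ a) (ρ b) →
      ℓ (max (ρ a) (ρ b)) b = ℓ (max (ρ a) (ρ b)) a + 1 ∧ ℓ (max (ρ a) (ρ b)) b ≤ h)
    (p : ℕ) (hp : ∀ A : Set V, ¬ ((SimpleGraph.fromRel D.Adj).induce A).Colorable p →
      HoldsIn D O S A)
    (hD : ¬ (SimpleGraph.fromRel D.Adj).Colorable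
      (p + ∑ i ∈ Finset.range r, ∑ j ∈ Finset.range h, price T O x0 ρ ℓ (i + 1) j)) :
    ∃ f : Fin (k + 1) → V, Function.Injective f ∧
      ∀ u v, O.Adj u v → D.Adj (f u) (f v) := by
  obtain ⟨X0, _, hX0, G, hG0, _, hG3, hG4⟩ := rounds_aux T O x0 ρ ℓ D hk hO hρ h hl p r
    Set.univ (fun hcon => hD hcon.colorable)
  obtain ⟨f0, hf1, hf2, hf3⟩ := hp X0 (fun hcon => hX0 (colSet_of_induce hcon))
  have hcl : ∀ y ∈ S, ∀ b, T.Adj b y → T.dist x0 b < T.dist x0 y → b ∈ S := by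
    intro y hy b hb hd
    have := hρ b y hb hd
    rw [(hρ0 y).mpr hy] at this
    exact (hρ0 b).mp (by omega)
  refine greedy3 D T hT O hO hO' x0 G S hx0 hcl f0 hf1 ?_ hf3 ?_ ?_
  · intro x hx
    rw [hG0 x ((hρ0 x).mpr hx)]
    exact hf2 x hx
  · intro a b hb hab hd v hv
    have hb1 : 1 ≤ ρ b := by
      by_contra hcon
      exact hb ((hρ0 b).mp (by omega))
    have hne : a ≠ b := by
      rintro rfl
      exact lt_irrefl _ hd
    exact (ncard_others a b hne _ hk).trans_le (hG3 a b hab hd hb1 (hr b) v hv)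
  · intro a b ha hab hd v hv
    have ha1 : 1 ≤ ρ a := by
      by_contra hcon
      exact ha ((hρ0 a).mp (by omega))
    have hne : b ≠ a := by
      rintro rfl
      exact lt_irrefl _ hd
    exact (ncard_others b a hne _ hk).trans_le (hG4 a b hab hd ha1 (hr a) v hv)

end

end P74ff84
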