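import Mathlib
import Pool.Agent.Lib.P74ff84.Rounds

set_option autoImplicit false

namespace P74ff84

section tree

variable {n : ℕ} (T : SimpleGraph (Fin n)) (x0 : Fin n)

open Classical in
/-- The parent of a vertex of the tree rooted at `x0`. -/
noncomputable def par (y : Fin n) : Fin n :=
  if h : ∃ b, T.Adj b y ∧ T.dist x0 b < T.dist x0 y then h.choose else x0

open Classical in
/-- The number of vertices outside `S` on the path from `x` to the root. -/
noncomputable def lay (S : Set (Fin n)) (x : Fin n) : ℕ :=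
  ∑ i ∈ Finset.range (T.dist x0 x), if (par T x0)^[i] x ∈ S then 0 else 1

variable {T}

theorem par_eq (hT : T.IsTree) {x y : Fin n} (h : T.Adj x y)
    (hd : T.dist x0 x < T.dist x0 y) : par T x0 y = x := by
  classical
  have hex : ∃ b, T.Adj b y ∧ T.dist x0 b < T.dist x0 y := ⟨x, h, hd⟩
  unfold par
  rw [dif_pos hex]
  exact tree_parent_unique hT x0 hex.choose_spec.1 h hex.choose_spec.2 hd

open Classical in
theorem lay_child (hT : T.IsTree) (S : Set (Fin n)) {x y : Fin n} (h : T.Adj x y)
    (hd : T.dist x0 x < T.dist x0 y) :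
    lay T x0 S y = lay T x0 S x + if y ∈ S then 0 else 1 := by
  unfold lay
  rw [tree_dist_adj hT x0 h hd, Finset.sum_range_succ']
  simp only [Function.iterate_succ, Function.comp_apply, Function.iterate_zero, id_eq,
    par_eq x0 hT h hd]
  congr

/-- A connected set that contains the root is closed under parents. -/
theorem parent_mem (hT : T.IsTree) (S : Set (Fin n)) (hS : (T.induce S).Preconnected)
    (h0 : x0 ∈ S) {x y : Fin n} (h : T.Adj x y) (hd : T.dist x0 x < T.dist x0 y)
    (hy : y ∈ S) : x ∈ S := by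
  classical
  obtain ⟨w⟩ := hS ⟨y, hy⟩ ⟨x0, h0⟩
  obtain ⟨w', hw'⟩ : ∃ w' : (T.induce S).Walk ⟨y, hy⟩ ⟨x0, h0⟩, w'.IsPath :=
    ⟨w.bypass, w.bypass_isPath⟩
  have hp : (w'.map (SimpleGraph.Embedding.induce S).toHom).IsPath :=
    hw'.map (SimpleGraph.Embedding.induce (G := T) S).injective
  obtain ⟨p, hp2⟩ := hT.connected.exists_walk_length_eq_dist x x0
  have e1 := tree_dist_adj hT x0 h hd
  have h1 : (SimpleGraph.Walk.cons h.symm p).IsPath := by
    apply SimpleGraph.Walk.isPath_of_length_eq_dist
    rw [SimpleGraph.Walk.length_cons, hp2, SimpleGraph.dist_comm (u := y) (v := x0), e1,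
      SimpleGraph.dist_comm (u := x) (v := x0)]
  have h3 := (hT.existsUnique_path y x0).unique h1 hp
  have h4 := congrArg (fun w => SimpleGraph.Walk.getVert w 1) h3
  have h5 : (SimpleGraph.Walk.cons h.symm p).getVert 1 = x := by simp
  have h6 : (w'.map (SimpleGraph.Embedding.induce (G := T) S).toHom).getVert 1 ∈ S := by
    rw [SimpleGraph.Walk.getVert_map]
    exact (w'.getVert 1).2
  have h7 : (SimpleGraph.Walk.cons h.symm p).getVert 1 ∈ S := by
    have h8 : (SimpleGraph.Walk.cons h.symm p).getVert 1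
        = (w'.map (SimpleGraph.Embedding.induce (G := T) S).toHom).getVert 1 := h4
    rw [h8]
    exact h6
  rwa [h5] at h7

theorem lay_mem (hT : T.IsTree) (S : Set (Fin n)) (hS : (T.induce S).Preconnected)
    (h0 : x0 ∈ S) : ∀ d : ℕ, ∀ x, T.dist x0 x = d → x ∈ S → lay T x0 S x = 0 := by
  classical
  intro d
  induction d with
  | zero =>
    intro x hx _
    unfold lay
    rw [hx]
    simp
  | succ d ih =>
    intro x hx hxS
    have hne : x ≠ x0 := by
      rintro rfl
      rw [SimpleGraph.dist_self] at hx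
      omega
    obtain ⟨b, hb, hb'⟩ := tree_exists_parent hT x0 hne
    have hbS := parent_mem x0 hT S hS h0 hb hb' hxS
    have e := tree_dist_adj hT x0 hb hb'
    rw [lay_child x0 hT S hb hb', if_pos hxS, ih b (by omega) hbS]

theorem lay_adj (hT : T.IsTree) (S : Set (Fin n)) {x y : Fin n} (h : T.Adj x y) :
    lay T x0 S y ≤ lay T x0 S x + 1 := by
  classical
  rcases hT.dist_eq_dist_add_one_of_adj x0 h with h1 | h1
  · have := lay_child x0 hT S h.symm (by omega)
    split_ifs at this <;> omega
  · have := lay_child x0 hT S h (by omega)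
    split_ifs at this <;> omega

theorem lay_walk (hT : T.IsTree) (S : Set (Fin n)) {x y : Fin n} (p : T.Walk x y) :
    lay T x0 S y ≤ lay T x0 S x + p.length := by
  induction p with
  | nil => simp
  | cons h q ih =>
    have := lay_adj x0 hT S h
    rw [SimpleGraph.Walk.length_cons]
    omega

theorem lay_le (hT : T.IsTree) (S : Set (Fin n)) (hS : (T.induce S).Preconnected)
    (h0 : x0 ∈ S) {s x : Fin n} (hs : s ∈ S) : lay T x0 S x ≤ T.dist s x := by
  obtain ⟨p, hp⟩ := hT.connected.exists_walk_length_eq_dist s x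
  have h1 := lay_walk x0 hT S p
  rw [lay_mem x0 hT S hS h0 _ s rfl hs, hp] at h1
  omega

end tree

/-- **A subtree of small height and everything near it.** -/
theorem layers_main {k : ℕ} (hk : 1 ≤ k) {V : Type*} [Finite V] (D : Digraph V)
    (T : SimpleGraph (Fin (k + 1))) (hT : T.IsTree) (O : Digraph (Fin (k + 1)))
    (hO : ∀ u v, T.Adj u v ↔ (O.Adj u v ∨ O.Adj v u))
    (hO' : ∀ u v, O.Adj u v → ¬ O.Adj v u)
    (S : Set (Fin (k + 1))) (hS : (T.induce S).Connected)
    (L : Fin (k + 1) → ℕ) (h r : ℕ) (hL : ∀ x ∈ S, L x ≤ h)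
    (hL' : ∀ a ∈ S, ∀ b ∈ S, O.Adj a b → L b = L a + 1)
    (hr : ∀ x, ∃ s ∈ S, T.dist s x ≤ r)
    (hD : ¬ (SimpleGraph.fromRel D.Adj).Colorable ((4 * k - 3) * h + (4 * k - 2) * r)) :
    ∃ f : Fin (k + 1) → V, Function.Injective f ∧
      ∀ u v, O.Adj u v → D.Adj (f u) (f v) := by
  classical
  obtain ⟨⟨x0, h0⟩⟩ := hS.nonempty
  have hSp := hS.preconnected
  set ρ : Fin (k + 1) → ℕ := fun x => if x = x0 then 0 else lay T x0 S x + 1 with hρd
  set ℓ : ℕ → Fin (k + 1) → ℕ := fun i x => if i ≤ 1 then L x else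
    if ρ x < i then 1 else if O.Adj x (par T x0 x) then 0 else 2 with hℓd
  have hne : ∀ a b : Fin (k + 1), T.dist x0 a < T.dist x0 b → b ≠ x0 := by
    rintro a b hab rfl
    rw [SimpleGraph.dist_self] at hab
    omega
  have hρ0 : ∀ x, ρ x = 0 ↔ x = x0 := by
    intro x
    simp only [hρd]
    split_ifs with h1
    · simp [h1]
    · simp [h1]
  have hρne : ∀ x, x ≠ x0 → ρ x = lay T x0 S x + 1 := by
    intro x hx
    simp only [hρd, if_neg hx]
  have hρle : ∀ x, ρ x ≤ lay T x0 S x + 1 := by
    intro x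
    by_cases hx : x = x0
    · rw [(hρ0 x).mpr hx]
      omega
    · rw [hρne x hx]
  have hρ : ∀ x y, T.Adj x y → T.dist x0 x < T.dist x0 y → ρ x ≤ ρ y := by
    intro x y hxy hd
    rw [hρne y (hne x y hd)]
    have h1 := lay_child x0 hT S hxy hd
    have h2 := hρle x
    split_ifs at h1 <;> omega
  -- a child outside `S`
  have hchild : ∀ x y, T.Adj x y → T.dist x0 x < T.dist x0 y → y ∉ S →
      ρ x < ρ y ∧ 2 ≤ ρ y := by
    intro x y hxy hd hy
    rw [hρne y (hne x y hd)]
    have h1 := lay_child x0 hT S hxy hd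
    have h2 := hρle x
    rw [if_neg hy] at h1
    omega
  have hchildS : ∀ x y, T.Adj x y → T.dist x0 x < T.dist x0 y → y ∈ S → ρ y = 1 := by
    intro x y hxy hd hy
    rw [hρne y (hne x y hd), lay_mem x0 hT S hSp h0 _ y rfl hy]
  have hrr : ∀ x, ρ x ≤ r + 1 := by
    intro x
    obtain ⟨s, hs, hsx⟩ := hr x
    have h1 := lay_le x0 hT S hSp h0 (x := x) hs
    have h2 := hρle x
    omega
  have hpar : ∀ x y, T.Adj x y → T.dist x0 x < T.dist x0 y → par T x0 y = x :=
    fun x y hxy hd => par_eq x0 hT hxy hd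
  -- levels of an arc that points away from the root
  have hout : ∀ a b, O.Adj a b → T.dist x0 a < T.dist x0 b →
      (b ∈ S ∧ ρ b = 1 ∧ ℓ (ρ b) a = L a ∧ ℓ (ρ b) b = L a + 1 ∧ L a + 1 ≤ h) ∨
      (b ∉ S ∧ 2 ≤ ρ b ∧ ℓ (ρ b) a = 1 ∧ ℓ (ρ b) b = 2) := by
    intro a b hab hd
    have hT1 : T.Adj a b := (hO a b).mpr (Or.inl hab)
    by_cases hb : b ∈ S
    · left
      have ha := parent_mem x0 hT S hSp h0 hT1 hd hb
      have h1 := hchildS a b hT1 hd hb
      have h2 := hL' a ha b hb hab
      have h3 := hL b hb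
      refine ⟨hb, h1, ?_, ?_, by omega⟩
      · simp only [hℓd, h1, le_refl, if_true]
      · simp only [hℓd, h1, le_refl, if_true]
        exact h2
    · right
      obtain ⟨h1, h2⟩ := hchild a b hT1 hd hb
      have h3 : ¬ ρ b ≤ 1 := by omega
      refine ⟨hb, h2, ?_, ?_⟩
      · simp only [hℓd, h3, if_false, h1, if_true]
      · simp only [hℓd, h3, if_false, lt_irrefl, hpar a b hT1 hd, hO' a b hab]
  have hin : ∀ a b, O.Adj a b → T.dist x0 b < T.dist x0 a →
      (a ∈ S ∧ ρ a = 1 ∧ ℓ (ρ a) a = L a ∧ ℓ (ρ a) b = L a + 1 ∧ L a + 1 ≤ h) ∨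
      (a ∉ S ∧ 2 ≤ ρ a ∧ ℓ (ρ a) a = 0 ∧ ℓ (ρ a) b = 1) := by
    intro a b hab hd
    have hT1 : T.Adj b a := (hO b a).mpr (Or.inr hab)
    by_cases ha : a ∈ S
    · left
      have hb := parent_mem x0 hT S hSp h0 hT1 hd ha
      have h1 := hchildS b a hT1 hd ha
      have h2 := hL' a ha b hb hab
      have h3 := hL b hb
      refine ⟨ha, h1, ?_, ?_, by omega⟩
      · simp only [hℓd, h1, le_refl, if_true]
      · simp only [hℓd, h1, le_refl, if_true]
        exact h2
    · right
      obtain ⟨h1, h2⟩ := hchild b a hT1 hd ha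
      have h3 : ¬ ρ a ≤ 1 := by omega
      refine ⟨ha, h2, ?_, ?_⟩
      · simp only [hℓd, h3, if_false, lt_irrefl, hpar b a hT1 hd, hab, if_true]
      · simp only [hℓd, h3, if_false, h1, if_true]
  have hcases : ∀ a b, O.Adj a b →
      (T.dist x0 a < T.dist x0 b ∧ max (ρ a) (ρ b) = ρ b) ∨
      (T.dist x0 b < T.dist x0 a ∧ max (ρ a) (ρ b) = ρ a) := by
    intro a b hab
    have hT1 : T.Adj a b := (hO a b).mpr (Or.inl hab)
    rcases lt_or_ge (T.dist x0 a) (T.dist x0 b) with h1 | h1
    · exact Or.inl ⟨h1, max_eq_right (hρ a b hT1 h1)⟩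
    · have h2 := hT.dist_ne_of_adj x0 hT1
      have h3 : T.dist x0 b < T.dist x0 a := by omega
      exact Or.inr ⟨h3, max_eq_left (hρ b a hT1.symm h3)⟩
  refine rounds_main T O x0 ρ ℓ D hk hT hO hO' {x0} rfl hρ0 hρ (r + 1) hrr (max h 2) ?_ 0
    ?_ ?_
  · intro a b hab _
    rcases hcases a b hab with ⟨hd, he⟩ | ⟨hd, he⟩
    · rw [he]
      rcases hout a b hab hd with ⟨_, _, h1, h2, h3⟩ | ⟨_, _, h1, h2⟩
      · rw [h1, h2]
        exact ⟨rfl, h3.trans (le_max_left _ _)⟩
      · rw [h1, h2]
        exact ⟨rfl, le_max_right _ _⟩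
    · rw [he]
      rcases hin a b hab hd with ⟨_, _, h1, h2, h3⟩ | ⟨_, _, h1, h2⟩
      · rw [h1, h2]
        exact ⟨rfl, h3.trans (le_max_left _ _)⟩
      · rw [h1, h2]
        exact ⟨rfl, one_le_two.trans (le_max_right _ _)⟩
  · -- a single vertex
    intro A hA
    have hAne : A.Nonempty := by
      rw [Set.nonempty_iff_ne_empty]
      rintro rfl
      apply hA
      exact ⟨SimpleGraph.Coloring.mk (fun v => v.2.elim) (fun {v} => v.2.elim)⟩
    obtain ⟨v, hv⟩ := hAne
    refine ⟨fun _ => v, Set.injOn_singleton _ _, fun _ _ => hv, ?_⟩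
    intro a ha b hb hab
    rw [Set.mem_singleton_iff] at ha hb
    subst ha
    subst hb
    exact (hO' _ _ hab hab).elim
  · -- the bill
    intro hcon
    apply hD
    refine hcon.mono ?_
    -- facts on the classes
    have hO1 : ∀ i j, OutArc T O x0 ρ ℓ i j → (i = 1 ∧ j < h) ∨ (2 ≤ i ∧ j = 1) := by
      rintro i j ⟨a, b, hab, hd, hi, hj⟩
      rcases hout a b hab hd with ⟨_, h1, h2, _, h3⟩ | ⟨_, h1, h2, _⟩
      · rw [hi] at h1 h2
        left
        omega
      · rw [hi] at h1 h2
        right
        omega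
    have hI1 : ∀ i j, InArc T O x0 ρ ℓ i j → (i = 1 ∧ j < h) ∨ (2 ≤ i ∧ j = 0) := by
      rintro i j ⟨a, b, hab, hd, hi, hj⟩
      rcases hin a b hab hd with ⟨_, h1, h2, _, h3⟩ | ⟨_, h1, h2, _⟩
      · rw [hi] at h1 h2
        left
        omega
      · rw [hi] at h1 h2
        right
        omega
    have hrow1 : ∑ j ∈ Finset.range (max h 2), price T O x0 ρ ℓ 1 j ≤ (4 * k - 3) * h := by
      calc ∑ j ∈ Finset.range (max h 2), price T O x0 ρ ℓ 1 j
          ≤ ∑ j ∈ Finset.range (max h 2), if j < h then 4 * k - 3 else 0 := by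
            apply Finset.sum_le_sum
            intro j _
            split_ifs with hj
            · apply price_le_four T O x0 ρ ℓ hk
              rintro ⟨⟨s, ⟨x, y, _, _, hx, _, hs⟩, hsj⟩, ⟨s', ⟨x', y', _, _, hx', _, hs'⟩, hsj'⟩⟩
              have e1 : x = x0 := (hρ0 x).mp (by omega)
              have e2 : x' = x0 := (hρ0 x').mp (by omega)
              subst e1
              subst e2
              omega
            · refine le_of_eq (price_eq_zero T O x0 ρ ℓ 1 j ?_ ?_)
              · intro h1
                have := hO1 1 j h1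
                omega
              · intro h1
                have := hI1 1 j h1
                omega
        _ = ∑ j ∈ (Finset.range (max h 2)).filter (fun j => j < h), (4 * k - 3) := by
            rw [Finset.sum_filter]
        _ = (4 * k - 3) * h := by
            have e : (Finset.range (max h 2)).filter (fun j => j < h) = Finset.range h := by
              ext j
              simp only [Finset.mem_filter, Finset.mem_range]
              omega
            rw [e, Finset.sum_const, Finset.card_range, smul_eq_mul, mul_comm]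
    have hrow2 : ∀ i, ∑ j ∈ Finset.range (max h 2), price T O x0 ρ ℓ (i + 2) j
        ≤ 4 * k - 2 := by
      intro i
      calc ∑ j ∈ Finset.range (max h 2), price T O x0 ρ ℓ (i + 2) j
          ≤ ∑ j ∈ Finset.range (max h 2), if j < 2 then 2 * k - 1 else 0 := by
            apply Finset.sum_le_sum
            intro j _
            split_ifs with hj
            · apply price_le_two T O x0 ρ ℓ
              rintro ⟨h1, h2⟩
              have := hO1 _ j h1
              have := hI1 _ j h2
              omega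
            · refine le_of_eq (price_eq_zero T O x0 ρ ℓ _ j ?_ ?_)
              · intro h1
                have := hO1 _ j h1
                omega
              · intro h1
                have := hI1 _ j h1
                omega
        _ = ∑ j ∈ (Finset.range (max h 2)).filter (fun j => j < 2), (2 * k - 1) := by
            rw [Finset.sum_filter]
        _ ≤ 4 * k - 2 := by
            have e : (Finset.range (max h 2)).filter (fun j => j < 2) = Finset.range 2 := by
              ext j
              simp only [Finset.mem_filter, Finset.mem_range]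
              omega
            rw [e, Finset.sum_const, Finset.card_range, smul_eq_mul]
            omega
    rw [Finset.sum_range_succ', zero_add]
    simp only [zero_add]
    have hs : ∑ i ∈ Finset.range r, ∑ j ∈ Finset.range (max h 2),
        price T O x0 ρ ℓ (i + 1 + 1) j ≤ (4 * k - 2) * r := by
      calc ∑ i ∈ Finset.range r, ∑ j ∈ Finset.range (max h 2),
            price T O x0 ρ ℓ (i + 1 + 1) j
          ≤ ∑ _i ∈ Finset.range r, (4 * k - 2) := Finset.sum_le_sum (fun i _ => hrow2 i)
        _ = (4 * k - 2) * r := by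
            rw [Finset.sum_const, Finset.card_range, smul_eq_mul, mul_comm]
    rw [add_comm]
    exact add_le_add hrow1 hs

end P74ff84
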