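import Mathlib
import Pool.Agent.Lib.P74ff84.Layers

set_option autoImplicit false

namespace P74ff84

open Classical in
/-- The batch number: the vertices at distance `d` from `S` get `2 d - 1` if they are attached
by an arc that points to them and `2 d` otherwise. -/
noncomputable def bet {k : ℕ} (T : SimpleGraph (Fin (k + 1))) (O : Digraph (Fin (k + 1)))
    (x0 : Fin (k + 1)) (S : Set (Fin (k + 1))) (x : Fin (k + 1)) : ℕ :=
  if O.Adj (par T x0 x) x then 2 * lay T x0 S x - 1 else 2 * lay T x0 S x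

section

variable {k : ℕ} {T : SimpleGraph (Fin (k + 1))} {O : Digraph (Fin (k + 1))}
  (x0 : Fin (k + 1)) (S : Set (Fin (k + 1)))

theorem lay_pos (hT : T.IsTree) (h0 : x0 ∈ S) {x : Fin (k + 1)} (hx : x ∉ S) :
    1 ≤ lay T x0 S x := by
  classical
  have hne : x ≠ x0 := fun h => hx (h ▸ h0)
  obtain ⟨b, hb, hb'⟩ := tree_exists_parent hT x0 hne
  rw [lay_child x0 hT S hb hb', if_neg hx]
  omega

theorem bet_zero (hT : T.IsTree) (hS : (T.induce S).Preconnected) (h0 : x0 ∈ S)
    (x : Fin (k + 1)) : bet T O x0 S x = 0 ↔ x ∈ S := by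
  classical
  constructor
  · intro h
    by_contra hx
    have h1 := lay_pos x0 S hT h0 hx
    unfold bet at h
    split_ifs at h <;> omega
  · intro hx
    have h1 := lay_mem x0 hT S hS h0 _ x rfl hx
    unfold bet
    rw [h1]
    split_ifs <;> rfl

theorem bet_lt (hT : T.IsTree) (hS : (T.induce S).Preconnected) (h0 : x0 ∈ S)
    (hO : ∀ u v, T.Adj u v ↔ (O.Adj u v ∨ O.Adj v u))
    {x y : Fin (k + 1)} (hxy : O.Adj x y ∨ O.Adj y x) (hd : T.dist x0 x < T.dist x0 y)
    (hy : 1 ≤ bet T O x0 S y) : bet T O x0 S x < bet T O x0 S y := by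
  classical
  have hT1 : T.Adj x y := (hO x y).mpr hxy
  have hyS : y ∉ S := by
    intro h
    rw [(bet_zero x0 S hT hS h0 y).mpr h] at hy
    omega
  have h1 := lay_child x0 hT S hT1 hd
  rw [if_neg hyS] at h1
  unfold bet
  split_ifs <;> omega

theorem bet_out (hT : T.IsTree) (h0 : x0 ∈ S) (hS : (T.induce S).Preconnected)
    (hO : ∀ u v, T.Adj u v ↔ (O.Adj u v ∨ O.Adj v u))
    {a b : Fin (k + 1)} (hab : O.Adj a b) (hd : T.dist x0 a < T.dist x0 b)
    (hb : 1 ≤ bet T O x0 S b) : Odd (bet T O x0 S b) := by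
  classical
  have hT1 : T.Adj a b := (hO a b).mpr (Or.inl hab)
  have hbS : b ∉ S := by
    intro h
    rw [(bet_zero x0 S hT hS h0 b).mpr h] at hb
    omega
  have h1 := lay_pos x0 S hT h0 hbS
  unfold bet
  rw [par_eq x0 hT hT1 hd, if_pos hab]
  exact ⟨lay T x0 S b - 1, by omega⟩

theorem bet_in (hT : T.IsTree)
    (hO : ∀ u v, T.Adj u v ↔ (O.Adj u v ∨ O.Adj v u))
    (hO' : ∀ u v, O.Adj u v → ¬ O.Adj v u)
    {a b : Fin (k + 1)} (hab : O.Adj a b) (hd : T.dist x0 b < T.dist x0 a) :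
    ¬ Odd (bet T O x0 S a) := by
  classical
  have hT1 : T.Adj b a := (hO b a).mpr (Or.inr hab)
  unfold bet
  rw [par_eq x0 hT hT1 hd, if_neg (hO' a b hab)]
  rw [Nat.not_odd_iff_even]
  exact ⟨lay T x0 S a, by omega⟩

theorem bet_le (hT : T.IsTree) (hS : (T.induce S).Preconnected) (h0 : x0 ∈ S) (r : ℕ)
    (hr : ∀ x, ∃ s ∈ S, T.dist s x ≤ r) (x : Fin (k + 1)) :
    bet T O x0 S x ≤ 2 * r := by
  classical
  obtain ⟨s, hs, hsx⟩ := hr x
  have h1 := lay_le x0 hT S hS h0 (x := x) hs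
  unfold bet
  split_ifs <;> omega

/-- The batches together have as many members as there are vertices outside `S`. -/
theorem sum_batches {k : ℕ} (S : Set (Fin (k + 1))) (β : Fin (k + 1) → ℕ) (L : ℕ)
    (hβ0 : ∀ x, β x = 0 ↔ x ∈ S) (hL : ∀ x, β x ≤ L) :
    ∑ j ∈ Finset.range L, {y | β y = j + 1}.ncard = {x | x ∉ S}.ncard := by
  classical
  have h1 : ∀ j, {y | β y = j + 1}.ncard
      = (((Finset.univ : Finset (Fin (k + 1))).filter (fun x => x ∉ S)).filter
        (fun y => β y - 1 = j)).card := by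
    intro j
    rw [← Set.ncard_coe_finset]
    congr 1
    ext y
    rw [Finset.mem_coe, Finset.mem_filter, Finset.mem_filter]
    show β y = j + 1 ↔ _
    have h2 := hβ0 y
    constructor
    · intro h
      refine ⟨⟨Finset.mem_univ _, fun h3 => ?_⟩, by omega⟩
      have := h2.mpr h3
      omega
    · rintro ⟨⟨_, h3⟩, h4⟩
      have : β y ≠ 0 := fun h5 => h3 (h2.mp h5)
      omega
  simp only [h1]
  have h3 : {x | x ∉ S}.ncard
      = ((Finset.univ : Finset (Fin (k + 1))).filter (fun x => x ∉ S)).card := by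
    rw [← Set.ncard_coe_finset]
    congr 1
    ext y
    simp
  rw [h3]
  symm
  apply Finset.card_eq_sum_card_fiberwise
  intro x hx
  rw [Finset.mem_coe, Finset.mem_filter] at hx
  have h4 : β x ≠ 0 := fun h5 => hx.2 ((hβ0 x).mp h5)
  have h5 := hL x
  rw [Finset.mem_coe, Finset.mem_range]
  show β x - 1 < L
  omega

end

end P74ff84
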