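import Mathlib
import Pool.Agent.Lib.P74ff84.Prune

set_option autoImplicit false

namespace P74ff84

variable {V : Type*}

/-- The vertices that are the end of a walk of `j` steps of the relation `R` inside `A`. -/
def EndOf (R : V → V → Prop) (A : Set V) : ℕ → Set V
  | 0 => A
  | j + 1 => {v | v ∈ A ∧ ∃ u ∈ EndOf R A j, R u v}

theorem EndOf_subset (R : V → V → Prop) (A : Set V) (j : ℕ) : EndOf R A j ⊆ A := by
  cases j with
  | zero => exact subset_rfl
  | succ j => exact fun v hv => hv.1

theorem EndOf_succ_subset (R : V → V → Prop) (A : Set V) (j : ℕ) :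
    EndOf R A (j + 1) ⊆ EndOf R A j := by
  induction j with
  | zero => exact fun v hv => hv.1
  | succ j ih => exact fun v ⟨hv, u, hu, huv⟩ => ⟨hv, u, ih hu, huv⟩

theorem EndOf_anti (R : V → V → Prop) (A : Set V) {i j : ℕ} (h : i ≤ j) :
    EndOf R A j ⊆ EndOf R A i := by
  induction h with
  | refl => exact subset_rfl
  | step _ ih => exact (EndOf_succ_subset R A _).trans ih

/-- A walk that ends at `v`. -/
theorem exists_walk_of_EndOf (R : V → V → Prop) (A : Set V) (j : ℕ) :
    ∀ v ∈ EndOf R A j, ∃ g : ℕ → V, g j = v ∧ (∀ i ≤ j, g i ∈ A) ∧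
      ∀ i < j, R (g i) (g (i + 1)) := by
  induction j with
  | zero => exact fun v hv => ⟨fun _ => v, rfl, fun _ _ => hv, fun i hi => (Nat.not_lt_zero i hi).elim⟩
  | succ j ih =>
    rintro v ⟨hv, u, hu, huv⟩
    obtain ⟨g, hg1, hg2, hg3⟩ := ih u hu
    refine ⟨fun i => if i ≤ j then g i else v, ?_, ?_, ?_⟩
    · simp
    · intro i _
      by_cases h : i ≤ j
      · simp only [h, if_true]
        exact hg2 i h
      · simp only [h, if_false]
        exact hv
    · intro i hi
      have h1 : i ≤ j := by omega
      by_cases h2 : i + 1 ≤ j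
      · simp only [h1, h2, if_true]
        exact hg3 i (by omega)
      · have h3 : i = j := by omega
        subst h3
        simp only [h1, h2, if_true, if_false]
        rw [hg1]
        exact huv

theorem walk_transGen (R : V → V → Prop) (g : ℕ → V) (j : ℕ)
    (hg : ∀ i < j, R (g i) (g (i + 1))) {a b : ℕ} (hab : a < b) (hb : b ≤ j) :
    Relation.TransGen R (g a) (g b) := by
  induction b with
  | zero => omega
  | succ b ih =>
    rcases Nat.lt_or_ge a b with h | h
    · exact (ih h (by omega)).tail (hg b (by omega))
    · have : a = b := by omega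
      subst this
      exact Relation.TransGen.single (hg a (by omega))

/-- Adding one pair to a relation. -/
theorem transGen_add (R : V → V → Prop) (v w : V) {a b : V}
    (h : Relation.TransGen (fun x y => R x y ∨ (x = v ∧ y = w)) a b) :
    Relation.TransGen R a b ∨
      (Relation.ReflTransGen R a v ∧ Relation.ReflTransGen R w b) := by
  induction h with
  | single h =>
    rcases h with h | ⟨rfl, rfl⟩
    · exact Or.inl (Relation.TransGen.single h)
    · exact Or.inr ⟨Relation.ReflTransGen.refl, Relation.ReflTransGen.refl⟩
  | tail _ h ih =>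
    rcases ih with ih | ⟨ih1, ih2⟩
    · rcases h with h | ⟨rfl, rfl⟩
      · exact Or.inl (ih.tail h)
      · exact Or.inr ⟨ih.to_reflTransGen, Relation.ReflTransGen.refl⟩
    · rcases h with h | ⟨rfl, rfl⟩
      · exact Or.inr ⟨ih1, ih2.tail h⟩
      · exact Or.inr ⟨ih1, Relation.ReflTransGen.refl⟩

open Classical in
/-- **Gallai-Roy**: a vertex set that cannot be coloured with `q` colours contains a directed
path with `q` arcs. -/
theorem gallai_roy [Finite V] (D : Digraph V) (A : Set V) (q : ℕ)
    (hA : ¬ ColSet (SimpleGraph.fromRel D.Adj) A q) :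
    ∃ g : ℕ → V, (∀ i ≤ q, g i ∈ A) ∧ (∀ i < q, D.Adj (g i) (g (i + 1))) ∧
      ∀ i ≤ q, ∀ j ≤ q, g i = g j → i = j := by
  -- a maximal acyclic relation inside the arcs of `A`
  set P : (V → V → Prop) → Prop := fun R =>
    (∀ x y, R x y → x ∈ A ∧ y ∈ A ∧ D.Adj x y) ∧ ∀ x, ¬ Relation.TransGen R x x with hP
  have hfin : {R : V → V → Prop | P R}.Finite := Set.toFinite _
  have hne : {R : V → V → Prop | P R}.Nonempty := by
    have hF : ∀ a b : V, Relation.TransGen (fun _ _ => False) a b → False := by
      intro a b h
      induction h with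
      | single h => exact h
      | tail _ h _ => exact h
    exact ⟨fun _ _ => False, fun x y h => h.elim, fun x h => hF x x h⟩
  obtain ⟨R, hR⟩ := hfin.exists_maximal hne
  have hR1 : P R := hR.1
  have hRmax : ∀ R', P R' → R ≤ R' → R' ≤ R := fun R' h1 h2 => hR.2 h1 h2
  -- the colouring
  by_contra hcon
  apply hA
  have hempty : EndOf R A q = ∅ := by
    by_contra hne
    obtain ⟨v, hv⟩ := Set.nonempty_iff_ne_empty.mpr hne
    obtain ⟨g, _, hg2, hg3⟩ := exists_walk_of_EndOf R A q v hv
    apply hcon
    refine ⟨g, hg2, fun i hi => (hR1.1 _ _ (hg3 i hi)).2.2, ?_⟩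
    intro i hi j hj hij
    rcases lt_trichotomy i j with h | h | h
    · have := walk_transGen R g q hg3 h hj
      rw [hij] at this
      exact (hR1.2 _ this).elim
    · exact h
    · have := walk_transGen R g q hg3 h hi
      rw [hij] at this
      exact (hR1.2 _ this).elim
  set c : V → ℕ := fun v => ((Finset.range q).filter (fun j => v ∈ EndOf R A (j + 1))).card
    with hc
  -- the colour is the length of the longest walk
  have hcmem : ∀ v j, j < q → (j < c v ↔ v ∈ EndOf R A (j + 1)) := by
    intro v j hj
    constructor
    · intro h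
      by_contra hv
      have hsub : (Finset.range q).filter (fun j => v ∈ EndOf R A (j + 1)) ⊆
          Finset.range j := by
        intro i hi
        obtain ⟨_, hi2⟩ := Finset.mem_filter.mp hi
        rw [Finset.mem_range]
        by_contra hcon2
        exact hv (EndOf_anti R A (by omega) hi2)
      have := Finset.card_le_card hsub
      rw [Finset.card_range] at this
      have h' : j < ((Finset.range q).filter (fun j => v ∈ EndOf R A (j + 1))).card := h
      omega
    · intro hv
      have hsub : Finset.range (j + 1) ⊆
          (Finset.range q).filter (fun j => v ∈ EndOf R A (j + 1)) := by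
        intro i hi
        rw [Finset.mem_range] at hi
        refine Finset.mem_filter.mpr ⟨Finset.mem_range.mpr (by omega), ?_⟩
        exact EndOf_anti R A (by omega) hv
      have := Finset.card_le_card hsub
      rw [Finset.card_range] at this
      exact this
  have hclt : ∀ v ∈ A, c v < q ∨ q = 0 := by
    intro v _
    rcases Nat.eq_zero_or_pos q with h | h
    · exact Or.inr h
    · left
      by_contra hcv
      have h1 := (hcmem v (q - 1) (by omega)).mp (by omega)
      have h2 : q - 1 + 1 = q := by omega
      rw [h2, hempty] at h1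
      exact h1
  have hstep : ∀ u v, R u v → c u < c v := by
    intro u v huv
    obtain ⟨hu, hv, _⟩ := hR1.1 u v huv
    have hq : 0 < q := by
      by_contra hq
      have : q = 0 := by omega
      subst this
      have : u ∈ EndOf R A 0 := hu
      rw [hempty] at this
      exact this
    have hcu : c u < q := (hclt u hu).resolve_right (by omega)
    have h1 : u ∈ EndOf R A (c u) := by
      rcases Nat.eq_zero_or_pos (c u) with h | h
      · rw [h]
        exact hu
      · have := (hcmem u (c u - 1) (by omega)).mp (by omega)
        have e : c u - 1 + 1 = c u := by omega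
        rwa [e] at this
    exact (hcmem v (c u) hcu).mpr ⟨hv, u, h1, huv⟩
  have htrans : ∀ u v, Relation.TransGen R u v → c u < c v := by
    intro u v h
    induction h with
    | single h => exact hstep _ _ h
    | tail _ h ih => exact ih.trans (hstep _ _ h)
  have harc : ∀ u ∈ A, ∀ v ∈ A, u ≠ v → D.Adj u v → c u ≠ c v := by
    intro u hu v hv huv hD
    by_cases hRuv : R u v
    · exact (hstep u v hRuv).ne
    · have hnot : ¬ P (fun x y => R x y ∨ (x = u ∧ y = v)) := by
        intro h
        exact hRuv (hRmax _ h (fun x y hxy => Or.inl hxy) u v (Or.inr ⟨rfl, rfl⟩))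
      have hcyc : ∃ x, Relation.TransGen (fun x y => R x y ∨ (x = u ∧ y = v)) x x := by
        by_contra hno
        push Not at hno
        refine hnot ⟨?_, hno⟩
        rintro x y (h | ⟨rfl, rfl⟩)
        · exact hR1.1 x y h
        · exact ⟨hu, hv, hD⟩
      obtain ⟨x, hx⟩ := hcyc
      rcases transGen_add R u v hx with h | ⟨h1, h2⟩
      · exact (hR1.2 x h).elim
      · have h3 : Relation.ReflTransGen R v u := h2.trans h1
        rcases Relation.reflTransGen_iff_eq_or_transGen.mp h3 with h4 | h4
        · exact (huv h4).elim
        · exact (htrans v u h4).ne'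
  rcases Nat.eq_zero_or_pos q with hq | hq
  · subst hq
    have hA0 : A = ∅ := hempty
    subst hA0
    exact ColSet.empty _
  · refine ⟨c, fun v hv => (hclt v hv).resolve_right (by omega), ?_⟩
    intro u hu v hv huv
    rcases adj_cases D huv with h | h
    · exact harc u hu v hv h.1 h.2
    · exact (harc v hv u hu h.1 h.2).symm

end P74ff84
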