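import Mathlib
import Pool.Agent.Lib.P74ff84.Layers
import Pool.Agent.Lib.P74ff84.GallaiRoy

set_option autoImplicit false

namespace P74ff84

/-- One round of roles around an arbitrary subtree. -/
theorem one_round {k : ℕ} (hk : 1 ≤ k) {V : Type*} [Finite V] (D : Digraph V)
    (T : SimpleGraph (Fin (k + 1))) (hT : T.IsTree) (O : Digraph (Fin (k + 1)))
    (hO : ∀ u v, T.Adj u v ↔ (O.Adj u v ∨ O.Adj v u))
    (hO' : ∀ u v, O.Adj u v → ¬ O.Adj v u)
    (S : Set (Fin (k + 1))) (hS : (T.induce S).Connected)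
    (p : ℕ) (hp : ∀ A : Set V, ¬ ((SimpleGraph.fromRel D.Adj).induce A).Colorable p →
      HoldsIn D O S A)
    (L : Fin (k + 1) → ℕ) (h : ℕ)
    (hL : ∀ a b, O.Adj a b → ¬ (a ∈ S ∧ b ∈ S) → L b = L a + 1 ∧ L b ≤ h)
    (hD : ¬ (SimpleGraph.fromRel D.Adj).Colorable (p + (6 * k - 4) * h)) :
    ∃ f : Fin (k + 1) → V, Function.Injective f ∧
      ∀ u v, O.Adj u v → D.Adj (f u) (f v) := by
  classical
  obtain ⟨⟨x0, h0⟩⟩ := hS.nonempty
  set ρ : Fin (k + 1) → ℕ := fun x => if x ∈ S then 0 else 1 with hρd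
  have hρ0 : ∀ x, ρ x = 0 ↔ x ∈ S := by
    intro x
    simp only [hρd]
    split_ifs with h1
    · simp [h1]
    · simp [h1]
  have hρ1 : ∀ x, ρ x ≤ 1 := by
    intro x
    simp only [hρd]
    split_ifs <;> omega
  refine rounds_main T O x0 ρ (fun _ => L) D hk hT hO hO' S h0 hρ0 ?_ 1 hρ1 h ?_ p hp ?_
  · intro x y hxy hd
    by_cases hy : y ∈ S
    · have hx := parent_mem x0 hT S hS.preconnected h0 hxy hd hy
      rw [(hρ0 x).mpr hx]
      exact Nat.zero_le _
    · have h1 : ρ y ≠ 0 := fun h => hy ((hρ0 y).mp h)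
      have := hρ1 x
      omega
  · intro a b hab hmax
    refine hL a b hab ?_
    rintro ⟨ha, hb⟩
    rw [(hρ0 a).mpr ha, (hρ0 b).mpr hb] at hmax
    simp at hmax
  · intro hcon
    apply hD
    refine hcon.mono (add_le_add le_rfl ?_)
    rw [Finset.sum_range_one]
    calc ∑ j ∈ Finset.range h, price T O x0 ρ (fun _ => L) (0 + 1) j
        ≤ ∑ _j ∈ Finset.range h, (6 * k - 4) :=
          Finset.sum_le_sum (fun j _ => price_le_six T O x0 ρ _ hk _ j)
      _ = (6 * k - 4) * h := by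
          rw [Finset.sum_const, Finset.card_range, smul_eq_mul, mul_comm]

section path

variable {n : ℕ} {T : SimpleGraph (Fin n)} (g : ℕ → Fin n) (q : ℕ)

/-- The walk along the path from `g i` to `g j`. -/
theorem exists_segment (hadj : ∀ i < q, T.Adj (g i) (g (i + 1)))
    (hinj : ∀ i ≤ q, ∀ j ≤ q, g i = g j → i = j) (i j : ℕ) (hij : i ≤ j) :
    j ≤ q → ∃ w : T.Walk (g i) (g j), w.IsPath ∧ w.length = j - i ∧
      ∀ x ∈ w.support, ∃ l, i ≤ l ∧ l ≤ j ∧ g l = x := by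
  induction j, hij using Nat.le_induction with
  | base =>
    intro _
    exact ⟨SimpleGraph.Walk.nil, SimpleGraph.Walk.IsPath.nil, by simp, fun x hx => by
      rw [SimpleGraph.Walk.support_nil, List.mem_singleton] at hx
      exact ⟨i, le_rfl, le_rfl, hx.symm⟩⟩
  | succ j hij ih =>
    intro hj
    obtain ⟨w, hw1, hw2, hw3⟩ := ih (by omega)
    refine ⟨w.concat (hadj j (by omega)), ?_, ?_, ?_⟩
    · refine hw1.concat ?_ (hadj j (by omega))
      intro hmem
      obtain ⟨l, hl1, hl2, hl3⟩ := hw3 _ hmem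
      have := hinj l (by omega) (j + 1) hj hl3
      omega
    · rw [SimpleGraph.Walk.length_concat, hw2]
      omega
    · intro x hx
      rw [SimpleGraph.Walk.support_concat, List.mem_append,
        List.mem_singleton] at hx
      rcases hx with hx | hx
      · obtain ⟨l, hl1, hl2, hl3⟩ := hw3 x hx
        exact ⟨l, hl1, by omega, hl3⟩
      · exact ⟨j + 1, by omega, le_rfl, hx.symm⟩

theorem adj_segment (hT : T.IsTree) (hadj : ∀ i < q, T.Adj (g i) (g (i + 1)))
    (hinj : ∀ i ≤ q, ∀ j ≤ q, g i = g j → i = j) {i j : ℕ} (hij : i < j) (hj : j ≤ q)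
    (h : T.Adj (g i) (g j)) : j = i + 1 := by
  obtain ⟨w, hw1, hw2, _⟩ := exists_segment g q hadj hinj i j hij.le hj
  have h1 : (SimpleGraph.Walk.cons h SimpleGraph.Walk.nil).IsPath := by
    rw [SimpleGraph.Walk.cons_isPath_iff]
    refine ⟨SimpleGraph.Walk.IsPath.nil, ?_⟩
    rw [SimpleGraph.Walk.support_nil, List.mem_singleton]
    exact h.ne
  have h2 := (hT.existsUnique_path (g i) (g j)).unique hw1 h1
  have h3 := congrArg SimpleGraph.Walk.length h2
  rw [hw2, SimpleGraph.Walk.length_cons, SimpleGraph.Walk.length_nil] at h3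
  omega

theorem path_connected (hadj : ∀ i < q, T.Adj (g i) (g (i + 1))) :
    (T.induce {x | ∃ i ≤ q, g i = x}).Connected := by
  set S : Set (Fin n) := {x | ∃ i ≤ q, g i = x} with hS
  have hmem : ∀ i, i ≤ q → g i ∈ S := fun i hi => ⟨i, hi, rfl⟩
  have hreach : ∀ i, ∀ hi : i ≤ q,
      (T.induce S).Reachable ⟨g 0, hmem 0 (Nat.zero_le q)⟩ ⟨g i, hmem i hi⟩ := by
    intro i
    induction i with
    | zero => intro _; exact SimpleGraph.Reachable.refl _
    | succ i ih =>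
      intro hi
      refine (ih (by omega)).trans (SimpleGraph.Adj.reachable ?_)
      exact hadj i (by omega)
  have hne : Nonempty S := ⟨⟨g 0, hmem 0 (Nat.zero_le q)⟩⟩
  refine SimpleGraph.Connected.mk ?_
  rintro ⟨x, i, hi, rfl⟩ ⟨y, j, hj, rfl⟩
  exact (hreach i hi).symm.trans (hreach j hj)

end path

/-- A directed path of the tree is contained in every part of `D` that is not
`q`-colourable. -/
theorem path_holdsIn {k : ℕ} {V : Type*} [Finite V] (D : Digraph V)
    (T : SimpleGraph (Fin (k + 1))) (hT : T.IsTree) (O : Digraph (Fin (k + 1)))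
    (hO : ∀ u v, T.Adj u v ↔ (O.Adj u v ∨ O.Adj v u))
    (hO' : ∀ u v, O.Adj u v → ¬ O.Adj v u)
    (q : ℕ) (g : ℕ → Fin (k + 1)) (hg : ∀ i < q, O.Adj (g i) (g (i + 1)))
    (hinj : ∀ i ≤ q, ∀ j ≤ q, g i = g j → i = j) (A : Set V)
    (hA : ¬ ColSet (SimpleGraph.fromRel D.Adj) A q) :
    HoldsIn D O {x | ∃ i ≤ q, g i = x} A := by
  classical
  obtain ⟨f, hf1, hf2, hf3⟩ := gallai_roy D A q hA
  have hadj : ∀ i < q, T.Adj (g i) (g (i + 1)) := fun i hi => (hO _ _).mpr (Or.inl (hg i hi))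
  have hidx : ∀ x : Fin (k + 1), ∃ i, (∃ i ≤ q, g i = x) → i ≤ q ∧ g i = x := by
    intro x
    by_cases hx : ∃ i ≤ q, g i = x
    · obtain ⟨i, hi, hx⟩ := hx
      exact ⟨i, fun _ => ⟨hi, hx⟩⟩
    · exact ⟨0, fun h => (hx h).elim⟩
  choose idx hidx using hidx
  refine ⟨fun x => f (idx x), ?_, ?_, ?_⟩
  · intro x hx y hy hxy
    obtain ⟨h1, h2⟩ := hidx x hx
    obtain ⟨h3, h4⟩ := hidx y hy
    have := hf3 _ h1 _ h3 hxy
    rw [← h2, ← h4, this]
  · intro x hx
    exact hf1 _ (hidx x hx).1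
  · intro x hx y hy hxy
    obtain ⟨h1, h2⟩ := hidx x hx
    obtain ⟨h3, h4⟩ := hidx y hy
    have hTxy : T.Adj (g (idx x)) (g (idx y)) := by
      rw [h2, h4]
      exact (hO _ _).mpr (Or.inl hxy)
    have hstep : idx y = idx x + 1 := by
      rcases lt_trichotomy (idx x) (idx y) with h | h | h
      · exact adj_segment g q hT hadj hinj h h3 hTxy
      · rw [h] at hTxy
        exact (hTxy.ne rfl).elim
      · have h5 := adj_segment g q hT hadj hinj h h1 hTxy.symm
        have h6 := hg (idx y) (by omega)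
        rw [← h5, h2, h4] at h6
        exact (hO' _ _ hxy h6).elim
    show D.Adj (f (idx x)) (f (idx y))
    rw [hstep]
    exact hf2 _ (by omega)

/-- **A directed path with forests of small height hanging on it.** -/
theorem path_forest {k : ℕ} (hk : 1 ≤ k) {V : Type*} [Finite V] (D : Digraph V)
    (T : SimpleGraph (Fin (k + 1))) (hT : T.IsTree) (O : Digraph (Fin (k + 1)))
    (hO : ∀ u v, T.Adj u v ↔ (O.Adj u v ∨ O.Adj v u))
    (hO' : ∀ u v, O.Adj u v → ¬ O.Adj v u)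
    (q : ℕ) (g : ℕ → Fin (k + 1)) (hg : ∀ i < q, O.Adj (g i) (g (i + 1)))
    (hinj : ∀ i ≤ q, ∀ j ≤ q, g i = g j → i = j)
    (L : Fin (k + 1) → ℕ) (h : ℕ)
    (hL : ∀ a b, O.Adj a b → ¬ ((∃ i ≤ q, g i = a) ∧ (∃ i ≤ q, g i = b)) →
      L b = L a + 1 ∧ L b ≤ h)
    (hD : ¬ (SimpleGraph.fromRel D.Adj).Colorable (q + (6 * k - 4) * h)) :
    ∃ f : Fin (k + 1) → V, Function.Injective f ∧
      ∀ u v, O.Adj u v → D.Adj (f u) (f v) := by
  refine one_round hk D T hT O hO hO' {x | ∃ i ≤ q, g i = x}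
    (path_connected g q (fun i hi => (hO _ _).mpr (Or.inl (hg i hi)))) q ?_ L h hL hD
  intro A hA
  refine path_holdsIn D T hT O hO hO' q g hg hinj A ?_
  intro hcon
  apply hA
  obtain ⟨f, hf1, hf2⟩ := hcon
  refine ⟨SimpleGraph.Coloring.mk (fun v => (⟨f v, hf1 v v.2⟩ : Fin q)) ?_⟩
  intro u v huv h
  exact hf2 u u.2 v v.2 huv (by simpa using congrArg Fin.val h)

end P74ff84
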