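import Mathlib
import Pool.Agent.Lib.P74ff84.GallaiRoy
import Pool.Agent.Lib.P74ff84.Greedy3
import Pool.Agent.Lib.P74ff84.PathForest

set_option autoImplicit false

namespace P74ff84

variable {V : Type*}

/-- The part `S` of the oriented tree can be found inside the vertex set `A` of `D`, with the
vertex `x` of the tree at the vertex `u` of `D`. -/
def Roots {k : ℕ} (D : Digraph V) (O : Digraph (Fin (k + 1))) (S : Set (Fin (k + 1)))
    (x : Fin (k + 1)) (A : Set V) (u : V) : Prop :=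
  ∃ f : Fin (k + 1) → V, Set.InjOn f S ∧ (∀ y ∈ S, f y ∈ A) ∧
    (∀ a ∈ S, ∀ b ∈ S, O.Adj a b → D.Adj (f a) (f b)) ∧ f x = u

theorem Roots.mono {k : ℕ} {D : Digraph V} {O : Digraph (Fin (k + 1))}
    {S : Set (Fin (k + 1))} {x : Fin (k + 1)} {A B : Set V} {u : V} (hAB : A ⊆ B)
    (h : Roots D O S x A u) : Roots D O S x B u := by
  obtain ⟨f, h1, h2, h3, h4⟩ := h
  exact ⟨f, h1, fun y hy => hAB (h2 y hy), h3, h4⟩

/-- The vertices of `A` that are not roots. -/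
def Fails {k : ℕ} (D : Digraph V) (O : Digraph (Fin (k + 1))) (S : Set (Fin (k + 1)))
    (x : Fin (k + 1)) (A : Set V) : Set V :=
  {u | u ∈ A ∧ ¬ Roots D O S x A u}

/-- The least number of colours. -/
theorem exists_min_colSet [Finite V] (G : SimpleGraph V) (X : Set V) :
    ∃ n, ColSet G X n ∧ ∀ m, ColSet G X m → n ≤ m := by
  classical
  have := Fintype.ofFinite V
  have h : ∃ n, ColSet G X n :=
    ⟨Fintype.card V, (colSet_univ G.colorable_of_fintype).subset (Set.subset_univ X)⟩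
  exact ⟨Nat.find h, Nat.find_spec h, fun m hm => Nat.find_min' h hm⟩

/-- **The halving step.** A tree is cut at one arc into two trees. -/
theorem fails_cut [Finite V] {k : ℕ} (D : Digraph V) (O : Digraph (Fin (k + 1)))
    (S₁ S₂ : Set (Fin (k + 1))) (x z z' : Fin (k + 1)) (hdis : Disjoint S₁ S₂)
    (hx : x ∈ S₁) (hz : z ∈ S₁) (hz' : z' ∈ S₂)
    (hone : ∀ a ∈ S₁, ∀ b ∈ S₂, O.Adj a b ∨ O.Adj b a → a = z ∧ b = z')
    (hO' : ∀ u v, O.Adj u v → ¬ O.Adj v u)
    (harc : O.Adj z z' ∨ O.Adj z' z) (c₁ c₂ : ℕ)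
    (h1 : ∀ A : Set V, ColSet (SimpleGraph.fromRel D.Adj) (Fails D O S₁ x A) c₁)
    (h2 : ∀ A : Set V, ColSet (SimpleGraph.fromRel D.Adj) (Fails D O S₂ z' A) c₂)
    (A : Set V) :
    ColSet (SimpleGraph.fromRel D.Adj) (Fails D O (S₁ ∪ S₂) x A) (4 * (c₁ + c₂) + 1) := by
  classical
  obtain ⟨X, hX⟩ : ∃ X, X = Fails D O (S₁ ∪ S₂) x A := ⟨_, rfl⟩
  rw [← hX]
  obtain ⟨n, ⟨f, hf1, hf2⟩, hn⟩ := exists_min_colSet (SimpleGraph.fromRel D.Adj) X
  obtain ⟨h, hh⟩ : ∃ h, h = (n + 1) / 2 := ⟨_, rfl⟩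
  -- the two halves
  obtain ⟨X₁, hX₁⟩ : ∃ Y : Set V, Y = {v | v ∈ X ∧ f v < h} := ⟨_, rfl⟩
  obtain ⟨X₂, hX₂⟩ : ∃ Y : Set V, Y = {v | v ∈ X ∧ h ≤ f v} := ⟨_, rfl⟩
  obtain ⟨W, hW⟩ : ∃ W : V → V → Prop,
      W = fun u w => (O.Adj z z' → D.Adj u w) ∧ (O.Adj z' z → D.Adj w u) := ⟨_, rfl⟩
  -- the general claim for a pair of disjoint parts of `X`
  have key : ∀ Y Z E : Set V, Y ⊆ X → Z ⊆ X → (∀ v ∈ Y, v ∉ Z) →
      E = {u | u ∈ Y ∧ ∃ w, w ∈ Z ∧ Roots D O S₂ z' Z w ∧ W u w} →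
      ColSet (SimpleGraph.fromRel D.Adj) E c₁ := by
    intro Y Z E hY hZ hYZ hE
    refine (h1 E).subset ?_
    intro u hu
    refine ⟨hu, ?_⟩
    rintro ⟨f₁, g1, g2, g3, g4⟩
    have hzE : f₁ z ∈ E := g2 z hz
    have hzE' : f₁ z ∈ {u | u ∈ Y ∧ ∃ w, w ∈ Z ∧ Roots D O S₂ z' Z w ∧ W u w} := hE ▸ hzE
    obtain ⟨_, w, hwZ, ⟨f₂, k1, k2, k3, k4⟩, hWw⟩ := hzE'
    have hEY : ∀ v ∈ E, v ∈ Y := by
      intro v hv
      rw [hE] at hv
      exact hv.1
    have huX : u ∈ X := hY (hEY u hu)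
    rw [hX] at huX
    have hXA : ∀ v ∈ X, v ∈ A := by
      intro v hv
      rw [hX] at hv
      exact hv.1
    rw [hW] at hWw
    have hdis' : ∀ y ∈ S₂, y ∉ S₁ := fun y hy hy' => Set.disjoint_left.mp hdis hy' hy
    apply huX.2
    refine ⟨fun y => if y ∈ S₁ then f₁ y else f₂ y, ?_, ?_, ?_, ?_⟩
    · intro a ha b hb hab
      by_cases ha1 : a ∈ S₁ <;> by_cases hb1 : b ∈ S₁
      · simp only [ha1, hb1, if_true] at hab
        exact g1 ha1 hb1 hab
      · simp only [ha1, hb1, if_true, if_false] at hab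
        have hb2 : b ∈ S₂ := hb.resolve_left hb1
        have := hYZ _ (hEY _ (g2 a ha1))
        rw [hab] at this
        exact (this (k2 b hb2)).elim
      · simp only [ha1, hb1, if_true, if_false] at hab
        have ha2 : a ∈ S₂ := ha.resolve_left ha1
        have := hYZ _ (hEY _ (g2 b hb1))
        rw [← hab] at this
        exact (this (k2 a ha2)).elim
      · simp only [ha1, hb1, if_false] at hab
        exact k1 (ha.resolve_left ha1) (hb.resolve_left hb1) hab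
    · intro y hy
      by_cases hy1 : y ∈ S₁
      · simp only [hy1, if_true]
        exact hXA _ (hY (hEY _ (g2 y hy1)))
      · simp only [hy1, if_false]
        exact hXA _ (hZ (k2 y (hy.resolve_left hy1)))
    · intro a ha b hb hab
      by_cases ha1 : a ∈ S₁ <;> by_cases hb1 : b ∈ S₁
      · simp only [ha1, hb1, if_true]
        exact g3 a ha1 b hb1 hab
      · have hb2 : b ∈ S₂ := hb.resolve_left hb1
        obtain ⟨rfl, rfl⟩ := hone a ha1 b hb2 (Or.inl hab)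
        simp only [ha1, hb1, if_true, if_false]
        rw [k4]
        exact hWw.1 hab
      · have ha2 : a ∈ S₂ := ha.resolve_left ha1
        obtain ⟨rfl, rfl⟩ := hone b hb1 a ha2 (Or.inr hab)
        simp only [ha1, hb1, if_true, if_false]
        rw [k4]
        exact hWw.2 hab
      · simp only [ha1, hb1, if_false]
        exact k3 a (ha.resolve_left ha1) b (hb.resolve_left hb1) hab
    · show (if x ∈ S₁ then f₁ x else f₂ x) = u
      rw [if_pos hx]
      exact g4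
  have hX₁X : X₁ ⊆ X := by
    rw [hX₁]
    exact fun v hv => hv.1
  have hX₂X : X₂ ⊆ X := by
    rw [hX₂]
    exact fun v hv => hv.1
  have hsep : ∀ v, v ∈ X₁ → v ∈ X₂ → False := by
    intro v hv1 hv2
    rw [hX₁] at hv1
    rw [hX₂] at hv2
    exact absurd hv1.2 (not_lt.mpr hv2.2)
  obtain ⟨E₁, hE₁⟩ : ∃ E : Set V,
      E = {u | u ∈ X₁ ∧ ∃ w, w ∈ X₂ ∧ Roots D O S₂ z' X₂ w ∧ W u w} := ⟨_, rfl⟩
  obtain ⟨E₂, hE₂⟩ : ∃ E : Set V,
      E = {u | u ∈ X₂ ∧ ∃ w, w ∈ X₁ ∧ Roots D O S₂ z' X₁ w ∧ W u w} := ⟨_, rfl⟩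
  have hcE₁ := key X₁ X₂ E₁ hX₁X hX₂X (fun v h1 h2 => hsep v h1 h2) hE₁
  have hcE₂ := key X₂ X₁ E₂ hX₂X hX₁X (fun v h2 h1 => hsep v h1 h2) hE₂
  have hcF₁ := h2 X₁
  have hcF₂ := h2 X₂
  -- the remaining vertices
  obtain ⟨N, hN⟩ : ∃ N : Set V, N = {v | v ∈ X ∧ v ∉ E₁ ∧ v ∉ E₂ ∧ v ∉ Fails D O S₂ z' X₁ ∧
      v ∉ Fails D O S₂ z' X₂} := ⟨_, rfl⟩
  have hmem : ∀ v, v ∈ X → v ∈ X₁ ∨ v ∈ X₂ := by
    intro v hv
    rcases Nat.lt_or_ge (f v) h with h3 | h3
    · left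
      rw [hX₁]
      exact ⟨hv, h3⟩
    · right
      rw [hX₂]
      exact ⟨hv, h3⟩
  have hcross : ∀ u w, u ∈ N → w ∈ N → u ∈ X₁ → w ∈ X₂ →
      ¬ (SimpleGraph.fromRel D.Adj).Adj u w := by
    intro u w hu hw hu1 hw2 hadj
    rw [hN] at hu hw
    have hru : Roots D O S₂ z' X₁ u := by
      by_contra hcon
      exact hu.2.2.2.1 ⟨hu1, hcon⟩
    have hrw : Roots D O S₂ z' X₂ w := by
      by_contra hcon
      exact hw.2.2.2.2 ⟨hw2, hcon⟩
    have hWuw : ¬ W u w := by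
      intro hc
      apply hu.2.1
      rw [hE₁]
      exact ⟨hu1, w, hw2, hrw, hc⟩
    have hWwu : ¬ W w u := by
      intro hc
      apply hw.2.2.1
      rw [hE₂]
      exact ⟨hw2, u, hu1, hru, hc⟩
    rw [hW] at hWuw hWwu
    rcases harc with ha | ha
    · have hb : ¬ O.Adj z' z := hO' _ _ ha
      rcases adj_cases D hadj with h | h
      · exact hWuw ⟨fun _ => h.2, fun hc => (hb hc).elim⟩
      · exact hWwu ⟨fun _ => h.2, fun hc => (hb hc).elim⟩
    · have hb : ¬ O.Adj z z' := hO' _ _ ha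
      rcases adj_cases D hadj with h | h
      · exact hWwu ⟨fun hc => (hb hc).elim, fun _ => h.2⟩
      · exact hWuw ⟨fun hc => (hb hc).elim, fun _ => h.2⟩
  have hcN : ColSet (SimpleGraph.fromRel D.Adj) N h := by
    refine ⟨fun v => if f v < h then f v else f v - h, ?_, ?_⟩
    · intro v hv
      have hvX : v ∈ X := by
        rw [hN] at hv
        exact hv.1
      have := hf1 v hvX
      by_cases h3 : f v < h
      · simp only [h3, if_true]
      · simp only [h3, if_false]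
        omega
    · intro u hu w hw huw
      have huX : u ∈ X := by
        rw [hN] at hu
        exact hu.1
      have hwX : w ∈ X := by
        rw [hN] at hw
        exact hw.1
      have hne := hf2 u huX w hwX huw
      by_cases h3 : f u < h <;> by_cases h4 : f w < h
      · simp only [h3, h4, if_true]
        exact hne
      · exfalso
        refine hcross u w hu hw ?_ ?_ huw
        · rw [hX₁]
          exact ⟨huX, h3⟩
        · rw [hX₂]
          exact ⟨hwX, not_lt.mp h4⟩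
      · exfalso
        refine hcross w u hw hu ?_ ?_ huw.symm
        · rw [hX₁]
          exact ⟨hwX, h4⟩
        · rw [hX₂]
          exact ⟨huX, not_lt.mp h3⟩
      · simp only [h3, h4, if_false]
        omega
  have htot := ((((hcN.union hcE₁).union hcE₂).union hcF₁).union hcF₂).subset
    (show X ⊆ _ from by
      intro v hv
      by_cases a1 : v ∈ E₁
      · exact Or.inl (Or.inl (Or.inl (Or.inr a1)))
      by_cases a2 : v ∈ E₂
      · exact Or.inl (Or.inl (Or.inr a2))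
      by_cases a3 : v ∈ Fails D O S₂ z' X₁
      · exact Or.inl (Or.inr a3)
      by_cases a4 : v ∈ Fails D O S₂ z' X₂
      · exact Or.inr a4
      · refine Or.inl (Or.inl (Or.inl (Or.inl ?_)))
        rw [hN]
        exact ⟨hv, a1, a2, a3, a4⟩)
  have h5 := hn _ htot
  exact (show ColSet (SimpleGraph.fromRel D.Adj) X n from ⟨f, hf1, hf2⟩).mono (by omega)

end P74ff84
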