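import Mathlib

set_option autoImplicit false

namespace P74ff84

/-- `(1 - η/2)^r` is small if `r` is large. -/
theorem pow_bound (η : ℝ) (h0 : 0 < η) (h1 : η < 1) (m r : ℕ) (E : ℝ)
    (hr : 2 * m / (1 - η) + 2 / η * E ≤ r) :
    (1 - η / 2) ^ r ≤ Real.exp (-E) * (1 - η) ^ m := by
  have hpos : 0 < 1 - η := by linarith
  have h2 : (1 - η / 2) ^ r ≤ Real.exp (-(η / 2) * r) := by
    have h3 : 1 - η / 2 ≤ Real.exp (-(η / 2)) := by
      have := Real.add_one_le_exp (-(η / 2))
      linarith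
    calc (1 - η / 2) ^ r ≤ (Real.exp (-(η / 2))) ^ r :=
          pow_le_pow_left₀ (by linarith) h3 r
      _ = Real.exp (-(η / 2) * r) := by
          rw [← Real.exp_nat_mul]
          ring_nf
  have h4 : -(η / 2) * r ≤ -E + -(η / (1 - η)) * m := by
    have h5 : η / 2 * (2 * m / (1 - η) + 2 / η * E) ≤ η / 2 * r :=
      mul_le_mul_of_nonneg_left hr (by linarith)
    have h6 : η / 2 * (2 * m / (1 - η) + 2 / η * E) = η / (1 - η) * m + E := by
      field_simp
    linarith
  have h7 : Real.exp (-(η / (1 - η)) * m) ≤ (1 - η) ^ m := by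
    have h8 : Real.exp (-(η / (1 - η))) ≤ 1 - η := by
      have h9 : 1 / (1 - η) ≤ Real.exp (η / (1 - η)) := by
        have := Real.add_one_le_exp (η / (1 - η))
        have h10 : η / (1 - η) + 1 = 1 / (1 - η) := by
          field_simp
          ring
        linarith
      rw [Real.exp_neg]
      have h11 : 0 < Real.exp (η / (1 - η)) := Real.exp_pos _
      rw [inv_le_comm₀ h11 hpos]
      rwa [one_div] at h9
    calc Real.exp (-(η / (1 - η)) * m) = (Real.exp (-(η / (1 - η)))) ^ m := by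
          rw [← Real.exp_nat_mul]
          ring_nf
      _ ≤ (1 - η) ^ m := pow_le_pow_left₀ (Real.exp_pos _).le h8 m
  calc (1 - η / 2) ^ r ≤ Real.exp (-(η / 2) * r) := h2
    _ ≤ Real.exp (-E + -(η / (1 - η)) * m) := Real.exp_le_exp.mpr h4
    _ = Real.exp (-E) * Real.exp (-(η / (1 - η)) * m) := Real.exp_add _ _
    _ ≤ Real.exp (-E) * (1 - η) ^ m := mul_le_mul_of_nonneg_left h7 (Real.exp_pos _).le

end P74ff84
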