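import Mathlib
import Pool.Agent.Lib.P74ff84.Steps
import Pool.Agent.Lib.P74ff84.Beta
import Pool.Agent.Lib.P74ff84.Numeric

set_option autoImplicit false

namespace P74ff84

theorem holdsIn_univ {k : ℕ} {V : Type*} (D : Digraph V) (O : Digraph (Fin (k + 1)))
    (S : Set (Fin (k + 1))) (hS : ∀ x, x ∈ S) (A : Set V) (h : HoldsIn D O S A) :
    ∃ f : Fin (k + 1) → V, Function.Injective f ∧
      ∀ u v, O.Adj u v → D.Adj (f u) (f v) := by
  obtain ⟨f, hf1, _, hf3⟩ := h
  exact ⟨f, fun x y hxy => hf1 (hS x) (hS y) hxy, fun u v h => hf3 u (hS u) v (hS v) h⟩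

/-- The constant of the chromatic version. -/
noncomputable def CB (ε : ℝ) : ℝ := 2 * (2 / (ε / (2 + ε)) + 4)

/-- **Leaf layers, chromatic version.** -/
theorem chromatic_final (ε : ℝ) (hε : 0 < ε) {k r p : ℕ} {V : Type*} [Fintype V]
    (D : Digraph V) (T : SimpleGraph (Fin (k + 1)))
    (hT : T.IsTree) (O : Digraph (Fin (k + 1)))
    (hO : ∀ u v, T.Adj u v ↔ (O.Adj u v ∨ O.Adj v u))
    (hO' : ∀ u v, O.Adj u v → ¬ O.Adj v u)
    (S : Set (Fin (k + 1))) (hS : (T.induce S).Connected)
    (hr : ∀ x, ∃ s ∈ S, T.dist s x ≤ r)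
    (hp : ∀ A : Set V, ¬ ((SimpleGraph.fromRel D.Adj).induce A).Colorable p →
      HoldsIn D O S A)
    (hD : ∀ m : ℕ, (m : ℝ) ≤ p + (2 + ε) * ({x | x ∉ S}.ncard : ℝ)
        + CB ε * r * Real.log (Fintype.card V) →
      ¬ (SimpleGraph.fromRel D.Adj).Colorable m) :
    ∃ f : Fin (k + 1) → V, Function.Injective f ∧
      ∀ u v, O.Adj u v → D.Adj (f u) (f v) := by
  classical
  set s : ℕ := {x | x ∉ S}.ncard with hs
  have hCB0 : 0 ≤ CB ε := by unfold CB; positivity
  have hlog0 : 0 ≤ Real.log (Fintype.card V) := Real.log_natCast_nonneg _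
  -- the case in which `S` is everything
  by_cases hs0 : s = 0
  · have hall : ∀ x, x ∈ S := by
      intro x
      by_contra hx
      have h1 : {x | x ∉ S} = ∅ := (Set.ncard_eq_zero (Set.toFinite _)).mp hs0
      have h2 : x ∈ {x | x ∉ S} := hx
      rw [h1] at h2
      exact h2
    refine holdsIn_univ D O S hall Set.univ (hp Set.univ ?_)
    intro hcon
    refine hD p ?_ ?_
    · have h1 : 0 ≤ (2 + ε) * (s : ℝ) := by positivity
      have h2 : 0 ≤ CB ε * r * Real.log (Fintype.card V) := by positivity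
      linarith
    · exact (colSet_of_induce hcon).colorable
  have hs1 : 1 ≤ s := Nat.one_le_iff_ne_zero.mpr hs0
  have hs1' : (1 : ℝ) ≤ s := by exact_mod_cast hs1
  -- there are at least three vertices
  have hcard : 2 < Fintype.card V := by
    by_contra hcon
    push Not at hcon
    refine hD 2 ?_ ?_
    · have h1 : (2 : ℝ) ≤ (2 + ε) * (s : ℝ) := by nlinarith
      have h2 : 0 ≤ CB ε * r * Real.log (Fintype.card V) := by positivity
      have h3 : (0 : ℝ) ≤ p := Nat.cast_nonneg p
      push_cast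
      linarith
    · exact (SimpleGraph.colorable_of_fintype _).mono hcon
  set n : ℕ := Fintype.card V with hn
  have hn1 : (1 : ℝ) < n := by exact_mod_cast (by omega : 1 < n)
  have hnpos : (0 : ℝ) < n := by linarith
  have hlog : 1 / 2 ≤ Real.log n := by
    have h1 : Real.log 2 ≤ Real.log n := Real.log_le_log (by norm_num)
      (by exact_mod_cast (by omega : 2 ≤ n))
    have h2 := Real.log_two_gt_d9
    linarith
  -- the parameters
  set η : ℝ := ε / (2 + ε) with hη
  have hη0 : 0 < η := by positivity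
  have hη1 : η < 1 := by
    rw [hη, div_lt_one (by positivity)]
    linarith
  have h1η : 0 < 1 - η := by linarith
  have h2η : 2 / (1 - η) = 2 + ε := by
    rw [hη]
    field_simp
    ring
  obtain ⟨⟨x0, h0⟩⟩ := hS.nonempty
  have hSp := hS.preconnected
  set β := bet T O x0 S with hβd
  set m : ℕ → ℕ := fun i => {y | β y = i}.ncard with hm
  set R : ℕ → ℕ := fun i => ⌈2 * (m i : ℝ) / (1 - η) + 2 / η * Real.log n⌉₊ + 1 with hR
  have hR1 : ∀ i, 2 * (m i : ℝ) / (1 - η) + 2 / η * Real.log n ≤ ((R i - 1 : ℕ) : ℝ) := by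
    intro i
    have : R i - 1 = ⌈2 * (m i : ℝ) / (1 - η) + 2 / η * Real.log n⌉₊ := by
      simp only [hR]
      omega
    rw [this]
    exact Nat.le_ceil _
  have hR2 : ∀ i, (R i : ℝ) ≤ 2 * (m i : ℝ) / (1 - η) + 2 / η * Real.log n + 2 := by
    intro i
    have h1 : 0 ≤ 2 * (m i : ℝ) / (1 - η) + 2 / η * Real.log n := by positivity
    have h2 := (Nat.ceil_lt_add_one h1).le
    simp only [hR]
    push_cast
    linarith
  refine chromatic_main D T hT O hO hO' S x0 h0
    (fun y hy b hb hd => parent_mem x0 hT S hSp h0 hb hd hy) β Odd (2 * r)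
    (fun x => bet_zero x0 S hT hSp h0 x)
    (fun x y hxy hd hy => bet_lt x0 S hT hSp h0 hO hxy hd hy)
    (fun a b hab hd hb => bet_out x0 S hT h0 hSp hO hab hd hb)
    (fun a b hab hd _ => bet_in x0 S hT hO hO' hab hd)
    (fun x => bet_le x0 S hT hSp h0 r hr x) p
    (fun A hA => hp A (fun hcon => hA (colSet_of_induce hcon)))
    (1 - η) h1η (by linarith) R ?_ ?_
  · -- the choice of the numbers
    intro i
    have e1 : (1 + (1 - η)) / 2 = 1 - η / 2 := by ring
    rw [e1]
    have hb := pow_bound η hη0 hη1 (m (i + 1)) (R (i + 1) - 1) (Real.log n) (hR1 (i + 1))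
    rw [Real.exp_neg, Real.exp_log hnpos] at hb
    have hR3 : R (i + 1) = (R (i + 1) - 1) + 1 := by
      simp only [hR]
      omega
    have hlt : (1 - η / 2) ^ (R (i + 1)) < (n : ℝ)⁻¹ * (1 - η) ^ (m (i + 1)) := by
      rw [hR3, pow_succ]
      have h3 : 0 < (1 - η / 2) ^ (R (i + 1) - 1) := pow_pos (by linarith) _
      have h4 : (1 - η / 2) ^ (R (i + 1) - 1) * (1 - η / 2)
          < (1 - η / 2) ^ (R (i + 1) - 1) := by
        nlinarith
      exact h4.trans_le hb
    have h5 : (1 - η / 2) ^ (R (i + 1)) * (n : ℝ) < (1 - η) ^ (m (i + 1)) := by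
      calc (1 - η / 2) ^ (R (i + 1)) * (n : ℝ)
          < (n : ℝ)⁻¹ * (1 - η) ^ (m (i + 1)) * n := mul_lt_mul_of_pos_right hlt hnpos
        _ = (1 - η) ^ (m (i + 1)) := by field_simp
    exact h5.trans_le (pow_le_pow_of_le_one h1η.le (by linarith) (Nat.sub_le _ _))
  · -- the sum
    have hsum : ((∑ j ∈ Finset.range (2 * r), R (j + 1) : ℕ) : ℝ)
        ≤ (2 + ε) * (s : ℝ) + CB ε * r * Real.log n := by
      have hsumm : ∑ j ∈ Finset.range (2 * r), m (j + 1) = s :=
        sum_batches S β (2 * r) (fun x => bet_zero x0 S hT hSp h0 x)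
          (fun x => bet_le x0 S hT hSp h0 r hr x)
      have hsumm' : ∑ j ∈ Finset.range (2 * r), (m (j + 1) : ℝ) = s := by
        rw [← hsumm]
        push_cast
        rfl
      push_cast
      calc ∑ j ∈ Finset.range (2 * r), (R (j + 1) : ℝ)
          ≤ ∑ j ∈ Finset.range (2 * r),
            (2 / (1 - η) * (m (j + 1) : ℝ) + (2 / η * Real.log n + 2)) := by
            refine Finset.sum_le_sum (fun j _ => (hR2 (j + 1)).trans (le_of_eq ?_))
            ring
        _ = 2 / (1 - η) * s + (2 * r) * (2 / η * Real.log n + 2) := by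
            rw [Finset.sum_add_distrib, ← Finset.mul_sum, hsumm', Finset.sum_const,
              Finset.card_range, nsmul_eq_mul]
            push_cast
            ring
        _ ≤ (2 + ε) * (s : ℝ) + CB ε * r * Real.log n := by
            rw [h2η]
            have h6 : (2 : ℝ) * r * (2 / η * Real.log n + 2)
                ≤ 2 * r * ((2 / η + 4) * Real.log n) := by
              apply mul_le_mul_of_nonneg_left _ (by positivity)
              nlinarith
            have h7 : (2 : ℝ) * r * ((2 / η + 4) * Real.log n) = CB ε * r * Real.log n := by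
              unfold CB
              ring
            linarith
    refine hD _ ?_
    rw [Nat.cast_add]
    linarith

end P74ff84
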