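import Mathlib
import Pool.Agent.Lib.P74ff84.AbsorbK
import Pool.Agent.Lib.P74ff84.FinalB

set_option autoImplicit false

namespace P74ff84

/-- The number of selections. -/
noncomputable def JE (ε : ℝ) : ℕ := ⌈10 / ε⌉₊ + 2

/-- The constant. -/
noncomputable def CE (ε : ℝ) : ℝ :=
  2 * ((JE ε : ℝ) * (16 * (JE ε : ℝ) ^ 2 * (2 * (JE ε : ℝ) + 8) + 2))

theorem CE_pos (ε : ℝ) : 0 < CE ε := by
  unfold CE
  have : (0 : ℝ) < JE ε := by
    unfold JE
    positivity
  positivity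

/-- The price of the absorbing sets. -/
theorem price_E (ε : ℝ) (hε : 0 < ε) (k : ℕ) (hk : 1 ≤ k) :
    ∃ (η : ℝ) (M : ℕ → ℝ), 0 ≤ η ∧ η ≤ 1 ∧ (∀ m, 0 ≤ M m) ∧
      (∀ m, 8 * ((k * (2 * k) ^ (JE ε + 2) : ℕ) : ℝ) * Real.exp (-(η ^ 2 * M m / 4)) ≤ 1) ∧
      (∀ m : ℕ, (m : ℝ) ≤ ((JE ε : ℝ) - 1) * ((1 - η) * M m)) ∧
      ∀ m : ℕ, ((JE ε * (2 * ⌊(1 + η) * M m⌋₊ + 1) : ℕ) : ℝ)
        ≤ (2 + ε) * m + CE ε / 2 * Real.log (k + 1) := by
  set J : ℕ := JE ε with hJ
  have hJ2 : (2 : ℝ) ≤ J := by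
    have : 2 ≤ J := by rw [hJ]; unfold JE; omega
    exact_mod_cast this
  have hJ0 : (0 : ℝ) < J := by linarith
  have hJε : 10 ≤ ε * ((J : ℝ) - 1) := by
    have h1 : 10 / ε ≤ (⌈10 / ε⌉₊ : ℝ) := Nat.le_ceil _
    have h2 : (J : ℝ) - 1 = (⌈10 / ε⌉₊ : ℝ) + 1 := by
      rw [hJ]
      unfold JE
      push_cast
      ring
    have h3 : 10 / ε ≤ (J : ℝ) - 1 := by linarith
    rw [div_le_iff₀ hε] at h3
    linarith
  have hk' : (1 : ℝ) ≤ k := by exact_mod_cast hk
  set Q : ℝ := 8 * ((k * (2 * k) ^ (J + 2) : ℕ) : ℝ) with hQ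
  have hQ1 : 1 ≤ Q := by
    have h1 : (1 : ℝ) ≤ ((k * (2 * k) ^ (J + 2) : ℕ) : ℝ) := by
      have : 1 ≤ k * (2 * k) ^ (J + 2) := Nat.one_le_iff_ne_zero.mpr (by positivity)
      exact_mod_cast this
    rw [hQ]
    linarith
  have hQ0 : 0 < Q := by linarith
  have hlog0 : 0 ≤ Real.log Q := Real.log_nonneg hQ1
  set M0 : ℝ := 4 * (J : ℝ) ^ 2 * Real.log Q with hM0
  have hM00 : 0 ≤ M0 := by positivity
  set η : ℝ := 1 / (J : ℝ) with hη
  have hη0 : 0 < η := by positivity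
  have hη1 : η ≤ 1 / 2 := by
    rw [hη]
    exact one_div_le_one_div_of_le (by norm_num) hJ2
  set c : ℝ := ((J : ℝ) - 1) * (1 - η) with hc
  have hc0 : 0 < c := by
    apply mul_pos <;> linarith
  refine ⟨η, fun m => m / c + M0, hη0.le, by linarith, fun m => by positivity, ?_, ?_, ?_⟩
  · intro m
    have h1 : Real.log Q ≤ η ^ 2 * ((m : ℝ) / c + M0) / 4 := by
      have h2 : 0 ≤ η ^ 2 * ((m : ℝ) / c) := by positivity
      have h3 : η ^ 2 * M0 = 4 * Real.log Q := by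
        rw [hη, hM0]
        field_simp
      nlinarith
    calc Q * Real.exp (-(η ^ 2 * ((m : ℝ) / c + M0) / 4))
        ≤ Q * Real.exp (-Real.log Q) := by
          apply mul_le_mul_of_nonneg_left _ hQ0.le
          apply Real.exp_le_exp.mpr
          linarith
      _ = 1 := by
          rw [Real.exp_neg, Real.exp_log hQ0]
          field_simp
  · intro m
    have h1 : ((J : ℝ) - 1) * ((1 - η) * ((m : ℝ) / c + M0)) = m + c * M0 := by
      have : ((J : ℝ) - 1) * ((1 - η) * ((m : ℝ) / c + M0)) = c * ((m : ℝ) / c + M0) := by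
        rw [hc]
        ring
      rw [this]
      field_simp
    rw [h1]
    have : 0 ≤ c * M0 := by positivity
    linarith
  · intro m
    have hfl : (⌊(1 + η) * ((m : ℝ) / c + M0)⌋₊ : ℝ) ≤ (1 + η) * ((m : ℝ) / c + M0) :=
      Nat.floor_le (by positivity)
    have hlogk : Real.log 2 ≤ Real.log ((k : ℝ) + 1) :=
      Real.log_le_log (by norm_num) (by linarith)
    have hlog2 := Real.log_two_gt_d9
    have hlk : 1 / 2 ≤ Real.log ((k : ℝ) + 1) := by linarith
    have hlogQ : Real.log Q ≤ (2 * (J : ℝ) + 8) * Real.log ((k : ℝ) + 1) := by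
      have e1 : Q = 2 ^ 3 * ((k : ℝ) * (2 * (k : ℝ)) ^ (J + 2)) := by
        rw [hQ]
        push_cast
        ring
      have hkpos : (0 : ℝ) < k := by linarith
      rw [e1, Real.log_mul (by norm_num) (by positivity), Real.log_pow,
        Real.log_mul hkpos.ne' (by positivity), Real.log_pow,
        Real.log_mul (by norm_num) hkpos.ne']
      have h1 : Real.log k ≤ Real.log ((k : ℝ) + 1) := Real.log_le_log hkpos (by linarith)
      push_cast
      nlinarith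
    push_cast
    have hcoef : (J : ℝ) * (2 * (1 + η)) ≤ (2 + ε) * c := by
      have e2 : (J : ℝ) * (2 * (1 + η)) = 2 * ((J : ℝ) + 1) := by
        rw [hη]
        field_simp
      have e3 : c * J = ((J : ℝ) - 1) ^ 2 := by
        rw [hc, hη]
        field_simp
      have h1 : 2 * ((J : ℝ) + 1) * J ≤ (2 + ε) * ((J : ℝ) - 1) ^ 2 := by
        have h2 : 0 ≤ ((J : ℝ) - 1 - 1) := by linarith
        nlinarith
      rw [e2]
      have h3 : (2 * ((J : ℝ) + 1)) * J ≤ ((2 + ε) * c) * J := by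
        calc (2 * ((J : ℝ) + 1)) * J ≤ (2 + ε) * ((J : ℝ) - 1) ^ 2 := h1
          _ = ((2 + ε) * c) * J := by rw [← e3]; ring
      exact le_of_mul_le_mul_right h3 hJ0
    have hm0 : (0 : ℝ) ≤ m := Nat.cast_nonneg m
    have h1 : (J : ℝ) * (2 * (1 + η)) * ((m : ℝ) / c) ≤ (2 + ε) * m := by
      calc (J : ℝ) * (2 * (1 + η)) * ((m : ℝ) / c) ≤ (2 + ε) * c * ((m : ℝ) / c) :=
            mul_le_mul_of_nonneg_right hcoef (by positivity)
        _ = (2 + ε) * m := by field_simp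
    have h2 : (J : ℝ) * (2 * (1 + η)) * M0 + J ≤ CE ε / 2 * Real.log ((k : ℝ) + 1) := by
      have e4 : CE ε / 2 = (J : ℝ) * (16 * (J : ℝ) ^ 2 * (2 * (J : ℝ) + 8) + 2) := by
        unfold CE
        ring
      rw [e4]
      have h3 : (J : ℝ) * (2 * (1 + η)) * M0 ≤ J * 4 * M0 := by
        apply mul_le_mul_of_nonneg_right _ hM00
        nlinarith
      have h4 : M0 ≤ 4 * (J : ℝ) ^ 2 * ((2 * (J : ℝ) + 8) * Real.log ((k : ℝ) + 1)) := by
        rw [hM0]
        exact mul_le_mul_of_nonneg_left hlogQ (by positivity)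
      have h5 : (J : ℝ) * 4 * M0
          ≤ (J : ℝ) * 4 * (4 * (J : ℝ) ^ 2 * ((2 * (J : ℝ) + 8) * Real.log ((k : ℝ) + 1))) :=
        mul_le_mul_of_nonneg_left h4 (by positivity)
      have h6 : (J : ℝ) ≤ J * (2 * Real.log ((k : ℝ) + 1)) := by nlinarith
      calc (J : ℝ) * (2 * (1 + η)) * M0 + J
          ≤ (J : ℝ) * 4 * (4 * (J : ℝ) ^ 2 * ((2 * (J : ℝ) + 8) * Real.log ((k : ℝ) + 1)))
            + J * (2 * Real.log ((k : ℝ) + 1)) := by linarith
        _ = _ := by ring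
    calc (J : ℝ) * (2 * (⌊(1 + η) * ((m : ℝ) / c + M0)⌋₊ : ℝ) + 1)
        ≤ (J : ℝ) * (2 * ((1 + η) * ((m : ℝ) / c + M0)) + 1) := by
          apply mul_le_mul_of_nonneg_left _ hJ0.le
          linarith
      _ = (J : ℝ) * (2 * (1 + η)) * ((m : ℝ) / c) + ((J : ℝ) * (2 * (1 + η)) * M0 + J) := by
          ring
      _ ≤ (2 + ε) * m + CE ε / 2 * Real.log ((k : ℝ) + 1) := add_le_add h1 h2

/-- **Leaf layers with a logarithm of the number of arcs.** -/
theorem absorb_final (ε : ℝ) (hε : 0 < ε) {k r p : ℕ} {V : Type*} [Fintype V]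
    (D : Digraph V) (T : SimpleGraph (Fin (k + 1)))
    (hT : T.IsTree) (O : Digraph (Fin (k + 1)))
    (hO : ∀ u v, T.Adj u v ↔ (O.Adj u v ∨ O.Adj v u))
    (hO' : ∀ u v, O.Adj u v → ¬ O.Adj v u)
    (S : Set (Fin (k + 1))) (hS : (T.induce S).Connected)
    (hr : ∀ x, ∃ s ∈ S, T.dist s x ≤ r)
    (hp : ∀ A : Set V, ¬ ((SimpleGraph.fromRel D.Adj).induce A).Colorable p →
      HoldsIn D O S A)
    (hD : ∀ m : ℕ, (m : ℝ) ≤ p + (2 + ε) * ({x | x ∉ S}.ncard : ℝ)
        + CE ε * r * Real.log (k + 1) →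
      ¬ (SimpleGraph.fromRel D.Adj).Colorable m) :
    ∃ f : Fin (k + 1) → V, Function.Injective f ∧
      ∀ u v, O.Adj u v → D.Adj (f u) (f v) := by
  classical
  set s : ℕ := {x | x ∉ S}.ncard with hs
  have hCE0 : 0 < CE ε := CE_pos ε
  have hlog0 : 0 ≤ Real.log ((k : ℝ) + 1) := Real.log_nonneg (by
    have : (0 : ℝ) ≤ k := Nat.cast_nonneg k
    linarith)
  -- the case in which `S` is everything
  by_cases hs0 : s = 0
  · have hall : ∀ x, x ∈ S := by
      intro x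
      by_contra hx
      have h1 : {x | x ∉ S} = ∅ := (Set.ncard_eq_zero (Set.toFinite _)).mp hs0
      have h2 : x ∈ {x | x ∉ S} := hx
      rw [h1] at h2
      exact h2
    refine holdsIn_univ D O S hall Set.univ (hp Set.univ ?_)
    intro hcon
    refine hD p ?_ ?_
    · have h1 : 0 ≤ (2 + ε) * (s : ℝ) := by positivity
      have h2 : 0 ≤ CE ε * r * Real.log ((k : ℝ) + 1) := by positivity
      linarith
    · exact (colSet_of_induce hcon).colorable
  obtain ⟨⟨x0, h0⟩⟩ := hS.nonempty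
  have hk : 1 ≤ k := by
    by_contra hcon
    have hk0 : k = 0 := by omega
    subst hk0
    apply hs0
    rw [hs, Set.ncard_eq_zero (Set.toFinite _)]
    ext x
    have : x = x0 := Subsingleton.elim (α := Fin 1) x x0
    simp [this, h0]
  have hSp := hS.preconnected
  obtain ⟨η, M, hη0, hη1, hM0, hME, hm, hprice⟩ := price_E ε hε k hk
  have hJ2 : 2 ≤ JE ε := by unfold JE; omega
  set β := bet T O x0 S with hβd
  set m : ℕ → ℕ := fun i => {y | β y = i}.ncard with hmd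
  set F : ℕ → ℕ := fun i => JE ε * (2 * ⌊(1 + η) * M (m i)⌋₊ + 1) with hF
  have hβ0 : ∀ x, β x = 0 ↔ x ∈ S := fun x => bet_zero x0 S hT hSp h0 x
  have hβle : ∀ x, β x ≤ 2 * r := fun x => bet_le x0 S hT hSp h0 r hr x
  -- the price
  have hsum : ((∑ j ∈ Finset.range (2 * r), F (j + 1) : ℕ) : ℝ)
      ≤ (2 + ε) * (s : ℝ) + CE ε * r * Real.log ((k : ℝ) + 1) := by
    have hsumm : ∑ j ∈ Finset.range (2 * r), m (j + 1) = s :=
      sum_batches S β (2 * r) hβ0 hβle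
    have hsumm' : ∑ j ∈ Finset.range (2 * r), (m (j + 1) : ℝ) = s := by
      rw [← hsumm]
      push_cast
      rfl
    calc ((∑ j ∈ Finset.range (2 * r), F (j + 1) : ℕ) : ℝ)
        = ∑ j ∈ Finset.range (2 * r), (F (j + 1) : ℝ) := by push_cast; rfl
      _ ≤ ∑ j ∈ Finset.range (2 * r),
          ((2 + ε) * (m (j + 1) : ℝ) + CE ε / 2 * Real.log ((k : ℝ) + 1)) :=
          Finset.sum_le_sum (fun j _ => hprice (m (j + 1)))
      _ = (2 + ε) * (s : ℝ) + CE ε * r * Real.log ((k : ℝ) + 1) := by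
          rw [Finset.sum_add_distrib, ← Finset.mul_sum, hsumm', Finset.sum_const,
            Finset.card_range, nsmul_eq_mul]
          push_cast
          ring
  have hbig : ¬ ColSet (SimpleGraph.fromRel D.Adj) (Set.univ : Set V)
      (p + ∑ j ∈ Finset.range (2 * r), F (j + 1)) := by
    intro hcon
    refine hD _ ?_ hcon.colorable
    rw [Nat.cast_add]
    linarith
  obtain ⟨R, _, hRm, hR0, hR1, hR2⟩ := hosts D k Odd m F
    (fun i A => absorb_out D k (JE ε) hk hJ2 (M (m i)) η (hM0 _) hη0 hη1 (hME _) (m i) (hm _) A)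
    (fun i A => absorb_in D k (JE ε) hk hJ2 (M (m i)) η (hM0 _) hη0 hη1 (hME _) (m i) (hm _) A)
    p (2 * r) Set.univ hbig
  exact chain_main D T hT O hO hO' S x0 h0
    (fun y hy b hb hd => parent_mem x0 hT S hSp h0 hb hd hy) β Odd (2 * r) hβ0
    (fun x y hxy hd hy => bet_lt x0 S hT hSp h0 hO hxy hd hy)
    (fun a b hab hd hb => bet_out x0 S hT h0 hSp hO hab hd hb)
    (fun a b hab hd _ => bet_in x0 S hT hO hO' hab hd)
    hβle R hRm hR1 hR2 (hp (R 0) (fun hcon => hR0 (colSet_of_induce hcon)))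

end P74ff84
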