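import Mathlib
import Pool.Agent.Lib.P74ff84.Fails
import Pool.Agent.Lib.P74ff84.FinalE

set_option autoImplicit false

namespace P74ff84

/-- `Cuts O d X`: the vertex set `X` of the oriented tree `O` is cut into directed paths by `d`
nested rounds of cuts at single arcs: for `d = 0` it is the vertex set of a directed path; for
`d + 1` it is the disjoint union of two sets that are cut by `d` rounds and are joined by an
arc (or it is already cut by `d` rounds). -/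
inductive Cuts {n : ℕ} (O : Digraph (Fin n)) : ℕ → Set (Fin n) → Prop
  | path (q : ℕ) (g : ℕ → Fin n) (hg : ∀ i < q, O.Adj (g i) (g (i + 1)))
      (hinj : ∀ i ≤ q, ∀ j ≤ q, g i = g j → i = j) : Cuts O 0 {x | ∃ i ≤ q, g i = x}
  | join (d : ℕ) (X Y : Set (Fin n)) (x y : Fin n) (hX : Cuts O d X) (hY : Cuts O d Y)
      (hdis : Disjoint X Y) (hx : x ∈ X) (hy : y ∈ Y) (hxy : O.Adj x y ∨ O.Adj y x) :
      Cuts O (d + 1) (X ∪ Y)
  | succ (d : ℕ) (X : Set (Fin n)) (hX : Cuts O d X) : Cuts O (d + 1) X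

theorem reach_of_induce {n : ℕ} {T : SimpleGraph (Fin n)} {X : Set (Fin n)} {x y a b : Fin n}
    (hX : (T.induce X).Connected) (ha : a ∈ X) (hb : b ∈ X) (hxy : x ∉ X ∨ y ∉ X) :
    (T \ SimpleGraph.fromEdgeSet {s(x, y)}).Reachable a b := by
  have h := hX.preconnected ⟨a, ha⟩ ⟨b, hb⟩
  let f : T.induce X →g (T \ SimpleGraph.fromEdgeSet {s(x, y)}) :=
    { toFun := fun v => v.1
      map_rel' := by
        intro u v huv
        rw [SimpleGraph.sdiff_adj]
        refine ⟨huv, ?_⟩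
        intro hcon
        rw [SimpleGraph.fromEdgeSet_adj, Set.mem_singleton_iff, Sym2.eq_iff] at hcon
        rcases hcon.1 with ⟨h1, h2⟩ | ⟨h1, h2⟩
        · rcases hxy with h3 | h3
          · exact h3 (h1 ▸ u.2)
          · exact h3 (h2 ▸ v.2)
        · rcases hxy with h3 | h3
          · exact h3 (h2 ▸ v.2)
          · exact h3 (h1 ▸ u.2) }
  exact h.map f

/-- Two disjoint connected parts of a tree are joined by at most one edge. -/
theorem one_edge {n : ℕ} {T : SimpleGraph (Fin n)} (hT : T.IsTree) {X Y : Set (Fin n)}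
    {x y a b : Fin n} (hX : (T.induce X).Connected) (hY : (T.induce Y).Connected)
    (hdis : Disjoint X Y) (hx : x ∈ X) (hy : y ∈ Y) (hxy : T.Adj x y) (ha : a ∈ X) (hb : b ∈ Y)
    (hab : T.Adj a b) : a = x ∧ b = y := by
  by_contra hcon
  have hyX : y ∉ X := fun h => Set.disjoint_left.mp hdis h hy
  have hxY : x ∉ Y := fun h => Set.disjoint_left.mp hdis hx h
  have hbX : b ∉ X := fun h => Set.disjoint_left.mp hdis h hb
  have haY : a ∉ Y := fun h => Set.disjoint_left.mp hdis ha h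
  have hbr := (SimpleGraph.isAcyclic_iff_forall_adj_isBridge.mp hT.isAcyclic) hxy
  rw [SimpleGraph.isBridge_iff] at hbr
  apply hbr
  have h1 := reach_of_induce (x := x) (y := y) hX hx ha (Or.inr hyX)
  have h2 := reach_of_induce (x := x) (y := y) hY hb hy (Or.inl hxY)
  refine h1.trans (SimpleGraph.Reachable.trans (SimpleGraph.Adj.reachable ?_) h2)
  rw [SimpleGraph.sdiff_adj]
  refine ⟨hab, ?_⟩
  intro h3
  rw [SimpleGraph.fromEdgeSet_adj, Set.mem_singleton_iff, Sym2.eq_iff] at h3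
  rcases h3.1 with ⟨h4, h5⟩ | ⟨h4, h5⟩
  · exact hcon ⟨h4, h5⟩
  · exact hyX (h4 ▸ ha)

theorem connected_union {n : ℕ} {T : SimpleGraph (Fin n)} {X Y : Set (Fin n)}
    {x y : Fin n} (hX : (T.induce X).Connected) (hY : (T.induce Y).Connected)
    (hx : x ∈ X) (hy : y ∈ Y) (hxy : T.Adj x y) : (T.induce (X ∪ Y)).Connected := by
  have hXU : ∀ a (ha : a ∈ X), (T.induce (X ∪ Y)).Reachable ⟨x, Or.inl hx⟩ ⟨a, Or.inl ha⟩ := by
    intro a ha
    exact (hX.preconnected ⟨x, hx⟩ ⟨a, ha⟩).map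
      (⟨fun v => ⟨v.1, Or.inl v.2⟩, fun h => h⟩ : T.induce X →g T.induce (X ∪ Y))
  have hYU : ∀ a (ha : a ∈ Y), (T.induce (X ∪ Y)).Reachable ⟨y, Or.inr hy⟩ ⟨a, Or.inr ha⟩ := by
    intro a ha
    exact (hY.preconnected ⟨y, hy⟩ ⟨a, ha⟩).map
      (⟨fun v => ⟨v.1, Or.inr v.2⟩, fun h => h⟩ : T.induce Y →g T.induce (X ∪ Y))
  have hxy' : (T.induce (X ∪ Y)).Reachable ⟨x, Or.inl hx⟩ ⟨y, Or.inr hy⟩ :=
    SimpleGraph.Adj.reachable hxy
  have hall : ∀ a (ha : a ∈ X ∪ Y), (T.induce (X ∪ Y)).Reachable ⟨x, Or.inl hx⟩ ⟨a, ha⟩ := by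
    rintro a (ha | ha)
    · exact hXU a ha
    · exact hxy'.trans (hYU a ha)
  have hne : Nonempty (X ∪ Y : Set (Fin n)) := ⟨⟨x, Or.inl hx⟩⟩
  refine SimpleGraph.Connected.mk ?_
  rintro ⟨a, ha⟩ ⟨b, hb⟩
  exact (hall a ha).symm.trans (hall b hb)

theorem fails_of_holds {V : Type*} {k : ℕ} {D : Digraph V} {O : Digraph (Fin (k + 1))}
    {S : Set (Fin (k + 1))} {p : ℕ} {x : Fin (k + 1)} (hx : x ∈ S)
    (hp : ∀ A : Set V, ¬ ColSet (SimpleGraph.fromRel D.Adj) A p → HoldsIn D O S A)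
    (A : Set V) : ColSet (SimpleGraph.fromRel D.Adj) (Fails D O S x A) p := by
  by_contra hcon
  obtain ⟨f, h1, h2, h3⟩ := hp _ hcon
  have h4 := h2 x hx
  exact h4.2 ⟨f, h1, fun y hy => (h2 y hy).1, h3, rfl⟩

/-- **Joining two trees by an arc.** -/
theorem holds_join {V : Type*} [Finite V] {k : ℕ} (D : Digraph V)
    (T : SimpleGraph (Fin (k + 1))) (hT : T.IsTree) (O : Digraph (Fin (k + 1)))
    (hO : ∀ u v, T.Adj u v ↔ (O.Adj u v ∨ O.Adj v u))
    (hO' : ∀ u v, O.Adj u v → ¬ O.Adj v u)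
    (X Y : Set (Fin (k + 1))) (hX : (T.induce X).Connected) (hY : (T.induce Y).Connected)
    (hdis : Disjoint X Y) (x y : Fin (k + 1)) (hx : x ∈ X) (hy : y ∈ Y) (hxy : T.Adj x y)
    (p₁ p₂ : ℕ)
    (h1 : ∀ A : Set V, ¬ ColSet (SimpleGraph.fromRel D.Adj) A p₁ → HoldsIn D O X A)
    (h2 : ∀ A : Set V, ¬ ColSet (SimpleGraph.fromRel D.Adj) A p₂ → HoldsIn D O Y A)
    (A : Set V) (hA : ¬ ColSet (SimpleGraph.fromRel D.Adj) A (4 * (p₁ + p₂) + 1)) :
    HoldsIn D O (X ∪ Y) A := by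
  have h := fails_cut D O X Y x x y hdis hx hx hy
    (fun a ha b hb hab => one_edge hT hX hY hdis hx hy hxy ha hb ((hO a b).mpr hab)) hO'
    ((hO x y).mp hxy) p₁ p₂ (fails_of_holds hx h1) (fails_of_holds hy h2) A
  by_contra hcon
  apply hA
  refine h.subset ?_
  intro u hu
  refine ⟨hu, ?_⟩
  rintro ⟨f, g1, g2, g3, -⟩
  exact hcon ⟨f, g1, g2, g3⟩

theorem ncard_path {n : ℕ} (q : ℕ) (g : ℕ → Fin n)
    (hinj : ∀ i ≤ q, ∀ j ≤ q, g i = g j → i = j) :
    ({x | ∃ i ≤ q, g i = x} : Set (Fin n)).ncard = q + 1 := by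
  have h1 : ({x | ∃ i ≤ q, g i = x} : Set (Fin n)) = g '' (Set.Iic q) := by
    ext x
    simp only [Set.mem_ofPred_eq, Set.mem_image, Set.mem_Iic]
  have h2 : Set.InjOn g (Set.Iic q) := fun i hi j hj hij => hinj i hi j hj hij
  rw [h1, h2.ncard_image]
  simp [Set.ncard_eq_toFinset_card']

/-- A part of the tree that is cut into directed paths by `d` nested rounds. -/
theorem cuts_holds {V : Type*} [Finite V] {k : ℕ} (D : Digraph V)
    (T : SimpleGraph (Fin (k + 1))) (hT : T.IsTree) (O : Digraph (Fin (k + 1)))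
    (hO : ∀ u v, T.Adj u v ↔ (O.Adj u v ∨ O.Adj v u))
    (hO' : ∀ u v, O.Adj u v → ¬ O.Adj v u) {d : ℕ} {X : Set (Fin (k + 1))} (h : Cuts O d X) :
    (T.induce X).Connected ∧
      ∀ A : Set V, ¬ ColSet (SimpleGraph.fromRel D.Adj) A (4 ^ d * X.ncard - 1) →
        HoldsIn D O X A := by
  induction h with
  | path q g hg hinj =>
    refine ⟨path_connected g q (fun i hi => (hO _ _).mpr (Or.inl (hg i hi))), ?_⟩
    intro A hA
    rw [ncard_path q g hinj, pow_zero, one_mul, Nat.add_sub_cancel] at hA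
    exact path_holdsIn D T hT O hO hO' q g hg hinj A hA
  | join d X Y x y _ _ hdis hx hy hxy ihX ihY =>
    have hTxy : T.Adj x y := (hO x y).mpr hxy
    refine ⟨connected_union ihX.1 ihY.1 hx hy hTxy, ?_⟩
    intro A hA
    refine holds_join D T hT O hO hO' X Y ihX.1 ihY.1 hdis x y hx hy hTxy _ _ ihX.2 ihY.2 A ?_
    intro hcon
    apply hA
    refine hcon.mono ?_
    rw [Set.ncard_union_eq hdis (Set.toFinite _) (Set.toFinite _), pow_succ]
    have e1 : 1 ≤ X.ncard := (Set.ncard_pos (Set.toFinite _)).mpr ⟨x, hx⟩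
    have e2 : 1 ≤ Y.ncard := (Set.ncard_pos (Set.toFinite _)).mpr ⟨y, hy⟩
    have e3 : 1 ≤ 4 ^ d := Nat.one_le_pow _ _ (by norm_num)
    have e4 : 1 ≤ 4 ^ d * X.ncard := Nat.one_le_iff_ne_zero.mpr (by positivity)
    have e5 : 1 ≤ 4 ^ d * Y.ncard := Nat.one_le_iff_ne_zero.mpr (by positivity)
    have e6 : 4 ^ d * 4 * (X.ncard + Y.ncard) = 4 * (4 ^ d * X.ncard + 4 ^ d * Y.ncard) := by
      ring
    omega
  | succ d X _ ih =>
    refine ⟨ih.1, ?_⟩
    intro A hA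
    refine ih.2 A ?_
    intro hcon
    apply hA
    refine hcon.mono ?_
    have : 4 ^ d * X.ncard ≤ 4 ^ (d + 1) * X.ncard :=
      Nat.mul_le_mul_right _ (Nat.pow_le_pow_right (by norm_num) (by omega))
    omega

theorem colSet_induce {V : Type*} {G : SimpleGraph V} {A : Set V} {s : ℕ} (h : ColSet G A s) :
    (G.induce A).Colorable s := by
  obtain ⟨f, hf1, hf2⟩ := h
  refine ⟨SimpleGraph.Coloring.mk (fun v => (⟨f v, hf1 v v.2⟩ : Fin s)) ?_⟩
  intro u v huv h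
  exact hf2 u u.2 v v.2 huv (by simpa using congrArg Fin.val h)

end P74ff84
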