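import Mathlib
import Pool.Agent.Lib.P74ff84.FinalB

set_option autoImplicit false

namespace P74ff84

/-- The small number of the weighted version. -/
noncomputable def et (ε : ℝ) : ℝ := min (ε / 16) (1 / 4)

/-- The constant of the weighted version. -/
noncomputable def CF (ε : ℝ) : ℝ := 4 * (2 / et ε * (2 + 2 * Real.log (1 / et ε)) + 2)

theorem et_pos {ε : ℝ} (hε : 0 < ε) : 0 < et ε := lt_min (by positivity) (by norm_num)

theorem et_le {ε : ℝ} : et ε ≤ 1 / 4 := min_le_right _ _

/-- **Leaf layers, weighted version.** -/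
theorem weighted_final (ε : ℝ) (hε : 0 < ε) {k r : ℕ} {V : Type*} [Fintype V]
    (D : Digraph V) (T : SimpleGraph (Fin (k + 1)))
    (hT : T.IsTree) (O : Digraph (Fin (k + 1)))
    (hO : ∀ u v, T.Adj u v ↔ (O.Adj u v ∨ O.Adj v u))
    (hO' : ∀ u v, O.Adj u v → ¬ O.Adj v u)
    (S : Set (Fin (k + 1))) (hS : (T.induce S).Connected)
    (hr : ∀ x, ∃ s ∈ S, T.dist s x ≤ r)
    (w : V → ℝ) (hw : ∀ v, 0 ≤ w v)
    (hind : ∀ S : Finset V, (SimpleGraph.fromRel D.Adj).IsIndepSet (S : Set V) →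
      ∑ v ∈ S, w v ≤ 1)
    (p : ℝ) (hp0 : 0 ≤ p)
    (hp : ∀ A : Finset V, p < ∑ v ∈ A, w v → HoldsIn D O S (A : Set V))
    (hD : (1 + ε) * p + (2 + ε) * ({x | x ∉ S}.ncard : ℝ)
        + CF ε * r * Real.log (r + 2) < ∑ v, w v) :
    ∃ f : Fin (k + 1) → V, Function.Injective f ∧
      ∀ u v, O.Adj u v → D.Adj (f u) (f v) := by
  classical
  set s : ℕ := {x | x ∉ S}.ncard with hs
  set η : ℝ := et ε with hη
  have hη0 : 0 < η := et_pos hε
  have hη4 : η ≤ 1 / 4 := et_le
  have hη16 : η ≤ ε / 16 := min_le_left _ _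
  have hη1 : η < 1 := by linarith
  have h1η : 0 < 1 - η := by linarith
  have hL1 : (0 : ℝ) < 2 * r + 1 := by positivity
  set δ : ℝ := η / (2 * r + 1) with hδ
  have hδ0 : 0 < δ := by positivity
  have hδ1 : δ ≤ 1 := by
    rw [hδ, div_le_one hL1]
    have : (0 : ℝ) ≤ r := Nat.cast_nonneg r
    linarith
  set E : ℝ := Real.log (1 / δ) with hE
  have hE0 : 0 ≤ E := Real.log_nonneg (by rw [le_div_iff₀ hδ0]; linarith)
  have hexpE : Real.exp (-E) = δ := by
    rw [hE, Real.exp_neg, Real.exp_log (by positivity), one_div, inv_inv]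
  obtain ⟨⟨x0, h0⟩⟩ := hS.nonempty
  have hSp := hS.preconnected
  set β := bet T O x0 S with hβd
  set m : ℕ → ℕ := fun i => {y | β y = i}.ncard with hm
  set R : ℕ → ℕ := fun i => ⌈2 * (m i : ℝ) / (1 - η) + 2 / η * E⌉₊ with hR
  have hR1 : ∀ i, 2 * (m i : ℝ) / (1 - η) + 2 / η * E ≤ (R i : ℝ) := fun i => Nat.le_ceil _
  have hR2 : ∀ i, (R i : ℝ) ≤ 2 * (m i : ℝ) / (1 - η) + 2 / η * E + 1 := by
    intro i
    have h1 : 0 ≤ 2 * (m i : ℝ) / (1 - η) + 2 / η * E := by positivity
    exact (Nat.ceil_lt_add_one h1).le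
  refine weighted_main D T hT O hO hO' S x0 h0
    (fun y hy b hb hd => parent_mem x0 hT S hSp h0 hb hd hy) β Odd (2 * r)
    (fun x => bet_zero x0 S hT hSp h0 x)
    (fun x y hxy hd hy => bet_lt x0 S hT hSp h0 hO hxy hd hy)
    (fun a b hab hd hb => bet_out x0 S hT h0 hSp hO hab hd hb)
    (fun a b hab hd _ => bet_in x0 S hT hO hO' hab hd)
    (fun x => bet_le x0 S hT hSp h0 r hr x) w hw hind p hp
    (1 - η) δ h1η.le (by linarith) hδ1 R (fun i => pow_pos h1η _) ?_ ?_
  · intro i
    have e1 : (1 + (1 - η)) / 2 = 1 - η / 2 := by ring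
    rw [e1]
    have hb := pow_bound η hη0 hη1 (m (i + 1)) (R (i + 1)) E (hR1 (i + 1))
    rw [hexpE] at hb
    refine hb.trans (mul_le_mul_of_nonneg_left ?_ hδ0.le)
    exact pow_le_pow_of_le_one h1η.le (by linarith) (Nat.sub_le _ _)
  · -- the sum
    have hW0 : 0 ≤ ∑ v, w v := Finset.sum_nonneg (fun v _ => hw v)
    have hbern : 1 - η ≤ (1 - δ) ^ (2 * r) := by
      have h1 := one_add_mul_le_pow (a := -δ) (by linarith) (2 * r)
      have h2 : (1 : ℝ) + ((2 * r : ℕ) : ℝ) * (-δ) ≥ 1 - η := by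
        have h3 : ((2 * r : ℕ) : ℝ) * δ ≤ η := by
          rw [hδ, mul_div_assoc', div_le_iff₀ hL1]
          push_cast
          nlinarith
        linarith
      have e : (1 : ℝ) + -δ = 1 - δ := by ring
      rw [e] at h1
      linarith
    have hlog2 : 1 / 2 ≤ Real.log ((r : ℝ) + 2) := by
      have h1 : Real.log 2 ≤ Real.log ((r : ℝ) + 2) :=
        Real.log_le_log (by norm_num) (by linarith [(Nat.cast_nonneg r : (0 : ℝ) ≤ r)])
      have h2 := Real.log_two_gt_d9
      linarith
    have hlogη : 0 ≤ Real.log (1 / η) := Real.log_nonneg (by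
      rw [le_div_iff₀ hη0]; linarith)
    have hEle : E ≤ 2 * Real.log ((r : ℝ) + 2) + Real.log (1 / η) := by
      have e1 : 1 / δ = (2 * r + 1) * (1 / η) := by
        rw [hδ]
        field_simp
      rw [hE, e1, Real.log_mul hL1.ne' (by positivity)]
      have h2 : Real.log (2 * (r : ℝ) + 1) ≤ 2 * Real.log ((r : ℝ) + 2) := by
        have e2 : 2 * Real.log ((r : ℝ) + 2) = Real.log (((r : ℝ) + 2) ^ 2) := by
          rw [Real.log_pow]
          norm_num
        rw [e2]
        apply Real.log_le_log hL1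
        nlinarith [(Nat.cast_nonneg r : (0 : ℝ) ≤ r)]
      linarith
    have hsum : ((∑ j ∈ Finset.range (2 * r), R (j + 1) : ℕ) : ℝ)
        ≤ 2 / (1 - η) * s + 2 * r * (2 / η * E + 1) := by
      have hsumm : ∑ j ∈ Finset.range (2 * r), m (j + 1) = s :=
        sum_batches S β (2 * r) (fun x => bet_zero x0 S hT hSp h0 x)
          (fun x => bet_le x0 S hT hSp h0 r hr x)
      have hsumm' : ∑ j ∈ Finset.range (2 * r), (m (j + 1) : ℝ) = s := by
        rw [← hsumm]
        push_cast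
        rfl
      push_cast
      calc ∑ j ∈ Finset.range (2 * r), (R (j + 1) : ℝ)
          ≤ ∑ j ∈ Finset.range (2 * r),
            (2 / (1 - η) * (m (j + 1) : ℝ) + (2 / η * E + 1)) := by
            refine Finset.sum_le_sum (fun j _ => (hR2 (j + 1)).trans (le_of_eq ?_))
            ring
        _ = 2 / (1 - η) * s + 2 * r * (2 / η * E + 1) := by
            rw [Finset.sum_add_distrib, ← Finset.mul_sum, hsumm', Finset.sum_const,
              Finset.card_range, nsmul_eq_mul]
            push_cast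
            ring
    -- compare
    have h1 : p + (2 / (1 - η) * s + 2 * r * (2 / η * E + 1)) < (∑ v, w v) * (1 - η) := by
      have hA : p ≤ (1 - η) * ((1 + ε) * p) := by
        have : 1 ≤ (1 - η) * (1 + ε) := by nlinarith
        nlinarith
      have hB : 2 / (1 - η) * s ≤ (1 - η) * ((2 + ε) * s) := by
        have h2 : 2 / (1 - η) ≤ (1 - η) * (2 + ε) := by
          rw [div_le_iff₀ h1η]
          have h3 : 1 - 2 * η ≤ (1 - η) * (1 - η) := by nlinarith
          have h4 : 2 + 16 * η ≤ 2 + ε := by linarith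
          have h5 : (2 : ℝ) ≤ (1 - 2 * η) * (2 + 16 * η) := by nlinarith
          have h6 : (1 - 2 * η) * (2 + 16 * η) ≤ (1 - 2 * η) * (2 + ε) :=
            mul_le_mul_of_nonneg_left h4 (by linarith)
          have h7 : (1 - 2 * η) * (2 + ε) ≤ (1 - η) * (1 - η) * (2 + ε) :=
            mul_le_mul_of_nonneg_right h3 (by linarith)
          have h8 : (1 - η) * (1 - η) * (2 + ε) = (1 - η) * (2 + ε) * (1 - η) := by ring
          linarith
        have hs' : (0 : ℝ) ≤ s := Nat.cast_nonneg s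
        nlinarith
      have hC : 2 * (r : ℝ) * (2 / η * E + 1)
          ≤ (1 - η) * (CF ε * r * Real.log ((r : ℝ) + 2)) := by
        have hr0 : (0 : ℝ) ≤ r := Nat.cast_nonneg r
        have h3 : 2 / η * E + 1 ≤
            (2 / η * (2 + 2 * Real.log (1 / η)) + 2) * Real.log ((r : ℝ) + 2) := by
          have h4 : 2 / η * E ≤ 2 / η * ((2 + 2 * Real.log (1 / η)) *
              Real.log ((r : ℝ) + 2)) := by
            apply mul_le_mul_of_nonneg_left _ (by positivity)
            nlinarith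
          nlinarith
        have h5 : 0 ≤ (2 / η * (2 + 2 * Real.log (1 / η)) + 2) * Real.log ((r : ℝ) + 2) := by
          positivity
        have h6 : 2 * (r : ℝ) * (2 / η * E + 1)
            ≤ 2 * r * ((2 / η * (2 + 2 * Real.log (1 / η)) + 2) *
              Real.log ((r : ℝ) + 2)) :=
          mul_le_mul_of_nonneg_left h3 (by positivity)
        have h7 : 2 * (r : ℝ) * ((2 / η * (2 + 2 * Real.log (1 / η)) + 2) *
            Real.log ((r : ℝ) + 2)) ≤ (1 - η) * (CF ε * r * Real.log ((r : ℝ) + 2)) := by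
          have e : CF ε = 4 * (2 / η * (2 + 2 * Real.log (1 / η)) + 2) := rfl
          rw [e]
          have h8 : 0 ≤ (r : ℝ) * ((2 / η * (2 + 2 * Real.log (1 / η)) + 2) *
            Real.log ((r : ℝ) + 2)) := by positivity
          nlinarith
        exact h6.trans h7
      have hmul : (1 - η) * ((1 + ε) * p + (2 + ε) * (s : ℝ)
          + CF ε * r * Real.log ((r : ℝ) + 2)) < (1 - η) * ∑ v, w v :=
        mul_lt_mul_of_pos_left hD h1η
      nlinarith
    calc p + ((∑ j ∈ Finset.range (2 * r), R (j + 1) : ℕ) : ℝ)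
        ≤ p + (2 / (1 - η) * s + 2 * r * (2 / η * E + 1)) := by linarith
      _ < (∑ v, w v) * (1 - η) := h1
      _ ≤ (∑ v, w v) * (1 - δ) ^ (2 * r) := mul_le_mul_of_nonneg_left hbern hW0

end P74ff84
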