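import Mathlib
import Pool.Agent.Lib.P74ff84.FinalC

set_option autoImplicit false

namespace P74ff84

section order

variable {k : ℕ} (T : SimpleGraph (Fin (k + 1))) (x0 : Fin (k + 1)) (S : Set (Fin (k + 1)))

/-- `z` comes before `x`. -/
def Before (z x : Fin (k + 1)) : Prop :=
  T.dist x0 z < T.dist x0 x ∨ (T.dist x0 z = T.dist x0 x ∧ z < x)

open Classical in
/-- The position of `x` among the vertices outside `S`. -/
noncomputable def pos (x : Fin (k + 1)) : ℕ :=
  if x ∈ S then 0 else
    ((Finset.univ : Finset (Fin (k + 1))).filter (fun z => z ∉ S ∧ Before T x0 z x)).card + 1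

theorem pos_zero (x : Fin (k + 1)) : pos T x0 S x = 0 ↔ x ∈ S := by
  unfold pos
  split_ifs with h
  · simp [h]
  · simp [h]

theorem pos_lt {x y : Fin (k + 1)} (hxy : Before T x0 x y) (hy : y ∉ S) :
    pos T x0 S x < pos T x0 S y := by
  classical
  by_cases hx : x ∈ S
  · rw [(pos_zero T x0 S x).mpr hx]
    have : pos T x0 S y ≠ 0 := fun h => hy ((pos_zero T x0 S y).mp h)
    omega
  · unfold pos
    rw [if_neg hx, if_neg hy]
    apply Nat.add_lt_add_right
    apply Finset.card_lt_card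
    rw [Finset.ssubset_iff_subset_ne]
    constructor
    · intro z hz
      rw [Finset.mem_filter] at hz ⊢
      refine ⟨hz.1, hz.2.1, ?_⟩
      rcases hz.2.2 with h1 | ⟨h1, h2⟩
      · rcases hxy with h3 | ⟨h3, h4⟩
        · exact Or.inl (h1.trans h3)
        · exact Or.inl (by omega)
      · rcases hxy with h3 | ⟨h3, h4⟩
        · exact Or.inl (by omega)
        · exact Or.inr ⟨h1.trans h3, h2.trans h4⟩
    · intro h
      have h1 : x ∈ (Finset.univ : Finset (Fin (k + 1))).filter
          (fun z => z ∉ S ∧ Before T x0 z y) :=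
        Finset.mem_filter.mpr ⟨Finset.mem_univ _, hx, hxy⟩
      rw [← h, Finset.mem_filter] at h1
      rcases h1.2.2 with h2 | ⟨_, h2⟩
      · exact lt_irrefl _ h2
      · exact lt_irrefl _ h2

theorem pos_inj {x y : Fin (k + 1)} (hx : x ∉ S) (h : pos T x0 S x = pos T x0 S y) :
    x = y := by
  have hy : y ∉ S := by
    intro hy
    rw [(pos_zero T x0 S y).mpr hy] at h
    exact hx ((pos_zero T x0 S x).mp h)
  by_contra hne
  rcases lt_trichotomy (T.dist x0 x) (T.dist x0 y) with h1 | h1 | h1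
  · have := pos_lt T x0 S (Or.inl h1 : Before T x0 x y) hy
    omega
  · rcases lt_trichotomy x y with h2 | h2 | h2
    · have := pos_lt T x0 S (Or.inr ⟨h1, h2⟩ : Before T x0 x y) hy
      omega
    · exact hne h2
    · have := pos_lt T x0 S (Or.inr ⟨h1.symm, h2⟩ : Before T x0 y x) hx
      omega
  · have := pos_lt T x0 S (Or.inl h1 : Before T x0 y x) hx
    omega

theorem pos_le (x : Fin (k + 1)) : pos T x0 S x ≤ {x | x ∉ S}.ncard := by
  classical
  unfold pos
  split_ifs with h
  · exact Nat.zero_le _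
  · have h1 : {x | x ∉ S}.ncard
      = ((Finset.univ : Finset (Fin (k + 1))).filter (fun z => z ∉ S)).card := by
      rw [← Set.ncard_coe_finset]
      congr 1
      ext y
      simp
    rw [h1]
    apply Nat.succ_le_of_lt
    apply Finset.card_lt_card
    rw [Finset.ssubset_iff_subset_ne]
    constructor
    · intro z hz
      rw [Finset.mem_filter] at hz ⊢
      exact ⟨hz.1, hz.2.1⟩
    · intro h2
      have h3 : x ∈ (Finset.univ : Finset (Fin (k + 1))).filter (fun z => z ∉ S) :=
        Finset.mem_filter.mpr ⟨Finset.mem_univ _, h⟩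
      rw [← h2, Finset.mem_filter] at h3
      rcases h3.2.2 with h4 | ⟨_, h4⟩
      · exact lt_irrefl _ h4
      · exact lt_irrefl _ h4

end order

/-- **All trees, weighted version.** -/
theorem weighted_all (t : ℕ) {k : ℕ} {V : Type*} [Fintype V]
    (D : Digraph V) (T : SimpleGraph (Fin (k + 1)))
    (hT : T.IsTree) (O : Digraph (Fin (k + 1)))
    (hO : ∀ u v, T.Adj u v ↔ (O.Adj u v ∨ O.Adj v u))
    (hO' : ∀ u v, O.Adj u v → ¬ O.Adj v u)
    (S : Set (Fin (k + 1))) (hS : (T.induce S).Connected)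
    (w : V → ℝ) (hw : ∀ v, 0 ≤ w v)
    (hind : ∀ S : Finset V, (SimpleGraph.fromRel D.Adj).IsIndepSet (S : Set V) →
      ∑ v ∈ S, w v ≤ 1)
    (p : ℝ)
    (hp : ∀ A : Finset V, p < ∑ v ∈ A, w v → HoldsIn D O S (A : Set V))
    (hD : p + ({x | x ∉ S}.ncard : ℝ) * (Nat.clog 2 {x | x ∉ S}.ncard + t)
        < (1 - (1 / 2) ^ t) * ∑ v, w v) :
    ∃ f : Fin (k + 1) → V, Function.Injective f ∧
      ∀ u v, O.Adj u v → D.Adj (f u) (f v) := by
  classical
  set s : ℕ := {x | x ∉ S}.ncard with hs
  obtain ⟨⟨x0, h0⟩⟩ := hS.nonempty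
  have hSp := hS.preconnected
  set β := pos T x0 S with hβ
  set R : ℕ := Nat.clog 2 s + t with hR
  have hcard : ∀ i, {y | β y = i + 1}.ncard - 1 = 0 := by
    intro i
    have h1 : {y | β y = i + 1}.ncard ≤ 1 := by
      rw [Set.ncard_le_one]
      intro a ha b hb
      have ha' : β a = i + 1 := ha
      have hb' : β b = i + 1 := hb
      have haS : a ∉ S := by
        intro h
        have := (pos_zero T x0 S a).mpr h
        rw [← hβ] at this
        omega
      exact pos_inj T x0 S haS (by rw [← hβ]; omega)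
    omega
  have hnotS : ∀ y, 1 ≤ β y → y ∉ S := by
    intro y hy h
    have := (pos_zero T x0 S y).mpr h
    rw [← hβ] at this
    omega
  refine weighted_main D T hT O hO hO' S x0 h0
    (fun y hy b hb hd => parent_mem x0 hT S hSp h0 hb hd hy) β
    (fun i => ∃ a b, O.Adj a b ∧ T.dist x0 a < T.dist x0 b ∧ β b = i) s
    (fun x => pos_zero T x0 S x)
    (fun x y _ hd hy => pos_lt T x0 S (Or.inl hd) (hnotS y hy))
    (fun a b hab hd _ => ⟨a, b, hab, hd, rfl⟩) ?_
    (fun x => pos_le T x0 S x) w hw hind p hp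
    0 ((1 / 2) ^ R) le_rfl zero_le_one (pow_le_one₀ (by norm_num) (by norm_num))
    (fun _ => R) ?_ ?_ ?_
  · rintro a b hab hd ha ⟨a', b', hab', hd', hb'⟩
    have haS := hnotS a ha
    have e : a = b' := pos_inj T x0 S haS hb'.symm
    subst e
    have e2 : a' = b := tree_parent_unique hT x0 ((hO a' a).mpr (Or.inl hab'))
      ((hO b a).mpr (Or.inr hab)) hd' hd
    subst e2
    exact hO' _ _ hab hab'
  · intro i
    rw [hcard i, pow_zero]
    exact one_pos
  · intro i
    rw [hcard i, pow_zero, mul_one, add_zero]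
  · have hW0 : 0 ≤ ∑ v, w v := Finset.sum_nonneg (fun v _ => hw v)
    have hbern : 1 - (1 / 2 : ℝ) ^ t ≤ (1 - (1 / 2) ^ R) ^ s := by
      have h1 := one_add_mul_le_pow (a := -((1 / 2 : ℝ) ^ R))
        (by
          have : (1 / 2 : ℝ) ^ R ≤ 1 := pow_le_one₀ (by norm_num) (by norm_num)
          linarith) s
      have h2 : (s : ℝ) * (1 / 2) ^ R ≤ (1 / 2) ^ t := by
        have h3 : (s : ℝ) ≤ 2 ^ (Nat.clog 2 s) := by
          exact_mod_cast Nat.le_pow_clog one_lt_two s
        rw [hR, pow_add, ← mul_assoc]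
        have h4 : (s : ℝ) * (1 / 2) ^ (Nat.clog 2 s) ≤ 1 := by
          rw [one_div, inv_pow, ← div_eq_mul_inv, div_le_one (by positivity)]
          exact h3
        have h5 : (0 : ℝ) ≤ (1 / 2) ^ t := by positivity
        nlinarith
      have e : (1 : ℝ) + -((1 / 2 : ℝ) ^ R) = 1 - (1 / 2) ^ R := by ring
      rw [e] at h1
      linarith
    calc p + ((∑ _j ∈ Finset.range s, R : ℕ) : ℝ)
        = p + (s : ℝ) * (Nat.clog 2 s + t) := by
          rw [Finset.sum_const, Finset.card_range, smul_eq_mul, hR]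
          push_cast
          ring
      _ < (1 - (1 / 2) ^ t) * ∑ v, w v := hD
      _ = (∑ v, w v) * (1 - (1 / 2) ^ t) := mul_comm _ _
      _ ≤ (∑ v, w v) * (1 - (1 / 2) ^ R) ^ s := mul_le_mul_of_nonneg_left hbern hW0

end P74ff84
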