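import Mathlib
import Pool.Agent.Lib.P74ff84.FinalD

set_option autoImplicit false

namespace P74ff84

/-- The vertices in `A` have a fractional colouring of total weight at most `B`: nonnegative
weights on the independent sets, of total at most `B`, which cover every vertex of `A` at
least once. -/
def FracCol {V : Type*} [Fintype V] (G : SimpleGraph V) (A : Set V) (B : ℝ) : Prop :=
  ∃ y : Finset V → ℝ, (∀ I, 0 ≤ y I) ∧ (∀ I, y I ≠ 0 → G.IsIndepSet (I : Set V)) ∧
    (∀ v ∈ A, 1 ≤ ∑ I : Finset V, (I : Set V).indicator (fun _ => y I) v) ∧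
    ∑ I : Finset V, y I ≤ B

section

variable {V : Type*} [Fintype V]

/-- Weak duality. -/
theorem FracCol.weight_le {G : SimpleGraph V} {A : Finset V} {B : ℝ}
    (h : FracCol G (A : Set V) B) (w : V → ℝ) (hw : ∀ v, 0 ≤ w v)
    (hind : ∀ I : Finset V, G.IsIndepSet (I : Set V) → ∑ v ∈ I, w v ≤ 1) :
    ∑ v ∈ A, w v ≤ B := by
  classical
  obtain ⟨y, hy0, hyI, hyc, hyB⟩ := h
  have hsub : ∀ v, ∑ I : Finset V, (I : Set V).indicator (fun _ => y I) v
      = ∑ I : Finset V, if v ∈ I then y I else 0 := by
    intro v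
    refine Finset.sum_congr rfl (fun I _ => ?_)
    by_cases h : v ∈ I
    · rw [if_pos h, Set.indicator_of_mem (Finset.mem_coe.mpr h)]
    · rw [if_neg h, Set.indicator_of_notMem (fun h' => h (Finset.mem_coe.mp h'))]
  calc ∑ v ∈ A, w v
      ≤ ∑ v ∈ A, w v * ∑ I : Finset V, (if v ∈ I then y I else 0) := by
        refine Finset.sum_le_sum (fun v hv => ?_)
        have h1 := hyc v hv
        rw [hsub] at h1
        nlinarith [hw v]
    _ ≤ ∑ v, w v * ∑ I : Finset V, (if v ∈ I then y I else 0) := by
        refine Finset.sum_le_sum_of_subset_of_nonneg (Finset.subset_univ _) (fun v _ _ => ?_)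
        refine mul_nonneg (hw v) (Finset.sum_nonneg (fun I _ => ?_))
        split_ifs
        · exact hy0 I
        · exact le_rfl
    _ = ∑ I : Finset V, y I * ∑ v ∈ I, w v := by
        simp_rw [Finset.mul_sum]
        rw [Finset.sum_comm]
        refine Finset.sum_congr rfl (fun I _ => ?_)
        rw [← Finset.sum_filter_add_sum_filter_not Finset.univ (fun v => v ∈ I)]
        have h1 : ∑ v ∈ Finset.univ.filter (fun v => ¬ v ∈ I),
            w v * (if v ∈ I then y I else 0) = 0 := by
          refine Finset.sum_eq_zero (fun v hv => ?_)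
          rw [if_neg (Finset.mem_filter.mp hv).2, mul_zero]
        rw [h1, add_zero]
        have h2 : Finset.univ.filter (fun v => v ∈ I) = I := by
          ext v
          simp
        rw [h2]
        refine Finset.sum_congr rfl (fun v hv => ?_)
        rw [if_pos hv, mul_comm]
    _ ≤ ∑ I : Finset V, y I := by
        refine Finset.sum_le_sum (fun I _ => ?_)
        by_cases h : y I = 0
        · rw [h, zero_mul]
        · have h1 := hind I (hyI I h)
          nlinarith [hy0 I]
    _ ≤ B := hyB

/-- Strong duality: a graph without a fractional colouring of total weight at most `B` has a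
weight function of total more than `B` with weight at most one on every independent set. -/
theorem exists_weight {G : SimpleGraph V} {B : ℝ} (h : ¬ FracCol G Set.univ B) :
    ∃ w : V → ℝ, (∀ v, 0 ≤ w v) ∧
      (∀ I : Finset V, G.IsIndepSet (I : Set V) → ∑ v ∈ I, w v ≤ 1) ∧
      B < ∑ v, w v := by
  classical
  rcases lt_or_ge B 0 with hB | hB
  · exact ⟨fun _ => 0, fun _ => le_rfl, fun I _ => by simp, by simpa using hB⟩
  rcases isEmpty_or_nonempty V with hV | hV
  · exact absurd ⟨fun _ => 0, fun _ => le_rfl, fun I hI => absurd rfl hI,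
      fun v => (hV.false v).elim, by simpa using hB⟩ h
  -- the two simplices
  set J := {I : Finset V // G.IsIndepSet (I : Set V)} with hJ
  have hJne : Nonempty J := ⟨⟨∅, by simp [SimpleGraph.IsIndepSet]⟩⟩
  set X : Set (V → ℝ) := stdSimplex ℝ V with hX
  set Y : Set (J → ℝ) := stdSimplex ℝ J with hY
  set f : (V → ℝ) → (J → ℝ) → ℝ := fun x z => ∑ I : J, z I * ∑ v ∈ I.1, x v with hf
  have hXne : X.Nonempty := ⟨_, single_mem_stdSimplex ℝ hV.some⟩
  have hYne : Y.Nonempty := ⟨_, single_mem_stdSimplex ℝ hJne.some⟩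
  have hcX : Convex ℝ X := convex_stdSimplex ℝ V
  have hcY : Convex ℝ Y := convex_stdSimplex ℝ J
  have hcont1 : ∀ z, Continuous (fun x => f x z) := by
    intro z
    simp only [hf]
    fun_prop
  have hcont2 : ∀ x, Continuous (fun z => f x z) := by
    intro x
    simp only [hf]
    fun_prop
  have hlin1 : ∀ z, ∀ a b : ℝ, ∀ x x', f (a • x + b • x') z = a * f x z + b * f x' z := by
    intro z a b x x'
    simp only [hf]
    rw [Finset.mul_sum, Finset.mul_sum, ← Finset.sum_add_distrib]
    refine Finset.sum_congr rfl (fun I _ => ?_)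
    have : ∑ v ∈ I.1, (a • x + b • x') v = a * ∑ v ∈ I.1, x v + b * ∑ v ∈ I.1, x' v := by
      rw [Finset.mul_sum, Finset.mul_sum, ← Finset.sum_add_distrib]
      rfl
    rw [this]
    ring
  have hlin2 : ∀ x, ∀ a b : ℝ, ∀ z z', f x (a • z + b • z') = a * f x z + b * f x z' := by
    intro x a b z z'
    simp only [hf]
    rw [Finset.mul_sum, Finset.mul_sum, ← Finset.sum_add_distrib]
    refine Finset.sum_congr rfl (fun I _ => ?_)
    simp only [Pi.add_apply, Pi.smul_apply, smul_eq_mul]
    ring
  have hconv : ∀ z, ConvexOn ℝ X (fun x => f x z) := by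
    intro z
    refine ⟨hcX, fun x _ x' _ a b _ _ _ => le_of_eq ?_⟩
    exact hlin1 z a b x x'
  have hconc : ∀ x, ConcaveOn ℝ Y (fun z => f x z) := by
    intro x
    refine ⟨hcY, fun z _ z' _ a b _ _ _ => le_of_eq ?_⟩
    exact (hlin2 x a b z z').symm
  obtain ⟨a, ha, b, hb, hab⟩ := Sion.exists_isSaddlePointOn' (f := f) hXne
    (isCompact_stdSimplex ℝ V)
    (fun z _ => (hcont1 z).lowerSemicontinuous.lowerSemicontinuousOn _)
    (fun z _ => (hconv z).quasiconvexOn)
    hcY (isCompact_stdSimplex ℝ J)
    (fun x _ => (hcont2 x).upperSemicontinuous.upperSemicontinuousOn _)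
    (fun x _ => (hconc x).quasiconcaveOn) hcX hYne
  -- the saddle point inequality for pure strategies
  have key : ∀ (I : J) (v : V), ∑ u ∈ I.1, a u ≤ ∑ K : J, if v ∈ K.1 then b K else 0 := by
    intro I v
    have h1 := hab (Pi.single v 1) (single_mem_stdSimplex ℝ v) (Pi.single I 1)
      (single_mem_stdSimplex ℝ I)
    have h2 : f a (Pi.single I 1) = ∑ u ∈ I.1, a u := by
      simp only [hf]
      rw [Finset.sum_eq_single I]
      · rw [Pi.single_eq_same, one_mul]
      · intro K _ hK
        rw [Pi.single_eq_of_ne hK, zero_mul]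
      · intro hI
        exact absurd (Finset.mem_univ I) hI
    have h3 : f (Pi.single v 1) b = ∑ K : J, if v ∈ K.1 then b K else 0 := by
      simp only [hf]
      refine Finset.sum_congr rfl (fun K _ => ?_)
      split_ifs with hv
      · rw [Finset.sum_eq_single v]
        · rw [Pi.single_eq_same, mul_one]
        · intro u _ hu
          rw [Pi.single_eq_of_ne hu]
        · intro h'
          exact absurd hv h'
      · rw [Finset.sum_eq_zero, mul_zero]
        intro u hu
        rw [Pi.single_eq_of_ne]
        rintro rfl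
        exact hv hu
    rw [h2, h3] at h1
    exact h1
  -- the value of the game
  obtain ⟨M, hM⟩ := Finite.exists_max (fun I : J => ∑ u ∈ I.1, a u)
  set c := ∑ u ∈ M.1, a u with hc
  have ha0 : ∀ v, 0 ≤ a v := ha.1
  have ha1 : ∑ v, a v = 1 := ha.2
  have hb0 : ∀ I, 0 ≤ b I := hb.1
  have hb1 : ∑ I, b I = 1 := hb.2
  have hcpos : 0 < c := by
    obtain ⟨v, _, hv⟩ : ∃ v ∈ Finset.univ, 0 < a v := by
      by_contra hcon
      push Not at hcon
      have : ∑ v, a v ≤ 0 := Finset.sum_nonpos (fun v hv => hcon v hv)
      rw [ha1] at this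
      linarith
    have h1 := hM ⟨{v}, by simp [SimpleGraph.IsIndepSet]⟩
    simp only [Finset.sum_singleton] at h1
    exact hv.trans_le h1
  refine ⟨fun v => a v / c, fun v => div_nonneg (ha0 v) hcpos.le, ?_, ?_⟩
  · intro I hI
    rw [← Finset.sum_div, div_le_one hcpos]
    exact hM ⟨I, hI⟩
  · rw [← Finset.sum_div, ha1]
    by_contra hcon
    push Not at hcon
    apply h
    set y : Finset V → ℝ := fun I =>
      if hI : G.IsIndepSet (I : Set V) then b ⟨I, hI⟩ / c else 0 with hy
    have hyJ : ∀ K : J, y K.1 = b K / c := by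
      intro K
      simp only [hy]
      rw [dif_pos K.2]
    have hy0 : ∀ I : Finset V, ¬ G.IsIndepSet (I : Set V) → y I = 0 := by
      intro I hI
      simp only [hy]
      rw [dif_neg hI]
    have hsum : ∀ F : Finset V → ℝ, (∀ I : Finset V, ¬ G.IsIndepSet (I : Set V) → F I = 0) →
        ∑ I, F I = ∑ K : J, F K.1 := by
      intro F hF
      rw [← Finset.sum_subtype (Finset.univ.filter (fun I : Finset V =>
        G.IsIndepSet (I : Set V))) (by simp) F]
      rw [Finset.sum_filter_of_ne]
      intro I _ hI
      by_contra hcon'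
      exact hI (hF I hcon')
    refine ⟨y, ?_, ?_, ?_, ?_⟩
    · intro I
      by_cases hI : G.IsIndepSet (I : Set V)
      · rw [hyJ ⟨I, hI⟩]
        exact div_nonneg (hb0 _) hcpos.le
      · rw [hy0 I hI]
    · intro I hI
      by_contra hcon'
      exact hI (hy0 I hcon')
    · intro v _
      have h1 := key M v
      rw [hsum]
      · have h2 : ∑ K : J, (K.1 : Set V).indicator (fun _ => y K.1) v
            = (∑ K : J, if v ∈ K.1 then b K else 0) / c := by
          rw [Finset.sum_div]
          refine Finset.sum_congr rfl (fun K _ => ?_)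
          by_cases h : v ∈ K.1
          · rw [if_pos h, Set.indicator_of_mem (Finset.mem_coe.mpr h), hyJ]
          · rw [if_neg h, Set.indicator_of_notMem (fun h' => h (Finset.mem_coe.mp h')),
              zero_div]
        rw [h2, le_div_iff₀ hcpos, one_mul]
        exact h1
      · intro I hI
        rw [hy0 I hI]
        by_cases h : v ∈ I
        · rw [Set.indicator_of_mem (Finset.mem_coe.mpr h)]
        · rw [Set.indicator_of_notMem (fun h' => h (Finset.mem_coe.mp h'))]
    · rw [hsum y hy0, Finset.sum_congr rfl (fun K _ => hyJ K), ← Finset.sum_div, hb1]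
      exact hcon

end

end P74ff84
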