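import Mathlib
import Pool.Agent.Lib.P74ff84.Dual
import Pool.Agent.Lib.P74ff84.PathForest

set_option autoImplicit false

namespace P74ff84

/-- The number of vertices outside a path with `q` arcs. -/
theorem ncard_compl_path {k : ℕ} (q : ℕ) (g : ℕ → Fin (k + 1))
    (hinj : ∀ i ≤ q, ∀ j ≤ q, g i = g j → i = j) :
    {x | x ∉ {x | ∃ i ≤ q, g i = x}}.ncard = k - q := by
  classical
  have h1 : {x | ∃ i ≤ q, g i = x} = g '' (Finset.range (q + 1) : Finset ℕ) := by
    ext x
    simp only [Set.mem_setOf_eq, Set.mem_image, Finset.coe_range, Set.mem_Iio]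
    constructor
    · rintro ⟨i, hi, rfl⟩
      exact ⟨i, by omega, rfl⟩
    · rintro ⟨i, hi, rfl⟩
      exact ⟨i, by omega, rfl⟩
  have h2 : {x | ∃ i ≤ q, g i = x}.ncard = q + 1 := by
    rw [h1, Set.ncard_image_of_injOn, Set.ncard_coe_finset, Finset.card_range]
    intro i hi j hj hij
    have hi' := Finset.mem_range.mp (Finset.mem_coe.mp hi)
    have hj' := Finset.mem_range.mp (Finset.mem_coe.mp hj)
    exact hinj i (by omega) j (by omega) hij
  have h3 : {x | x ∉ {x | ∃ i ≤ q, g i = x}} = {x | ∃ i ≤ q, g i = x}ᶜ := rfl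
  rw [h3, Set.ncard_compl, h2, Nat.card_eq_fintype_card, Fintype.card_fin]
  omega

/-- A colouring gives a fractional colouring. -/
theorem FracCol.of_colSet {V : Type*} [Fintype V] {G : SimpleGraph V} {A : Set V} {q : ℕ}
    (h : ColSet G A q) : FracCol G A q := by
  classical
  obtain ⟨f, hf1, hf2⟩ := h
  set I : ℕ → Finset V := fun i => Finset.univ.filter (fun v => v ∈ A ∧ f v = i) with hI
  set y : Finset V → ℝ := fun J => if ∃ i < q, J = I i ∧ J.Nonempty then 1 else 0 with hy
  refine ⟨y, ?_, ?_, ?_, ?_⟩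
  · intro J
    simp only [hy]
    split_ifs
    · exact zero_le_one
    · exact le_rfl
  · intro J hJ
    simp only [hy] at hJ
    split_ifs at hJ with h1
    · obtain ⟨i, hi, rfl, _⟩ := h1
      intro u hu v hv huv hadj
      simp only [hI, Finset.coe_filter, Finset.mem_univ, true_and, Set.mem_setOf_eq] at hu hv
      exact hf2 u hu.1 v hv.1 hadj (hu.2.trans hv.2.symm)
    · exact absurd rfl hJ
  · intro v hv
    have hvI : v ∈ I (f v) := by
      simp only [hI, Finset.mem_filter, Finset.mem_univ, true_and, and_true]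
      exact hv
    have h1 : (1 : ℝ) = ((I (f v) : Finset V) : Set V).indicator (fun _ => y (I (f v))) v := by
      rw [Set.indicator_of_mem (Finset.mem_coe.mpr hvI)]
      simp only [hy]
      rw [if_pos ⟨f v, hf1 v hv, rfl, ⟨v, hvI⟩⟩]
    rw [h1]
    refine Finset.single_le_sum (f := fun J : Finset V =>
      (J : Set V).indicator (fun _ => y J) v) (fun J _ => ?_) (Finset.mem_univ (I (f v)))
    refine Set.indicator_nonneg (fun _ _ => ?_) v
    simp only [hy]
    split_ifs
    · exact zero_le_one
    · exact le_rfl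
  · have h1 : ∑ J : Finset V, y J
        = ((Finset.univ.filter (fun J : Finset V => ∃ i < q, J = I i ∧ J.Nonempty)).card : ℝ) := by
      simp only [hy]
      rw [Finset.sum_ite, Finset.sum_const_zero, add_zero, Finset.sum_const, nsmul_eq_mul,
        mul_one]
    rw [h1]
    have h2 : Finset.univ.filter (fun J : Finset V => ∃ i < q, J = I i ∧ J.Nonempty)
        ⊆ (Finset.range q).image I := by
      intro J hJ
      obtain ⟨i, hi, hJi, _⟩ := (Finset.mem_filter.mp hJ).2
      exact Finset.mem_image.mpr ⟨i, Finset.mem_range.mpr hi, hJi.symm⟩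
    have h3 := (Finset.card_le_card h2).trans Finset.card_image_le
    rw [Finset.card_range] at h3
    exact_mod_cast h3

end P74ff84
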