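import Mathlib
import Pool.Agent.Lib.P74ff84.Absorb
import Pool.Agent.Lib.P74ff84.Steps

set_option autoImplicit false

namespace P74ff84

/-- The minimax theorem for matrix games, one-sided form. -/
theorem minimax_fin {α β : Type*} [Fintype α] [Fintype β] [Nonempty α] [Nonempty β]
    (M : α → β → ℝ) (c : ℝ)
    (h : ∀ w : α → ℝ, (∀ a, 0 ≤ w a) → ∑ a, w a = 1 → ∃ b, c ≤ ∑ a, w a * M a b) :
    ∃ z : β → ℝ, (∀ b, 0 ≤ z b) ∧ ∑ b, z b = 1 ∧ ∀ a, c ≤ ∑ b, z b * M a b := by
  classical
  set X : Set (α → ℝ) := stdSimplex ℝ α with hX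
  set Y : Set (β → ℝ) := stdSimplex ℝ β with hY
  set f : (α → ℝ) → (β → ℝ) → ℝ := fun x z => ∑ b, z b * ∑ a, x a * M a b with hf
  have hXne : X.Nonempty := ⟨_, single_mem_stdSimplex ℝ (Classical.arbitrary α)⟩
  have hYne : Y.Nonempty := ⟨_, single_mem_stdSimplex ℝ (Classical.arbitrary β)⟩
  have hcX : Convex ℝ X := convex_stdSimplex ℝ α
  have hcY : Convex ℝ Y := convex_stdSimplex ℝ β
  have hcont1 : ∀ z, Continuous (fun x => f x z) := by
    intro z
    simp only [hf]
    fun_prop
  have hcont2 : ∀ x, Continuous (fun z => f x z) := by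
    intro x
    simp only [hf]
    fun_prop
  have hconv : ∀ z, ConvexOn ℝ X (fun x => f x z) := by
    intro z
    refine ⟨hcX, fun x _ x' _ p q _ _ _ => le_of_eq ?_⟩
    simp only [hf, smul_eq_mul, Pi.add_apply, Pi.smul_apply]
    rw [Finset.mul_sum, Finset.mul_sum, ← Finset.sum_add_distrib]
    refine Finset.sum_congr rfl (fun b _ => ?_)
    have : ∑ a, (p * x a + q * x' a) * M a b
        = p * ∑ a, x a * M a b + q * ∑ a, x' a * M a b := by
      rw [Finset.mul_sum, Finset.mul_sum, ← Finset.sum_add_distrib]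
      exact Finset.sum_congr rfl (fun a _ => by ring)
    rw [this]
    ring
  have hconc : ∀ x, ConcaveOn ℝ Y (fun z => f x z) := by
    intro x
    refine ⟨hcY, fun z _ z' _ p q _ _ _ => le_of_eq ?_⟩
    simp only [hf, smul_eq_mul, Pi.add_apply, Pi.smul_apply]
    rw [Finset.mul_sum, Finset.mul_sum, ← Finset.sum_add_distrib]
    exact Finset.sum_congr rfl (fun b _ => by ring)
  obtain ⟨x, hx, z, hz, hxz⟩ := Sion.exists_isSaddlePointOn' (f := f) hXne
    (isCompact_stdSimplex ℝ α)
    (fun z _ => (hcont1 z).lowerSemicontinuous.lowerSemicontinuousOn _)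
    (fun z _ => (hconv z).quasiconvexOn)
    hcY (isCompact_stdSimplex ℝ β)
    (fun x _ => (hcont2 x).upperSemicontinuous.upperSemicontinuousOn _)
    (fun x _ => (hconc x).quasiconcaveOn) hcX hYne
  refine ⟨z, hz.1, hz.2, fun a => ?_⟩
  obtain ⟨b, hb⟩ := h x hx.1 hx.2
  have h1 := hxz (Pi.single a 1) (single_mem_stdSimplex ℝ a) (Pi.single b 1)
    (single_mem_stdSimplex ℝ b)
  have h2 : f x (Pi.single b 1) = ∑ a, x a * M a b := by
    simp only [hf]
    rw [Finset.sum_eq_single b]
    · rw [Pi.single_eq_same, one_mul]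
    · intro b' _ hb'
      rw [Pi.single_eq_of_ne hb', zero_mul]
    · intro hb'
      exact absurd (Finset.mem_univ b) hb'
  have h3 : f (Pi.single a 1) z = ∑ b, z b * M a b := by
    simp only [hf]
    refine Finset.sum_congr rfl (fun b' _ => ?_)
    rw [Finset.sum_eq_single a]
    · rw [Pi.single_eq_same, one_mul]
    · intro a' _ ha'
      rw [Pi.single_eq_of_ne ha', zero_mul]
    · intro ha'
      exact absurd (Finset.mem_univ a) ha'
  rw [h2, h3] at h1
  exact hb.trans h1

open Classical in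
/-- How much the vertex `v` is covered by the weighted family `Y`. -/
noncomputable def cov {V : Type*} [Fintype V] (Y : Finset V → ℝ) (v : V) : ℝ :=
  ∑ I : Finset V, if v ∈ I then Y I else 0

theorem cov_nonneg {V : Type*} [Fintype V] {Y : Finset V → ℝ} (h : ∀ I, 0 ≤ Y I) (v : V) :
    0 ≤ cov Y v := by
  classical
  unfold cov
  refine Finset.sum_nonneg (fun I _ => ?_)
  split_ifs
  · exact h I
  · exact le_rfl

theorem cov_add {V : Type*} [Fintype V] (Y Z : Finset V → ℝ) (v : V) :
    cov (fun I => Y I + Z I) v = cov Y v + cov Z v := by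
  classical
  unfold cov
  rw [← Finset.sum_add_distrib]
  refine Finset.sum_congr rfl (fun I _ => ?_)
  split_ifs <;> simp

open Classical in
/-- **A dominating distribution on independent sets.** -/
theorem exists_mu {V : Type*} [Fintype V] (D : Digraph V) (R : Finset V) :
    ∃ μ : Finset V → ℝ, (∀ I, 0 ≤ μ I) ∧ ∑ I, μ I = 1 ∧
      (∀ I, μ I ≠ 0 → (SimpleGraph.fromRel D.Adj).IsIndepSet (I : Set V)) ∧
      (∀ z ∈ R, 1 / 2 ≤ cov μ z + ∑ u ∈ R.filter (fun u => u ≠ z ∧ D.Adj z u), cov μ u) := by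
  rcases R.eq_empty_or_nonempty with hR | ⟨r0, hr0⟩
  · refine ⟨fun I => if I = ∅ then 1 else 0, ?_, ?_, ?_, ?_⟩
    · intro I
      dsimp only
      split_ifs
      · exact zero_le_one
      · exact le_rfl
    · rw [Finset.sum_ite_eq' Finset.univ ∅ (fun _ => (1 : ℝ))]
      simp
    · intro I hI
      have : I = ∅ := by
        by_contra hcon
        exact hI (if_neg hcon)
      subst this
      simp [SimpleGraph.IsIndepSet]
    · intro z hz
      rw [hR] at hz
      exact absurd hz (Finset.notMem_empty z)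
  set J := {I : Finset V // I ⊆ R ∧ (SimpleGraph.fromRel D.Adj).IsIndepSet (I : Set V)} with hJ
  have hJne : Nonempty J := ⟨⟨∅, Finset.empty_subset _, by simp [SimpleGraph.IsIndepSet]⟩⟩
  have hRne : Nonempty {v : V // v ∈ R} := ⟨⟨r0, hr0⟩⟩
  set M : {v : V // v ∈ R} → J → ℝ := fun v I =>
    if v.1 ∈ I.1 ∨ ∃ u ∈ I.1, u ≠ v.1 ∧ D.Adj v.1 u then 1 else 0 with hM
  obtain ⟨z, hz0, hz1, hz2⟩ := minimax_fin M (1 / 2) (by
    intro w hw0 hw1
    obtain ⟨S, hSR, hSind, B, hBR, hBS, hBsum⟩ := absorb D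
      (fun v => if h : v ∈ R then w ⟨v, h⟩ else 0)
      (by
        intro v
        split_ifs
        · exact hw0 _
        · exact le_rfl) R
    refine ⟨⟨S, hSR, fun u hu v hv _ => hSind u (Finset.mem_coe.mp hu) v
      (Finset.mem_coe.mp hv)⟩, ?_⟩
    have e1 : ∑ v ∈ R, (if h : v ∈ R then w ⟨v, h⟩ else 0) = 1 := by
      rw [← hw1, ← Finset.sum_coe_sort R]
      refine Finset.sum_congr rfl (fun v _ => ?_)
      rw [dif_pos v.2]
    have e2 : ∑ v ∈ B, (if h : v ∈ R then w ⟨v, h⟩ else 0)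
        ≤ ∑ a, w a * M a ⟨S, hSR, fun u hu v hv _ => hSind u (Finset.mem_coe.mp hu) v
          (Finset.mem_coe.mp hv)⟩ := by
      calc ∑ v ∈ B, (if h : v ∈ R then w ⟨v, h⟩ else 0)
          = ∑ v ∈ R, if v ∈ B then (if h : v ∈ R then w ⟨v, h⟩ else 0) else 0 := by
            rw [← Finset.sum_filter]
            congr 1
            ext v
            rw [Finset.mem_filter]
            exact ⟨fun h => ⟨hBR h, h⟩, fun h => h.2⟩
        _ = ∑ v : {v : V // v ∈ R}, if v.1 ∈ B then w v else 0 := by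
            rw [← Finset.sum_coe_sort R]
            refine Finset.sum_congr rfl (fun v _ => ?_)
            rw [dif_pos v.2]
        _ ≤ _ := by
            refine Finset.sum_le_sum (fun v _ => ?_)
            simp only [hM]
            by_cases hv : v.1 ∈ B
            · rw [if_pos hv, if_pos, mul_one]
              rcases hBS v.1 hv with h | ⟨s, hs, h⟩
              · exact Or.inl h
              · exact Or.inr ⟨s, hs, h⟩
            · rw [if_neg hv]
              split_ifs
              · rw [mul_one]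
                exact hw0 v
              · rw [mul_zero]
    linarith)
  set μ : Finset V → ℝ := fun I =>
    if h : I ⊆ R ∧ (SimpleGraph.fromRel D.Adj).IsIndepSet (I : Set V) then z ⟨I, h⟩ else 0
    with hμ
  have hμJ : ∀ K : J, μ K.1 = z K := by
    intro K
    simp only [hμ]
    rw [dif_pos K.2]
  have hμ0 : ∀ I : Finset V, ¬ (I ⊆ R ∧ (SimpleGraph.fromRel D.Adj).IsIndepSet (I : Set V)) →
      μ I = 0 := by
    intro I hI
    simp only [hμ]
    rw [dif_neg hI]
  have hsum : ∀ F : Finset V → ℝ, (∀ I : Finset V,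
      ¬ (I ⊆ R ∧ (SimpleGraph.fromRel D.Adj).IsIndepSet (I : Set V)) → F I = 0) →
      ∑ I, F I = ∑ K : J, F K.1 := by
    intro F hF
    rw [← Finset.sum_subtype (Finset.univ.filter (fun I : Finset V =>
      I ⊆ R ∧ (SimpleGraph.fromRel D.Adj).IsIndepSet (I : Set V))) (by simp) F]
    rw [Finset.sum_filter_of_ne]
    intro I _ hI
    by_contra hcon'
    exact hI (hF I hcon')
  refine ⟨μ, ?_, ?_, ?_, ?_⟩
  · intro I
    by_cases hI : I ⊆ R ∧ (SimpleGraph.fromRel D.Adj).IsIndepSet (I : Set V)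
    · rw [hμJ ⟨I, hI⟩]
      exact hz0 _
    · rw [hμ0 I hI]
  · rw [hsum μ hμ0, Finset.sum_congr rfl (fun K _ => hμJ K), hz1]
  · intro I hI
    by_contra hcon
    exact hI (hμ0 I (fun h => hcon h.2))
  · intro v hv
    have h1 := hz2 ⟨v, hv⟩
    set N := R.filter (fun u => u ≠ v ∧ D.Adj v u) with hN
    have hvN : v ∉ N := fun h => (Finset.mem_filter.mp h).2.1 rfl
    have e1 : cov μ v + ∑ u ∈ N, cov μ u = ∑ u ∈ insert v N, cov μ u :=
      (Finset.sum_insert hvN).symm
    have e2 : ∑ u ∈ insert v N, cov μ u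
        = ∑ I : Finset V, ∑ u ∈ insert v N, if u ∈ I then μ I else 0 := by
      unfold cov
      exact Finset.sum_comm
    have e3 : ∑ I : Finset V, ∑ u ∈ insert v N, (if u ∈ I then μ I else 0)
        = ∑ K : J, ∑ u ∈ insert v N, (if u ∈ K.1 then z K else 0) := by
      rw [hsum]
      · refine Finset.sum_congr rfl (fun K _ => ?_)
        rw [hμJ K]
      · intro I hI
        rw [hμ0 I hI]
        simp
    rw [e1, e2, e3]
    refine h1.trans (Finset.sum_le_sum (fun K _ => ?_))
    simp only [hM]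
    have hnn : ∀ u ∈ insert v N, 0 ≤ (if u ∈ K.1 then z K else 0) := by
      intro u _
      split_ifs
      · exact hz0 K
      · exact le_rfl
    split_ifs with hK
    · rw [mul_one]
      obtain ⟨u, hu, huK⟩ : ∃ u ∈ insert v N, u ∈ K.1 := by
        rcases hK with h | ⟨u, hu, h2, h3⟩
        · exact ⟨v, Finset.mem_insert_self _ _, h⟩
        · exact ⟨u, Finset.mem_insert_of_mem (Finset.mem_filter.mpr ⟨K.2.1 hu, h2, h3⟩), hu⟩
      have h4 := Finset.single_le_sum hnn hu
      rw [if_pos huK] at h4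
      exact h4
    · rw [mul_zero]
      exact Finset.sum_nonneg hnn

end P74ff84
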