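import Mathlib
import Pool.Agent.Lib.P74ff84.Greedy3
import Pool.Agent.Lib.P74ff84.Layers

set_option autoImplicit false

namespace P74ff84

variable {V : Type*}

/-- The part `X` of the tree (a part of `Q`, closed under parents, containing the root) is
embedded by `f` into `R`. -/
structure PEmb {k : ℕ} (D : Digraph V) (T : SimpleGraph (Fin (k + 1)))
    (O : Digraph (Fin (k + 1))) (x0 : Fin (k + 1)) (Q : Finset (Fin (k + 1))) (R : Finset V)
    (X : Finset (Fin (k + 1))) (f : Fin (k + 1) → V) : Prop where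
  root : x0 ∈ X
  sub : X ⊆ Q
  closed : ∀ y ∈ X, ∀ b, T.Adj b y → T.dist x0 b < T.dist x0 y → b ∈ X
  inj : ∀ x ∈ X, ∀ y ∈ X, f x = f y → x = y
  maps : ∀ x ∈ X, f x ∈ R
  arcs : ∀ u ∈ X, ∀ v ∈ X, O.Adj u v → D.Adj (f u) (f v)

open Classical in
/-- One level: a new vertex is embedded or the used vertices pay. -/
theorem stall_step {k : ℕ} (D : Digraph V) (T : SimpleGraph (Fin (k + 1))) (hT : T.IsTree)
    (O : Digraph (Fin (k + 1))) (hO : ∀ u v, T.Adj u v ↔ (O.Adj u v ∨ O.Adj v u))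
    (hO' : ∀ u v, O.Adj u v → ¬ O.Adj v u) (x0 : Fin (k + 1)) (Q : Finset (Fin (k + 1)))
    (hQ : ∀ y ∈ Q, ∀ b, T.Adj b y → T.dist x0 b < T.dist x0 y → b ∈ Q)
    (X0 : Finset (Fin (k + 1)))
    (R R' : Finset V) (hR : R' ⊆ R) (a : V → ℝ) (ha : ∀ v, 0 ≤ a v)
    (hout : (∃ u v, O.Adj u v ∧ T.dist x0 u < T.dist x0 v ∧ v ∈ Q ∧ v ∉ X0) → ∀ z ∈ R',
      Q.card ≤ (R.filter (fun u => u ≠ z ∧ D.Adj z u)).card + 1 ∨
      1 ≤ a z + ∑ u ∈ R.filter (fun u => u ≠ z ∧ D.Adj z u), a u)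
    (hin : (∃ u v, O.Adj u v ∧ T.dist x0 v < T.dist x0 u ∧ u ∈ Q ∧ u ∉ X0) → ∀ z ∈ R',
      Q.card ≤ (R.filter (fun u => u ≠ z ∧ D.Adj u z)).card + 1 ∨
      1 ≤ a z + ∑ u ∈ R.filter (fun u => u ≠ z ∧ D.Adj u z), a u)
    (X : Finset (Fin (k + 1))) (f : Fin (k + 1) → V) (h : PEmb D T O x0 Q R' X f)
    (hX0 : X0 ⊆ X) (hX : X ≠ Q) :
    (∃ X' f', PEmb D T O x0 Q R X' f' ∧ X'.card = X.card + 1 ∧
      (∃ u ∈ R, ∀ g : V → ℝ, ∑ x ∈ X', g (f' x) = ∑ x ∈ X, g (f x) + g u) ∧
      X ⊆ X' ∧ ∀ x ∈ X, f' x = f x) ∨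
    1 ≤ ∑ x ∈ X, a (f x) := by
  obtain ⟨hx0, hsub, hcl, hinj, hmaps, harcs⟩ := h
  have hne : (Q \ X).Nonempty := by
    rw [Finset.nonempty_iff_ne_empty]
    intro hcon
    exact hX (Finset.Subset.antisymm hsub (Finset.sdiff_eq_empty_iff_subset.mp hcon))
  obtain ⟨y, hy, hymin⟩ := Finset.exists_min_image (Q \ X) (fun x => T.dist x0 x) hne
  have hyQ : y ∈ Q := (Finset.mem_sdiff.mp hy).1
  have hyX : y ∉ X := (Finset.mem_sdiff.mp hy).2
  have hyx : y ≠ x0 := fun h => hyX (h ▸ hx0)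
  have hpar : ∀ b, T.Adj b y → T.dist x0 b < T.dist x0 y → b ∈ X := by
    intro b hb hb'
    by_contra hcon
    have := hymin b (Finset.mem_sdiff.mpr ⟨hQ y hyQ b hb hb', hcon⟩)
    omega
  obtain ⟨b, hb, hb'⟩ := tree_exists_parent hT x0 hyx
  have hbX : b ∈ X := hpar b hb hb'
  have honly : ∀ z ∈ X, T.Adj z y → z = b := by
    intro z hz hzy
    rcases lt_or_ge (T.dist x0 z) (T.dist x0 y) with h | h
    · exact tree_parent_unique hT x0 hzy hb h hb'
    · have h2 := hT.dist_ne_of_adj x0 hzy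
      exact (hyX (hcl z hz y hzy.symm (by omega))).elim
  have hXcard : X.card + 1 ≤ Q.card := by
    have := Finset.card_lt_card (Finset.ssubset_iff_subset_ne.mpr ⟨hsub, hX⟩)
    omega
  -- the used vertices
  set U : Finset V := X.image f with hU
  have hUcard : U.card = X.card := Finset.card_image_of_injOn (fun x hx y hy hxy =>
    hinj x (Finset.mem_coe.mp hx) y (Finset.mem_coe.mp hy) hxy)
  have hUsum : ∀ g : V → ℝ, ∑ u ∈ U, g u = ∑ x ∈ X, g (f x) := by
    intro g
    rw [hU, Finset.sum_image]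
    intro x hx y hy hxy
    exact hinj x (Finset.mem_coe.mp hx) y (Finset.mem_coe.mp hy) hxy
  have hfb : f b ∈ U := Finset.mem_image_of_mem f hbX
  -- extension by a fresh vertex
  have hext : ∀ u ∈ R, u ∉ U → (O.Adj b y → D.Adj (f b) u) → (O.Adj y b → D.Adj u (f b)) →
      ∃ X' f', PEmb D T O x0 Q R X' f' ∧ X'.card = X.card + 1 ∧
      (∃ u ∈ R, ∀ g : V → ℝ, ∑ x ∈ X', g (f' x) = ∑ x ∈ X, g (f x) + g u) ∧
      X ⊆ X' ∧ ∀ x ∈ X, f' x = f x := by
    intro u huR huU huO huI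
    have hunew : ∀ x ∈ X, f x ≠ u := fun x hx h => huU (h ▸ Finset.mem_image_of_mem f hx)
    have hupd : ∀ x ∈ X, Function.update f y u x = f x := by
      intro x hx
      have hne : x ≠ y := fun h => hyX (h ▸ hx)
      rw [Function.update_of_ne hne]
    refine ⟨insert y X, Function.update f y u, ⟨Finset.mem_insert_of_mem hx0, ?_, ?_, ?_, ?_,
      ?_⟩, Finset.card_insert_of_notMem hyX, ⟨u, huR, ?_⟩, Finset.subset_insert _ _, hupd⟩
    · intro x hx
      rcases Finset.mem_insert.mp hx with rfl | hx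
      · exact hyQ
      · exact hsub hx
    · intro z hz c hc hc'
      rcases Finset.mem_insert.mp hz with rfl | hz
      · exact Finset.mem_insert_of_mem (hpar c hc hc')
      · exact Finset.mem_insert_of_mem (hcl z hz c hc hc')
    · intro x hx z hz hxz
      rcases Finset.mem_insert.mp hx with rfl | hx1
      · rcases Finset.mem_insert.mp hz with rfl | hz1
        · rfl
        · rw [Function.update_self, hupd z hz1] at hxz
          exact (hunew z hz1 hxz.symm).elim
      · rcases Finset.mem_insert.mp hz with rfl | hz1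
        · rw [Function.update_self, hupd x hx1] at hxz
          exact (hunew x hx1 hxz).elim
        · rw [hupd x hx1, hupd z hz1] at hxz
          exact hinj x hx1 z hz1 hxz
    · intro x hx
      rcases Finset.mem_insert.mp hx with rfl | hx1
      · rw [Function.update_self]
        exact huR
      · rw [hupd x hx1]
        exact hR (hmaps x hx1)
    · intro x hx z hz hxz
      rcases Finset.mem_insert.mp hx with rfl | hx1
      · rcases Finset.mem_insert.mp hz with rfl | hz1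
        · exact (hO' _ _ hxz hxz).elim
        · have hzb : z = b := honly z hz1 ((hO z x).mpr (Or.inr hxz))
          subst hzb
          rw [Function.update_self, hupd z hz1]
          exact huI hxz
      · rcases Finset.mem_insert.mp hz with rfl | hz1
        · have hxb : x = b := honly x hx1 ((hO x z).mpr (Or.inl hxz))
          subst hxb
          rw [Function.update_self, hupd x hx1]
          exact huO hxz
        · rw [hupd x hx1, hupd z hz1]
          exact harcs x hx1 z hz1 hxz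
    · intro g
      rw [Finset.sum_insert hyX, Function.update_self, add_comm]
      congr 1
      exact Finset.sum_congr rfl (fun x hx => by rw [hupd x hx])
  -- the dichotomy, for a set `N` of neighbours
  have hdich : ∀ N : Finset V, N ⊆ R → f b ∉ N →
      (Q.card ≤ N.card + 1 ∨ 1 ≤ a (f b) + ∑ u ∈ N, a u) →
      (∃ u ∈ N, u ∉ U) ∨ 1 ≤ ∑ x ∈ X, a (f x) := by
    intro N hNR hbN hN
    by_cases hex : ∃ u ∈ N, u ∉ U
    · exact Or.inl hex
    right
    push Not at hex
    have hNU : insert (f b) N ⊆ U := by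
      intro u hu
      rcases Finset.mem_insert.mp hu with rfl | hu
      · exact hfb
      · exact hex u hu
    rcases hN with hN | hN
    · have h1 := Finset.card_le_card hNU
      rw [Finset.card_insert_of_notMem hbN, hUcard] at h1
      omega
    · rw [← hUsum]
      calc (1 : ℝ) ≤ a (f b) + ∑ u ∈ N, a u := hN
        _ = ∑ u ∈ insert (f b) N, a u := (Finset.sum_insert hbN).symm
        _ ≤ ∑ u ∈ U, a u := Finset.sum_le_sum_of_subset_of_nonneg hNU (fun u _ _ => ha u)
  rcases (hO b y).mp hb with h1 | h1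
  · rcases hdich (R.filter (fun u => u ≠ f b ∧ D.Adj (f b) u)) (Finset.filter_subset _ _)
      (fun h => (Finset.mem_filter.mp h).2.1 rfl)
      (hout ⟨b, y, h1, hb', hyQ, fun h => hyX (hX0 h)⟩ (f b) (hmaps b hbX)) with ⟨u, hu, huU⟩ | h2
    · obtain ⟨hu1, hu2, hu3⟩ := Finset.mem_filter.mp hu
      exact Or.inl (hext u hu1 huU (fun _ => hu3) (fun h' => (hO' _ _ h1 h').elim))
    · exact Or.inr h2
  · rcases hdich (R.filter (fun u => u ≠ f b ∧ D.Adj u (f b))) (Finset.filter_subset _ _)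
      (fun h => (Finset.mem_filter.mp h).2.1 rfl)
      (hin ⟨y, b, h1, hb', hyQ, fun h => hyX (hX0 h)⟩ (f b) (hmaps b hbX)) with ⟨u, hu, huU⟩ | h2
    · obtain ⟨hu1, hu2, hu3⟩ := Finset.mem_filter.mp hu
      exact Or.inl (hext u hu1 huU (fun h' => (hO' _ _ h1 h').elim) (fun _ => hu3))
    · exact Or.inr h2

open Classical in
/-- **The stall argument.** -/
theorem stall_main {k : ℕ} (D : Digraph V) (T : SimpleGraph (Fin (k + 1))) (hT : T.IsTree)
    (O : Digraph (Fin (k + 1))) (hO : ∀ u v, T.Adj u v ↔ (O.Adj u v ∨ O.Adj v u))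
    (hO' : ∀ u v, O.Adj u v → ¬ O.Adj v u) (x0 : Fin (k + 1)) (Q : Finset (Fin (k + 1)))
    (hQ : ∀ y ∈ Q, ∀ b, T.Adj b y → T.dist x0 b < T.dist x0 y → b ∈ Q)
    (X0 : Finset (Fin (k + 1)))
    (R : ℕ → Finset V) (hR : ∀ s, R (s + 1) ⊆ R s) (a : ℕ → V → ℝ) (ha : ∀ s v, 0 ≤ a s v)
    (θ : ℝ) (hθ0 : 0 ≤ θ) (hθ : ∀ s, ∀ v ∈ R s, ∑ i ∈ Finset.range s, a i v ≤ θ)
    (hout : (∃ u v, O.Adj u v ∧ T.dist x0 u < T.dist x0 v ∧ v ∈ Q ∧ v ∉ X0) → ∀ s,
      ∀ z ∈ R (s + 1),
      Q.card ≤ ((R s).filter (fun u => u ≠ z ∧ D.Adj z u)).card + 1 ∨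
      1 ≤ a s z + ∑ u ∈ (R s).filter (fun u => u ≠ z ∧ D.Adj z u), a s u)
    (hin : (∃ u v, O.Adj u v ∧ T.dist x0 v < T.dist x0 u ∧ u ∈ Q ∧ u ∉ X0) → ∀ s,
      ∀ z ∈ R (s + 1),
      Q.card ≤ ((R s).filter (fun u => u ≠ z ∧ D.Adj u z)).card + 1 ∨
      1 ≤ a s z + ∑ u ∈ (R s).filter (fun u => u ≠ z ∧ D.Adj u z), a s u)
    (S : ℕ) (f0 : Fin (k + 1) → V)
    (h0 : PEmb D T O x0 Q (R S) X0 f0) (hS : ((Q.card : ℝ) - 1) * (1 + θ) ≤ S) :
    ∃ f, PEmb D T O x0 Q (R 0) Q f ∧ ∀ x ∈ X0, f x = f0 x := by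
  have hRle : ∀ i j, i ≤ j → R j ⊆ R i := by
    intro i j hij
    induction hij with
    | refl => exact Finset.Subset.refl _
    | step _ ih => exact (hR _).trans ih
  -- downward induction
  have key : ∀ t, t ≤ S → ∃ X f, PEmb D T O x0 Q (R (S - t)) X f ∧ X0 ⊆ X ∧
      (∀ x ∈ X0, f x = f0 x) ∧
      (X = Q ∨ (X0.card : ℝ) + S ≤ (1 + θ) * X.card + ((S - t : ℕ) : ℝ)
        - ∑ x ∈ X, ∑ i ∈ Finset.range (S - t), a i (f x)) := by
    intro t
    induction t with
    | zero =>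
      intro _
      refine ⟨X0, f0, h0, Finset.Subset.refl _, fun _ _ => rfl, Or.inr ?_⟩
      have h1 : ∑ x ∈ X0, ∑ i ∈ Finset.range (S - 0), a i (f0 x) ≤ ∑ _x ∈ X0, θ :=
        Finset.sum_le_sum (fun x hx => hθ S (f0 x) (h0.maps x hx))
      rw [Finset.sum_const, nsmul_eq_mul] at h1
      rw [Nat.sub_zero] at h1 ⊢
      linarith
    | succ t ih =>
      intro ht
      obtain ⟨X, f, hX, hX0, hf0, hpot⟩ := ih (by omega)
      obtain ⟨s, hs⟩ : ∃ s, S - t = s + 1 := ⟨S - (t + 1), by omega⟩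
      have hs' : S - (t + 1) = s := by omega
      rw [hs] at hX hpot
      rw [hs']
      have hmono : PEmb D T O x0 Q (R s) X f :=
        ⟨hX.root, hX.sub, hX.closed, hX.inj, fun x hx => hR s (hX.maps x hx), hX.arcs⟩
      by_cases hXQ : X = Q
      · exact ⟨X, f, hmono, hX0, hf0, Or.inl hXQ⟩
      have hpot' := hpot.resolve_left hXQ
      have hsplit : ∑ x ∈ X, ∑ i ∈ Finset.range (s + 1), a i (f x)
          = ∑ x ∈ X, ∑ i ∈ Finset.range s, a i (f x) + ∑ x ∈ X, a s (f x) := by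
        rw [← Finset.sum_add_distrib]
        exact Finset.sum_congr rfl (fun x _ => Finset.sum_range_succ _ _)
      rw [hsplit] at hpot'
      push_cast at hpot'
      rcases stall_step D T hT O hO hO' x0 Q hQ X0 (R s) (R (s + 1)) (hR s) (a s) (ha s)
        (fun h => hout h s) (fun h => hin h s) X f hX hX0 hXQ with
        ⟨X', f', hX', hcard, ⟨u, huR, hsum⟩, hsub, hagree⟩ | hstall
      · refine ⟨X', f', hX', hX0.trans hsub, fun x hx => (hagree x (hX0 hx)).trans (hf0 x hx),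
          Or.inr ?_⟩
        have h1 := hsum (fun v => ∑ i ∈ Finset.range s, a i v)
        have h2 := hθ s u huR
        have h3 : 0 ≤ ∑ x ∈ X, a s (f x) := Finset.sum_nonneg (fun x _ => ha s _)
        rw [h1, hcard]
        push_cast
        linarith
      · refine ⟨X, f, hmono, hX0, hf0, Or.inr ?_⟩
        linarith
  obtain ⟨X, f, hX, _, hf0, hpot⟩ := key S le_rfl
  rw [Nat.sub_self] at hX hpot
  have hXQ : X = Q := by
    rcases hpot with h | h
    · exact h
    · rw [Finset.range_zero] at h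
      simp only [Finset.sum_empty, Finset.sum_const_zero, Nat.cast_zero] at h
      have h1 : (1 : ℝ) ≤ X0.card := by
        have : 0 < X0.card := Finset.card_pos.mpr ⟨x0, h0.root⟩
        exact_mod_cast this
      have h2 : ((Q.card : ℝ) - 1) * (1 + θ) < (1 + θ) * X.card := by linarith
      have h3 : (Q.card : ℝ) - 1 < X.card := by
        by_contra hcon
        push Not at hcon
        have := mul_le_mul_of_nonneg_left hcon (by linarith : (0 : ℝ) ≤ 1 + θ)
        linarith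
      have h4 : (Q.card : ℝ) < ((X.card + 1 : ℕ) : ℝ) := by
        push_cast
        linarith
      have h5 : Q.card < X.card + 1 := by exact_mod_cast h4
      exact Finset.eq_of_subset_of_card_le hX.sub (by omega)
  subst hXQ
  exact ⟨f, hX, hf0⟩

end P74ff84
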