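import Mathlib
import Pool.Agent.Lib.P74ff84.Stall
import Pool.Agent.Lib.P74ff84.Minimax

set_option autoImplicit false

namespace P74ff84

section

variable {V : Type*} [Fintype V] (D : Digraph V) (A : Finset V) (θ : ℝ) (nO nI : Prop)

/-- The distribution that dominates by out-neighbours. -/
noncomputable def muO (R : Finset V) : Finset V → ℝ := (exists_mu D R).choose

/-- The distribution that dominates by in-neighbours. -/
noncomputable def muI (R : Finset V) : Finset V → ℝ := (exists_mu (rev D) R).choose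

open Classical in
/-- The vertices of `A` that are not covered too often. -/
noncomputable def stage (Y : Finset V → ℝ) : Finset V := A.filter (fun v => 2 * cov Y v ≤ θ)

open Classical in
/-- The family added on one level. -/
noncomputable def incr (R : Finset V) : Finset V → ℝ := fun I =>
  (if nO then muO D R I else 0) + (if nI then muI D R I else 0)

/-- The family after `s` levels. -/
noncomputable def YY : ℕ → Finset V → ℝ
  | 0 => fun _ => 0
  | s + 1 => fun I => YY s I + incr D nO nI (stage A θ (YY s)) I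

theorem muO_nonneg (R I : Finset V) : 0 ≤ muO D R I := (exists_mu D R).choose_spec.1 I

theorem muI_nonneg (R I : Finset V) : 0 ≤ muI D R I := (exists_mu (rev D) R).choose_spec.1 I

theorem incr_nonneg (R I : Finset V) : 0 ≤ incr D nO nI R I := by
  have h1 := muO_nonneg D R I
  have h2 := muI_nonneg D R I
  unfold incr
  split_ifs <;> linarith

theorem YY_nonneg (s : ℕ) (I : Finset V) : 0 ≤ YY D A θ nO nI s I := by
  induction s with
  | zero => exact le_rfl
  | succ s ih => exact add_nonneg ih (incr_nonneg D nO nI _ I)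

theorem muO_indep {R I : Finset V} (h : muO D R I ≠ 0) :
    (SimpleGraph.fromRel D.Adj).IsIndepSet (I : Set V) :=
  (exists_mu D R).choose_spec.2.2.1 I h

theorem muI_indep {R I : Finset V} (h : muI D R I ≠ 0) :
    (SimpleGraph.fromRel D.Adj).IsIndepSet (I : Set V) := by
  have := (exists_mu (rev D) R).choose_spec.2.2.1 I h
  rwa [fromRel_rev] at this

theorem incr_indep {R I : Finset V} (h : incr D nO nI R I ≠ 0) :
    (SimpleGraph.fromRel D.Adj).IsIndepSet (I : Set V) := by
  by_cases h1 : muO D R I = 0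
  · by_cases h2 : muI D R I = 0
    · exfalso
      apply h
      unfold incr
      rw [h1, h2]
      split_ifs <;> simp
    · exact muI_indep D h2
  · exact muO_indep D h1

theorem YY_indep (s : ℕ) {I : Finset V} (h : YY D A θ nO nI s I ≠ 0) :
    (SimpleGraph.fromRel D.Adj).IsIndepSet (I : Set V) := by
  induction s with
  | zero => exact absurd rfl h
  | succ s ih =>
    by_cases h1 : YY D A θ nO nI s I = 0
    · refine incr_indep D nO nI (R := stage A θ (YY D A θ nO nI s)) (I := I) ?_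
      intro h2
      apply h
      show YY D A θ nO nI s I + incr D nO nI (stage A θ (YY D A θ nO nI s)) I = 0
      rw [h1, h2, add_zero]
    · exact ih h1

open Classical in
theorem YY_total (c : ℝ) (hc : (if nO then (1 : ℝ) else 0) + (if nI then 1 else 0) ≤ c)
    (s : ℕ) : ∑ I, YY D A θ nO nI s I ≤ c * s := by
  induction s with
  | zero =>
    show ∑ I : Finset V, (0 : ℝ) ≤ _
    simp
  | succ s ih =>
    show ∑ I, (YY D A θ nO nI s I + incr D nO nI (stage A θ (YY D A θ nO nI s)) I) ≤ _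
    rw [Finset.sum_add_distrib]
    have h1 : ∑ I, incr D nO nI (stage A θ (YY D A θ nO nI s)) I ≤ c := by
      refine le_trans (le_of_eq ?_) hc
      unfold incr
      rw [Finset.sum_add_distrib]
      congr 1
      · split_ifs
        · exact (exists_mu D _).choose_spec.2.1
        · simp
      · split_ifs
        · exact (exists_mu (rev D) _).choose_spec.2.1
        · simp
    push_cast
    linarith

theorem cov_YY (s : ℕ) (v : V) : 2 * cov (YY D A θ nO nI s) v
    = ∑ i ∈ Finset.range s, 2 * cov (incr D nO nI (stage A θ (YY D A θ nO nI i))) v := by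
  induction s with
  | zero =>
    show 2 * cov (fun _ => (0 : ℝ)) v = _
    unfold cov
    simp
  | succ s ih =>
    rw [Finset.sum_range_succ, ← ih]
    have : cov (YY D A θ nO nI (s + 1)) v = cov (YY D A θ nO nI s) v
        + cov (incr D nO nI (stage A θ (YY D A θ nO nI s))) v :=
      cov_add (YY D A θ nO nI s) (incr D nO nI (stage A θ (YY D A θ nO nI s))) v
    rw [this]
    ring

theorem stage_succ (s : ℕ) : stage A θ (YY D A θ nO nI (s + 1))
    ⊆ stage A θ (YY D A θ nO nI s) := by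
  intro v hv
  have h1 := Finset.mem_filter.mp hv
  refine Finset.mem_filter.mpr ⟨h1.1, ?_⟩
  have h2 : cov (YY D A θ nO nI (s + 1)) v = cov (YY D A θ nO nI s) v
      + cov (incr D nO nI (stage A θ (YY D A θ nO nI s))) v :=
    cov_add (YY D A θ nO nI s) (incr D nO nI (stage A θ (YY D A θ nO nI s))) v
  have h3 := cov_nonneg (incr_nonneg D nO nI (stage A θ (YY D A θ nO nI s))) v
  have h4 := h1.2
  linarith

theorem cov_mono {Y Z : Finset V → ℝ} (h : ∀ I, Y I ≤ Z I) (v : V) : cov Y v ≤ cov Z v := by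
  classical
  unfold cov
  refine Finset.sum_le_sum (fun I _ => ?_)
  split_ifs
  · exact h I
  · exact le_rfl

open Classical in
theorem dom_out (h : nO) (R : Finset V) (z : V) (hz : z ∈ R) :
    1 ≤ 2 * cov (incr D nO nI R) z
      + ∑ u ∈ R.filter (fun u => u ≠ z ∧ D.Adj z u), 2 * cov (incr D nO nI R) u := by
  have h1 := (exists_mu D R).choose_spec.2.2.2 z hz
  have h2 : ∀ I, muO D R I ≤ incr D nO nI R I := by
    intro I
    unfold incr
    rw [if_pos h]
    have := muI_nonneg D R I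
    split_ifs <;> linarith
  have h3 := cov_mono h2 z
  have h4 : ∑ u ∈ R.filter (fun u => u ≠ z ∧ D.Adj z u), cov (muO D R) u
      ≤ ∑ u ∈ R.filter (fun u => u ≠ z ∧ D.Adj z u), cov (incr D nO nI R) u :=
    Finset.sum_le_sum (fun u _ => cov_mono h2 u)
  rw [← Finset.mul_sum]
  have h5 : (exists_mu D R).choose = muO D R := rfl
  rw [h5] at h1
  linarith

open Classical in
theorem dom_in (h : nI) (R : Finset V) (z : V) (hz : z ∈ R) :
    1 ≤ 2 * cov (incr D nO nI R) z
      + ∑ u ∈ R.filter (fun u => u ≠ z ∧ D.Adj u z), 2 * cov (incr D nO nI R) u := by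
  have h1 := (exists_mu (rev D) R).choose_spec.2.2.2 z hz
  have h2 : ∀ I, muI D R I ≤ incr D nO nI R I := by
    intro I
    unfold incr
    rw [if_pos h]
    have := muO_nonneg D R I
    split_ifs <;> linarith
  have h3 := cov_mono h2 z
  have h4 : ∑ u ∈ R.filter (fun u => u ≠ z ∧ D.Adj u z), cov (muI D R) u
      ≤ ∑ u ∈ R.filter (fun u => u ≠ z ∧ D.Adj u z), cov (incr D nO nI R) u :=
    Finset.sum_le_sum (fun u _ => cov_mono h2 u)
  rw [← Finset.mul_sum]
  have h5 : (exists_mu (rev D) R).choose = muI D R := rfl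
  have h6 : ∀ u, (rev D).Adj z u ↔ D.Adj u z := fun u => Iff.rfl
  simp only [h6] at h1
  rw [h5] at h1
  linarith

/-- The weight of the vertices that are covered too often. -/
theorem weight_covered (w : V → ℝ)
    (hind : ∀ I : Finset V, (SimpleGraph.fromRel D.Adj).IsIndepSet (I : Set V) →
      ∑ v ∈ I, w v ≤ 1)
    (Y : Finset V → ℝ) (hY : ∀ I, 0 ≤ Y I)
    (hYI : ∀ I, Y I ≠ 0 → (SimpleGraph.fromRel D.Adj).IsIndepSet (I : Set V)) :
    ∑ v, w v * cov Y v ≤ ∑ I, Y I := by
  classical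
  unfold cov
  simp_rw [Finset.mul_sum]
  rw [Finset.sum_comm]
  refine Finset.sum_le_sum (fun I _ => ?_)
  have h1 : ∑ v, w v * (if v ∈ I then Y I else 0) = Y I * ∑ v ∈ I, w v := by
    rw [Finset.mul_sum, ← Finset.sum_filter_add_sum_filter_not Finset.univ (fun v => v ∈ I)]
    have h2 : ∑ v ∈ Finset.univ.filter (fun v => ¬ v ∈ I),
        w v * (if v ∈ I then Y I else 0) = 0 := by
      refine Finset.sum_eq_zero (fun v hv => ?_)
      rw [if_neg (Finset.mem_filter.mp hv).2, mul_zero]
    rw [h2, add_zero]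
    have h3 : Finset.univ.filter (fun v => v ∈ I) = I := by
      ext v
      simp
    rw [h3]
    refine Finset.sum_congr rfl (fun v hv => ?_)
    rw [if_pos hv, mul_comm]
  rw [h1]
  by_cases h : Y I = 0
  · rw [h, zero_mul]
  · have := hind I (hYI I h)
    nlinarith [hY I]

end

open Classical in
/-- **All oriented trees, weighted version.** -/
theorem frac_weighted {k : ℕ} {V : Type*} [Fintype V] (D : Digraph V)
    (T : SimpleGraph (Fin (k + 1))) (hT : T.IsTree)
    (O : Digraph (Fin (k + 1))) (hO : ∀ u v, T.Adj u v ↔ (O.Adj u v ∨ O.Adj v u))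
    (hO' : ∀ u v, O.Adj u v → ¬ O.Adj v u) (x0 : Fin (k + 1))
    (S0 Q : Finset (Fin (k + 1))) (hx0 : x0 ∈ S0) (hSQ : S0 ⊆ Q)
    (hS0 : ∀ y ∈ S0, ∀ b, T.Adj b y → T.dist x0 b < T.dist x0 y → b ∈ S0)
    (hQ : ∀ y ∈ Q, ∀ b, T.Adj b y → T.dist x0 b < T.dist x0 y → b ∈ Q)
    (c : ℝ)
    (hc : (if (∃ u v, O.Adj u v ∧ T.dist x0 u < T.dist x0 v ∧ v ∈ Q ∧ v ∉ S0) then (1 : ℝ)
        else 0)
      + (if (∃ u v, O.Adj u v ∧ T.dist x0 v < T.dist x0 u ∧ u ∈ Q ∧ u ∉ S0) then 1 else 0)
      ≤ c)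
    (w : V → ℝ) (hw : ∀ v, 0 ≤ w v)
    (hind : ∀ I : Finset V, (SimpleGraph.fromRel D.Adj).IsIndepSet (I : Set V) →
      ∑ v ∈ I, w v ≤ 1)
    (A : Finset V) (p : ℝ)
    (hp : ∀ A' ⊆ A, p < ∑ v ∈ A', w v → HoldsIn D O (S0 : Set (Fin (k + 1))) (A' : Set V))
    (hA : p + 2 * c * ((Q.card : ℝ) - 1) < ∑ v ∈ A, w v) :
    HoldsIn D O (Q : Set (Fin (k + 1))) (A : Set V) := by
  set nO : Prop := ∃ u v, O.Adj u v ∧ T.dist x0 u < T.dist x0 v ∧ v ∈ Q ∧ v ∉ S0 with hnO
  set nI : Prop := ∃ u v, O.Adj u v ∧ T.dist x0 v < T.dist x0 u ∧ u ∈ Q ∧ u ∉ S0 with hnI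
  have hQ1 : 1 ≤ Q.card := Finset.card_pos.mpr ⟨x0, hSQ hx0⟩
  set q : ℕ := Q.card - 1 with hq
  have hqr : (Q.card : ℝ) - 1 = q := by
    rw [hq, Nat.cast_sub hQ1]
    simp
  rw [hqr] at hA
  have hc0 : 0 ≤ c := by
    refine le_trans ?_ hc
    split_ifs <;> norm_num
  -- a large threshold
  obtain ⟨t, ht0, ht⟩ : ∃ t : ℕ, 0 < t ∧ p + 2 * c * q * (1 + 1 / t) < ∑ v ∈ A, w v := by
    set gap := ∑ v ∈ A, w v - (p + 2 * c * q) with hgap
    have hgap0 : 0 < gap := by linarith
    obtain ⟨t, ht⟩ := exists_nat_gt ((2 * c * q) / gap)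
    have h0 : 0 ≤ 2 * c * (q : ℝ) := by positivity
    have ht1 : (0 : ℝ) < t := lt_of_le_of_lt (by positivity) ht
    refine ⟨t, by exact_mod_cast ht1, ?_⟩
    have h1 : 2 * c * q / t < gap := by
      rw [div_lt_iff₀ ht1]
      rw [div_lt_iff₀ hgap0] at ht
      linarith
    have h2 : 2 * c * q * (1 + 1 / (t : ℝ)) = 2 * c * q + 2 * c * q / t := by ring
    rw [h2]
    linarith
  have htr : (0 : ℝ) < t := by exact_mod_cast ht0
  set S : ℕ := q * (1 + t) with hS
  set R : ℕ → Finset V := fun s => stage A (t : ℝ) (YY D A (t : ℝ) nO nI s) with hR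
  set a : ℕ → V → ℝ := fun s v => 2 * cov (incr D nO nI (R s)) v with ha
  have hR0 : R 0 = A := by
    simp only [hR]
    unfold stage
    refine Finset.filter_true_of_mem (fun v _ => ?_)
    show 2 * cov (fun _ => (0 : ℝ)) v ≤ _
    unfold cov
    simp
  have hRA : ∀ s, R s ⊆ A := fun s => Finset.filter_subset _ _
  -- the last stage is heavy
  have hheavy : p < ∑ v ∈ R S, w v := by
    have h1 := weight_covered D w hind (YY D A (t : ℝ) nO nI S) (YY_nonneg D A _ nO nI S)
      (fun I => YY_indep D A _ nO nI S)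
    have h2 := YY_total D A (t : ℝ) nO nI c (by convert hc) S
    have h3 : ∑ v ∈ A \ R S, w v * (t : ℝ) ≤ 2 * ∑ v, w v * cov (YY D A (t : ℝ) nO nI S) v := by
      calc ∑ v ∈ A \ R S, w v * (t : ℝ)
          ≤ ∑ v ∈ A \ R S, w v * (2 * cov (YY D A (t : ℝ) nO nI S) v) := by
            refine Finset.sum_le_sum (fun v hv => mul_le_mul_of_nonneg_left ?_ (hw v))
            obtain ⟨hvA, hvR⟩ := Finset.mem_sdiff.mp hv
            by_contra hcon
            push Not at hcon
            exact hvR (Finset.mem_filter.mpr ⟨hvA, hcon.le⟩)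
        _ ≤ ∑ v, w v * (2 * cov (YY D A (t : ℝ) nO nI S) v) := by
            refine Finset.sum_le_sum_of_subset_of_nonneg (Finset.subset_univ _) ?_
            intro v _ _
            have := cov_nonneg (YY_nonneg D A (t : ℝ) nO nI S) v
            exact mul_nonneg (hw v) (by linarith)
        _ = 2 * ∑ v, w v * cov (YY D A (t : ℝ) nO nI S) v := by
            rw [Finset.mul_sum]
            exact Finset.sum_congr rfl (fun v _ => by ring)
    rw [← Finset.sum_mul] at h3
    have h4 : (∑ v ∈ A \ R S, w v) * (t : ℝ) ≤ 2 * (c * S) := by linarith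
    have h5 : ∑ v ∈ A \ R S, w v ≤ 2 * c * q * (1 + 1 / t) := by
      rw [← le_div_iff₀ htr] at h4
      refine h4.trans (le_of_eq ?_)
      rw [hS]
      push_cast
      field_simp
      ring
    have h6 : ∑ v ∈ A, w v = ∑ v ∈ A \ R S, w v + ∑ v ∈ R S, w v :=
      (Finset.sum_sdiff (hRA S)).symm
    linarith
  obtain ⟨f0, hf1, hf2, hf3⟩ := hp (R S) (hRA S) hheavy
  have h0 : PEmb D T O x0 Q (R S) S0 f0 :=
    ⟨hx0, hSQ, hS0, fun x hx y hy hxy => hf1 (Finset.mem_coe.mpr hx) (Finset.mem_coe.mpr hy) hxy,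
      fun x hx => Finset.mem_coe.mp (hf2 x (Finset.mem_coe.mpr hx)),
      fun u hu v hv => hf3 u (Finset.mem_coe.mpr hu) v (Finset.mem_coe.mpr hv)⟩
  obtain ⟨f, hf, _⟩ := stall_main D T hT O hO hO' x0 Q hQ S0 R
    (fun s => stage_succ D A (t : ℝ) nO nI s) a
    (fun s v => mul_nonneg zero_le_two (cov_nonneg (incr_nonneg D nO nI _) v))
    (t : ℝ) htr.le
    (fun s v hv => by
      have h1 := (Finset.mem_filter.mp hv).2
      rw [cov_YY] at h1
      exact h1)
    (fun h s z hz => Or.inr (dom_out D nO nI h (R s) z (stage_succ D A (t : ℝ) nO nI s hz)))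
    (fun h s z hz => Or.inr (dom_in D nO nI h (R s) z (stage_succ D A (t : ℝ) nO nI s hz)))
    S f0 h0 (by
      rw [hqr, hS]
      push_cast
      exact le_rfl)
  rw [hR0] at hf
  exact ⟨f, fun x hx y hy hxy => hf.inj x (Finset.mem_coe.mp hx) y (Finset.mem_coe.mp hy) hxy,
    fun x hx => Finset.mem_coe.mpr (hf.maps x (Finset.mem_coe.mp hx)),
    fun u hu v hv => hf.arcs u (Finset.mem_coe.mp hu) v (Finset.mem_coe.mp hv)⟩

end P74ff84
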