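import Mathlib
import Pool.Agent.Lib.P74ff84.FracAll
import Pool.Agent.Lib.P74ff84.Ends

set_option autoImplicit false

namespace P74ff84

open Classical in
/-- Strong duality for the vertices in `A`. -/
theorem exists_weight_on {V : Type*} [Fintype V] {G : SimpleGraph V} (A : Finset V) {B : ℝ}
    (h : ¬ FracCol G (A : Set V) B) :
    ∃ w : V → ℝ, (∀ v, 0 ≤ w v) ∧
      (∀ I : Finset V, G.IsIndepSet (I : Set V) → ∑ v ∈ I, w v ≤ 1) ∧
      B < ∑ v ∈ A, w v := by
  rcases lt_or_ge B 0 with hB | hB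
  · exact ⟨fun _ => 0, fun _ => le_rfl, fun I _ => by simp, by simpa using hB⟩
  rcases A.eq_empty_or_nonempty with hA | ⟨r0, hr0⟩
  · refine absurd ⟨fun _ => 0, fun _ => le_rfl, fun I hI => absurd rfl hI, ?_,
      by simpa using hB⟩ h
    intro v hv
    rw [hA] at hv
    simp at hv
  by_contra hcon
  push Not at hcon
  have hsing : ∀ v : V, G.IsIndepSet (({v} : Finset V) : Set V) := by
    intro v
    simp [SimpleGraph.IsIndepSet]
  have hBpos : 0 < B := by
    have h1 := hcon (fun v => if v = r0 then 1 else 0)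
      (by intro v; split_ifs <;> norm_num)
      (by
        intro I _
        rw [Finset.sum_ite_eq']
        split_ifs <;> norm_num)
    rw [Finset.sum_ite_eq', if_pos hr0] at h1
    linarith
  apply h
  set J := {I : Finset V // G.IsIndepSet (I : Set V)} with hJ
  have hJne : Nonempty J := ⟨⟨∅, by simp [SimpleGraph.IsIndepSet]⟩⟩
  have hAne : Nonempty {v : V // v ∈ A} := ⟨⟨r0, hr0⟩⟩
  obtain ⟨z, hz0, hz1, hz2⟩ := minimax_fin
    (fun (v : {v : V // v ∈ A}) (I : J) => if v.1 ∈ I.1 then (1 : ℝ) else 0) (1 / B) (by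
    intro w hw0 hw1
    by_contra hcon2
    push Not at hcon2
    -- the weights on all of `V`
    set w' : V → ℝ := fun v => if h : v ∈ A then w ⟨v, h⟩ else 0 with hw'
    have hw'0 : ∀ v, 0 ≤ w' v := by
      intro v
      simp only [hw']
      split_ifs
      · exact hw0 _
      · exact le_rfl
    have hval : ∀ I : Finset V, ∑ v ∈ I, w' v
        = ∑ a : {v : V // v ∈ A}, w a * (if a.1 ∈ I then (1 : ℝ) else 0) := by
      intro I
      calc ∑ v ∈ I, w' v = ∑ v ∈ I.filter (fun v => v ∈ A), w' v := by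
            rw [Finset.sum_filter_of_ne]
            intro v _ hv
            by_contra hcon3
            apply hv
            simp only [hw']
            rw [dif_neg hcon3]
        _ = ∑ v ∈ A.filter (fun v => v ∈ I), w' v := by
            congr 1
            ext v
            simp only [Finset.mem_filter]
            exact and_comm
        _ = ∑ v ∈ A, if v ∈ I then w' v else 0 := Finset.sum_filter _ _
        _ = _ := by
            rw [← Finset.sum_coe_sort A]
            refine Finset.sum_congr rfl (fun v _ => ?_)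
            simp only [hw']
            rw [dif_pos v.2]
            split_ifs <;> simp
    have hall : ∑ v ∈ A, w' v = 1 := by
      rw [hval]
      refine (Finset.sum_congr rfl (fun v _ => ?_)).trans hw1
      rw [if_pos v.2, mul_one]
    obtain ⟨M, hM⟩ := Finite.exists_max (fun I : J => ∑ u ∈ I.1, w' u)
    set m := ∑ u ∈ M.1, w' u with hm
    have hmpos : 0 < m := by
      obtain ⟨v, _, hv⟩ : ∃ v ∈ A, 0 < w' v := by
        by_contra hcon3
        push Not at hcon3
        have : ∑ v ∈ A, w' v ≤ 0 := Finset.sum_nonpos (fun v hv => hcon3 v hv)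
        rw [hall] at this
        linarith
      have h1 := hM ⟨{v}, hsing v⟩
      simp only [Finset.sum_singleton] at h1
      exact hv.trans_le h1
    have hmB : m < 1 / B := by
      rw [hm, hval]
      exact hcon2 M
    have h2 := hcon (fun v => w' v / m) (fun v => div_nonneg (hw'0 v) hmpos.le)
      (by
        intro I hI
        rw [← Finset.sum_div, div_le_one hmpos]
        exact hM ⟨I, hI⟩)
    rw [← Finset.sum_div, hall, div_le_iff₀ hmpos] at h2
    rw [lt_div_iff₀ hBpos] at hmB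
    linarith)
  -- the fractional colouring
  set y : Finset V → ℝ := fun I =>
    if hI : G.IsIndepSet (I : Set V) then B * z ⟨I, hI⟩ else 0 with hy
  have hyJ : ∀ K : J, y K.1 = B * z K := by
    intro K
    simp only [hy]
    rw [dif_pos K.2]
  have hy0 : ∀ I : Finset V, ¬ G.IsIndepSet (I : Set V) → y I = 0 := by
    intro I hI
    simp only [hy]
    rw [dif_neg hI]
  have hsum : ∀ F : Finset V → ℝ, (∀ I : Finset V, ¬ G.IsIndepSet (I : Set V) → F I = 0) →
      ∑ I, F I = ∑ K : J, F K.1 := by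
    intro F hF
    rw [← Finset.sum_subtype (Finset.univ.filter (fun I : Finset V =>
      G.IsIndepSet (I : Set V))) (by simp) F]
    rw [Finset.sum_filter_of_ne]
    intro I _ hI
    by_contra hcon'
    exact hI (hF I hcon')
  refine ⟨y, ?_, ?_, ?_, ?_⟩
  · intro I
    by_cases hI : G.IsIndepSet (I : Set V)
    · rw [hyJ ⟨I, hI⟩]
      exact mul_nonneg hB (hz0 _)
    · rw [hy0 I hI]
  · intro I hI
    by_contra hcon'
    exact hI (hy0 I hcon')
  · intro v hv
    have h1 := hz2 ⟨v, Finset.mem_coe.mp hv⟩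
    rw [hsum]
    · have h2 : ∑ K : J, (K.1 : Set V).indicator (fun _ => y K.1) v
          = B * ∑ K : J, z K * (if v ∈ K.1 then (1 : ℝ) else 0) := by
        rw [Finset.mul_sum]
        refine Finset.sum_congr rfl (fun K _ => ?_)
        by_cases h : v ∈ K.1
        · rw [if_pos h, Set.indicator_of_mem (Finset.mem_coe.mpr h), hyJ, mul_one]
        · rw [if_neg h, Set.indicator_of_notMem (fun h' => h (Finset.mem_coe.mp h')),
            mul_zero, mul_zero]
      rw [h2]
      have h3 : B * (1 / B) ≤ B * ∑ K : J, z K * (if v ∈ K.1 then (1 : ℝ) else 0) :=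
        mul_le_mul_of_nonneg_left h1 hB
      rwa [mul_one_div_cancel hBpos.ne'] at h3
    · intro I hI
      rw [hy0 I hI]
      by_cases h : v ∈ I
      · rw [Set.indicator_of_mem (Finset.mem_coe.mpr h)]
      · rw [Set.indicator_of_notMem (fun h' => h (Finset.mem_coe.mp h'))]
  · rw [hsum y hy0, Finset.sum_congr rfl (fun K _ => hyJ K), ← Finset.mul_sum, hz1, mul_one]

/-- **All oriented trees, fractional version.** `c` bounds the number of directions in which
the arcs outside `S0` point. -/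
theorem frac_main {k : ℕ} {V : Type*} [Fintype V] (D : Digraph V)
    (T : SimpleGraph (Fin (k + 1))) (hT : T.IsTree)
    (O : Digraph (Fin (k + 1))) (hO : ∀ u v, T.Adj u v ↔ (O.Adj u v ∨ O.Adj v u))
    (hO' : ∀ u v, O.Adj u v → ¬ O.Adj v u)
    (S0 Q : Set (Fin (k + 1))) (hS0 : (T.induce S0).Connected) (hQ : (T.induce Q).Connected)
    (hSQ : S0 ⊆ Q) (c : ℝ)
    (hc : 2 ≤ c ∨ (1 ≤ c ∧ ∃ x0 ∈ S0,
      (∀ u v, O.Adj u v → u ∈ Q → v ∈ Q → ¬ (u ∈ S0 ∧ v ∈ S0) →
        T.dist x0 u < T.dist x0 v) ∨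
      (∀ u v, O.Adj u v → u ∈ Q → v ∈ Q → ¬ (u ∈ S0 ∧ v ∈ S0) →
        T.dist x0 v < T.dist x0 u)))
    (p : ℝ)
    (hp : ∀ A : Set V, ¬ FracCol (SimpleGraph.fromRel D.Adj) A p → HoldsIn D O S0 A)
    (A : Set V)
    (hA : ¬ FracCol (SimpleGraph.fromRel D.Adj) A (p + 2 * c * ((Q.ncard : ℝ) - 1))) :
    HoldsIn D O Q A := by
  classical
  set S0' : Finset (Fin (k + 1)) := S0.toFinset with hS0'
  set Q' : Finset (Fin (k + 1)) := Q.toFinset with hQ'
  set A' : Finset V := A.toFinset with hA'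
  have eS : (S0' : Set (Fin (k + 1))) = S0 := Set.coe_toFinset S0
  have eQ : (Q' : Set (Fin (k + 1))) = Q := Set.coe_toFinset Q
  have eA : (A' : Set V) = A := Set.coe_toFinset A
  have mS : ∀ x, x ∈ S0' ↔ x ∈ S0 := fun x => Set.mem_toFinset
  have mQ : ∀ x, x ∈ Q' ↔ x ∈ Q := fun x => Set.mem_toFinset
  have hcard : (Q.ncard : ℝ) = (Q'.card : ℝ) := by
    rw [← eQ, Set.ncard_coe_finset]
  rw [hcard, ← eA] at hA
  obtain ⟨w, hw0, hw1, hw2⟩ := exists_weight_on A' hA
  -- the root
  have hmain : ∀ x0 ∈ S0, ((if (∃ u v, O.Adj u v ∧ T.dist x0 u < T.dist x0 v ∧ v ∈ Q' ∧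
        v ∉ S0') then (1 : ℝ) else 0)
      + (if (∃ u v, O.Adj u v ∧ T.dist x0 v < T.dist x0 u ∧ u ∈ Q' ∧ u ∉ S0') then 1 else 0)
      ≤ c) → HoldsIn D O Q A := by
    intro x0 hx0 hcc
    have h := frac_weighted D T hT O hO hO' x0 S0' Q' ((mS x0).mpr hx0)
      (fun x hx => (mQ x).mpr (hSQ ((mS x).mp hx)))
      (fun y hy b hb hd => (mS b).mpr (parent_mem x0 hT S0 hS0.preconnected hx0 hb hd
        ((mS y).mp hy)))
      (fun y hy b hb hd => (mQ b).mpr (parent_mem x0 hT Q hQ.preconnected (hSQ hx0) hb hd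
        ((mQ y).mp hy))) c hcc w hw0 hw1 A' p
      (fun A1 _ hA1 => by
        rw [eS]
        refine hp _ (fun hcon => ?_)
        exact absurd (FracCol.weight_le hcon w hw0 hw1) hA1.not_ge) hw2
    rwa [eQ, eA] at h
  rcases hc with hc | ⟨hc, x0, hx0, hc2⟩
  · obtain ⟨⟨x0, hx0⟩⟩ := hS0.nonempty
    refine hmain x0 hx0 (le_trans ?_ hc)
    split_ifs <;> norm_num
  · refine hmain x0 hx0 (le_trans ?_ hc)
    rcases hc2 with hc2 | hc2
    · have h1 : ¬ ∃ u v, O.Adj u v ∧ T.dist x0 v < T.dist x0 u ∧ u ∈ Q' ∧ u ∉ S0' := by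
        rintro ⟨u, v, huv, hd, huQ, huS⟩
        have huQ1 := (mQ u).mp huQ
        have hvQ := parent_mem x0 hT Q hQ.preconnected (hSQ hx0)
          ((hO v u).mpr (Or.inr huv)) hd huQ1
        have := hc2 u v huv huQ1 hvQ (fun h => huS ((mS u).mpr h.1))
        omega
      rw [if_neg h1]
      split_ifs <;> norm_num
    · have h1 : ¬ ∃ u v, O.Adj u v ∧ T.dist x0 u < T.dist x0 v ∧ v ∈ Q' ∧ v ∉ S0' := by
        rintro ⟨u, v, huv, hd, hvQ, hvS⟩
        have hvQ1 := (mQ v).mp hvQ
        have huQ := parent_mem x0 hT Q hQ.preconnected (hSQ hx0)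
          ((hO u v).mpr (Or.inl huv)) hd hvQ1
        have := hc2 u v huv huQ hvQ1 (fun h => hvS ((mS v).mpr h.2))
        omega
      rw [if_neg h1]
      split_ifs <;> norm_num

/-- A single vertex of the tree. -/
theorem point_holdsIn {k : ℕ} {V : Type*} [Fintype V] (D : Digraph V)
    (O : Digraph (Fin (k + 1))) (hO' : ∀ u v, O.Adj u v → ¬ O.Adj v u) (x0 : Fin (k + 1))
    (A : Set V) (hA : ¬ FracCol (SimpleGraph.fromRel D.Adj) A 0) : HoldsIn D O {x0} A := by
  rcases A.eq_empty_or_nonempty with h | ⟨v, hv⟩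
  · refine absurd ⟨fun _ => 0, fun _ => le_rfl, fun I hI => absurd rfl hI, ?_, by simp⟩ hA
    intro v hv
    rw [h] at hv
    exact absurd hv (Set.notMem_empty v)
  · refine ⟨fun _ => v, Set.injOn_singleton _ _, fun _ _ => hv, ?_⟩
    intro a ha b hb hab
    rw [Set.mem_singleton_iff] at ha hb
    subst ha
    subst hb
    exact (hO' _ _ hab hab).elim

end P74ff84
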